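import Pool.Agent.F3.AB.Defs

/-!
# Project F3, block AB: the algebra, reduction to the base vertices
-/

set_option autoImplicit false
set_option linter.unusedSectionVars false

namespace F3.AB

open Finset NW F1

section Alg

variable {V : Type} [Fintype V] [DecidableEq V] {P : ℕ → (Sym2 V → ℤ) → Prop}

theorem SgAx.nsmul (h : SgAx P) {k : ℕ} {f : Sym2 V → ℤ} (hf : P k f) (n : ℕ) :
    P (n * k) (n • f) := by
  induction n with
  | zero => rw [zero_mul, zero_smul]; exact h.zero
  | succ n ih => rw [succ_nsmul, add_mul, one_mul]; exact h.add _ _ _ _ ih hf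

theorem SgAx.zsmul (hP : SgAx P) {k : ℕ} {f : Sym2 V → ℤ} (h : P k f) (n : ℤ) :
    P (n.natAbs * k) (n • f) := by
  rcases Int.natAbs_eq n with e | e
  · have h1 := hP.nsmul h n.natAbs
    have h2 : n • f = n.natAbs • f := by
      conv_lhs => rw [e]
      exact natCast_zsmul f n.natAbs
    rw [h2]
    exact h1
  · have h1 := hP.neg _ _ (hP.nsmul h n.natAbs)
    have h2 : n • f = -(n.natAbs • f) := by
      conv_lhs => rw [e]
      rw [neg_smul, natCast_zsmul]
    rw [h2]
    exact h1

theorem SgAx.sub (h : SgAx P) {k l : ℕ} {f g : Sym2 V → ℤ} (hf : P k f) (hg : P l g) :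
    P (k + l) (f - g) := by
  rw [sub_eq_add_neg]
  exact h.add _ _ _ _ hf (h.neg _ _ hg)

theorem SgAx.sum (hP : SgAx P) {ι : Type} (s : Finset ι) (k : ι → ℕ) (f : ι → Sym2 V → ℤ)
    (h : ∀ i ∈ s, P (k i) (f i)) : P (∑ i ∈ s, k i) (∑ i ∈ s, f i) := by
  classical
  induction s using Finset.induction_on with
  | empty => rw [sum_empty, sum_empty]; exact hP.zero
  | insert i s hi ih =>
    rw [sum_insert hi, sum_insert hi]
    exact hP.add _ _ _ _ (h i (mem_insert_self _ _)) (ih fun j hj => h j (mem_insert_of_mem hj))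

/-- integral combinations with an even sum of coefficients -/
theorem SgAx.pair (h : SgAx P) {c : ℕ} {u v : Sym2 V → ℤ} (hu : P c ((2 : ℤ) • u))
    (hv : P c ((2 : ℤ) • v)) (huv : P c (u + v)) {m n : ℤ} (hmn : Even (m + n)) :
    P (2 * c * (m.natAbs + n.natAbs)) (m • u + n • v) := by
  rcases Int.even_or_odd m with hm | hm
  · have hn : Even n := by
      rcases Int.even_or_odd n with hn | hn
      · exact hn
      · exact absurd hmn (Int.not_even_iff_odd.2 (hm.add_odd hn))
    obtain ⟨a, rfl⟩ := hm
    obtain ⟨b, rfl⟩ := hn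
    have h1 := h.add _ _ _ _ (h.zsmul hu a) (h.zsmul hv b)
    have e : a • (2 : ℤ) • u + b • (2 : ℤ) • v = (a + a) • u + (b + b) • v := by
      rw [smul_smul, smul_smul]
      congr 2 <;> ring
    rw [e] at h1
    refine h.mono _ _ _ h1 ?_
    have e1 : (a + a).natAbs = 2 * a.natAbs := by omega
    have e2 : (b + b).natAbs = 2 * b.natAbs := by omega
    rw [e1, e2]
    nlinarith [Nat.zero_le (a.natAbs * c), Nat.zero_le (b.natAbs * c)]
  · have hn : Odd n := by
      rcases Int.even_or_odd n with hn | hn
      · exact absurd hmn (Int.not_even_iff_odd.2 (hm.add_even hn))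
      · exact hn
    obtain ⟨a, rfl⟩ := hm
    obtain ⟨b, rfl⟩ := hn
    have h1 := h.add _ _ _ _ (h.add _ _ _ _ (h.zsmul hu a) (h.zsmul hv b)) huv
    have e : a • (2 : ℤ) • u + b • (2 : ℤ) • v + (u + v) = (2 * a + 1) • u + (2 * b + 1) • v := by
      rw [smul_smul, smul_smul, add_smul, add_smul, one_smul, one_smul, mul_comm a 2,
        mul_comm b 2]
      abel
    rw [e] at h1
    refine h.mono _ _ _ h1 ?_
    have e1 : a.natAbs + 1 ≤ 2 * (2 * a + 1).natAbs := by omega
    have e2 : b.natAbs + 1 ≤ 2 * (2 * b + 1).natAbs := by omega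
    nlinarith [Nat.mul_le_mul_right c e1, Nat.mul_le_mul_right c e2]

/-- splitting a sum over two parts -/
theorem sum_parts {M : Type*} [AddCommMonoid M] (s : Finset V) (p : V → Bool) (f : V → M) :
    ∑ y ∈ s, f y = ∑ y ∈ s.filter (fun y => p y = true), f y +
      ∑ y ∈ s.filter (fun y => p y = false), f y := by
  rw [← sum_filter_add_sum_filter_not s (fun y => p y = true)]
  congr 1
  refine sum_congr ?_ fun _ _ => rfl
  ext y
  simp

theorem filter_filter_sd (X : Finset V) (sd pt : V → Bool) (b i : Bool) :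
    (X.filter (fun x => sd x = b)).filter (fun x => pt x = i) =
      X.filter (fun x => sd x = b ∧ pt x = i) := by
  rw [filter_filter]

variable {c : ℕ} {sd pt : V → Bool} {At X : Finset V} {ba : Bool → Bool → V} {Z : V → V → ℤ}

/-- the total matrix on the base vertices -/
theorem sum_base (sd pt : V → Bool) (X : Finset V) (ba : Bool → Bool → V) (Z : V → V → ℤ) :
    ∑ x ∈ X.filter (fun x => sd x = true), ∑ y ∈ X.filter (fun y => sd y = false),
      Z x y • dl s(ba true (pt x), ba false (pt y)) = f4 ba (bs sd pt X Z) := by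
  have h1 : ∀ x, ∑ y ∈ X.filter (fun y => sd y = false),
      Z x y • dl s(ba true (pt x), ba false (pt y)) =
      (∑ y ∈ X.filter (fun y => sd y = false ∧ pt y = true), Z x y) •
        dl s(ba true (pt x), ba false true) +
      (∑ y ∈ X.filter (fun y => sd y = false ∧ pt y = false), Z x y) •
        dl s(ba true (pt x), ba false false) := by
    intro x
    rw [sum_parts _ pt, filter_filter_sd, filter_filter_sd, sum_smul, sum_smul]
    congr 1
    · refine sum_congr rfl fun y hy => ?_
      rw [(mem_filter.1 hy).2.2]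
    · refine sum_congr rfl fun y hy => ?_
      rw [(mem_filter.1 hy).2.2]
  rw [sum_congr rfl fun x _ => h1 x, sum_parts _ pt, filter_filter_sd, filter_filter_sd]
  have h2 : ∀ i, ∑ x ∈ X.filter (fun x => sd x = true ∧ pt x = i),
      ((∑ y ∈ X.filter (fun y => sd y = false ∧ pt y = true), Z x y) •
        dl s(ba true (pt x), ba false true) +
      (∑ y ∈ X.filter (fun y => sd y = false ∧ pt y = false), Z x y) •
        dl s(ba true (pt x), ba false false)) =
      bs sd pt X Z i true • dl s(ba true i, ba false true) +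
      bs sd pt X Z i false • dl s(ba true i, ba false false) := by
    intro i
    unfold bs
    rw [sum_smul, sum_smul, ← sum_add_distrib]
    refine sum_congr rfl fun x hx => ?_
    rw [(mem_filter.1 hx).2.2]
  rw [h2, h2]
  unfold f4
  abel

/-- one row -/
theorem row_ok (h : SgAx P) (hR : Rel P c sd pt At X ba) (hE : Ev sd At X Z) {x : V}
    (hx : x ∈ X) (hs : sd x = true) :
    P (2 * c * ∑ y ∈ X.filter (fun y => sd y = false), (Z x y).natAbs)
      (∑ y ∈ X.filter (fun y => sd y = false),
        Z x y • (dl s(x, ba false (pt y)) - dl s(ba true (pt x), ba false (pt y)))) := by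
  set m := ∑ y ∈ X.filter (fun y => sd y = false ∧ pt y = true), Z x y with hm
  set n := ∑ y ∈ X.filter (fun y => sd y = false ∧ pt y = false), Z x y with hn
  have h1 : ∑ y ∈ X.filter (fun y => sd y = false), Z x y = m + n := by
    rw [sum_parts _ pt, filter_filter_sd, filter_filter_sd]
  have h2 := hE.row x hx hs
  rw [h1] at h2
  have h3 := h.pair (hR.r2 x hx hs true) (hR.r2 x hx hs false) (hR.r3 x hx hs) h2
  have e : ∑ y ∈ X.filter (fun y => sd y = false),
      Z x y • (dl s(x, ba false (pt y)) - dl s(ba true (pt x), ba false (pt y))) =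
      m • (dl s(x, ba false true) - dl s(ba true (pt x), ba false true)) +
      n • (dl s(x, ba false false) - dl s(ba true (pt x), ba false false)) := by
    rw [sum_parts _ pt, filter_filter_sd, filter_filter_sd, hm, hn, sum_smul, sum_smul]
    congr 1
    · refine sum_congr rfl fun y hy => ?_
      rw [(mem_filter.1 hy).2.2]
    · refine sum_congr rfl fun y hy => ?_
      rw [(mem_filter.1 hy).2.2]
  rw [e]
  refine h.mono _ _ _ h3 (Nat.mul_le_mul_left _ ?_)
  rw [sum_parts _ pt (fun y => (Z x y).natAbs), filter_filter_sd, filter_filter_sd]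
  exact Nat.add_le_add (Int.natAbs_sum_le _ _) (Int.natAbs_sum_le _ _)

/-- one column -/
theorem col_ok (h : SgAx P) (hR : Rel P c sd pt At X ba) (hE : Ev sd At X Z) {y : V}
    (hy : y ∈ X) (hs : sd y = false) :
    P (2 * c * ∑ x ∈ X.filter (fun x => sd x = true), (Z x y).natAbs)
      (∑ x ∈ X.filter (fun x => sd x = true),
        Z x y • (dl s(ba true (pt x), y) - dl s(ba true (pt x), ba false (pt y)))) := by
  set m := ∑ x ∈ X.filter (fun x => sd x = true ∧ pt x = true), Z x y with hm
  set n := ∑ x ∈ X.filter (fun x => sd x = true ∧ pt x = false), Z x y with hn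
  have h1 : ∑ x ∈ X.filter (fun x => sd x = true), Z x y = m + n := by
    rw [sum_parts _ pt, filter_filter_sd, filter_filter_sd]
  have h2 := hE.col y hy hs
  rw [h1] at h2
  have h3 := h.pair (hR.c2 y hy hs true) (hR.c2 y hy hs false) (hR.c3 y hy hs) h2
  have e : ∑ x ∈ X.filter (fun x => sd x = true),
      Z x y • (dl s(ba true (pt x), y) - dl s(ba true (pt x), ba false (pt y))) =
      m • (dl s(ba true true, y) - dl s(ba true true, ba false (pt y))) +
      n • (dl s(ba true false, y) - dl s(ba true false, ba false (pt y))) := by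
    rw [sum_parts _ pt, filter_filter_sd, filter_filter_sd, hm, hn, sum_smul, sum_smul]
    congr 1
    · refine sum_congr rfl fun x hx => ?_
      rw [(mem_filter.1 hx).2.2]
    · refine sum_congr rfl fun x hx => ?_
      rw [(mem_filter.1 hx).2.2]
  rw [e]
  refine h.mono _ _ _ h3 (Nat.mul_le_mul_left _ ?_)
  rw [sum_parts _ pt (fun x => (Z x y).natAbs), filter_filter_sd, filter_filter_sd]
  exact Nat.add_le_add (Int.natAbs_sum_le _ _) (Int.natAbs_sum_le _ _)

/-- **reduction to the base vertices** -/
theorem alg1' (h : SgAx P) (hR : Rel P c sd pt At X ba) (hE : Ev sd At X Z) :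
    P (5 * c * nZ sd X Z) (fZ sd X Z - f4 ba (bs sd pt X Z)) := by
  -- the three corrections
  have t1 : P (∑ x ∈ X.filter (fun x => sd x = true), ∑ y ∈ X.filter (fun y => sd y = false),
      (Z x y).natAbs * c) (∑ x ∈ X.filter (fun x => sd x = true),
        ∑ y ∈ X.filter (fun y => sd y = false), Z x y • (dl s(x, y) - dl s(x, ba false (pt y)) -
          dl s(ba true (pt x), y) + dl s(ba true (pt x), ba false (pt y)))) := by
    refine h.sum _ _ _ fun x hx => h.sum _ _ _ fun y hy => ?_
    obtain ⟨x1, x2⟩ := mem_filter.1 hx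
    obtain ⟨y1, y2⟩ := mem_filter.1 hy
    by_cases hA : x ∉ At ∨ y ∉ At
    · exact h.zsmul (hR.h1 x x1 y y1 x2 y2 hA) _
    · rw [not_or, not_not, not_not] at hA
      rw [hE.at0 x y hA.1 hA.2, Int.natAbs_zero, zero_mul, zero_smul]
      exact h.zero
  have t2 := h.sum (X.filter (fun x => sd x = true)) _ _ fun x hx =>
    row_ok h hR hE (mem_filter.1 hx).1 (mem_filter.1 hx).2
  have t3 := h.sum (X.filter (fun y => sd y = false)) _ _ fun y hy =>
    col_ok h hR hE (mem_filter.1 hy).1 (mem_filter.1 hy).2
  rw [sum_comm (s := X.filter (fun y => sd y = false))] at t3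
  have t := h.add _ _ _ _ (h.add _ _ _ _ t1 t2) t3
  have e : (∑ x ∈ X.filter (fun x => sd x = true), ∑ y ∈ X.filter (fun y => sd y = false),
        Z x y • (dl s(x, y) - dl s(x, ba false (pt y)) -
          dl s(ba true (pt x), y) + dl s(ba true (pt x), ba false (pt y)))) +
      (∑ x ∈ X.filter (fun x => sd x = true), ∑ y ∈ X.filter (fun y => sd y = false),
        Z x y • (dl s(x, ba false (pt y)) - dl s(ba true (pt x), ba false (pt y)))) +
      (∑ x ∈ X.filter (fun x => sd x = true), ∑ y ∈ X.filter (fun y => sd y = false),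
        Z x y • (dl s(ba true (pt x), y) - dl s(ba true (pt x), ba false (pt y)))) =
      fZ sd X Z - f4 ba (bs sd pt X Z) := by
    rw [← sum_base sd pt X ba Z]
    unfold fZ
    simp only [← sum_add_distrib, ← sum_sub_distrib]
    refine sum_congr rfl fun x _ => sum_congr rfl fun y _ => ?_
    rw [← smul_add, ← smul_add, ← smul_sub]
    congr 1
    abel
  rw [e] at t
  refine h.mono _ _ _ t (le_of_eq ?_)
  have n1 : ∑ x ∈ X.filter (fun x => sd x = true), ∑ y ∈ X.filter (fun y => sd y = false),
      (Z x y).natAbs * c = c * nZ sd X Z := by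
    unfold nZ
    simp only [← sum_mul]
    rw [mul_comm]
  have n2 : ∑ x ∈ X.filter (fun x => sd x = true),
      2 * c * ∑ y ∈ X.filter (fun y => sd y = false), (Z x y).natAbs = 2 * c * nZ sd X Z := by
    unfold nZ
    rw [mul_sum]
  have n3 : ∑ y ∈ X.filter (fun y => sd y = false),
      2 * c * ∑ x ∈ X.filter (fun x => sd x = true), (Z x y).natAbs = 2 * c * nZ sd X Z := by
    unfold nZ
    rw [← mul_sum, sum_comm]
  rw [n1, n2, n3]
  ring

/-! ### Block sums -/

theorem bs_row_sum (sd pt : V → Bool) (X : Finset V) (Z : V → V → ℤ) (i : Bool) :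
    bs sd pt X Z i true + bs sd pt X Z i false =
      ∑ x ∈ X.filter (fun x => sd x = true ∧ pt x = i),
        ∑ y ∈ X.filter (fun y => sd y = false), Z x y := by
  unfold bs
  rw [← sum_add_distrib]
  refine sum_congr rfl fun x _ => ?_
  rw [sum_parts (X.filter (fun y => sd y = false)) pt, filter_filter_sd, filter_filter_sd]

theorem bs_col_sum (sd pt : V → Bool) (X : Finset V) (Z : V → V → ℤ) (j : Bool) :
    bs sd pt X Z true j + bs sd pt X Z false j =
      ∑ y ∈ X.filter (fun y => sd y = false ∧ pt y = j),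
        ∑ x ∈ X.filter (fun x => sd x = true), Z x y := by
  unfold bs
  rw [sum_comm, sum_comm (s := X.filter (fun x => sd x = true ∧ pt x = false)),
    ← sum_add_distrib]
  refine sum_congr rfl fun y _ => ?_
  rw [sum_parts (X.filter (fun x => sd x = true)) pt, filter_filter_sd, filter_filter_sd]

theorem even_sum {ι : Type*} (s : Finset ι) (f : ι → ℤ) (h : ∀ i ∈ s, Even (f i)) :
    Even (∑ i ∈ s, f i) := by
  classical
  induction s using Finset.induction_on with
  | empty => rw [sum_empty]; exact Even.zero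
  | insert i s hi ih =>
    rw [sum_insert hi]
    exact (h i (mem_insert_self _ _)).add (ih fun j hj => h j (mem_insert_of_mem hj))

theorem bs_row_even (hE : Ev sd At X Z) (i : Bool) :
    Even (bs sd pt X Z i true + bs sd pt X Z i false) := by
  rw [bs_row_sum]
  refine even_sum _ _ fun x hx => ?_
  obtain ⟨h1, h2, -⟩ := mem_filter.1 hx
  exact hE.row x h1 h2

theorem bs_col_even (hE : Ev sd At X Z) (j : Bool) :
    Even (bs sd pt X Z true j + bs sd pt X Z false j) := by
  rw [bs_col_sum]
  refine even_sum _ _ fun x hx => ?_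
  obtain ⟨h1, h2, -⟩ := mem_filter.1 hx
  exact hE.col x h1 h2

theorem bs_total (sd pt : V → Bool) (X : Finset V) (Z : V → V → ℤ) :
    bs sd pt X Z true true + bs sd pt X Z true false + bs sd pt X Z false true +
      bs sd pt X Z false false =
      ∑ x ∈ X.filter (fun x => sd x = true), ∑ y ∈ X.filter (fun y => sd y = false), Z x y := by
  have h1 := bs_row_sum sd pt X Z true
  have h2 := bs_row_sum sd pt X Z false
  rw [sum_parts (X.filter (fun x => sd x = true)) pt, filter_filter_sd, filter_filter_sd,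
    ← h1, ← h2]
  ring

theorem bs_le (sd pt : V → Bool) (X : Finset V) (Z : V → V → ℤ) (i j : Bool) :
    (bs sd pt X Z i j).natAbs ≤ nZ sd X Z := by
  unfold bs nZ
  refine (Int.natAbs_sum_le _ _).trans ?_
  have h1 : X.filter (fun x => sd x = true ∧ pt x = i) ⊆ X.filter (fun x => sd x = true) := by
    intro x hx
    obtain ⟨h1, h2, -⟩ := mem_filter.1 hx
    exact mem_filter.2 ⟨h1, h2⟩
  refine (sum_le_sum fun x _ => (Int.natAbs_sum_le _ _)).trans ?_
  refine le_trans ?_ (sum_le_sum_of_subset h1)
  refine sum_le_sum fun x _ => sum_le_sum_of_subset ?_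
  intro y hy
  obtain ⟨h1, h2, -⟩ := mem_filter.1 hy
  exact mem_filter.2 ⟨h1, h2⟩

/-- reduction to the base vertices -/
theorem alg1 (hP : SgAx P) (h : Rel P c sd pt At X ba) (Z : V → V → ℤ) (hZ : Ev sd At X Z) :
    P (10 * c * nZ sd X Z) (fZ sd X Z - f4 ba (bs sd pt X Z)) := by
  refine hP.mono _ _ _ (alg1' hP h hZ) ?_
  nlinarith [Nat.zero_le (c * nZ sd X Z)]

theorem bs_par (Z : V → V → ℤ) (hE : Ev sd At X Z) :
    (∀ i, Even (bs sd pt X Z i true + bs sd pt X Z i false)) ∧
      ∀ j, Even (bs sd pt X Z true j + bs sd pt X Z false j) :=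
  ⟨fun i => bs_row_even hE i, fun j => bs_col_even hE j⟩

end Alg

end F3.AB
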