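import Pool.Agent.F3.AB.Alg1

/-!
# Project F3, block AB: the algebra, matrices on the four base vertices
-/

set_option autoImplicit false
set_option linter.unusedSectionVars false

namespace F3.AB

open Finset NW F1

section Alg

variable {V : Type} [Fintype V] [DecidableEq V] {P : ℕ → (Sym2 V → ℤ) → Prop}
  {c : ℕ} {sd pt : V → Bool} {At X : Finset V} {ba : Bool → Bool → V} {Z : V → V → ℤ}
  {fl : Bool → Bool} {s : Bool → Bool → ℤ}

/-- type DD: even matrices of sum `0` -/
theorem f4_DD (h : SgAx P) (hR : Rel4 P c fl ba) (hF : fl false = true) (hT : fl true = true)
    (he : ∀ i j, Even (s i j))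
    (h0 : s true true + s true false + s false true + s false false = 0) {N : ℕ}
    (hN : ∀ i j, (s i j).natAbs ≤ N) : P (3 * (c * N)) (f4 ba s) := by
  obtain ⟨a, ha⟩ := he true true
  obtain ⟨b, hb⟩ := he true false
  obtain ⟨d, hd⟩ := he false true
  have h1 := h.zsmul (hR.dF hF true) a
  have h2 := h.zsmul (hR.dF hF false) b
  have h3 := h.zsmul (hR.dT hT false) (a + d)
  have h4 := h.add _ _ _ _ (h.add _ _ _ _ h1 h2) h3
  have hff : s false false = -(2 * a + 2 * b + 2 * d) := by omega
  have e : a • (2 : ℤ) • (dl s(ba true true, ba false true) - dl s(ba true false, ba false true)) +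
      b • (2 : ℤ) • (dl s(ba true true, ba false false) - dl s(ba true false, ba false false)) +
      (a + d) • (2 : ℤ) • (dl s(ba true false, ba false true) -
        dl s(ba true false, ba false false)) = f4 ba s := by
    unfold f4
    rw [ha, hb, hd, hff]
    module
  rw [e] at h4
  refine h.mono _ _ _ h4 ?_
  have n1 := hN true true
  have n2 := hN true false
  have n3 := hN false true
  have k1 : a.natAbs ≤ N := by omega
  have k2 : b.natAbs ≤ N := by omega
  have k3 : (a + d).natAbs ≤ N := by omega
  have := Nat.mul_le_mul_right c k1
  have := Nat.mul_le_mul_right c k2
  have := Nat.mul_le_mul_right c k3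
  nlinarith [Nat.mul_comm c N]

/-- type PD -/
theorem f4_PD (h : SgAx P) (hR : Rel4 P c fl ba) (hF : fl false = true) (hT : fl true = false)
    (he : Even (s true true + s true false)) (h4 : (4 : ℤ) ∣ s true false - s false false)
    (h0 : s true true + s true false + s false true + s false false = 0)
    (hc : Even (s true true + s false true)) {N : ℕ}
    (hN : ∀ i j, (s i j).natAbs ≤ N) : P (3 * (c * N)) (f4 ba s) := by
  obtain ⟨a, ha⟩ := he
  obtain ⟨b, hb⟩ := h4
  obtain ⟨g, hg⟩ := hc
  -- p - r = 4 * α
  have hpr : ∃ α : ℤ, s true true - s false true = 4 * α := ⟨a - b, by omega⟩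
  obtain ⟨α, hα⟩ := hpr
  have h1 := h.zsmul (hR.dF hF true) α
  have h2 := h.zsmul (hR.dF hF false) b
  have h3 := h.zsmul (hR.pT hT) g
  have h5 := h.add _ _ _ _ (h.add _ _ _ _ h1 h2) h3
  have e : α • (2 : ℤ) • (dl s(ba true true, ba false true) - dl s(ba true false, ba false true)) +
      b • (2 : ℤ) • (dl s(ba true true, ba false false) - dl s(ba true false, ba false false)) +
      g • (dl s(ba true true, ba false true) + dl s(ba true false, ba false true) -
        dl s(ba true true, ba false false) - dl s(ba true false, ba false false)) = f4 ba s := by
    have e1 : s true true = 2 * α + g := by omega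
    have e2 : s true false = 2 * b - g := by omega
    have e3 : s false true = -2 * α + g := by omega
    have e4 : s false false = -2 * b - g := by omega
    unfold f4
    rw [e1, e2, e3, e4]
    module
  rw [e] at h5
  refine h.mono _ _ _ h5 ?_
  have n1 := hN true true
  have n2 := hN true false
  have n3 := hN false true
  have n4 := hN false false
  have k1 : α.natAbs ≤ N := by omega
  have k2 : b.natAbs ≤ N := by omega
  have k3 : g.natAbs ≤ N := by omega
  have := Nat.mul_le_mul_right c k1
  have := Nat.mul_le_mul_right c k2
  have := Nat.mul_le_mul_right c k3
  nlinarith [Nat.mul_comm c N]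

/-- type PP -/
theorem f4_PP (h : SgAx P) (hR : Rel4 P c fl ba) (hF : fl false = false) (hT : fl true = false)
    (he : Even (s true true + s true false)) (h1 : s true true + s false false = 0)
    (h2 : s true false + s false true = 0) {N : ℕ}
    (hN : ∀ i j, (s i j).natAbs ≤ N) : P (3 * (c * N)) (f4 ba s) := by
  obtain ⟨a, ha⟩ := he
  have k1 := h.zsmul (hR.pF hF) a
  have k2 := h.zsmul (hR.pT hT) (a - s true false)
  have k3 := h.add _ _ _ _ k1 k2
  have e : a • (dl s(ba true true, ba false true) + dl s(ba true true, ba false false) -
        dl s(ba true false, ba false true) - dl s(ba true false, ba false false)) +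
      (a - s true false) • (dl s(ba true true, ba false true) +
        dl s(ba true false, ba false true) - dl s(ba true true, ba false false) -
        dl s(ba true false, ba false false)) = f4 ba s := by
    have e1 : s true true = 2 * a - s true false := by omega
    have e2 : s false true = - s true false := by omega
    have e3 : s false false = -(2 * a - s true false) := by omega
    unfold f4
    rw [e1, e2, e3]
    module
  rw [e] at k3
  refine h.mono _ _ _ k3 ?_
  have n1 := hN true true
  have n2 := hN true false
  have m1 : a.natAbs ≤ N := by omega
  have m2 : (a - s true false).natAbs ≤ N := by omega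
  have := Nat.mul_le_mul_right c m1
  have := Nat.mul_le_mul_right c m2
  nlinarith [Nat.mul_comm c N, Nat.zero_le (c * N)]

/-- the generic world: all relations between the base vertices -/
theorem f4_G (h : SgAx P)
    (hd : ∀ j, P c ((2 : ℤ) • (dl s(ba true true, ba false j) - dl s(ba true false, ba false j))))
    (hr : ∀ i, P c ((2 : ℤ) • (dl s(ba true i, ba false true) - dl s(ba true i, ba false false))))
    (ht : P c (dl s(ba true true, ba false true) + dl s(ba true false, ba false true) -
      dl s(ba true true, ba false false) - dl s(ba true false, ba false false)))
    (he : Even (s true true + s true false)) (hc : Even (s true true + s false true))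
    (h0 : s true true + s true false + s false true + s false false = 0) {N : ℕ}
    (hN : ∀ i j, (s i j).natAbs ≤ N) : P (7 * (c * N)) (f4 ba s) := by
  have hR : Rel4 P c (fun _ => true) ba :=
    ⟨fun _ => hd, fun _ => hr, fun h => by simp at h, fun h => by simp at h⟩
  rcases Int.even_or_odd (s true true) with hp | hp
  · have h1 : Even (s true false) := by
      rcases Int.even_or_odd (s true false) with hq | hq
      · exact hq
      · exact absurd he (Int.not_even_iff_odd.2 (hp.add_odd hq))
    have h2 : Even (s false true) := by
      rcases Int.even_or_odd (s false true) with hq | hq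
      · exact hq
      · exact absurd hc (Int.not_even_iff_odd.2 (hp.add_odd hq))
    have h3 : Even (s false false) := by
      have : s false false = -(s true true + s true false + s false true) := by omega
      rw [this]
      exact ((hp.add h1).add h2).neg
    have h4 := f4_DD h hR rfl rfl (s := s) (by
      intro i j
      cases i <;> cases j <;> assumption) h0 hN
    exact h.mono _ _ _ h4 (by nlinarith [Nat.zero_le (c * N)])
  · have hq : Odd (s true false) := by
      rcases Int.even_or_odd (s true false) with hq | hq
      · exact absurd he (Int.not_even_iff_odd.2 (hp.add_even hq))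
      · exact hq
    have hr' : Odd (s false true) := by
      rcases Int.even_or_odd (s false true) with hq | hq
      · exact absurd hc (Int.not_even_iff_odd.2 (hp.add_even hq))
      · exact hq
    have hs' : Odd (s false false) := by
      have : s false false = -(s true true + s true false + s false true) := by omega
      rw [this]
      exact ((hp.add_odd hq).add_odd hr').neg
    set s' : Bool → Bool → ℤ := fun i j => s i j - (if j = true then 1 else -1) with hs
    have h4 := f4_DD h hR rfl rfl (s := s') (N := N + 1) (by
      intro i j
      cases i <;> cases j <;> simp only [hs, if_true, Bool.false_eq_true, if_false]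
      · exact hs'.sub_odd (by decide)
      · exact hr'.sub_odd (by decide)
      · exact hq.sub_odd (by decide)
      · exact hp.sub_odd (by decide)) (by
      simp only [hs, if_true, Bool.false_eq_true, if_false]
      omega) (by
      intro i j
      have := hN i j
      cases j <;> simp only [hs, if_true, Bool.false_eq_true, if_false] <;> omega)
    have h5 := h.add _ _ _ _ h4 ht
    have e : f4 ba s' + (dl s(ba true true, ba false true) + dl s(ba true false, ba false true) -
        dl s(ba true true, ba false false) - dl s(ba true false, ba false false)) = f4 ba s := by
      unfold f4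
      simp only [hs, if_true, Bool.false_eq_true, if_false]
      module
    rw [e] at h5
    refine h.mono _ _ _ h5 ?_
    have hN1 : 1 ≤ N := by
      have h6 := hN true true
      have h7 : s true true ≠ 0 := by
        intro h8
        rw [h8] at hp
        exact absurd hp (by decide)
      omega
    nlinarith [Nat.mul_le_mul_left c hN1]

/-! ### The statements of the row -/

/-- type DD -/
theorem alg_dd (hP : SgAx P) (h : Rel4 P c fl ba) (h1 : fl true = true) (h2 : fl false = true)
    (s : Bool → Bool → ℤ) (hr : ∀ i, Even (s i true + s i false))
    (hc : ∀ j, Even (s true j + s false j))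
    (h0 : s true true + s true false + s false true + s false false = 0)
    (hτ : ((2 * s true true : ℤ) : ZMod 4) = 0) :
    P (4 * c * ((s true true).natAbs + (s true false).natAbs + (s false true).natAbs +
      (s false false).natAbs)) (f4 ba s) := by
  have e1 : Even (s true true) := by
    rw [ZMod.intCast_zmod_eq_zero_iff_dvd] at hτ
    rw [Int.even_iff]
    omega
  have r1 := hr true
  have c1 := hc true
  have c2 := hc false
  have e2 : Even (s true false) := by
    rcases Int.even_or_odd (s true false) with hq | hq
    · exact hq
    · exact absurd r1 (Int.not_even_iff_odd.2 (e1.add_odd hq))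
  have e3 : Even (s false true) := by
    rcases Int.even_or_odd (s false true) with hq | hq
    · exact hq
    · exact absurd c1 (Int.not_even_iff_odd.2 (e1.add_odd hq))
  have e4 : Even (s false false) := by
    rcases Int.even_or_odd (s false false) with hq | hq
    · exact hq
    · exact absurd c2 (Int.not_even_iff_odd.2 (e2.add_odd hq))
  have k := f4_DD hP h h2 h1 (s := s) (by
    intro i j
    cases i <;> cases j <;> assumption) h0 (N := (s true true).natAbs +
      (s true false).natAbs + (s false true).natAbs + (s false false).natAbs) (by
    intro i j
    cases i <;> cases j <;> omega)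
  refine hP.mono _ _ _ k ?_
  nlinarith [Nat.zero_le (c * ((s true true).natAbs + (s true false).natAbs +
    (s false true).natAbs + (s false false).natAbs))]

/-- type PD -/
theorem alg_pd (hP : SgAx P) (h : Rel4 P c fl ba) (h1 : fl true = false) (h2 : fl false = true)
    (s : Bool → Bool → ℤ) (hr : ∀ i, Even (s i true + s i false))
    (hc : ∀ j, Even (s true j + s false j))
    (h0 : s true true + s true false + s false true + s false false = 0)
    (hτ : ((s true false - s false false : ℤ) : ZMod 4) = 0) :
    P (4 * c * ((s true true).natAbs + (s true false).natAbs + (s false true).natAbs +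
      (s false false).natAbs)) (f4 ba s) := by
  rw [ZMod.intCast_zmod_eq_zero_iff_dvd] at hτ
  have k := f4_PD hP h h2 h1 (s := s) (hr true) (by exact_mod_cast hτ) h0 (hc true)
    (N := (s true true).natAbs +
      (s true false).natAbs + (s false true).natAbs + (s false false).natAbs) (by
    intro i j
    cases i <;> cases j <;> omega)
  refine hP.mono _ _ _ k ?_
  nlinarith [Nat.zero_le (c * ((s true true).natAbs + (s true false).natAbs +
    (s false true).natAbs + (s false false).natAbs))]

/-- type PP -/
theorem alg_pp (hP : SgAx P) (h : Rel4 P c fl ba) (h1 : fl true = false) (h2 : fl false = false)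
    (s : Bool → Bool → ℤ) (hr : ∀ i, Even (s i true + s i false))
    (h0 : s true true + s true false + s false true + s false false = 0)
    (hd : s true true + s false false = 0) :
    P (4 * c * ((s true true).natAbs + (s true false).natAbs + (s false true).natAbs +
      (s false false).natAbs)) (f4 ba s) := by
  have k := f4_PP hP h h2 h1 (s := s) (hr true) hd (by omega)
    (N := (s true true).natAbs +
      (s true false).natAbs + (s false true).natAbs + (s false false).natAbs) (by
    intro i j
    cases i <;> cases j <;> omega)
  refine hP.mono _ _ _ k ?_
  nlinarith [Nat.zero_le (c * ((s true true).natAbs + (s true false).natAbs +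
    (s false true).natAbs + (s false false).natAbs))]

end Alg

end F3.AB
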