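import Pool.Agent.F3.AB.Zf

/-!
# Project F3, block AB: the algebra, conclusions for the three kinds of worlds
-/

set_option autoImplicit false
set_option linter.unusedSectionVars false

namespace F3.AB

open Finset NW F1

section Fin

variable {V : Type} [Fintype V] [DecidableEq V] {P : ℕ → (Sym2 V → ℤ) → Prop}
  {c : ℕ} {al : Tri V → Prop} {E : Finset (Sym2 V)} {sd pt : V → Bool} {At X : Finset V}
  {D : Finset (Sym2 V)} {S B : Finset V} {ap : Sym2 V → V} {ba : Bool → Bool → V}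
  {fl : Bool → Bool}

/-- rigid worlds of type DD and PD: the cross edges of `D` minus the edges to the apexes are a
signed sum of gadgets if the torsion vanishes -/
theorem alg_R (h : SgAx P) (hR : Rel P c sd pt At X ba) (h4 : Rel4 P c fl ba)
    (hf : fl false = true) (hD : DOK sd At D) (hS : ∀ e ∈ D, ∀ v ∈ e, v ∈ S)
    (hA : Apx al E sd D S B ap) (hB : At ⊆ B) (hXD : ∀ e ∈ D, ∀ v ∈ e, v ∈ X)
    (hXa : ∀ d ∈ D, Int sd d → ap d ∈ X)
    (ht : ∑ e ∈ D, tau fl sd pt e - ∑ d ∈ Di sd D, tr3 ap (tau fl sd pt) d = 0) :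
    P (24 * c * D.card) (∑ e ∈ Dc sd D, dl e - ∑ e ∈ N0 sd D ap, dl e) := by
  have hE := Zf_ev hD hS hA hB hXD hXa
  have h1 := alg1' h hR hE
  have h0 := Zf_total hD hS hA hXD hXa pt
  have ht' := Zf_tau hD hS hA hXD hXa (pt := pt) fl
  rw [ht] at ht'
  have r1 := bs_row_even (pt := pt) hE true
  have r2 := bs_row_even (pt := pt) hE false
  have c1 := bs_col_even (pt := pt) hE true
  have c2 := bs_col_even (pt := pt) hE false
  have h2 : P (3 * (c * nZ sd X (Zf sd D ap))) (f4 ba (bs sd pt X (Zf sd D ap))) := by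
    cases hT : fl true with
    | true =>
      rw [hT, if_pos rfl] at ht'
      have e1 := two_mul_zmod ht'
      have e2 : Even (bs sd pt X (Zf sd D ap) true false) := by
        rcases Int.even_or_odd (bs sd pt X (Zf sd D ap) true false) with hq | hq
        · exact hq
        · exact absurd r1 (Int.not_even_iff_odd.2 (e1.add_odd hq))
      have e3 : Even (bs sd pt X (Zf sd D ap) false true) := by
        rcases Int.even_or_odd (bs sd pt X (Zf sd D ap) false true) with hq | hq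
        · exact hq
        · exact absurd c1 (Int.not_even_iff_odd.2 (e1.add_odd hq))
      have e4 : Even (bs sd pt X (Zf sd D ap) false false) := by
        rcases Int.even_or_odd (bs sd pt X (Zf sd D ap) false false) with hq | hq
        · exact hq
        · exact absurd c2 (Int.not_even_iff_odd.2 (e2.add_odd hq))
      exact f4_DD h h4 hf hT (by
        intro i j
        cases i <;> cases j <;> assumption) h0 (bs_le sd pt X _)
    | false =>
      rw [hT, if_neg (by decide)] at ht'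
      exact f4_PD h h4 hf hT r1 (sub_zmod ht') h0 c1 (bs_le sd pt X _)
  have h3 := h.add _ _ _ _ h1 h2
  rw [sub_add_cancel, fZ_Zf hA hXD hXa] at h3
  refine h.mono _ _ _ h3 ?_
  have h5 := nZ_Zf hA hXD hXa
  nlinarith [Nat.mul_le_mul_left c h5]

/-- world T -/
theorem alg_T (h : SgAx P) (hR : Rel P c sd pt At X ba) (h4 : Rel4 P c (fun _ => false) ba)
    (hD : DOK sd At D) (hS : ∀ e ∈ D, ∀ v ∈ e, v ∈ S)
    (hA : Apx al E sd D S B ap) (hB : At ⊆ B) (hXD : ∀ e ∈ D, ∀ v ∈ e, v ∈ X)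
    (hXa : ∀ d ∈ D, Int sd d → ap d ∈ X)
    (hco : ∀ u v, s(u, v) ∈ D → Co (fun _ => false) sd pt u v) (hg : ∑ e ∈ D, gam pt e = 0) :
    P (24 * c * D.card) (∑ e ∈ Dc sd D, dl e - ∑ e ∈ N0 sd D ap, dl e) := by
  have hE := Zf_ev hD hS hA hB hXD hXa
  have h1 := alg1' h hR hE
  obtain ⟨k1, k2⟩ := Zf_PP hD hS hA hXD hXa hco hg
  have r1 := bs_row_even (pt := pt) hE true
  have h2 := f4_PP h h4 rfl rfl r1 k1 k2 (bs_le sd pt X _)
  have h3 := h.add _ _ _ _ h1 h2
  rw [sub_add_cancel, fZ_Zf hA hXD hXa] at h3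
  refine h.mono _ _ _ h3 ?_
  have h5 := nZ_Zf hA hXD hXa
  nlinarith [Nat.mul_le_mul_left c h5]

/-- generic world; `pt` is arbitrary -/
theorem alg_G (h : SgAx P) (hR : Rel P c sd pt At X ba)
    (hd : ∀ j, P c ((2 : ℤ) • (dl s(ba true true, ba false j) - dl s(ba true false, ba false j))))
    (hr : ∀ i, P c ((2 : ℤ) • (dl s(ba true i, ba false true) - dl s(ba true i, ba false false))))
    (ht : P c (dl s(ba true true, ba false true) + dl s(ba true false, ba false true) -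
      dl s(ba true true, ba false false) - dl s(ba true false, ba false false)))
    (hD : DOK sd At D) (hS : ∀ e ∈ D, ∀ v ∈ e, v ∈ S)
    (hA : Apx al E sd D S B ap) (hB : At ⊆ B) (hXD : ∀ e ∈ D, ∀ v ∈ e, v ∈ X)
    (hXa : ∀ d ∈ D, Int sd d → ap d ∈ X) :
    P (36 * c * D.card) (∑ e ∈ Dc sd D, dl e - ∑ e ∈ N0 sd D ap, dl e) := by
  have hE := Zf_ev hD hS hA hB hXD hXa
  have h1 := alg1' h hR hE
  have h0 := Zf_total hD hS hA hXD hXa pt
  have h2 := f4_G h hd hr ht (bs_row_even (pt := pt) hE true) (bs_col_even (pt := pt) hE true) h0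
    (bs_le sd pt X _)
  have h3 := h.add _ _ _ _ h1 h2
  rw [sub_add_cancel, fZ_Zf hA hXD hXa] at h3
  refine h.mono _ _ _ h3 ?_
  have h5 := nZ_Zf hA hXD hXa
  nlinarith [Nat.mul_le_mul_left c h5]

/-- the torsion condition in terms of `D` if all pairs of `D` are core -/
theorem tors_core (hA : Apx al E sd D S B ap) (hNL : NW.NL D) (hf : fl false = true)
    (hco : ∀ u v, s(u, v) ∈ D → Co fl sd pt u v) (ht : ∑ e ∈ D, tau fl sd pt e = 0) :
    ∑ e ∈ D, tau fl sd pt e - ∑ d ∈ Di sd D, tr3 ap (tau fl sd pt) d = 0 := by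
  rw [ht, zero_sub, neg_eq_zero]
  refine sum_eq_zero fun d hd => ?_
  obtain ⟨h1, h2⟩ := mem_Di.1 hd
  induction d with
  | _ u v => exact tr3_tau hA hNL hf h1 (int_mk.1 h2) (hco u v h1)

/-- the torsion condition for `insert e₀ D`, `e₀` exceptional -/
theorem tors_insert {e₀ : Sym2 V} (he : e₀ ∉ D) (hA : Apx al E sd (insert e₀ D) S B ap)
    (hNL : NW.NL (insert e₀ D)) (hf : fl false = true) (hi : Int sd e₀)
    (hco : ∀ u v, s(u, v) ∈ D → Co fl sd pt u v)
    (ht : ∑ e ∈ D, tau fl sd pt e + tau fl sd pt e₀ = tr3 ap (tau fl sd pt) e₀) :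
    ∑ e ∈ insert e₀ D, tau fl sd pt e -
      ∑ d ∈ Di sd (insert e₀ D), tr3 ap (tau fl sd pt) d = 0 := by
  have h1 : Di sd (insert e₀ D) = insert e₀ (Di sd D) := by
    unfold Di
    rw [filter_insert, if_pos hi]
  have h2 : e₀ ∉ Di sd D := fun h => he (mem_Di.1 h).1
  rw [h1, sum_insert he, sum_insert h2, sum_eq_zero (s := Di sd D), add_zero, ← ht]
  · abel
  · intro d hd
    obtain ⟨k1, k2⟩ := mem_Di.1 hd
    induction d with
    | _ u v => exact tr3_tau hA hNL hf (mem_insert_of_mem k1) (int_mk.1 k2) (hco u v k1)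

/-- the torsion value is `0` or `2` -/
theorem tors_val (hD : DOK sd At D) (hS : ∀ e ∈ D, ∀ v ∈ e, v ∈ S)
    (hA : Apx al E sd D S B ap) (hB : At ⊆ B) (fl : Bool → Bool) (pt : V → Bool) :
    ∑ e ∈ D, tau fl sd pt e - ∑ d ∈ Di sd D, tr3 ap (tau fl sd pt) d = 0 ∨
    ∑ e ∈ D, tau fl sd pt e - ∑ d ∈ Di sd D, tr3 ap (tau fl sd pt) d = 2 := by
  have hXD : ∀ e ∈ D, ∀ v ∈ e, v ∈ (univ : Finset V) := fun _ _ _ _ => mem_univ _
  have hXa : ∀ d ∈ D, Int sd d → ap d ∈ (univ : Finset V) := fun _ _ _ => mem_univ _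
  have hE := Zf_ev hD hS hA hB hXD hXa
  rw [← Zf_tau hD hS hA hXD hXa (pt := pt) fl]
  have c2 := bs_col_even (pt := pt) hE false
  cases hT : fl true with
  | true =>
    rw [if_pos rfl]
    generalize ((bs sd pt univ (Zf sd D ap) true true : ℤ) : ZMod 4) = m
    revert m
    decide
  | false =>
    rw [if_neg (by decide)]
    obtain ⟨k, hk⟩ := c2
    have e1 : bs sd pt univ (Zf sd D ap) true false =
        2 * k - bs sd pt univ (Zf sd D ap) false false := by omega
    rw [e1]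
    push_cast
    generalize ((bs sd pt univ (Zf sd D ap) false false : ℤ) : ZMod 4) = m
    generalize ((k : ℤ) : ZMod 4) = l
    revert m l
    decide

/-- one of the two classes of apexes of the exceptional pair kills the torsion -/
theorem tors_choice {e₀ : Sym2 V} {ap' : Sym2 V → V} (hD : DOK sd At D)
    (hS : ∀ e ∈ D, ∀ v ∈ e, v ∈ S) (hA : Apx al E sd D S B ap)
    (hA' : Apx al E sd D S B ap') (hB : At ⊆ B) (hf : fl false = true) (he : e₀ ∈ D)
    (hi : Int sd e₀) (hx : ∀ u v, e₀ = s(u, v) → ¬ Co fl sd pt u v)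
    (hap : ∀ d, d ≠ e₀ → ap' d = ap d) (hp : pt (ap' e₀) ≠ pt (ap e₀)) :
    ∑ e ∈ D, tau fl sd pt e - ∑ d ∈ Di sd D, tr3 ap (tau fl sd pt) d = 0 ∨
    ∑ e ∈ D, tau fl sd pt e - ∑ d ∈ Di sd D, tr3 ap' (tau fl sd pt) d = 0 := by
  rcases tors_val hD hS hA hB fl pt with h | h
  · exact Or.inl h
  · right
    have hm : e₀ ∈ Di sd D := mem_Di.2 ⟨he, hi⟩
    have h1 : ∑ d ∈ (Di sd D).erase e₀, tr3 ap (tau fl sd pt) d =
        ∑ d ∈ (Di sd D).erase e₀, tr3 ap' (tau fl sd pt) d := by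
      refine sum_congr rfl fun d hd => ?_
      unfold tr3
      rw [hap d (mem_erase.1 hd).1]
    have h2 : tr3 ap (tau fl sd pt) e₀ = tr3 ap' (tau fl sd pt) e₀ + 2 := by
      induction e₀ with
      | _ u v =>
        have huv : u ≠ v := by
          have h := hD.nl _ he
          rwa [Sym2.mk_isDiag_iff] at h
        rw [tr3_mk huv, tr3_mk huv]
        exact tau_exc hf (int_mk.1 hi) (hx u v rfl)
          (hA.side _ he hi u (Sym2.mem_mk_left _ _))
          (hA'.side _ he hi u (Sym2.mem_mk_left _ _)) hp.symm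
    rw [← add_sum_erase _ _ hm, h2, h1] at h
    rw [← add_sum_erase _ _ hm]
    clear h1 h2
    revert h
    generalize ∑ d ∈ (Di sd D).erase e₀, tr3 ap' (tau fl sd pt) d = a
    generalize tr3 ap' (tau fl sd pt) e₀ = b
    generalize ∑ e ∈ D, tau fl sd pt e = m
    revert a b m
    decide

end Fin

end F3.AB
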