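import Pool.Agent.F3.AB.Sel

/-!
# Block AB, row AB-19: apexes for the internal edges
-/

set_option autoImplicit false
set_option linter.unusedSectionVars false

namespace F3.AB

open Finset NW F1

variable {V : Type} [Fintype V] [DecidableEq V]

/-- distinct representatives -/
theorem apex_sel (I : Finset (Sym2 V)) (Q : Sym2 V → Finset V) (S B : Finset V)
    (h : ∀ d ∈ I, S.card + B.card + I.card ≤ (Q d).card) :
    ∃ ap : Sym2 V → V, (∀ d ∈ I, ap d ∈ Q d ∧ ap d ∉ S ∧ ap d ∉ B) ∧
      ∀ d ∈ I, ∀ d' ∈ I, ap d = ap d' → d = d' := by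
  classical
  induction I using Finset.induction_on with
  | empty =>
    by_cases hV : Nonempty V
    · obtain ⟨v⟩ := hV
      exact ⟨fun _ => v, by simp, by simp⟩
    · rw [not_nonempty_iff] at hV
      refine ⟨fun d => ?_, by simp, by simp⟩
      exact hV.elim (Quot.out d).1
  | insert a I ha ih =>
    obtain ⟨ap, h1, h2⟩ := ih (fun d hd => by
      have := h d (mem_insert_of_mem hd)
      rw [card_insert_of_notMem ha] at this
      omega)
    have h3 : ((S ∪ B) ∪ I.image ap).card < (Q a).card := by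
      have h4 := h a (mem_insert_self _ _)
      rw [card_insert_of_notMem ha] at h4
      have h5 := card_union_le (S ∪ B) (I.image ap)
      have h6 := card_union_le S B
      have h7 : (I.image ap).card ≤ I.card := card_image_le
      omega
    obtain ⟨w, hw, hw'⟩ := exists_mem_notMem_of_card_lt_card h3
    rw [mem_union, mem_union, mem_image] at hw'
    push Not at hw'
    obtain ⟨⟨hwS, hwB⟩, hwI⟩ := hw'
    have hne : ∀ d ∈ I, d ≠ a := by
      rintro d hd rfl
      exact ha hd
    refine ⟨fun d => if d = a then w else ap d, ?_, ?_⟩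
    · intro d hd
      rcases mem_insert.1 hd with rfl | hd
      · simp only [if_true]
        exact ⟨hw, hwS, hwB⟩
      · simp only [if_neg (hne d hd)]
        exact h1 d hd
    · intro d hd d' hd' he
      rcases mem_insert.1 hd with e1 | g1
      · rcases mem_insert.1 hd' with e2 | g2
        · rw [e1, e2]
        · simp only [e1, if_true, if_neg (hne d' g2)] at he
          exact absurd he.symm (hwI d' g2)
      · rcases mem_insert.1 hd' with e2 | g2
        · simp only [e2, if_true, if_neg (hne d g1)] at he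
          exact absurd he (hwI d g1)
        · simp only [if_neg (hne d g1), if_neg (hne d' g2)] at he
          exact h2 d g1 d' g2 he

theorem apex_cand_aux {E : Finset (Sym2 V)} {Co : V → V → Prop} {sd : V → Bool}
    {At : Finset V} {ε σ : ℝ} (h : CX E Co sd At ε σ) {u v : V} (hs : sd u = sd v)
    (hv : v ∉ At) :
    (σ - ε) * nn V ≤
      ((univ.filter (fun w => sd w ≠ sd u ∧ s(u, w) ∈ E ∧ s(v, w) ∈ E)).card : ℝ) := by
  have hsub : univ.filter (fun w => sd w ≠ sd u ∧ s(u, w) ∈ E) ⊆
      univ.filter (fun w => sd w ≠ sd u ∧ s(u, w) ∈ E ∧ s(v, w) ∈ E) ∪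
      univ.filter (fun w => sd w ≠ sd v ∧ s(v, w) ∉ E) := by
    intro w hw
    simp only [mem_filter, mem_union, mem_univ, true_and] at hw ⊢
    by_cases hc : s(v, w) ∈ E
    · exact Or.inl ⟨hw.1, hw.2, hc⟩
    · exact Or.inr ⟨by rw [← hs]; exact hw.1, hc⟩
  have h1 := (card_le_card hsub).trans (card_union_le _ _)
  have h2 : ((univ.filter (fun w => sd w ≠ sd u ∧ s(u, w) ∈ E)).card : ℝ) ≤
      ((univ.filter (fun w => sd w ≠ sd u ∧ s(u, w) ∈ E ∧ s(v, w) ∈ E)).card : ℝ) +
      ((univ.filter (fun w => sd w ≠ sd v ∧ s(v, w) ∉ E)).card : ℝ) := by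
    exact_mod_cast h1
  have h3 := h.cr u
  have h4 := h.miss v hv
  rw [sub_mul]
  linarith

/-- candidates for the apex of an internal pair -/
theorem cx_cand {E : Finset (Sym2 V)} {Co : V → V → Prop} {sd : V → Bool} {At B : Finset V}
    {q : ℕ} {ε σ : ℝ} (h : CX E Co sd At ε σ) (hB : Bd At B q ε σ) {u v : V} (hs : sd u = sd v)
    (hAt : u ∉ At ∨ v ∉ At) :
    (σ - ε) * nn V ≤
      ((univ.filter (fun w => sd w ≠ sd u ∧ s(u, w) ∈ E ∧ s(v, w) ∈ E)).card : ℝ) := by
  rcases hAt with hu | hv
  · have h1 := apex_cand_aux h hs.symm hu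
    have h2 : univ.filter (fun w => sd w ≠ sd v ∧ s(v, w) ∈ E ∧ s(u, w) ∈ E) =
        univ.filter (fun w => sd w ≠ sd u ∧ s(u, w) ∈ E ∧ s(v, w) ∈ E) := by
      ext w
      simp only [mem_filter, mem_univ, true_and]
      rw [hs]
      tauto
    rwa [h2] at h1
  · exact apex_cand_aux h hs hv

theorem cx_apx {E : Finset (Sym2 V)} {Co : V → V → Prop} {sd : V → Bool} {At B : Finset V}
    {q : ℕ} {ε σ : ℝ} (h : CX E Co sd At ε σ) (hB : Bd At B q ε σ) (D : Finset (Sym2 V))
    (S : Finset V) (nl : NW.NL D) (noAt : ∀ u ∈ At, ∀ v ∈ At, s(u, v) ∉ D)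
    (hco : ∀ u v, s(u, v) ∈ D → Co u v) (hq : S.card + D.card ≤ q) :
    ∃ ap, Apx (alC Co sd) E sd D S B ap := by
  classical
  have hn0 : (0 : ℝ) ≤ nn V := by
    unfold nn
    exact Nat.cast_nonneg _
  obtain ⟨ap, h1, h2⟩ := apex_sel (Di sd D)
    (fun d => univ.filter (fun w => ∀ v ∈ d, sd w ≠ sd v ∧ s(v, w) ∈ E)) S B (by
      intro d hd
      unfold Di at hd
      rw [mem_filter] at hd
      obtain ⟨hdD, hdI⟩ := hd
      induction d using Sym2.ind with
      | _ u v =>
        have hs : sd u = sd v := hdI u (by simp) v (by simp)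
        have hAt : u ∉ At ∨ v ∉ At := by
          by_contra hcon
          push Not at hcon
          exact noAt u hcon.1 v hcon.2 hdD
        have h3 := cx_cand h hB hs hAt
        have h4 : univ.filter (fun w => ∀ x ∈ s(u, v), sd w ≠ sd x ∧ s(x, w) ∈ E) =
            univ.filter (fun w => sd w ≠ sd u ∧ s(u, w) ∈ E ∧ s(v, w) ∈ E) := by
          ext w
          simp only [mem_filter, mem_univ, true_and]
          constructor
          · intro hw
            exact ⟨(hw u (by simp)).1, (hw u (by simp)).2, (hw v (by simp)).2⟩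
          · rintro ⟨a1, a2, a3⟩ x hx
            rw [Sym2.mem_iff] at hx
            rcases hx with rfl | rfl
            · exact ⟨a1, a2⟩
            · exact ⟨by rw [← hs]; exact a1, a3⟩
        rw [h4]
        have h5 : ((S.card + B.card + (Di sd D).card : ℕ) : ℝ) ≤
            ((univ.filter (fun w => sd w ≠ sd u ∧ s(u, w) ∈ E ∧ s(v, w) ∈ E)).card : ℝ) := by
          refine le_trans ?_ h3
          have h6 : (Di sd D).card ≤ D.card := card_filter_le _ _
          have h7 : ((S.card + (Di sd D).card : ℕ) : ℝ) ≤ (q : ℝ) := by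
            exact_mod_cast (by omega : S.card + (Di sd D).card ≤ q)
          have h8 := hB.q_le
          have h9 := hB.B_card
          have h10 : 40 * ε * nn V ≤ σ * nn V := mul_le_mul_of_nonneg_right hB.sig hn0
          have h11 : 0 ≤ ε * nn V := mul_nonneg hB.eps.le hn0
          push_cast at h7 ⊢
          rw [sub_mul]
          linarith
        exact_mod_cast h5)
  have hmem : ∀ d ∈ D, Int sd d → d ∈ Di sd D := by
    intro d hd hI
    unfold Di
    rw [mem_filter]
    exact ⟨hd, hI⟩
  have hQ : ∀ d ∈ D, Int sd d → ∀ v ∈ d, sd (ap d) ≠ sd v ∧ s(v, ap d) ∈ E := by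
    intro d hd hI
    have h3 := (h1 d (hmem d hd hI)).1
    rw [mem_filter] at h3
    exact h3.2
  refine ⟨ap, ?_, ?_, ?_, ?_, ?_⟩
  · intro d hd hI
    exact (h1 d (hmem d hd hI)).2
  · intro d hd hI v hv
    exact (hQ d hd hI v hv).1
  · intro d hd hI v hv
    exact (hQ d hd hI v hv).2
  · intro d hd d' hd' hI hI' he
    exact h2 d (hmem d hd hI) d' (hmem d' hd' hI') he
  · intro u v huv hs
    have hI : Int sd s(u, v) := by
      intro a ha b hb
      rw [Sym2.mem_iff] at ha hb
      rcases ha with rfl | rfl <;> rcases hb with rfl | rfl <;> simp [hs]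
    have hne : u ≠ v := by
      intro he
      exact nl _ huv (by rw [he]; simp)
    exact al_mk h hne hs (hQ _ huv hI u (by simp)).1 (hco u v huv)

end F3.AB
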