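import Pool.Agent.F3.Targets

/-!
# Project F3, block AB (absorbers): definitions

Section 4 of note 5099 on MP_6a0350_co.  A gadget is a set `N` of new real edges such that both
`N + α` and `N + β` are sums of allowed triangles; the pairs in `α`, `β` are virtual.
-/

set_option autoImplicit false
set_option linter.unusedSectionVars false

namespace F3.AB

open Finset NW F1

section Defs

variable {V : Type} [Fintype V] [DecidableEq V]

/-- `a b c` is an allowed triangle -/
def AL (al : Tri V → Prop) (a b c : V) : Prop :=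
  ∃ h : ({a, b, c} : Finset V).card = 3, al ⟨{a, b, c}, h⟩

/-- the edges of a triangle as a multiset -/
def trim (a b c : V) : Multiset (Sym2 V) := {s(a, b)} + {s(b, c)} + {s(a, c)}

/-- a multiset of pairs which is a sum of allowed triangles, none of them inside `W` -/
inductive MD (al : Tri V → Prop) (W : Finset V) : Multiset (Sym2 V) → Prop
  | zero : MD al W 0
  | cons {a b c : V} {M : Multiset (Sym2 V)} (h : AL al a b c)
      (hn : ¬ (a ∈ W ∧ b ∈ W ∧ c ∈ W)) (hM : MD al W M) : MD al W (trim a b c + M)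

/-- `N` is a set of edges of `E` on `S ∪ T`, each of them with a vertex in `T` -/
structure New (E : Finset (Sym2 V)) (S T : Finset V) (N : Multiset (Sym2 V)) : Prop where
  nd : N.Nodup
  sub : ∀ e ∈ N, e ∈ E
  new : ∀ e ∈ N, ∃ v ∈ e, v ∈ T
  supp : ∀ e ∈ N, ∀ v ∈ e, v ∈ S ∪ T

/-- a gadget for `α ↔ β` with at most `c` new vertices, outside every set `S` with
`|S| + c ≤ q` and outside `B` -/
def Gd (al : Tri V → Prop) (E : Finset (Sym2 V)) (W B : Finset V) (q c : ℕ)
    (α β : Multiset (Sym2 V)) : Prop :=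
  ∀ S : Finset V, W ⊆ S → S.card + c ≤ q → ∃ (T : Finset V) (N : Multiset (Sym2 V)),
    T.card ≤ c ∧ Disjoint T (S ∪ B) ∧ New E S T N ∧ MD al W (N + α) ∧ MD al W (N + β)

/-- switches for the pair `x y`: the edges to the apex `z` are exchanged with the edges to the
apex `t` -/
def Sw (al : Tri V → Prop) (E : Finset (Sym2 V)) (W B : Finset V) (q c : ℕ) (x y : V) : Prop :=
  ∀ z t : V, z ≠ t → z ∉ W → t ∉ W → z ∉ B → t ∉ B → s(x, z) ∈ E → s(y, z) ∈ E →
    s(x, t) ∈ E → s(y, t) ∈ E → AL al x y z → AL al x y t →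
    ∀ S : Finset V, W ⊆ S → z ∈ S → t ∈ S → S.card + c ≤ q →
      ∃ (T : Finset V) (N : Multiset (Sym2 V)), T.card ≤ c ∧ Disjoint T (S ∪ B) ∧ New E S T N ∧
        MD al W (N + ({s(y, z)} + {s(x, z)})) ∧ MD al W (N + ({s(y, t)} + {s(x, t)}))

/-- the pair `e` may be virtual -/
structure VP (al : Tri V → Prop) (E : Finset (Sym2 V)) (W B : Finset V) (q c : ℕ)
    (e : Sym2 V) : Prop where
  nd : ¬ e.IsDiag
  inW : ∀ v ∈ e, v ∈ W
  sw : ∀ x y, e = s(x, y) → Sw al E W B q c x y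
  rf : Gd al E W B q 1 {e} {e}

/-- the indicator of a pair -/
def dl (e : Sym2 V) : Sym2 V → ℤ := fun e' => if e' = e then 1 else 0

/-- signed sums of gadgets of total size at most `k` -/
def Sg (al : Tri V → Prop) (E : Finset (Sym2 V)) (W B : Finset V) (q c k : ℕ)
    (f : Sym2 V → ℤ) : Prop :=
  ∃ α β : Multiset (Sym2 V), α.card ≤ k ∧ β.card ≤ k ∧ (∀ e ∈ α, VP al E W B q c e) ∧
    (∀ e ∈ β, VP al E W B q c e) ∧ Gd al E W B q k α β ∧
    ∀ e, f e = (α.count e : ℤ) - (β.count e : ℤ)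

/-- `A` is an absorber for `D` with new vertices `T` -/
structure One (al : Tri V → Prop) (E : Finset (Sym2 V)) (S B : Finset V) (K : ℕ)
    (D A : Finset (Sym2 V)) (T : Finset V) : Prop where
  card : T.card ≤ K
  disj : Disjoint T (S ∪ B)
  sub : A ⊆ E
  new : ∀ e ∈ A, ∃ v ∈ e, v ∈ T
  supp : ∀ e ∈ A, ∀ v ∈ e, v ∈ S ∪ T
  dec : DecA al A
  abs : DecA al (A ∪ D)

/-- absorbers for `D` exist outside every set `S` of at most `q` vertices -/
def OneOK (al : Tri V → Prop) (E : Finset (Sym2 V)) (U B : Finset V) (q K : ℕ)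
    (D : Finset (Sym2 V)) : Prop :=
  ∀ S : Finset V, U ⊆ S → S.card ≤ q → ∃ (A : Finset (Sym2 V)) (T : Finset V),
    One al E S B K D A T

/-! ### Paths -/

/-- the edges of the path `y - l - z` -/
def pth : V → List V → V → Multiset (Sym2 V)
  | y, [], z => {s(y, z)}
  | y, i :: l, z => {s(y, i)} + pth i l z

/-- the spokes from `x₁` and `x₂` to the vertices of `l` -/
def spk (x₁ x₂ : V) : List V → Multiset (Sym2 V)
  | [] => 0
  | i :: l => {s(x₁, i)} + ({s(x₂, i)} + spk x₁ x₂ l)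

/-- all triangles `x p p'`, `p p'` an edge of the path `y - l - z`, are allowed -/
def Pal (al : Tri V → Prop) (x : V) : V → List V → V → Prop
  | y, [], z => AL al x y z
  | y, i :: l, z => AL al x y i ∧ Pal al x i l z

/-- a path with inner vertices `l` outside `S ∪ B` from `y` to `z` such that all its edges and
all spokes from `x₁` and `x₂` to the inner vertices are edges of `E` -/
structure GPath (al : Tri V → Prop) (E : Finset (Sym2 V)) (S B : Finset V) (x₁ x₂ y z : V)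
    (l : List V) : Prop where
  nd : l.Nodup
  out : ∀ i ∈ l, i ∉ S ∧ i ∉ B
  pe : ∀ e ∈ pth y l z, e ∈ E
  sp : ∀ i ∈ l, s(x₁, i) ∈ E ∧ s(x₂, i) ∈ E
  al₁ : Pal al x₁ y l z
  al₂ : Pal al x₂ y l z

/-! ### Worlds with a cut -/

/-- allowed triangles: crossing triangles with three core pairs -/
def alC (Co : V → V → Prop) (sd : V → Bool) (T : Tri V) : Prop :=
  Cro sd T ∧ ∀ u ∈ T.1, ∀ v ∈ T.1, u ≠ v → Co u v

/-- the properties which are common to the generic and the rigid worlds -/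
structure CX (E : Finset (Sym2 V)) (Co : V → V → Prop) (sd : V → Bool) (At : Finset V)
    (ε σ : ℝ) : Prop where
  nl : NW.NL E
  symm : ∀ u v, Co u v → Co v u
  core : ∀ u v, s(u, v) ∈ E → Co u v
  cross : ∀ u v, sd u ≠ sd v → Co u v
  miss : ∀ v, v ∉ At →
    ((univ.filter (fun w => sd w ≠ sd v ∧ s(v, w) ∉ E)).card : ℝ) ≤ ε * nn V
  int : ∀ v, σ * nn V ≤ ((univ.filter (fun w => sd w = sd v ∧ s(v, w) ∈ E)).card : ℝ)
  cr : ∀ v, σ * nn V ≤ ((univ.filter (fun w => sd w ≠ sd v ∧ s(v, w) ∈ E)).card : ℝ)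
  mix : ∀ x y, sd x ≠ sd y → y ∉ At →
    σ * nn V ≤ ((univ.filter (fun w => sd w = sd y ∧ s(y, w) ∈ E ∧ s(x, w) ∈ E)).card : ℝ)

/-- many common neighbours on their side -/
def Cm (E : Finset (Sym2 V)) (sd : V → Bool) (σ : ℝ) (x x' : V) : Prop :=
  sd x = sd x' ∧
    σ * nn V ≤ ((univ.filter (fun w => sd w = sd x ∧ s(x, w) ∈ E ∧ s(x', w) ∈ E)).card : ℝ)

/-- standard assumptions on the forbidden set and the bounds -/
structure Bd (At B : Finset V) (q : ℕ) (ε σ : ℝ) : Prop where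
  At_sub : At ⊆ B
  B_card : (B.card : ℝ) ≤ ε * nn V
  q_le : (q : ℝ) ≤ ε * nn V
  q40 : 40 ≤ q
  eps : 0 < ε
  sig : 40 * ε ≤ σ

/-- the C-move: `x₁ y + x₂ z ↔ x₂ y + x₁ z` -/
def fC (x₁ x₂ y z : V) : Sym2 V → ℤ := dl s(x₁, y) + dl s(x₂, z) - dl s(x₂, y) - dl s(x₁, z)

/-- the K-move: `x₁ y + x₁ z ↔ x₂ y + x₂ z` -/
def fK (x₁ x₂ y z : V) : Sym2 V → ℤ := dl s(x₁, y) + dl s(x₁, z) - dl s(x₂, y) - dl s(x₂, z)

/-! ### The algebra -/

/-- a filtered subgroup -/
structure SgAx (P : ℕ → (Sym2 V → ℤ) → Prop) : Prop where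
  zero : P 0 0
  add : ∀ k l f g, P k f → P l g → P (k + l) (f + g)
  neg : ∀ k f, P k f → P k (-f)
  mono : ∀ k l f, P k f → k ≤ l → P l f

/-- the relations which move everything to the base vertices `ba side part`; `X` a set of
vertices, no pair inside `At` is considered -/
structure Rel (P : ℕ → (Sym2 V → ℤ) → Prop) (c : ℕ) (sd pt : V → Bool) (At X : Finset V)
    (ba : Bool → Bool → V) : Prop where
  h1 : ∀ x ∈ X, ∀ y ∈ X, sd x = true → sd y = false → (x ∉ At ∨ y ∉ At) →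
    P c (dl s(x, y) - dl s(x, ba false (pt y)) - dl s(ba true (pt x), y) +
      dl s(ba true (pt x), ba false (pt y)))
  r2 : ∀ x ∈ X, sd x = true → ∀ j, P c ((2 : ℤ) • (dl s(x, ba false j) -
    dl s(ba true (pt x), ba false j)))
  r3 : ∀ x ∈ X, sd x = true → P c ((dl s(x, ba false true) -
    dl s(ba true (pt x), ba false true)) + (dl s(x, ba false false) -
    dl s(ba true (pt x), ba false false)))
  c2 : ∀ y ∈ X, sd y = false → ∀ i, P c ((2 : ℤ) • (dl s(ba true i, y) -
    dl s(ba true i, ba false (pt y))))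
  c3 : ∀ y ∈ X, sd y = false → P c ((dl s(ba true true, y) -
    dl s(ba true true, ba false (pt y))) + (dl s(ba true false, y) -
    dl s(ba true false, ba false (pt y))))

/-- the cross function of `Z` -/
def fZ (sd : V → Bool) (X : Finset V) (Z : V → V → ℤ) : Sym2 V → ℤ :=
  ∑ x ∈ X.filter (fun x => sd x = true), ∑ y ∈ X.filter (fun y => sd y = false),
    Z x y • dl s(x, y)

/-- block sums -/
def bs (sd pt : V → Bool) (X : Finset V) (Z : V → V → ℤ) (i j : Bool) : ℤ :=
  ∑ x ∈ X.filter (fun x => sd x = true ∧ pt x = i),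
    ∑ y ∈ X.filter (fun y => sd y = false ∧ pt y = j), Z x y

/-- the norm -/
def nZ (sd : V → Bool) (X : Finset V) (Z : V → V → ℤ) : ℕ :=
  ∑ x ∈ X.filter (fun x => sd x = true), ∑ y ∈ X.filter (fun y => sd y = false), (Z x y).natAbs

/-- even rows and columns, no pair inside `At` -/
structure Ev (sd : V → Bool) (At X : Finset V) (Z : V → V → ℤ) : Prop where
  row : ∀ x ∈ X, sd x = true → Even (∑ y ∈ X.filter (fun y => sd y = false), Z x y)
  col : ∀ y ∈ X, sd y = false → Even (∑ x ∈ X.filter (fun x => sd x = true), Z x y)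
  at0 : ∀ x y, x ∈ At → y ∈ At → Z x y = 0

/-- admissible graphs: even, no pair inside `At`, weight zero -/
structure DOK (sd : V → Bool) (At : Finset V) (D : Finset (Sym2 V)) : Prop where
  nl : NW.NL D
  even : ∀ v, Even (NW.deg D v)
  noAt : ∀ u ∈ At, ∀ v ∈ At, s(u, v) ∉ D
  gam : ∑ e ∈ D, gam sd e = 0

/-- apexes for the internal edges of `D` -/
structure Apx (al : Tri V → Prop) (E : Finset (Sym2 V)) (sd : V → Bool) (D : Finset (Sym2 V))
    (S B : Finset V) (ap : Sym2 V → V) : Prop where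
  out : ∀ d ∈ D, Int sd d → ap d ∉ S ∧ ap d ∉ B
  side : ∀ d ∈ D, Int sd d → ∀ v ∈ d, sd (ap d) ≠ sd v
  ed : ∀ d ∈ D, Int sd d → ∀ v ∈ d, s(v, ap d) ∈ E
  inj : ∀ d ∈ D, ∀ d' ∈ D, Int sd d → Int sd d' → ap d = ap d' → d = d'
  al : ∀ u v, s(u, v) ∈ D → sd u = sd v → AL al u v (ap s(u, v))

/-- the edges to the apexes -/
def N0 (sd : V → Bool) (D : Finset (Sym2 V)) (ap : Sym2 V → V) : Finset (Sym2 V) :=
  univ.filter (fun e => ∃ d ∈ D, Int sd d ∧ ∃ v ∈ d, e = s(v, ap d))

/-- the cross edges of `D` -/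
def Dc (sd : V → Bool) (D : Finset (Sym2 V)) : Finset (Sym2 V) := D.filter (fun e => ¬ Int sd e)

/-- the internal edges of `D` -/
def Di (sd : V → Bool) (D : Finset (Sym2 V)) : Finset (Sym2 V) := D.filter (fun e => Int sd e)

/-- cross edges minus edges to the apexes -/
def Zf (sd : V → Bool) (D : Finset (Sym2 V)) (ap : Sym2 V → V) (x y : V) : ℤ :=
  (if s(x, y) ∈ Dc sd D then 1 else 0) - (if s(x, y) ∈ N0 sd D ap then 1 else 0)

/-- base vertices: typical, on the right side and in the right part, in `W`, distinct -/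
structure Bas (sd pt : V → Bool) (At W : Finset V) (ba : Bool → Bool → V) : Prop where
  side : ∀ b i, sd (ba b i) = b
  part : ∀ b i, pt (ba b i) = i
  nA : ∀ b i, ba b i ∉ At
  inW : ∀ b i, ba b i ∈ W

/-- the matrix on the base vertices -/
def f4 (ba : Bool → Bool → V) (s : Bool → Bool → ℤ) : Sym2 V → ℤ :=
  s true true • dl s(ba true true, ba false true) +
    s true false • dl s(ba true true, ba false false) +
    s false true • dl s(ba true false, ba false true) +
    s false false • dl s(ba true false, ba false false)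

/-! ### The worlds, after deletion of a small graph -/

/-- world N -/
structure NX (E : Finset (Sym2 V)) (σ : ℝ) : Prop where
  nl : NW.NL E
  three : ∀ x y z : V, σ * nn V ≤ ((nbr E x ∩ nbr E y ∩ nbr E z).card : ℝ)
  walk : ∀ x₁ x₂ : V, x₁ ≠ x₂ → ∀ y ∈ nbr E x₁ ∩ nbr E x₂, ∀ z ∈ nbr E x₁ ∩ nbr E x₂,
    σ * nn V ^ 4 ≤ ((walks5 E (nbr E x₁ ∩ nbr E x₂) y z).card : ℝ)

/-- generic world; the side `false` is generic -/
structure GX (E : Finset (Sym2 V)) (sd : V → Bool) (At : Finset V) (ε σ : ℝ) : Prop where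
  cx : CX E (fun _ _ => True) sd At ε σ
  side : ∀ b, σ * nn V ≤ ((Sd sd b).card : ℝ)
  par : ∀ v, ∃ P : Finset V, σ * nn V ≤ (P.card : ℝ) ∧ ∀ w ∈ P, Cm E sd σ v w
  gen1 : ∀ y z, y ∉ At → z ∉ At → sd y = false → sd z = false →
    σ * nn V ^ 4 ≤ ((walks5 E (Sd sd false \ At) y z).card : ℝ)
  gen2 : ∀ y z, y ∉ At → z ∉ At → sd y = false → sd z = false →
    ∃ P : Finset V, σ * nn V ≤ (P.card : ℝ) ∧ ∀ w ∈ P, Cm E sd σ y w ∧ Cm E sd σ w z

/-- rigid worlds -/
structure RX (E : Finset (Sym2 V)) (fl : Bool → Bool) (sd pt : V → Bool) (At : Finset V)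
    (ε σ : ℝ) : Prop where
  cx : CX E (Co fl sd pt) sd At ε σ
  part : ∀ b c, σ * nn V ≤ ((Pa sd pt b c).card : ℝ)
  cmiss : ∀ v, v ∉ At → ((univ.filter (fun w => Co fl sd pt v w ∧ s(v, w) ∉ E)).card : ℝ) ≤
    ε * nn V
  deg : ∀ v b c, b ≠ sd v → σ * nn V ≤ ((nbr E v ∩ Pa sd pt b c).card : ℝ)
  cm : ∀ x x', sd x = sd x' → pt x = pt x' → x' ∉ At → Cm E sd σ x x'

/-- the relations between the base vertices of a rigid world -/
structure Rel4 (P : ℕ → (Sym2 V → ℤ) → Prop) (c : ℕ) (fl : Bool → Bool)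
    (ba : Bool → Bool → V) : Prop where
  dF : fl false = true → ∀ j, P c ((2 : ℤ) • (dl s(ba true true, ba false j) -
    dl s(ba true false, ba false j)))
  dT : fl true = true → ∀ i, P c ((2 : ℤ) • (dl s(ba true i, ba false true) -
    dl s(ba true i, ba false false)))
  pT : fl true = false → P c (dl s(ba true true, ba false true) +
    dl s(ba true false, ba false true) - dl s(ba true true, ba false false) -
    dl s(ba true false, ba false false))
  pF : fl false = false → P c (dl s(ba true true, ba false true) +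
    dl s(ba true true, ba false false) - dl s(ba true false, ba false true) -
    dl s(ba true false, ba false false))

end Defs

/-! ### Absorbers for one graph -/

/-- world G: `D` arbitrary even pairs of weight zero, without pairs inside `At` -/
def OneGStatement : Prop :=
  ∀ m : ℕ, ∃ K : ℕ, ∀ (V : Type) [Fintype V] [DecidableEq V] (E : Finset (Sym2 V))
    (sd : V → Bool) (At U B : Finset V) (D : Finset (Sym2 V)) (ε σ : ℝ) (q q' : ℕ),
    GX E sd At ε σ → Bd At B q' ε σ → q + K ≤ q' → U.card ≤ m → D ⊆ U.sym2 → DOK sd At D →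
    OneOK (alG sd) E U B q K D

/-- rigid worlds -/
def OneRStatement : Prop :=
  ∀ m : ℕ, ∃ K : ℕ, ∀ (V : Type) [Fintype V] [DecidableEq V] (E : Finset (Sym2 V))
    (fl : Bool → Bool) (sd pt : V → Bool) (At U B : Finset V) (D : Finset (Sym2 V)) (ε σ : ℝ)
    (q q' : ℕ),
    RX E fl sd pt At ε σ → Bd At B q' ε σ → q + K ≤ q' → U.card ≤ m → D ⊆ U.sym2 → DOK sd At D →
    (∀ u v, s(u, v) ∈ D → Co fl sd pt u v) →
    ((fl false = true ∧ ∑ e ∈ D, tau fl sd pt e = 0) ∨
      (fl true = false ∧ fl false = false ∧ ∑ e ∈ D, gam pt e = 0)) →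
    OneOK (alR fl sd pt) E U B q K D

/-- rigid worlds with an exceptional edge: no torsion condition -/
def OneR0Statement : Prop :=
  ∀ m : ℕ, ∃ K : ℕ, ∀ (V : Type) [Fintype V] [DecidableEq V] (E : Finset (Sym2 V))
    (fl : Bool → Bool) (sd pt : V → Bool) (At U B : Finset V) (D : Finset (Sym2 V))
    (e₀ : Sym2 V) (ε σ : ℝ) (q q' : ℕ),
    fl false = true → RX E fl sd pt At ε σ → Bd At B q' ε σ → q + K ≤ q' → U.card ≤ m →
    Spec0 E fl sd pt At e₀ σ → e₀ ∉ D → insert e₀ D ⊆ U.sym2 → DOK sd At (insert e₀ D) →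
    (∀ u v, s(u, v) ∈ D → Co fl sd pt u v) →
    OneOK (alR0 fl sd pt e₀) E U B q K (insert e₀ D)

end F3.AB
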