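import Pool.Agent.F3.AB.Defs

/-!
# Block AB, row AB-1: sums of allowed triangles
-/

set_option autoImplicit false
set_option linter.unusedSectionVars false

namespace F3.AB

open Finset NW F1

variable {V : Type} [Fintype V] [DecidableEq V] {al al' : Tri V → Prop} {W : Finset V}

theorem AL.ne {a b c : V} (h : AL al a b c) : a ≠ b ∧ b ≠ c ∧ a ≠ c := by
  obtain ⟨h, -⟩ := h
  refine ⟨?_, ?_, ?_⟩
  · rintro rfl
    have h1 := Finset.card_le_two (a := a) (b := c)
    rw [Finset.insert_idem] at h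
    omega
  · rintro rfl
    have h1 := Finset.card_le_two (a := a) (b := b)
    have h2 : ({a, b, b} : Finset V) = {a, b} := by
      ext v
      simp only [Finset.mem_insert, Finset.mem_singleton]
      tauto
    rw [h2] at h
    omega
  · rintro rfl
    have h1 := Finset.card_le_two (a := a) (b := b)
    have h2 : ({a, b, a} : Finset V) = {a, b} := by
      ext v
      simp only [Finset.mem_insert, Finset.mem_singleton]
      tauto
    rw [h2] at h
    omega

private theorem e1_congr {a b c a' b' c' : V} (h : AL al a b c)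
    (e : ({a, b, c} : Finset V) = {a', b', c'}) : AL al a' b' c' := by
  obtain ⟨h, h1⟩ := h
  refine ⟨e ▸ h, ?_⟩
  have h2 : (⟨{a', b', c'}, e ▸ h⟩ : Tri V) = ⟨{a, b, c}, h⟩ := Subtype.ext e.symm
  rw [h2]
  exact h1

theorem AL.rot {a b c : V} (h : AL al a b c) : AL al b c a := by
  refine e1_congr h ?_
  ext v
  simp only [Finset.mem_insert, Finset.mem_singleton]
  tauto

theorem AL.swap {a b c : V} (h : AL al a b c) : AL al b a c := by
  refine e1_congr h ?_
  ext v
  simp only [Finset.mem_insert, Finset.mem_singleton]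
  tauto

theorem MD.add {M M' : Multiset (Sym2 V)} (h : MD al W M) (h' : MD al W M') :
    MD al W (M + M') := by
  induction h with
  | zero => rwa [zero_add]
  | cons h hn _ ih =>
    rw [add_assoc]
    exact MD.cons h hn ih

theorem MD.single {a b c : V} (h : AL al a b c) (hn : ¬ (a ∈ W ∧ b ∈ W ∧ c ∈ W)) :
    MD al W (trim a b c) := by
  have := MD.cons h hn (MD.zero (al := al) (W := W))
  rwa [add_zero] at this

private theorem e1_rot (a b c : V) : trim a b c = trim b c a := by
  unfold trim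
  rw [Sym2.eq_swap (a := a) (b := c), Sym2.eq_swap (a := b) (b := a)]
  abel

private theorem e1_swap (a b c : V) : trim a b c = trim b a c := by
  unfold trim
  rw [Sym2.eq_swap (a := a) (b := b)]
  abel

/-- the triangle which contains a given pair -/
theorem MD.find {M : Multiset (Sym2 V)} (h : MD al W M) {x y : V} (hx : x ∈ W) (hy : y ∈ W)
    (hm : s(x, y) ∈ M) :
    ∃ z M', z ∉ W ∧ AL al x y z ∧ M = trim x y z + M' ∧ MD al W M' := by
  induction h with
  | zero => simp at hm
  | @cons a b c M ha hn h ih =>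
    rcases Multiset.mem_add.1 hm with h1 | h1
    · simp only [trim, Multiset.mem_add, Multiset.mem_singleton, Sym2.eq_iff] at h1
      rcases h1 with ((⟨rfl, rfl⟩ | ⟨rfl, rfl⟩) | ⟨rfl, rfl⟩ | ⟨rfl, rfl⟩) |
        ⟨rfl, rfl⟩ | ⟨rfl, rfl⟩
      · exact ⟨c, M, fun hc => hn ⟨hx, hy, hc⟩, ha, rfl, h⟩
      · exact ⟨c, M, fun hc => hn ⟨hy, hx, hc⟩, ha.swap, by rw [e1_swap], h⟩
      · exact ⟨a, M, fun hc => hn ⟨hc, hx, hy⟩, ha.rot, by rw [e1_rot], h⟩
      · exact ⟨a, M, fun hc => hn ⟨hc, hy, hx⟩, ha.rot.swap, by rw [e1_rot, e1_swap], h⟩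
      · exact ⟨b, M, fun hc => hn ⟨hx, hc, hy⟩, ha.rot.rot.swap,
          by rw [e1_swap, e1_rot, e1_swap], h⟩
      · exact ⟨b, M, fun hc => hn ⟨hy, hc, hx⟩, ha.rot.rot, by rw [e1_rot, e1_rot], h⟩
    · obtain ⟨z, M', hz, e0, e, h2⟩ := ih h1
      refine ⟨z, trim a b c + M', hz, e0, ?_, MD.cons ha hn h2⟩
      rw [e]
      abel

/-- splitting off two edges at a new vertex -/
theorem peel {N a M' : Multiset (Sym2 V)} {x y z : V} (hz : z ∉ W)
    (ha : ∀ e ∈ a, ∀ v ∈ e, v ∈ W) (h : N + (s(x, y) ::ₘ a) = trim x y z + M') :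
    ∃ N', N = {s(y, z)} + {s(x, z)} + N' ∧ M' = N' + a := by
  have h' : N + a = {s(y, z)} + {s(x, z)} + M' := by
    have e1 : N + (s(x, y) ::ₘ a) = {s(x, y)} + (N + a) := by
      rw [← Multiset.singleton_add]
      abel
    have e2 : trim x y z + M' = {s(x, y)} + ({s(y, z)} + {s(x, z)} + M') := by
      unfold trim
      abel
    rw [e1, e2] at h
    exact add_left_cancel h
  have na : ∀ u, s(u, z) ∉ a := fun u hu => hz (ha _ hu z (Sym2.mem_mk_right _ _))
  have h1 : s(y, z) ∈ N := by
    have : s(y, z) ∈ N + a := by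
      rw [h']
      simp
    rcases Multiset.mem_add.1 this with h | h
    · exact h
    · exact absurd h (na y)
  obtain ⟨N₁, hN₁⟩ := Multiset.exists_cons_of_mem h1
  have h2 : s(x, z) ∈ N₁ := by
    have h3 : N₁ + a = {s(x, z)} + M' := by
      rw [hN₁, Multiset.cons_add, ← Multiset.singleton_add, add_assoc] at h'
      exact add_left_cancel h'
    have : s(x, z) ∈ N₁ + a := by
      rw [h3]
      simp
    rcases Multiset.mem_add.1 this with h | h
    · exact h
    · exact absurd h (na x)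
  obtain ⟨N₂, hN₂⟩ := Multiset.exists_cons_of_mem h2
  refine ⟨N₂, ?_, ?_⟩
  · rw [hN₁, hN₂, ← Multiset.singleton_add, ← Multiset.singleton_add, add_assoc]
  · rw [hN₁, hN₂, ← Multiset.singleton_add, ← Multiset.singleton_add] at h'
    have : ({s(y, z)} + {s(x, z)} : Multiset (Sym2 V)) + (N₂ + a) =
        {s(y, z)} + {s(x, z)} + M' := by
      rw [← h']
      abel
    exact (add_left_cancel this).symm

theorem DecA.empty : DecA al ∅ :=
  ⟨∅, fun _ h => absurd h (Finset.notMem_empty _), fun _ h => absurd h (Finset.notMem_empty _),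
    rfl⟩

theorem DecA.union {E F : Finset (Sym2 V)} (hE : DecA al E) (hF : DecA al F)
    (h : Disjoint E F) : DecA al (E ∪ F) := by
  obtain ⟨S, hS1, hS2, hS3⟩ := hE
  obtain ⟨T, hT1, hT2, hT3⟩ := hF
  have hSE : ∀ t ∈ S, NW.edg t.1 ⊆ E := fun t ht => by
    rw [← hS3]
    exact Finset.subset_biUnion_of_mem (fun T : Tri V => NW.edg T.1) ht
  have hTF : ∀ t ∈ T, NW.edg t.1 ⊆ F := fun t ht => by
    rw [← hT3]
    exact Finset.subset_biUnion_of_mem (fun T : Tri V => NW.edg T.1) ht
  refine ⟨S ∪ T, ?_, ?_, ?_⟩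
  · intro t ht
    rcases Finset.mem_union.1 ht with ht | ht
    · exact hS1 t ht
    · exact hT1 t ht
  · intro t ht t' ht' hne
    rcases Finset.mem_union.1 ht with ht | ht <;> rcases Finset.mem_union.1 ht' with ht' | ht'
    · exact hS2 t ht t' ht' hne
    · exact Finset.disjoint_of_subset_left (hSE t ht)
        (Finset.disjoint_of_subset_right (hTF t' ht') h)
    · exact Finset.disjoint_of_subset_left (hTF t ht)
        (Finset.disjoint_of_subset_right (hSE t' ht') h.symm)
    · exact hT2 t ht t' ht' hne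
  · rw [Finset.union_biUnion, hS3, hT3]

theorem DecA.mono {E : Finset (Sym2 V)} (hE : DecA al E)
    (h : ∀ T, al T → NW.edg T.1 ⊆ E → al' T) : DecA al' E := by
  obtain ⟨S, hS1, hS2, hS3⟩ := hE
  refine ⟨S, fun t ht => h t (hS1 t ht) ?_, hS2, hS3⟩
  rw [← hS3]
  exact Finset.subset_biUnion_of_mem (fun T : Tri V => NW.edg T.1) ht

theorem DecA.dec {E : Finset (Sym2 V)} (hE : DecA al E) : NW.Dec E := by
  obtain ⟨S, -, hS2, hS3⟩ := hE
  rw [← hS3]
  exact Dec.biUnion S (fun T : Tri V => NW.edg T.1) (fun t _ => dec_edg t.2) hS2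

private theorem e1_val {a b c : V} (hab : a ≠ b) (hbc : b ≠ c) (hac : a ≠ c) :
    (tri a b c).val = trim a b c := by
  unfold tri trim
  rw [Finset.insert_val_of_notMem, Finset.insert_val_of_notMem, Finset.singleton_val]
  · rw [← Multiset.singleton_add, ← Multiset.singleton_add, add_assoc]
  · simp only [Finset.mem_singleton, Sym2.eq_iff]
    rintro (⟨h, _⟩ | ⟨_, h⟩)
    · exact hab h.symm
    · exact hac h.symm
  · simp only [Finset.mem_insert, Finset.mem_singleton, Sym2.eq_iff]
    rintro ((⟨h, _⟩ | ⟨h, _⟩) | (⟨_, h⟩ | ⟨_, h⟩))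
    · exact hab h
    · exact hac h
    · exact hbc h
    · exact hab h.symm

private theorem e1_tri {a b c : V} (h : AL al a b c) : DecA al (tri a b c) := by
  obtain ⟨hab, hbc, hac⟩ := h.ne
  obtain ⟨h, h1⟩ := h
  refine ⟨{⟨{a, b, c}, h⟩}, ?_, ?_, ?_⟩
  · intro t ht
    rw [Finset.mem_singleton] at ht
    rw [ht]
    exact h1
  · intro t ht t' ht' hne
    rw [Finset.mem_singleton] at ht ht'
    exact absurd (ht.trans ht'.symm) hne
  · rw [Finset.singleton_biUnion, edg_triple hab hbc hac]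

/-- a sum of allowed triangles without repeated pairs is a decomposition -/
theorem MD.decA {M : Multiset (Sym2 V)} (h : MD al W M) :
    ∀ E : Finset (Sym2 V), E.val = M → DecA al E := by
  induction h with
  | zero =>
    intro E hE
    rw [Finset.val_eq_zero] at hE
    rw [hE]
    exact DecA.empty
  | @cons a b c M ha hn h ih =>
    intro E hE
    obtain ⟨hab, hbc, hac⟩ := ha.ne
    have hnd := E.nodup
    have htv : (tri a b c).val = trim a b c := e1_val hab hbc hac
    rw [hE, ← htv, Multiset.nodup_add] at hnd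
    obtain ⟨_, hM, hd⟩ := hnd
    have h1 := ih ⟨M, hM⟩ rfl
    have hd' : Disjoint (tri a b c) (⟨M, hM⟩ : Finset (Sym2 V)) := by
      rw [← Finset.disjoint_val]
      exact hd
    have e : E = tri a b c ∪ ⟨M, hM⟩ := by
      rw [← Finset.disjUnion_eq_union _ _ hd']
      apply Finset.val_injective
      rw [hE, Finset.disjUnion_val, htv]
    rw [e]
    exact DecA.union (e1_tri ha) h1 hd'

/-- sums over a decomposable set -/
theorem DecA.sum_zero {G : Type} [AddCommGroup G] (g : Sym2 V → G) {E : Finset (Sym2 V)}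
    (hE : DecA al E) (hg : ∀ T, al T → NW.edg T.1 ⊆ E → ∑ e ∈ NW.edg T.1, g e = 0) :
    ∑ e ∈ E, g e = 0 := by
  obtain ⟨S, hS1, hS2, hS3⟩ := hE
  have hsub : ∀ t ∈ S, NW.edg t.1 ⊆ E := fun t ht => by
    rw [← hS3]
    exact Finset.subset_biUnion_of_mem (fun T : Tri V => NW.edg T.1) ht
  rw [← hS3, Finset.sum_biUnion fun t ht t' ht' hne => hS2 t ht t' ht' hne]
  exact Finset.sum_eq_zero fun t ht => hg t (hS1 t ht) (hsub t ht)

end F3.AB
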