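import Pool.Agent.F3.AB.Eng1

/-!
# Block AB, row AB-2: gadgets
-/

set_option autoImplicit false
set_option linter.unusedSectionVars false

namespace F3.AB

open Finset NW F1

variable {V : Type} [Fintype V] [DecidableEq V] {al : Tri V → Prop} {E : Finset (Sym2 V)}
  {W B : Finset V} {q : ℕ}

theorem Gd.symm {c : ℕ} {α β : Multiset (Sym2 V)} (h : Gd al E W B q c α β) :
    Gd al E W B q c β α := by
  intro S hS hq
  obtain ⟨T, N, h1, h2, h3, h4, h5⟩ := h S hS hq
  exact ⟨T, N, h1, h2, h3, h5, h4⟩

theorem Gd.mono {c c' : ℕ} {α β : Multiset (Sym2 V)} (h : Gd al E W B q c α β) (hc : c ≤ c') :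
    Gd al E W B q c' α β := by
  intro S hS hq
  obtain ⟨T, N, h1, h2⟩ := h S hS (by omega)
  exact ⟨T, N, h1.trans hc, h2⟩

theorem Gd.zero : Gd al E W B q 0 0 0 := by
  intro S _ _
  refine ⟨∅, 0, le_rfl, Finset.disjoint_empty_left _, ⟨Multiset.nodup_zero, ?_, ?_, ?_⟩, ?_, ?_⟩
  · intro e he
    exact absurd he (Multiset.notMem_zero e)
  · intro e he
    exact absurd he (Multiset.notMem_zero e)
  · intro e he
    exact absurd he (Multiset.notMem_zero e)
  · rw [add_zero]
    exact MD.zero
  · rw [add_zero]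
    exact MD.zero

/-- two sets of new edges -/
theorem New.add {S T T' : Finset V} {N N' : Multiset (Sym2 V)} (h : New E S T N)
    (h' : New E (S ∪ T) T' N') (hd : Disjoint T' (S ∪ T)) : New E S (T ∪ T') (N + N') where
  nd := by
    rw [Multiset.nodup_add]
    refine ⟨h.nd, h'.nd, ?_⟩
    rw [Multiset.disjoint_left]
    intro e he he'
    obtain ⟨v, hv, hvT⟩ := h'.new e he'
    exact Finset.disjoint_left.1 hd hvT (h.supp e he v hv)
  sub e he := by
    rcases Multiset.mem_add.1 he with he | he
    · exact h.sub e he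
    · exact h'.sub e he
  new e he := by
    rcases Multiset.mem_add.1 he with he | he
    · obtain ⟨v, hv, hvT⟩ := h.new e he
      exact ⟨v, hv, Finset.mem_union_left _ hvT⟩
    · obtain ⟨v, hv, hvT⟩ := h'.new e he
      exact ⟨v, hv, Finset.mem_union_right _ hvT⟩
  supp e he v hv := by
    rw [← Finset.union_assoc]
    rcases Multiset.mem_add.1 he with he | he
    · exact Finset.mem_union_left _ (h.supp e he v hv)
    · exact h'.supp e he v hv

/-- a part of a set of new edges -/
theorem New.of_add {S T : Finset V} {N M : Multiset (Sym2 V)} (h : New E S T (M + N)) :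
    New E S T N where
  nd := (Multiset.nodup_add.1 h.nd).2.1
  sub e he := h.sub e (Multiset.mem_add.2 (Or.inr he))
  new e he := h.new e (Multiset.mem_add.2 (Or.inr he))
  supp e he := h.supp e (Multiset.mem_add.2 (Or.inr he))

theorem Gd.add {c c' : ℕ} {α β α' β' : Multiset (Sym2 V)} (h : Gd al E W B q c α β)
    (h' : Gd al E W B q c' α' β') : Gd al E W B q (c + c') (α + α') (β + β') := by
  intro S hS hq
  obtain ⟨T, N, t1, t2, t3, t4, t5⟩ := h S hS (by omega)
  have hc := Finset.card_union_le S T
  obtain ⟨T', N', s1, s2, s3, s4, s5⟩ := h' (S ∪ T) (hS.trans Finset.subset_union_left) (by omega)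
  have hc' := Finset.card_union_le T T'
  rw [Finset.disjoint_union_right] at t2 s2
  refine ⟨T ∪ T', N + N', by omega, ?_, t3.add s3 s2.1, ?_, ?_⟩
  · rw [Finset.disjoint_union_left, Finset.disjoint_union_right, Finset.disjoint_union_right]
    exact ⟨t2, (Finset.disjoint_union_right.1 s2.1).1, s2.2⟩
  · have e : N + N' + (α + α') = N + α + (N' + α') := by abel
    rw [e]
    exact t4.add s4
  · have e : N + N' + (β + β') = N + β + (N' + β') := by abel
    rw [e]
    exact t5.add s5

/-- **cancellation** -/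
theorem Gd.cancel {k c : ℕ} {e : Sym2 V} {α β : Multiset (Sym2 V)}
    (h : Gd al E W B q k (e ::ₘ α) (e ::ₘ β)) (he : VP al E W B q c e)
    (hα : ∀ d ∈ α, ∀ v ∈ d, v ∈ W) (hβ : ∀ d ∈ β, ∀ v ∈ d, v ∈ W) :
    Gd al E W B q (k + c) α β := by
  induction e with
  | _ x y =>
    have hx : x ∈ W := he.inW x (Sym2.mem_mk_left _ _)
    have hy : y ∈ W := he.inW y (Sym2.mem_mk_right _ _)
    intro S hS hq
    obtain ⟨T, N, t1, t2, t3, t4, t5⟩ := h S hS (by omega)
    obtain ⟨z, M₂, hz, az, e2, d2⟩ := t4.find hx hy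
      (Multiset.mem_add.2 (Or.inr (Multiset.mem_cons_self _ _)))
    obtain ⟨t, M₁, ht, at', e1, d1⟩ := t5.find hx hy
      (Multiset.mem_add.2 (Or.inr (Multiset.mem_cons_self _ _)))
    obtain ⟨N₂, f2, r2⟩ := peel hz hα e2
    obtain ⟨N₁, f1, r1⟩ := peel ht hβ e1
    by_cases hzt : z = t
    · subst hzt
      have h12 : N₂ = N₁ := by
        rw [f2] at f1
        exact add_left_cancel f1
      subst h12
      refine ⟨T, N₂, by omega, t2, ?_, r2 ▸ d2, r1 ▸ d1⟩
      rw [f2] at t3
      exact t3.of_add
    · have mem : ∀ w : V, s(x, w) ∈ N → w ∈ T := by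
        intro w hw
        obtain ⟨v, hv, hvT⟩ := t3.new _ hw
        rcases Sym2.mem_iff.1 hv with rfl | rfl
        · exact absurd (Finset.mem_union_left _ (hS hx)) (Finset.disjoint_left.1 t2 hvT)
        · exact hvT
      have xz : s(x, z) ∈ N := by rw [f2]; simp
      have yz : s(y, z) ∈ N := by rw [f2]; simp
      have xt : s(x, t) ∈ N := by rw [f1]; simp
      have yt : s(y, t) ∈ N := by rw [f1]; simp
      have zT := mem z xz
      have tT := mem t xt
      have zB : z ∉ B := fun hB =>
        Finset.disjoint_left.1 t2 zT (Finset.mem_union_right _ hB)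
      have tB : t ∉ B := fun hB =>
        Finset.disjoint_left.1 t2 tT (Finset.mem_union_right _ hB)
      have hc := Finset.card_union_le S T
      obtain ⟨T', N', s1, s2, s3, s4, s5⟩ := he.sw x y rfl z t hzt hz ht zB tB (t3.sub _ xz)
        (t3.sub _ yz) (t3.sub _ xt) (t3.sub _ yt) az at' (S ∪ T)
        (hS.trans Finset.subset_union_left) (Finset.mem_union_right _ zT)
        (Finset.mem_union_right _ tT) (by omega)
      have hc' := Finset.card_union_le T T'
      rw [Finset.disjoint_union_right] at t2 s2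
      refine ⟨T ∪ T', N + N', by omega, ?_, t3.add s3 s2.1, ?_, ?_⟩
      · rw [Finset.disjoint_union_left, Finset.disjoint_union_right, Finset.disjoint_union_right]
        exact ⟨t2, (Finset.disjoint_union_right.1 s2.1).1, s2.2⟩
      · have e : N + N' + α = N' + ({s(y, z)} + {s(x, z)}) + M₂ := by
          rw [r2, f2]
          abel
        rw [e]
        exact s4.add d2
      · have e : N + N' + β = N' + ({s(y, t)} + {s(x, t)}) + M₁ := by
          rw [r1, f1]
          abel
        rw [e]
        exact s5.add d1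

theorem Gd.cancels {k c : ℕ} (s : Multiset (Sym2 V)) {α β : Multiset (Sym2 V)}
    (h : Gd al E W B q k (s + α) (s + β)) (hs : ∀ e ∈ s, VP al E W B q c e)
    (hα : ∀ d ∈ α, ∀ v ∈ d, v ∈ W) (hβ : ∀ d ∈ β, ∀ v ∈ d, v ∈ W) :
    Gd al E W B q (k + s.card * c) α β := by
  induction s using Multiset.induction_on generalizing k with
  | empty =>
    rw [zero_add, zero_add] at h
    exact h.mono (by simp)
  | cons e s ih =>
    have hs' : ∀ e ∈ s, VP al E W B q c e := fun e he => hs e (Multiset.mem_cons_of_mem he)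
    rw [Multiset.cons_add, Multiset.cons_add] at h
    have supp : ∀ γ : Multiset (Sym2 V), (∀ d ∈ γ, ∀ v ∈ d, v ∈ W) →
        ∀ d ∈ s + γ, ∀ v ∈ d, v ∈ W := by
      intro γ hγ d hd
      rcases Multiset.mem_add.1 hd with hd | hd
      · exact (hs' d hd).inW
      · exact hγ d hd
    have h1 := ih (h.cancel (hs e (Multiset.mem_cons_self _ _)) (supp α hα) (supp β hβ)) hs'
    refine h1.mono ?_
    rw [Multiset.card_cons]
    exact le_of_eq (by ring)

theorem Gd.refl {c : ℕ} (X : Multiset (Sym2 V)) (hX : ∀ e ∈ X, VP al E W B q c e) :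
    Gd al E W B q X.card X X := by
  induction X using Multiset.induction_on with
  | empty => exact Gd.zero
  | cons e X ih =>
    have h1 := (hX e (Multiset.mem_cons_self _ _)).rf.add
      (ih fun d hd => hX d (Multiset.mem_cons_of_mem hd))
    rw [Multiset.singleton_add] at h1
    refine h1.mono ?_
    rw [Multiset.card_cons]
    omega

end F3.AB
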