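import Pool.Agent.F3.AB.Eng2

/-!
# Block AB, row AB-3: signed sums of gadgets
-/

set_option autoImplicit false
set_option linter.unusedSectionVars false

namespace F3.AB

open Finset NW F1

variable {V : Type} [Fintype V] [DecidableEq V] {al : Tri V → Prop} {E : Finset (Sym2 V)}
  {W B : Finset V} {q c : ℕ}

theorem sgAx : SgAx (Sg al E W B q c) where
  zero := by
    refine ⟨0, 0, by simp, by simp, ?_, ?_, Gd.zero, ?_⟩
    · intro e he
      exact absurd he (Multiset.notMem_zero e)
    · intro e he
      exact absurd he (Multiset.notMem_zero e)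
    · intro e
      simp
  add := by
    rintro k l f g ⟨a, b, h1, h2, h3, h4, h5, h6⟩ ⟨a', b', h1', h2', h3', h4', h5', h6'⟩
    refine ⟨a + a', b + b', ?_, ?_, ?_, ?_, h5.add h5', ?_⟩
    · rw [Multiset.card_add]; omega
    · rw [Multiset.card_add]; omega
    · intro e he
      rcases Multiset.mem_add.mp he with h | h
      · exact h3 e h
      · exact h3' e h
    · intro e he
      rcases Multiset.mem_add.mp he with h | h
      · exact h4 e h
      · exact h4' e h
    · intro e
      rw [Pi.add_apply, h6, h6', Multiset.count_add, Multiset.count_add]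
      push_cast
      ring
  neg := by
    rintro k f ⟨a, b, h1, h2, h3, h4, h5, h6⟩
    refine ⟨b, a, h2, h1, h4, h3, h5.symm, ?_⟩
    intro e
    rw [Pi.neg_apply, h6]
    ring
  mono := by
    rintro k l f ⟨a, b, h1, h2, h3, h4, h5, h6⟩ hkl
    exact ⟨a, b, h1.trans hkl, h2.trans hkl, h3, h4, h5.mono hkl, h6⟩

/-- one gadget -/
theorem Sg.of {k : ℕ} {α β : Multiset (Sym2 V)} (h : Gd al E W B q k α β) (hα : α.card ≤ k)
    (hβ : β.card ≤ k) (ha : ∀ e ∈ α, VP al E W B q c e) (hb : ∀ e ∈ β, VP al E W B q c e) :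
    Sg al E W B q c k (fun e => (α.count e : ℤ) - (β.count e : ℤ)) :=
  ⟨α, β, hα, hβ, ha, hb, h, fun _ => rfl⟩

/-- a signed sum of gadgets gives a gadget -/
theorem Sg.gd {k : ℕ} {f : Sym2 V → ℤ} (h : Sg al E W B q c k f) {a b : Multiset (Sym2 V)}
    (ha : ∀ e ∈ a, VP al E W B q c e) (hb : ∀ e ∈ b, VP al E W B q c e)
    (hf : ∀ e, f e = (a.count e : ℤ) - (b.count e : ℤ)) :
    Gd al E W B q (a.card + 2 * k + 2 * k * c) a b := by
  obtain ⟨x, y, h1, h2, h3, h4, h5, h6⟩ := h
  have hxy : a + y = b + x := by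
    ext e
    rw [Multiset.count_add, Multiset.count_add]
    have h7 := hf e
    rw [h6 e] at h7
    omega
  have h8 : Gd al E W B q (a + y).card (a + y) (a + y) := by
    refine Gd.refl (c := c) _ ?_
    intro e he
    rcases Multiset.mem_add.mp he with h | h
    · exact ha e h
    · exact h4 e h
  have h9 := h8.add h5
  have e1 : a + y + x = (x + y) + a := by
    rw [add_comm x y, add_comm (y + x) a, ← add_assoc]
  have e2 : a + y + y = (x + y) + b := by
    rw [hxy]
    rw [add_comm b x, add_assoc, add_comm b y, ← add_assoc]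
  rw [e1, e2] at h9
  have h10 := Gd.cancels (c := c) (x + y) h9 (by
    intro e he
    rcases Multiset.mem_add.mp he with h | h
    · exact h3 e h
    · exact h4 e h) (fun d hd => (ha d hd).inW) (fun d hd => (hb d hd).inW)
  refine h10.mono ?_
  rw [Multiset.card_add, Multiset.card_add]
  have h11 : (x.card + y.card) * c ≤ 2 * k * c := Nat.mul_le_mul_right c (by omega)
  omega

end F3.AB
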