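import Pool.Agent.F3.AB.GadI
import Pool.Agent.F3.AB.Walk

/-!
# Block AB, row AB-13: gadgets along walks in the generic side
-/

set_option autoImplicit false
set_option linter.unusedSectionVars false

namespace F3.AB

open Finset NW F1

variable {V : Type} [Fintype V] [DecidableEq V] {E : Finset (Sym2 V)} {sd : V → Bool}
  {At W B : Finset V} {q : ℕ} {ε σ : ℝ}

/-- the vertices of the side `false` which are not adjacent to `x` -/
private def gg_mis (E : Finset (Sym2 V)) (sd : V → Bool) (x : V) : Finset V :=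
  univ.filter (fun w => sd w = false ∧ s(x, w) ∉ E)

private theorem gg_mis_card (h : GX E sd At ε σ) {x : V} (hx : x ∉ At) (hs : sd x = true) :
    ((gg_mis E sd x).card : ℝ) ≤ ε * nn V := by
  have h1 := h.cx.miss x hx
  have h2 : gg_mis E sd x = univ.filter (fun w => sd w ≠ sd x ∧ s(x, w) ∉ E) := by
    unfold gg_mis
    rw [hs]
    refine Finset.filter_congr fun w _ => ?_
    cases sd w <;> simp
  rw [h2]
  exact h1

private theorem gg_nn (hB : Bd At B q ε σ) : (40 : ℝ) ≤ ε * nn V := by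
  have h1 : (40 : ℝ) ≤ (q : ℝ) := by exact_mod_cast hB.q40
  exact h1.trans hB.q_le

private theorem gg_path (h : GX E sd At ε σ) (hB : Bd At B q ε σ) {x₁ x₂ y z : V}
    (h1A : x₁ ∉ At) (h2A : x₂ ∉ At) (hyA : y ∉ At) (hzA : z ∉ At) (hs1 : sd x₁ = true)
    (hs2 : sd x₂ = true) (hsy : sd y = false) (hsz : sd z = false) (S : Finset V)
    (hS : S.card ≤ q) :
    ∃ l : List V, l.length = 4 ∧ GPath (alC (fun _ _ => True) sd) E S B x₁ x₂ y z l := by
  have hn := gg_nn hB
  have hw := h.gen1 y z hyA hzA hsy hsz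
  have hnn : 0 ≤ nn V := by unfold nn; exact Nat.cast_nonneg _
  have hb : ((S ∪ B ∪ gg_mis E sd x₁ ∪ gg_mis E sd x₂).card : ℝ) ≤ 4 * ε * nn V := by
    have a1 : (S ∪ B ∪ gg_mis E sd x₁ ∪ gg_mis E sd x₂).card ≤
        S.card + B.card + (gg_mis E sd x₁).card + (gg_mis E sd x₂).card := by
      refine (Finset.card_union_le _ _).trans (Nat.add_le_add_right ?_ _)
      refine (Finset.card_union_le _ _).trans (Nat.add_le_add_right ?_ _)
      exact Finset.card_union_le _ _
    have a2 : ((S ∪ B ∪ gg_mis E sd x₁ ∪ gg_mis E sd x₂).card : ℝ) ≤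
        (S.card : ℝ) + B.card + (gg_mis E sd x₁).card + (gg_mis E sd x₂).card := by
      exact_mod_cast a1
    have a3 : (S.card : ℝ) ≤ ε * nn V := le_trans (by exact_mod_cast hS) hB.q_le
    have a4 := hB.B_card
    have a5 := gg_mis_card h h1A hs1
    have a6 := gg_mis_card h h2A hs2
    linarith
  obtain ⟨a, b, c, d, hnd, hmem, hya, hab, hbc, hcd, hdz⟩ := walk_sel hw hb (by
    have h3 := mul_le_mul_of_nonneg_right hB.sig hnn
    have h4 : (σ - 4 * (4 * ε)) * nn V = σ * nn V - 16 * (ε * nn V) := by ring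
    rw [h4]
    linarith)
  -- the properties of the inner vertices
  have hin : ∀ i ∈ [a, b, c, d], sd i = false ∧ i ∉ S ∧ i ∉ B ∧ s(x₁, i) ∈ E ∧ s(x₂, i) ∈ E := by
    intro i hi
    obtain ⟨m1, m2⟩ := hmem i hi
    rw [Finset.mem_sdiff] at m1
    have m3 : sd i = false := (Finset.mem_filter.mp m1.1).2
    simp only [Finset.mem_union, not_or] at m2
    obtain ⟨⟨⟨m4, m5⟩, m6⟩, m7⟩ := m2
    refine ⟨m3, m4, m5, ?_, ?_⟩
    · by_contra hcon
      exact m6 (Finset.mem_filter.mpr ⟨Finset.mem_univ _, m3, hcon⟩)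
    · by_contra hcon
      exact m7 (Finset.mem_filter.mpr ⟨Finset.mem_univ _, m3, hcon⟩)
  have sa := (hin a (by simp)).1
  have sb := (hin b (by simp)).1
  have sc := (hin c (by simp)).1
  have sdd := (hin d (by simp)).1
  have hal : ∀ x p p' : V, sd x = true → sd p = false → sd p' = false → s(p, p') ∈ E →
      AL (alC (fun _ _ => True) sd) x p p' := by
    intro x p p' hx hp hp' hpp
    have hne : p ≠ p' := by
      rintro rfl
      exact h.cx.nl _ hpp (by simp)
    have h3 : AL (alC (fun _ _ => True) sd) p p' x :=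
      al_mk h.cx hne (by rw [hp, hp']) (by rw [hp, hx]; simp) trivial
    exact h3.rot.rot
  have hpal : ∀ x : V, sd x = true → Pal (alC (fun _ _ => True) sd) x y [a, b, c, d] z := by
    intro x hx
    exact ⟨hal x y a hx hsy sa hya, hal x a b hx sa sb hab, hal x b c hx sb sc hbc,
      hal x c d hx sc sdd hcd, hal x d z hx sdd hsz hdz⟩
  refine ⟨[a, b, c, d], rfl, hnd, ?_, ?_, ?_, hpal x₁ hs1, hpal x₂ hs2⟩
  · intro i hi
    exact ⟨(hin i hi).2.1, (hin i hi).2.2.1⟩
  · intro e he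
    simp only [pth, Multiset.mem_add, Multiset.mem_singleton] at he
    rcases he with rfl | rfl | rfl | rfl | rfl
    · exact hya
    · exact hab
    · exact hbc
    · exact hcd
    · exact hdz
  · intro i hi
    exact (hin i hi).2.2.2

theorem gadG (h : GX E sd At ε σ) (hB : Bd At B q ε σ) {x₁ x₂ y z : V} (h1 : x₁ ∈ W)
    (h2 : x₂ ∈ W) (hy : y ∈ W) (hz : z ∈ W) (h12 : x₁ ≠ x₂) (hyz : y ≠ z) (h1A : x₁ ∉ At)
    (h2A : x₂ ∉ At) (hyA : y ∉ At) (hzA : z ∉ At) (hs1 : sd x₁ = true) (hs2 : sd x₂ = true)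
    (hsy : sd y = false) (hsz : sd z = false) :
    Sg (alC (fun _ _ => True) sd) E W B q 5 4 (fK x₁ x₂ y z) := by
  refine gadK h.cx hB h1 h2 hy hz h12 hyz h1A h2A hyA hzA (by rw [hs1, hs2])
    (by rw [hsy, hs1]; simp) (by rw [hsz, hs1]; simp) 4 ⟨2, rfl⟩ (by norm_num) ?_
  intro S _ hS
  exact gg_path h hB h1A h2A hyA hzA hs1 hs2 hsy hsz S (by omega)

end F3.AB
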