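import Pool.Agent.F3.AB.Switch
import Pool.Agent.F3.AB.Eng3

/-!
# Block AB, row AB-8: gadgets of type (I)
-/

set_option autoImplicit false
set_option linter.unusedSectionVars false

namespace F3.AB

open Finset NW F1

variable {V : Type} [Fintype V] [DecidableEq V] {E : Finset (Sym2 V)} {Co : V → V → Prop}
  {sd : V → Bool} {At W B : Finset V} {q : ℕ} {ε σ : ℝ}

private theorem gi_two {e₁ e₂ : Sym2 V} {p : Sym2 V → Prop} (h1 : p e₁) (h2 : p e₂) :
    ∀ e ∈ ({e₁} + {e₂} : Multiset (Sym2 V)), p e := by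
  intro e he
  rcases Multiset.mem_add.1 he with h | h
  · rw [Multiset.mem_singleton.1 h]
    exact h1
  · rw [Multiset.mem_singleton.1 h]
    exact h2

private theorem gi_card (e₁ e₂ : Sym2 V) : ({e₁} + {e₂} : Multiset (Sym2 V)).card = 2 := by
  rw [Multiset.card_add, Multiset.card_singleton, Multiset.card_singleton]

private theorem gi_sum (e₁ e₂ e₃ e₄ : Sym2 V) :
    (fun e => ((({e₁} + {e₂} : Multiset (Sym2 V)).count e : ℕ) : ℤ) -
      ((({e₃} + {e₄} : Multiset (Sym2 V)).count e : ℕ) : ℤ)) =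
      dl e₁ + dl e₂ - dl e₃ - dl e₄ := by
  funext e
  simp only [dl, Multiset.count_add, Multiset.count_singleton, Pi.add_apply, Pi.sub_apply]
  push_cast
  ring

private theorem gi_ne (h : CX E Co sd At ε σ) {a b : V} (hab : s(a, b) ∈ E) : a ≠ b := by
  rintro rfl
  exact h.nl _ hab (by simp)

/-- `x₁`, `x₂` with many common neighbours on their side -/
theorem gadI (h : CX E Co sd At ε σ) (hB : Bd At B q ε σ) {x₁ x₂ y z : V} (h1 : x₁ ∈ W)
    (h2 : x₂ ∈ W) (hy : y ∈ W) (hz : z ∈ W) (hc : Cm E sd σ x₁ x₂) (h2A : x₂ ∉ At)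
    (hyA : y ∉ At) (hzA : z ∉ At) (hsy : sd y ≠ sd x₁) (hsz : sd z ≠ sd x₁) :
    Sg (alC Co sd) E W B q 5 2 (fC x₁ x₂ y z) ∧
      (y ≠ z → Sg (alC Co sd) E W B q 5 2 (fK x₁ x₂ y z)) := by
  have hn : 0 < Fintype.card V := Fintype.card_pos_iff.mpr ⟨x₁⟩
  have hs12 : sd x₁ = sd x₂ := hc.1
  have hz0 : Sg (alC Co sd) E W B q 5 2 0 := sgAx.mono 0 2 0 sgAx.zero (by norm_num)
  have hsy2 : sd y ≠ sd x₂ := by rw [← hs12]; exact hsy
  have hsz2 : sd z ≠ sd x₂ := by rw [← hs12]; exact hsz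
  have h1y : x₁ ≠ y := fun h => hsy (by rw [h])
  have h1z : x₁ ≠ z := fun h => hsz (by rw [h])
  have h2y : x₂ ≠ y := fun h => hsy2 (by rw [h])
  have h2z : x₂ ≠ z := fun h => hsz2 (by rw [h])
  have v1y := cx_vp h hB h1 hy (Ne.symm hsy) (Or.inr hyA)
  have v1z := cx_vp h hB h1 hz (Ne.symm hsz) (Or.inr hzA)
  have v2y := cx_vp h hB h2 hy (Ne.symm hsy2) (Or.inr hyA)
  have v2z := cx_vp h hB h2 hz (Ne.symm hsz2) (Or.inr hzA)
  -- choice of the inner vertex on the side of `x₁`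
  have hsel : ∀ (u v : V), u ∉ At → v ∉ At → sd u ≠ sd x₁ → sd v ≠ sd x₁ → ∀ S : Finset V,
      S.card ≤ q → ∃ i, sd i = sd x₁ ∧ s(x₁, i) ∈ E ∧ s(x₂, i) ∈ E ∧ i ∉ S ∧ i ∉ B ∧
        s(u, i) ∈ E ∧ s(v, i) ∈ E := by
    intro u v hu hv hsu hsv S hS
    obtain ⟨i, hi, hiS, hiB, hil⟩ := sel h hB hn hc.2 [u, v] (by simp) (by
      intro w hw
      simp only [List.mem_cons, List.not_mem_nil, or_false] at hw
      rcases hw with rfl | rfl
      · refine ⟨hu, fun t ht => ?_⟩
        rw [Finset.mem_filter] at ht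
        rw [ht.2.1]
        exact Ne.symm hsu
      · refine ⟨hv, fun t ht => ?_⟩
        rw [Finset.mem_filter] at ht
        rw [ht.2.1]
        exact Ne.symm hsv) S hS
    rw [Finset.mem_filter] at hi
    exact ⟨i, hi.2.1, hi.2.2.1, hi.2.2.2, hiS, hiB, hil u (by simp), hil v (by simp)⟩
  by_cases h12 : x₁ = x₂
  · constructor
    · have : fC x₁ x₂ y z = 0 := by
        unfold fC
        rw [h12]
        abel
      rw [this]
      exact hz0
    · intro _
      have : fK x₁ x₂ y z = 0 := by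
        unfold fK
        rw [h12]
        abel
      rw [this]
      exact hz0
  by_cases hyz : y = z
  · refine ⟨?_, fun h => absurd hyz h⟩
    have : fC x₁ x₂ y z = 0 := by
      unfold fC
      rw [hyz]
      abel
    rw [this]
    exact hz0
  -- triangles with the inner vertex `i`
  have hali : ∀ {x i w : V}, s(x, i) ∈ E → sd x = sd x₁ → sd i = sd x₁ → sd w ≠ sd x₁ →
      AL (alC Co sd) x i w := by
    intro x i w h3 h4 h5 h6
    exact al_mk h (gi_ne h h3) (by rw [h4, h5]) (by rw [h4]; exact h6) (h.core _ _ h3)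
  constructor
  · have hg : Gd (alC Co sd) E W B q 2 ({s(x₁, y)} + {s(x₂, z)}) ({s(x₂, y)} + {s(x₁, z)}) := by
      intro S hS hSq
      obtain ⟨i, hi, h1i, h2i, hiS, hiB, hyi, hzi⟩ := hsel y z hyA hzA hsy hsz S (by omega)
      have hP : GPath (alC Co sd) E S B x₁ x₂ y z [i] := by
        refine ⟨by simp, ?_, ?_, ?_, ?_, ?_⟩
        · intro j hj
          rw [List.mem_singleton] at hj
          rw [hj]
          exact ⟨hiS, hiB⟩
        · exact gi_two hyi (by rw [Sym2.eq_swap]; exact hzi)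
        · intro j hj
          rw [List.mem_singleton] at hj
          rw [hj]
          exact ⟨h1i, h2i⟩
        · exact ⟨(hali h1i rfl hi hsy).swap.rot, hali h1i rfl hi hsz⟩
        · exact ⟨(hali h2i hs12.symm hi hsy).swap.rot, hali h2i hs12.symm hi hsz⟩
      obtain ⟨T, N, hT, hd, hN, ha, hb⟩ := C_out hP (by simp) hS (hS h1) (hS h2) (hS hy) (hS hz)
        h12 hyz h1y h1z h2y h2z
      exact ⟨T, N, hT.trans (by simp), hd, hN, ha, hb⟩
    have h3 := Sg.of (c := 5) hg (gi_card _ _).le (gi_card _ _).le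
      (gi_two v1y v2z)
      (gi_two v2y v1z)
    rw [gi_sum] at h3
    exact h3
  · intro _
    have hg : Gd (alC Co sd) E W B q 2 ({s(x₁, y)} + {s(x₁, z)}) ({s(x₂, y)} + {s(x₂, z)}) := by
      intro S hS hSq
      obtain ⟨b, hb, hbS, hbB, hbl⟩ := sel h hB hn (h.mix x₁ z (Ne.symm hsz) hzA) [x₂] (by simp)
        (by
          intro w hw
          rw [List.mem_singleton] at hw
          rw [hw]
          refine ⟨h2A, fun t ht => ?_⟩
          rw [Finset.mem_filter] at ht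
          rw [ht.2.1]
          exact hsz2) S (by omega)
      rw [Finset.mem_filter] at hb
      obtain ⟨_, hsb, hzb, h1b⟩ := hb
      have h2b : s(x₂, b) ∈ E := hbl x₂ (by simp)
      have hsb1 : sd b ≠ sd x₁ := by rw [hsb]; exact hsz
      obtain ⟨i, hi, h1i, h2i, hiS, hiB, hyi, hbi⟩ := hsel y b hyA (fun h => hbB (hB.At_sub h))
        hsy hsb1 S (by omega)
      have hib : i ≠ b := fun h => hsb1 (by rw [← h]; exact hi)
      have halb : ∀ {x : V}, sd x = sd x₁ → AL (alC Co sd) x b z := by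
        intro x hx
        have h3 : AL (alC Co sd) b z x := al_mk h (gi_ne h hzb).symm hsb
          (by rw [hx]; exact Ne.symm hsb1) (h.symm _ _ (h.core _ _ hzb))
        exact h3.rot.rot
      have hP : GPath (alC Co sd) E S B x₁ x₂ y z [i, b] := by
        refine ⟨by simp [hib], ?_, ?_, ?_, ?_, ?_⟩
        · intro j hj
          simp only [List.mem_cons, List.not_mem_nil, or_false] at hj
          rcases hj with rfl | rfl
          · exact ⟨hiS, hiB⟩
          · exact ⟨hbS, hbB⟩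
        · intro e he
          rcases Multiset.mem_add.1 he with h3 | h3
          · rw [Multiset.mem_singleton.1 h3]
            exact hyi
          · exact gi_two (p := fun e => e ∈ E)
              (by rw [Sym2.eq_swap]; exact hbi) (by rw [Sym2.eq_swap]; exact hzb) e h3
        · intro j hj
          simp only [List.mem_cons, List.not_mem_nil, or_false] at hj
          rcases hj with rfl | rfl
          · exact ⟨h1i, h2i⟩
          · exact ⟨h1b, h2b⟩
        · exact ⟨(hali h1i rfl hi hsy).swap.rot, hali h1i rfl hi hsb1, halb rfl⟩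
        · exact ⟨(hali h2i hs12.symm hi hsy).swap.rot, hali h2i hs12.symm hi hsb1,
            halb hs12.symm⟩
      obtain ⟨T, N, hT, hd, hN, ha, hb⟩ := K_out hP (by simp) (by simp) hS (hS h1) (hS h2)
        (hS hy) (hS hz) h12 hyz h1y h1z h2y h2z
      exact ⟨T, N, hT, hd, hN, ha, hb⟩
    have h3 := Sg.of (c := 5) hg (gi_card _ _).le (gi_card _ _).le
      (gi_two v1y v1z)
      (gi_two v2y v2z)
    rw [gi_sum] at h3
    exact h3

/-- the K-gadget from given paths -/
theorem gadK (h : CX E Co sd At ε σ) (hB : Bd At B q ε σ) {x₁ x₂ y z : V} (h1 : x₁ ∈ W)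
    (h2 : x₂ ∈ W) (hy : y ∈ W) (hz : z ∈ W) (h12 : x₁ ≠ x₂) (hyz : y ≠ z) (h1A : x₁ ∉ At)
    (h2A : x₂ ∉ At) (hyA : y ∉ At) (hzA : z ∉ At) (hs : sd x₁ = sd x₂) (hsy : sd y ≠ sd x₁)
    (hsz : sd z ≠ sd x₁) (c : ℕ) (hc : Even c) (hc0 : 2 ≤ c)
    (hp : ∀ S : Finset V, W ⊆ S → S.card + c ≤ q →
      ∃ l : List V, l.length = c ∧ GPath (alC Co sd) E S B x₁ x₂ y z l) :
    Sg (alC Co sd) E W B q 5 c (fK x₁ x₂ y z) := by
  have hsy2 : sd y ≠ sd x₂ := by rw [← hs]; exact hsy
  have hsz2 : sd z ≠ sd x₂ := by rw [← hs]; exact hsz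
  have hg : Gd (alC Co sd) E W B q c ({s(x₁, y)} + {s(x₁, z)}) ({s(x₂, y)} + {s(x₂, z)}) := by
    intro S hS hSq
    obtain ⟨l, hl, hP⟩ := hp S hS hSq
    obtain ⟨T, N, hT, hd, hN, ha, hb⟩ := K_out hP
      (by
        rintro rfl
        rw [List.length_nil] at hl
        omega) (by rw [hl]; exact hc) hS (hS h1) (hS h2) (hS hy) (hS hz) h12 hyz
      (fun h => hsy (by rw [h])) (fun h => hsz (by rw [h])) (fun h => hsy2 (by rw [h]))
      (fun h => hsz2 (by rw [h]))
    exact ⟨T, N, hT.trans hl.le, hd, hN, ha, hb⟩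
  have h3 := Sg.of (c := 5) hg ((gi_card _ _).le.trans hc0) ((gi_card _ _).le.trans hc0)
    (gi_two (cx_vp h hB h1 hy (Ne.symm hsy) (Or.inl h1A))
      (cx_vp h hB h1 hz (Ne.symm hsz) (Or.inl h1A)))
    (gi_two (cx_vp h hB h2 hy (Ne.symm hsy2) (Or.inl h2A))
      (cx_vp h hB h2 hz (Ne.symm hsz2) (Or.inl h2A)))
  rw [gi_sum] at h3
  exact h3

end F3.AB
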