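import Pool.Agent.F3.AB.Walk

/-!
# Block AB, row AB-12: the generic world after deletion of a small graph
-/

set_option autoImplicit false
set_option linter.unusedSectionVars false

namespace F3.AB

open Finset NW F1

section

variable {V : Type} [Fintype V] [DecidableEq V]

theorem gx_card_sub (A B C D : Finset V) (a b c : ℝ) (h : A ⊆ B ∪ C ∪ D)
    (ha : a ≤ (A.card : ℝ)) (hb : (C.card : ℝ) ≤ b) (hc : (D.card : ℝ) ≤ c) :
    a - b - c ≤ (B.card : ℝ) := by
  have h1 := (Finset.card_le_card h).trans (Finset.card_union_le _ _)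
  have h2 := Finset.card_union_le B C
  have h3 : (A.card : ℝ) ≤ B.card + C.card + D.card := by exact_mod_cast h1.trans (by omega)
  linarith

theorem gx_inter (A B S : Finset V) (hA : A ⊆ S) (hB : B ⊆ S) (a b s : ℝ)
    (ha : a ≤ (A.card : ℝ)) (hb : b ≤ (B.card : ℝ)) (hs : (S.card : ℝ) ≤ s) :
    a + b - s ≤ ((A ∩ B).card : ℝ) := by
  have h1 := Finset.card_union_add_card_inter A B
  have h2 := Finset.card_le_card (Finset.union_subset hA hB)
  have h3 : (A.card : ℝ) + B.card ≤ S.card + (A ∩ B).card := by exact_mod_cast (by omega)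
  linarith

/-- double counting -/
theorem gx_double (S P W : Finset V) (R : V → V → Prop) [DecidableRel R] (n a s : ℝ)
    (hn : 0 < n) (hW : (W.card : ℝ) ≤ n) (hS : (S.card : ℝ) ≤ n) (ha : 0 ≤ a)
    (hSa : a ≤ (S.card : ℝ))
    (h1 : ∀ i ∈ S, a ≤ ((W.filter (fun w => R w i)).card : ℝ))
    (h2 : ∀ w ∈ W, w ∉ P → ((S.filter (fun i => R w i)).card : ℝ) ≤ s) (hs : 0 ≤ s) :
    a ^ 2 - s * n ≤ (P.card : ℝ) * n := by
  have e1 : ∑ w ∈ W, ((S.filter (fun i => R w i)).card : ℝ) =
      ∑ i ∈ S, ((W.filter (fun w => R w i)).card : ℝ) := by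
    simp only [Finset.card_filter]
    push_cast
    exact Finset.sum_comm
  have e2 : a ^ 2 ≤ ∑ i ∈ S, ((W.filter (fun w => R w i)).card : ℝ) := by
    calc a ^ 2 = a * a := sq a
      _ ≤ (S.card : ℝ) * a := mul_le_mul_of_nonneg_right hSa ha
      _ = ∑ _i ∈ S, a := by rw [Finset.sum_const, nsmul_eq_mul]
      _ ≤ _ := Finset.sum_le_sum h1
  have e3 : ∑ w ∈ W, ((S.filter (fun i => R w i)).card : ℝ) ≤
      ∑ w ∈ W, ((if w ∈ P then n else 0) + s) := by
    refine Finset.sum_le_sum fun w hw => ?_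
    by_cases hp : w ∈ P
    · rw [if_pos hp]
      have : ((S.filter (fun i => R w i)).card : ℝ) ≤ S.card := by
        exact_mod_cast Finset.card_filter_le _ _
      linarith
    · rw [if_neg hp, zero_add]
      exact h2 w hw hp
  have e4 : ∑ w ∈ W, ((if w ∈ P then n else 0) + s) ≤ (P.card : ℝ) * n + s * n := by
    rw [Finset.sum_add_distrib, Finset.sum_const, nsmul_eq_mul, ← Finset.sum_filter,
      Finset.sum_const, nsmul_eq_mul]
    have h5 : ((W.filter (fun w => w ∈ P)).card : ℝ) ≤ P.card := by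
      exact_mod_cast Finset.card_le_card (fun w hw => (Finset.mem_filter.1 hw).2)
    have h6 := mul_le_mul_of_nonneg_right h5 hn.le
    have h7 := mul_le_mul_of_nonneg_right hW hs
    linarith
  linarith

end

theorem gx_of_rob (θ : ℝ) (hθ : 0 < θ) : ∃ σ : ℝ, 0 < σ ∧ ∀ ε : ℝ, 0 < ε → 40 * ε ≤ σ →
    ∀ (V : Type) [Fintype V] [DecidableEq V] (H Z : Finset (Sym2 V)) (sd : V → Bool)
      (At : Finset V), 0 < Fintype.card V → RobG H sd At (ε / 4) θ → Sm (ε / 4) Z →
      GX (H \ Z) sd At ε σ := by
  refine ⟨min (θ / 4) (1 / 100), by positivity, ?_⟩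
  intro ε hε hεσ V _ _ H Z sd At hV hR hZ
  classical
  set σ := min (θ / 4) (1 / 100) with hσ
  have hσ0 : 0 < σ := by positivity
  have hσ1 : σ ≤ θ / 4 := min_le_left _ _
  have hσ2 : σ ≤ 1 / 100 := min_le_right _ _
  have hn : 0 < nn V := by
    unfold nn
    exact_mod_cast hV
  have hεn : 0 < ε * nn V := by positivity
  have hz : ∀ v, ((nbr Z v).card : ℝ) ≤ ε / 4 * nn V := fun v => hZ v
  have hmE : ∀ u v : V, s(u, v) ∈ H → v ∉ nbr Z u → s(u, v) ∈ H \ Z := by
    intro u v h1 h2
    rw [Finset.mem_sdiff]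
    exact ⟨h1, fun h3 => h2 (by rw [mem_nbr]; exact h3)⟩
  -- internal and cross degrees
  have dint : ∀ v, (1 / 4 - ε / 2) * nn V ≤
      ((univ.filter (fun w => sd w = sd v ∧ s(v, w) ∈ H \ Z)).card : ℝ) := by
    intro v
    have h := gx_card_sub (nbr H v ∩ Sd sd (sd v))
      (univ.filter (fun w => sd w = sd v ∧ s(v, w) ∈ H \ Z)) (nbr Z v) ∅
      ((1 / 4 - ε / 4) * nn V) (ε / 4 * nn V) 0 (by
        intro w hw
        rw [Finset.mem_inter, mem_nbr, Sd, Finset.mem_filter] at hw
        by_cases h : w ∈ nbr Z v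
        · simp [h]
        · have := hmE v w hw.1 h
          simp only [Finset.mem_union, Finset.mem_filter, Finset.mem_univ, true_and]
          exact Or.inl (Or.inl ⟨hw.2.2, this⟩)) (hR.int v) (hz v) (by simp)
    linarith
  have dcr : ∀ v, (3 / 8 - ε / 2) * nn V ≤
      ((univ.filter (fun w => sd w ≠ sd v ∧ s(v, w) ∈ H \ Z)).card : ℝ) := by
    intro v
    have h := gx_card_sub (nbr H v ∩ Sd sd (!sd v))
      (univ.filter (fun w => sd w ≠ sd v ∧ s(v, w) ∈ H \ Z)) (nbr Z v) ∅
      ((3 / 8 - ε / 4) * nn V) (ε / 4 * nn V) 0 (by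
        intro w hw
        rw [Finset.mem_inter, mem_nbr, Sd, Finset.mem_filter] at hw
        by_cases h : w ∈ nbr Z v
        · simp [h]
        · have := hmE v w hw.1 h
          simp only [Finset.mem_union, Finset.mem_filter, Finset.mem_univ, true_and]
          refine Or.inl (Or.inl ⟨?_, this⟩)
          rw [hw.2.2]
          simp) (hR.cross v) (hz v) (by simp)
    linarith
  have hbig : ∀ a : ℝ, σ ≤ a → σ * nn V ≤ a * nn V := fun a ha =>
    mul_le_mul_of_nonneg_right ha hn.le
  have hcx : CX (H \ Z) (fun _ _ => True) sd At ε σ := by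
    refine ⟨hR.nl.mono Finset.sdiff_subset, fun _ _ _ => trivial, fun _ _ _ => trivial,
      fun _ _ _ => trivial, ?_, ?_, ?_, ?_⟩
    · intro v hv
      have h1 : univ.filter (fun w => sd w ≠ sd v ∧ s(v, w) ∉ H \ Z) ⊆
          (Sd sd (!sd v)).filter (fun w => s(v, w) ∉ H) ∪ nbr Z v := by
        intro w hw
        rw [Finset.mem_filter] at hw
        obtain ⟨_, h1, h2⟩ := hw
        rw [Finset.mem_union]
        by_cases h : w ∈ nbr Z v
        · exact Or.inr h
        · refine Or.inl (Finset.mem_filter.2 ⟨?_, fun h3 => h2 (hmE v w h3 h)⟩)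
          rw [Sd, Finset.mem_filter]
          refine ⟨Finset.mem_univ _, ?_⟩
          revert h1
          cases sd w <;> cases sd v <;> simp
      have h2 := (Finset.card_le_card h1).trans (Finset.card_union_le _ _)
      have h3 := hR.miss v hv
      have h4 := hz v
      have h5 : ((univ.filter (fun w => sd w ≠ sd v ∧ s(v, w) ∉ H \ Z)).card : ℝ) ≤
          (((Sd sd (!sd v)).filter (fun w => s(v, w) ∉ H)).card : ℝ) + (nbr Z v).card := by
        exact_mod_cast h2
      linarith
    · intro v
      exact (hbig _ (by linarith)).trans (dint v)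
    · intro v
      exact (hbig _ (by linarith)).trans (dcr v)
    · intro x y hxy _
      have h1 := gx_inter (univ.filter (fun w => sd w = sd y ∧ s(y, w) ∈ H \ Z))
        (univ.filter (fun w => sd w ≠ sd x ∧ s(x, w) ∈ H \ Z)) (Sd sd (sd y)) (by
          intro w hw
          rw [Finset.mem_filter] at hw
          rw [Sd, Finset.mem_filter]
          exact ⟨Finset.mem_univ _, hw.2.1⟩) (by
          intro w hw
          rw [Finset.mem_filter] at hw
          rw [Sd, Finset.mem_filter]
          refine ⟨Finset.mem_univ _, ?_⟩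
          have := hw.2.1
          revert this hxy
          cases sd w <;> cases sd x <;> cases sd y <;> simp) _ _ _ (dint y) (dcr x)
          (hR.side (sd y))
      have h2 : (univ.filter (fun w => sd w = sd y ∧ s(y, w) ∈ H \ Z)) ∩
          (univ.filter (fun w => sd w ≠ sd x ∧ s(x, w) ∈ H \ Z)) ⊆
          univ.filter (fun w => sd w = sd y ∧ s(y, w) ∈ H \ Z ∧ s(x, w) ∈ H \ Z) := by
        intro w hw
        rw [Finset.mem_inter, Finset.mem_filter, Finset.mem_filter] at hw
        rw [Finset.mem_filter]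
        exact ⟨Finset.mem_univ _, hw.1.2.1, hw.1.2.2, hw.2.2.2⟩
      have h3 : (((univ.filter (fun w => sd w = sd y ∧ s(y, w) ∈ H \ Z)) ∩
          (univ.filter (fun w => sd w ≠ sd x ∧ s(x, w) ∈ H \ Z))).card : ℝ) ≤
          ((univ.filter (fun w => sd w = sd y ∧ s(y, w) ∈ H \ Z ∧ s(x, w) ∈ H \ Z)).card : ℝ) := by
        exact_mod_cast Finset.card_le_card h2
      have h4 := hbig (1 / 8 - 5 / 4 * ε) (by linarith)
      linarith
  refine ⟨hcx, ?_, ?_, ?_, ?_⟩
  · intro b
    have h1 : (Sd sd b).card + (Sd sd (!b)).card = Fintype.card V := by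
      have := Finset.card_filter_add_card_filter_not (s := (univ : Finset V))
        (fun v => sd v = b)
      rw [Finset.card_univ] at this
      rw [← this]
      congr 2
      unfold Sd
      refine Finset.filter_congr fun v _ => ?_
      cases sd v <;> cases b <;> simp
    have h2 : ((Sd sd b).card : ℝ) + (Sd sd (!b)).card = nn V := by
      unfold nn
      exact_mod_cast h1
    have h3 := hR.side (!b)
    have h4 := hbig (1 / 2 - ε / 4) (by linarith)
    linarith
  · intro v
    refine ⟨univ.filter (fun w => Cm (H \ Z) sd σ v w), ?_, fun w hw => (Finset.mem_filter.1 hw).2⟩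
    have hcu : ∀ X : Finset V, (X.card : ℝ) ≤ nn V := by
      intro X
      unfold nn
      exact_mod_cast Finset.card_le_univ X
    have h1 := gx_double (univ.filter (fun i => sd i = sd v ∧ s(v, i) ∈ H \ Z))
      (univ.filter (fun w => Cm (H \ Z) sd σ v w)) (Sd sd (sd v))
      (fun w i => s(w, i) ∈ H \ Z) (nn V) ((1 / 4 - ε / 2) * nn V) (σ * nn V) hn (hcu _) (hcu _)
      (by
        have : 0 ≤ 1 / 4 - ε / 2 := by linarith
        positivity) (dint v) (by
        intro i hi
        rw [Finset.mem_filter] at hi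
        have h2 := dint i
        have h3 : univ.filter (fun w => sd w = sd i ∧ s(i, w) ∈ H \ Z) =
            (Sd sd (sd v)).filter (fun w => s(w, i) ∈ H \ Z) := by
          ext w
          rw [Finset.mem_filter, Finset.mem_filter, Sd, Finset.mem_filter, hi.2.1,
            Sym2.eq_swap (a := w) (b := i)]
          simp
        rw [h3] at h2
        exact h2) (by
        intro w hw hwP
        rw [Sd, Finset.mem_filter] at hw
        have h2 : ¬ Cm (H \ Z) sd σ v w := fun h => hwP (Finset.mem_filter.2 ⟨Finset.mem_univ _, h⟩)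
        unfold Cm at h2
        rw [not_and, not_le] at h2
        have h3 := (h2 hw.2.symm).le
        have h4 : (univ.filter (fun i => sd i = sd v ∧ s(v, i) ∈ H \ Z)).filter
            (fun i => s(w, i) ∈ H \ Z) =
            univ.filter (fun i => sd i = sd v ∧ s(v, i) ∈ H \ Z ∧ s(w, i) ∈ H \ Z) := by
          ext i
          simp only [Finset.mem_filter, Finset.mem_univ, true_and, and_assoc]
        rw [h4]
        exact h3) (by positivity)
    have h2 : ((1 / 4 - ε / 2) * nn V) ^ 2 - σ * nn V * nn V =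
        ((1 / 4 - ε / 2) ^ 2 - σ) * nn V * nn V := by ring
    rw [h2] at h1
    have h3 := le_of_mul_le_mul_right h1 hn
    refine le_trans ?_ h3
    refine mul_le_mul_of_nonneg_right ?_ hn.le
    have h4 : (1 / 5 : ℝ) ≤ 1 / 4 - ε / 2 := by linarith
    have h5 : (1 / 5 : ℝ) ^ 2 ≤ (1 / 4 - ε / 2) ^ 2 := pow_le_pow_left₀ (by norm_num) h4 2
    norm_num at h5
    linarith
  · intro y z hy hz' hsy hsz
    have h1 := walk_del (β := 0) (Wd' := Sd sd false \ At) (hR.gen1 y z hy hz' hsy hsz) hZ (by
      rw [Finset.sdiff_self]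
      simp)
    refine le_trans (mul_le_mul_of_nonneg_right ?_ (by positivity)) h1
    linarith
  · intro y z hy hz' hsy hsz
    refine ⟨_, le_trans (hbig θ (by linarith)) (hR.gen2 y z hy hz' hsy hsz), ?_⟩
    intro w hw
    rw [Finset.mem_filter] at hw
    obtain ⟨hw1, hw2, hw3⟩ := hw
    have hsw : sd w = false := by
      rw [Finset.mem_sdiff, Sd, Finset.mem_filter] at hw1
      exact hw1.1.2
    have key : ∀ u v : V, sd u = false →
        θ * nn V ≤ (((nbr H u ∩ nbr H v) ∩ (Sd sd false \ At)).card : ℝ) →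
        σ * nn V ≤
          ((univ.filter (fun i => sd i = sd u ∧ s(u, i) ∈ H \ Z ∧ s(v, i) ∈ H \ Z)).card : ℝ) := by
      intro u v hu h
      have h1 := gx_card_sub _ (univ.filter (fun i => sd i = sd u ∧ s(u, i) ∈ H \ Z ∧
        s(v, i) ∈ H \ Z)) (nbr Z u) (nbr Z v) _ _ _ (by
          intro i hi
          rw [Finset.mem_inter, Finset.mem_inter, mem_nbr, mem_nbr, Finset.mem_sdiff, Sd,
            Finset.mem_filter] at hi
          by_cases h2 : i ∈ nbr Z u
          · simp [h2]
          · by_cases h3 : i ∈ nbr Z v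
            · simp [h3]
            · rw [Finset.mem_union, Finset.mem_union, Finset.mem_filter]
              exact Or.inl (Or.inl ⟨Finset.mem_univ _, by rw [hu]; exact hi.2.1.2,
                hmE u i hi.1.1 h2, hmE v i hi.1.2 h3⟩)) h (hz u) (hz v)
      have h2 := hbig (θ - ε / 2) (by linarith)
      linarith
    refine ⟨⟨by rw [hsy, hsw], ?_⟩, ⟨by rw [hsw, hsz], ?_⟩⟩
    · refine key y w hsy ?_
      rw [Finset.inter_comm (nbr H y) (nbr H w)]
      exact hw2
    · exact key w z hsw hw3

end F3.AB
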