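import Pool.Agent.F3.AB.GadG

/-!
# Block AB, row AB-14: the relations in the generic world
-/

set_option autoImplicit false
set_option linter.unusedSectionVars false

namespace F3.AB

open Finset NW F1

variable {V : Type} [Fintype V] [DecidableEq V] {E : Finset (Sym2 V)} {sd : V → Bool}
  {At B : Finset V} {q : ℕ} {ε σ : ℝ}

theorem rg_fC_add (x₁ x₂ x₃ y z : V) : fC x₁ x₂ y z + fC x₂ x₃ y z = fC x₁ x₃ y z := by
  unfold fC
  abel

theorem rg_fK_add (x₁ x₂ x₃ y z : V) : fK x₁ x₂ y z + fK x₂ x₃ y z = fK x₁ x₃ y z := by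
  unfold fK
  abel

theorem rg_fC_swap (x₁ x₂ y z : V) : -fC y z x₁ x₂ = fC x₁ x₂ z y := by
  unfold fC
  rw [Sym2.eq_swap (a := y) (b := x₁), Sym2.eq_swap (a := z) (b := x₂),
    Sym2.eq_swap (a := z) (b := x₁), Sym2.eq_swap (a := y) (b := x₂)]
  abel

theorem rg_fK_self (x y z : V) : fK x x y z = 0 := by
  unfold fK
  abel

theorem rg_KC (x₁ x₂ y z : V) :
    fK x₁ x₂ y z + fC x₁ x₂ y z = (2 : ℤ) • (dl s(x₁, y) - dl s(x₂, y)) := by
  unfold fK fC
  abel

theorem rg_KC' (x₁ x₂ y z : V) :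
    fK x₁ x₂ y z + -fC x₁ x₂ y z = (2 : ℤ) • (dl s(x₁, z) - dl s(x₂, z)) := by
  unfold fK fC
  abel

/-- choice of a vertex -/
theorem rg_pick {Co : V → V → Prop} (h : CX E Co sd At ε σ) (hB : Bd At B q ε σ)
    {P : Finset V} (hP : σ * nn V ≤ (P.card : ℝ)) (T : Finset V) (hT : T.card ≤ q) :
    ∃ w ∈ P, w ∉ T ∧ w ∉ B := by
  have hn : 0 < Fintype.card V := by
    rcases Nat.eq_zero_or_pos (Fintype.card V) with h0 | h0
    · exfalso
      have h1 := hB.q_le
      have h2 := hB.q40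
      have h3 : nn V = 0 := by
        unfold nn
        rw [h0]
        norm_num
      rw [h3, mul_zero] at h1
      have h4 : (40 : ℝ) ≤ (q : ℝ) := by exact_mod_cast h2
      linarith
    · exact h0
  obtain ⟨w, h1, h2, h3, -⟩ := sel h hB hn hP [] (by simp) (by simp) T hT
  exact ⟨w, h1, h2, h3⟩

theorem relG (h : GX E sd At ε σ) (hB : Bd At B q ε σ) (X S : Finset V) (hXS : X ⊆ S)
    (hq : S.card + 3 * X.card + 8 ≤ q) :
    ∃ (W : Finset V) (ba : Bool → Bool → V), X ⊆ W ∧ W.card ≤ 3 * X.card + 8 ∧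
      (∀ v ∈ W, v ∈ X ∨ (v ∉ S ∧ v ∉ B)) ∧ (∀ b i, sd (ba b i) = b ∧ ba b i ∈ W) ∧
      Rel (Sg (alC (fun _ _ => True) sd) E W B q 5) 60 sd (fun _ => true) At X ba := by
  have hAB : ∀ v, v ∉ B → v ∉ At := fun v hv hA => hv (hB.At_sub hA)
  have hSq : S.card ≤ q := by omega
  have hSd : ∀ b v, v ∈ Sd sd b → sd v = b := by
    intro b v hv
    unfold Sd at hv
    exact (mem_filter.1 hv).2
  obtain ⟨a1, a1P, a1S, a1B⟩ := rg_pick h.cx hB (h.side true) S hSq
  obtain ⟨a2, a2P, a2S', a2B⟩ := rg_pick h.cx hB (h.side true) (insert a1 S)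
    ((card_insert_le _ _).trans (by omega))
  obtain ⟨b1, b1P, b1S, b1B⟩ := rg_pick h.cx hB (h.side false) S hSq
  obtain ⟨b2, b2P, b2S', b2B⟩ := rg_pick h.cx hB (h.side false) (insert b1 S)
    ((card_insert_le _ _).trans (by omega))
  rw [mem_insert, not_or] at a2S' b2S'
  have sa1 := hSd _ _ a1P
  have sa2 := hSd _ _ a2P
  have sb1 := hSd _ _ b1P
  have sb2 := hSd _ _ b2P
  have a1A := hAB a1 a1B
  have a2A := hAB a2 a2B
  have b1A := hAB b1 b1B
  have b2A := hAB b2 b2B
  obtain ⟨P3, P3c, P3h⟩ := h.gen2 b2 b1 b2A b1A sb2 sb1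
  obtain ⟨b3, b3P, b3S, b3B⟩ := rg_pick h.cx hB P3c S hSq
  obtain ⟨c23, c31⟩ := P3h b3 b3P
  have b3A := hAB b3 b3B
  have sb3 : sd b3 = false := by rw [← c23.1]; exact sb2
  have hp : ∀ x, ∃ w, w ∉ S ∧ w ∉ B ∧ Cm E sd σ x w := by
    intro x
    obtain ⟨P, Pc, Ph⟩ := h.par x
    obtain ⟨w, wP, wS, wB⟩ := rg_pick h.cx hB Pc S hSq
    exact ⟨w, wS, wB, Ph w wP⟩
  choose p pS pB pC using hp
  have hc : ∀ x, ∃ w, w ∉ S ∧ w ∉ B ∧ (sd x = false → Cm E sd σ (p x) w ∧ Cm E sd σ w b1) := by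
    intro x
    by_cases hx : sd x = false
    · obtain ⟨P, Pc, Ph⟩ := h.gen2 (p x) b1 (hAB _ (pB x)) b1A (by rw [← (pC x).1]; exact hx) sb1
      obtain ⟨w, wP, wS, wB⟩ := rg_pick h.cx hB Pc S hSq
      exact ⟨w, wS, wB, fun _ => Ph w wP⟩
    · exact ⟨b1, b1S, b1B, fun h' => absurd h' hx⟩
  choose c cS cB cC using hc
  obtain ⟨W, hW⟩ : ∃ W, W = X ∪ ({a1, a2, b1, b2, b3} ∪ (X.image p ∪ X.image c)) := ⟨_, rfl⟩
  have XW : X ⊆ W := by
    rw [hW]
    exact subset_union_left
  have w5 : ({a1, a2, b1, b2, b3} : Finset V) ⊆ W := by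
    rw [hW]
    exact subset_union_left.trans subset_union_right
  have a1W : a1 ∈ W := w5 (by simp)
  have a2W : a2 ∈ W := w5 (by simp)
  have b1W : b1 ∈ W := w5 (by simp)
  have b2W : b2 ∈ W := w5 (by simp)
  have b3W : b3 ∈ W := w5 (by simp)
  have pW : ∀ x ∈ X, p x ∈ W := by
    intro x hx
    rw [hW]
    exact mem_union_right _ (mem_union_right _ (mem_union_left _ (mem_image_of_mem _ hx)))
  have cW : ∀ x ∈ X, c x ∈ W := by
    intro x hx
    rw [hW]
    exact mem_union_right _ (mem_union_right _ (mem_union_right _ (mem_image_of_mem _ hx)))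
  have ax : SgAx (Sg (alC (fun _ _ => True) sd) E W B q 5) := sgAx
  -- one link on the side `false`
  have link : ∀ s t u v, s ∈ W → t ∈ W → u ∈ W → v ∈ W → Cm E sd σ s t → t ∉ At → u ∉ At →
      v ∉ At → sd s = false → sd u = true → sd v = true →
      Sg (alC (fun _ _ => True) sd) E W B q 5 2 (fC s t u v) ∧
        (u ≠ v → Sg (alC (fun _ _ => True) sd) E W B q 5 2 (fK s t u v)) := by
    intro s t u v hs ht hu hv hst htA huA hvA ss su sv
    exact gadI h.cx hB hs ht hu hv hst htA huA hvA (by rw [su, ss]; simp) (by rw [sv, ss]; simp)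
  -- the chain of a vertex of the side `false`
  have chain : ∀ y ∈ X, sd y = false → ∀ u v, u ∈ W → v ∈ W → u ∉ At → v ∉ At → sd u = true →
      sd v = true → Sg (alC (fun _ _ => True) sd) E W B q 5 6 (fC y b1 u v) ∧
        (u ≠ v → Sg (alC (fun _ _ => True) sd) E W B q 5 6 (fK y b1 u v)) := by
    intro y hy sy u v hu hv huA hvA su sv
    obtain ⟨k1, k2⟩ := cC y sy
    have spy : sd (p y) = false := by rw [← (pC y).1]; exact sy
    have scy : sd (c y) = false := by rw [← k1.1]; exact spy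
    obtain ⟨l1, m1⟩ := link y (p y) u v (XW hy) (pW y hy) hu hv (pC y) (hAB _ (pB y)) huA hvA
      sy su sv
    obtain ⟨l2, m2⟩ := link (p y) (c y) u v (pW y hy) (cW y hy) hu hv k1 (hAB _ (cB y)) huA hvA
      spy su sv
    obtain ⟨l3, m3⟩ := link (c y) b1 u v (cW y hy) b1W hu hv k2 b1A huA hvA scy su sv
    refine ⟨?_, fun huv => ?_⟩
    · have := ax.add _ _ _ _ (ax.add _ _ _ _ l1 l2) l3
      rwa [rg_fC_add, rg_fC_add] at this
    · have := ax.add _ _ _ _ (ax.add _ _ _ _ (m1 huv) (m2 huv)) (m3 huv)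
      rwa [rg_fK_add, rg_fK_add] at this
  -- from `x` to its partner
  have part : ∀ x ∈ X, sd x = true → ∀ y z, y ∈ W → z ∈ W → y ∉ At → z ∉ At → sd y = false →
      sd z = false → Sg (alC (fun _ _ => True) sd) E W B q 5 2 (fC x (p x) y z) ∧
        (y ≠ z → Sg (alC (fun _ _ => True) sd) E W B q 5 2 (fK x (p x) y z)) := by
    intro x hx sx y z hy hz hyA hzA sy sz
    exact gadI h.cx hB (XW hx) (pW x hx) hy hz (pC x) (hAB _ (pB x)) hyA hzA
      (by rw [sx, sy]; simp) (by rw [sx, sz]; simp)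
  -- K-move and C-move to `a1` with apexes `b1`, `b2`
  have KK : ∀ x ∈ X, sd x = true →
      Sg (alC (fun _ _ => True) sd) E W B q 5 6 (fK x a1 b1 b2) := by
    intro x hx sx
    have spx : sd (p x) = true := by rw [← (pC x).1]; exact sx
    have k1 := (part x hx sx b1 b2 b1W b2W b1A b2A sb1 sb2).2 (Ne.symm b2S'.1)
    have k2 : Sg (alC (fun _ _ => True) sd) E W B q 5 4 (fK (p x) a1 b1 b2) := by
      by_cases e : p x = a1
      · rw [e, rg_fK_self]
        exact ax.mono _ _ _ ax.zero (by omega)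
      · exact gadG h hB (pW x hx) a1W b1W b2W e (Ne.symm b2S'.1) (hAB _ (pB x)) a1A b1A b2A spx
          sa1 sb1 sb2
    have := ax.add _ _ _ _ k1 k2
    rwa [rg_fK_add] at this
  have CC : ∀ x ∈ X, sd x = true →
      Sg (alC (fun _ _ => True) sd) E W B q 5 6 (fC x a1 b1 b2) := by
    intro x hx sx
    have spx : sd (p x) = true := by rw [← (pC x).1]; exact sx
    have k1 := (part x hx sx b1 b2 b1W b2W b1A b2A sb1 sb2).1
    have k2 := (link b2 b3 (p x) a1 b2W b3W (pW x hx) a1W c23 b3A (hAB _ (pB x)) a1A sb2 spx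
      sa1).1
    have k3 := (link b3 b1 (p x) a1 b3W b1W (pW x hx) a1W c31 b1A (hAB _ (pB x)) a1A sb3 spx
      sa1).1
    have k4 := ax.add _ _ _ _ k2 k3
    rw [rg_fC_add] at k4
    have k5 := ax.neg _ _ k4
    rw [rg_fC_swap] at k5
    have := ax.add _ _ _ _ k1 k5
    rwa [rg_fC_add] at this
  refine ⟨W, fun b i => bif b then (bif i then a1 else a2) else (bif i then b1 else b2), XW,
    ?_, ?_, ?_, ?_⟩
  · rw [hW]
    have e1 := card_union_le X ({a1, a2, b1, b2, b3} ∪ (X.image p ∪ X.image c))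
    have e2 := card_union_le ({a1, a2, b1, b2, b3} : Finset V) (X.image p ∪ X.image c)
    have e3 := card_union_le (X.image p) (X.image c)
    have e4 : (X.image p).card ≤ X.card := card_image_le
    have e5 : (X.image c).card ≤ X.card := card_image_le
    have e6 : ({a1, a2, b1, b2, b3} : Finset V).card ≤ 5 := card_le_five
    omega
  · intro v hv
    rw [hW, mem_union, mem_union, mem_union] at hv
    rcases hv with hv | hv | hv | hv
    · exact Or.inl hv
    · right
      simp only [mem_insert, mem_singleton] at hv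
      rcases hv with rfl | rfl | rfl | rfl | rfl
      · exact ⟨a1S, a1B⟩
      · exact ⟨a2S'.2, a2B⟩
      · exact ⟨b1S, b1B⟩
      · exact ⟨b2S'.2, b2B⟩
      · exact ⟨b3S, b3B⟩
    · obtain ⟨x, hx, rfl⟩ := mem_image.1 hv
      exact Or.inr ⟨pS x, pB x⟩
    · obtain ⟨x, hx, rfl⟩ := mem_image.1 hv
      exact Or.inr ⟨cS x, cB x⟩
  · intro b i
    cases b <;> cases i
    · exact ⟨sb2, b2W⟩
    · exact ⟨sb1, b1W⟩
    · exact ⟨sa2, a2W⟩
    · exact ⟨sa1, a1W⟩
  · constructor
    · intro x hx y hy sx sy hA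
      show Sg (alC (fun _ _ => True) sd) E W B q 5 60
        (dl s(x, y) - dl s(x, b1) - dl s(a1, y) + dl s(a1, b1))
      by_cases hxA : x ∈ At
      · have hyA : y ∉ At := by
          rcases hA with hA | hA
          · exact absurd hxA hA
          · exact hA
        have spx : sd (p x) = true := by rw [← (pC x).1]; exact sx
        have k1 := (part x hx sx y b1 (XW hy) b1W hyA b1A sy sb1).1
        have k2 := (chain y hy sy (p x) a1 (pW x hx) a1W (hAB _ (pB x)) a1A spx sa1).1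
        have k3 := ax.mono _ _ _ (ax.add _ _ _ _ k1 k2) (show 2 + 6 ≤ 60 by norm_num)
        have e : fC x (p x) y b1 + fC y b1 (p x) a1 =
            dl s(x, y) - dl s(x, b1) - dl s(a1, y) + dl s(a1, b1) := by
          unfold fC
          rw [Sym2.eq_swap (a := y) (b := p x), Sym2.eq_swap (a := b1) (b := a1),
            Sym2.eq_swap (a := b1) (b := p x), Sym2.eq_swap (a := y) (b := a1)]
          abel
        rwa [e] at k3
      · have k2 := (chain y hy sy x a1 (XW hx) a1W hxA a1A sx sa1).1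
        have k3 := ax.mono _ _ _ k2 (show 6 ≤ 60 by norm_num)
        have e : fC y b1 x a1 =
            dl s(x, y) - dl s(x, b1) - dl s(a1, y) + dl s(a1, b1) := by
          unfold fC
          rw [Sym2.eq_swap (a := y) (b := x), Sym2.eq_swap (a := b1) (b := a1),
            Sym2.eq_swap (a := b1) (b := x), Sym2.eq_swap (a := y) (b := a1)]
          abel
        rwa [e] at k3
    · intro x hx sx j
      cases j
      · show Sg (alC (fun _ _ => True) sd) E W B q 5 60
          ((2 : ℤ) • (dl s(x, b2) - dl s(a1, b2)))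
        have := ax.mono _ _ _ (ax.add _ _ _ _ (KK x hx sx) (ax.neg _ _ (CC x hx sx)))
          (show 6 + 6 ≤ 60 by norm_num)
        rwa [rg_KC'] at this
      · show Sg (alC (fun _ _ => True) sd) E W B q 5 60
          ((2 : ℤ) • (dl s(x, b1) - dl s(a1, b1)))
        have := ax.mono _ _ _ (ax.add _ _ _ _ (KK x hx sx) (CC x hx sx))
          (show 6 + 6 ≤ 60 by norm_num)
        rwa [rg_KC] at this
    · intro x hx sx
      show Sg (alC (fun _ _ => True) sd) E W B q 5 60
        ((dl s(x, b1) - dl s(a1, b1)) + (dl s(x, b2) - dl s(a1, b2)))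
      have := ax.mono _ _ _ (KK x hx sx) (show 6 ≤ 60 by norm_num)
      have e : fK x a1 b1 b2 =
          (dl s(x, b1) - dl s(a1, b1)) + (dl s(x, b2) - dl s(a1, b2)) := by
        unfold fK
        abel
      rwa [e] at this
    · intro y hy sy i
      obtain ⟨k1, k2⟩ := chain y hy sy a1 a2 a1W a2W a1A a2A sa1 sa2
      have k3 := k2 (Ne.symm a2S'.1)
      cases i
      · show Sg (alC (fun _ _ => True) sd) E W B q 5 60
          ((2 : ℤ) • (dl s(a2, y) - dl s(a2, b1)))
        have := ax.mono _ _ _ (ax.add _ _ _ _ k3 (ax.neg _ _ k1))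
          (show 6 + 6 ≤ 60 by norm_num)
        rw [rg_KC', Sym2.eq_swap (a := y) (b := a2), Sym2.eq_swap (a := b1) (b := a2)] at this
        exact this
      · show Sg (alC (fun _ _ => True) sd) E W B q 5 60
          ((2 : ℤ) • (dl s(a1, y) - dl s(a1, b1)))
        have := ax.mono _ _ _ (ax.add _ _ _ _ k3 k1)
          (show 6 + 6 ≤ 60 by norm_num)
        rw [rg_KC, Sym2.eq_swap (a := y) (b := a1), Sym2.eq_swap (a := b1) (b := a1)] at this
        exact this
    · intro y hy sy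
      obtain ⟨k1, k2⟩ := chain y hy sy a1 a2 a1W a2W a1A a2A sa1 sa2
      have k3 := ax.mono _ _ _ (k2 (Ne.symm a2S'.1)) (show 6 ≤ 60 by norm_num)
      show Sg (alC (fun _ _ => True) sd) E W B q 5 60
        ((dl s(a1, y) - dl s(a1, b1)) + (dl s(a2, y) - dl s(a2, b1)))
      have e : fK y b1 a1 a2 =
          (dl s(a1, y) - dl s(a1, b1)) + (dl s(a2, y) - dl s(a2, b1)) := by
        unfold fK
        rw [Sym2.eq_swap (a := y) (b := a1), Sym2.eq_swap (a := y) (b := a2),
          Sym2.eq_swap (a := b1) (b := a1), Sym2.eq_swap (a := b1) (b := a2)]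
        abel
      rwa [e] at k3

end F3.AB
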