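import Pool.Agent.F3.AB.OneX
import Pool.Agent.F3.AB.RelG
import Pool.Agent.F3.AB.Alg1
import Pool.Agent.F3.AB.Apex
import Pool.Agent.F3.AB.Eng3
import Pool.Agent.F3.HB.ValA

/-!
# Block AB, row AB-22: world G, absorbers for one graph
-/

set_option autoImplicit false
set_option linter.unusedSectionVars false

namespace F3.AB

open Finset NW F1

section

variable {V : Type} [Fintype V] [DecidableEq V] {E D : Finset (Sym2 V)} {sd : V → Bool}
  {U S B X : Finset V} {ap : Sym2 V → V}

/-- the weight of a cross pair -/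
private theorem og_gam (sd : V → Bool) (x y : V) (hx : sd x = true) (hy : sd y = false) :
    gam sd s(x, y) = -1 := by
  unfold gam
  rw [if_neg]
  intro h
  have h1 := h x (Sym2.mem_mk_left x y) y (Sym2.mem_mk_right x y)
  rw [hx, hy] at h1
  exact Bool.noConfusion h1

/-- the block sums vanish outside of the only part -/
private theorem og_bs (Z : V → V → ℤ) (i j : Bool) (h : i = false ∨ j = false) :
    bs sd (fun _ => true) X Z i j = 0 := by
  unfold bs
  rcases h with rfl | rfl
  · rw [filter_false_of_mem (s := X) (p := fun x => sd x = true ∧ true = false)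
      (fun x _ hx => Bool.noConfusion hx.2)]
    exact sum_empty
  · refine sum_eq_zero (fun x _ => ?_)
    rw [filter_false_of_mem (s := X) (p := fun x => sd x = false ∧ true = false)
      (fun x _ hx => Bool.noConfusion hx.2)]
    exact sum_empty

/-- a weaker class of allowed triangles -/
private theorem og_apx {al al' : Tri V → Prop} (hal : ∀ T, al T → al' T)
    (h : Apx al E sd D S B ap) : Apx al' E sd D S B ap where
  out := h.out
  side := h.side
  ed := h.ed
  inj := h.inj
  al u v huv hs := by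
    obtain ⟨h1, h2⟩ := h.al u v huv hs
    exact ⟨h1, hal _ h2⟩

/-- the weights of the cross edges and of the edges to the apexes agree -/
private theorem og_tot (h : Apx (alC (fun _ _ => True) sd) E sd D S B ap) (hD : D ⊆ U.sym2)
    (hU : U ⊆ S) (nl : NW.NL D) (hg : ∑ e ∈ D, gam sd e = 0) :
    ∑ e ∈ Dc sd D, gam sd e - ∑ e ∈ N0 sd D ap, gam sd e = 0 := by
  have h1 : ∑ e ∈ D, gam sd e = ∑ e ∈ Di sd D, gam sd e + ∑ e ∈ Dc sd D, gam sd e :=
    (sum_filter_add_sum_filter_not D (fun e => Int sd e) (fun e => gam sd e)).symm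
  have h2 : ∑ e ∈ Di sd D ∪ N0 sd D ap, gam sd e = 0 := by
    refine DecA.sum_zero (fun e => gam sd e) (n0_dec h hD hU nl) ?_
    intro T hT _
    exact (HB.valA V).2.1 sd T hT.1
  have h3 : Disjoint (Di sd D) (N0 sd D ap) :=
    disjoint_of_subset_left (filter_subset _ _) (n0_disj h hD hU)
  rw [sum_union h3] at h2
  rw [hg] at h1
  linarith

end

theorem oneG : OneGStatement := by
  intro m
  refine ⟨4 * (m + (m + 1) ^ 2) + 8 + 21601 * (m + 1) ^ 2, ?_⟩
  intro V _ _ E sd At U B D ε σ q q' hG hB hqK hUm hDU hDOK S hUS hSq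
  have hDc : D.card ≤ (m + 1) ^ 2 := by
    refine (card_le_card hDU).trans ?_
    rw [card_sym2]
    have h1 : U.card + 1 ≤ m + 1 := by omega
    refine (Nat.choose_le_choose 2 h1).trans ?_
    rw [Nat.choose_two_right]
    refine (Nat.div_le_self _ _).trans ?_
    rw [pow_two]
    exact Nat.mul_le_mul_left _ (Nat.sub_le _ _)
  obtain ⟨ap, hap⟩ := cx_apx hG.cx hB D S hDOK.nl hDOK.noAt (fun _ _ _ => trivial) (by omega)
  set d := (m + 1) ^ 2 with hd
  set X : Finset V := U ∪ (Di sd D).image ap with hX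
  have hXc : X.card ≤ m + d := by
    refine (card_union_le _ _).trans (Nat.add_le_add hUm ?_)
    exact (card_image_le).trans ((card_le_card (filter_subset _ _)).trans hDc)
  have hUX : U ⊆ X := subset_union_left
  have hapX : ∀ e ∈ D, Int sd e → ap e ∈ X := by
    intro e he hi
    exact mem_union_right _ (mem_image_of_mem ap (mem_filter.2 ⟨he, hi⟩))
  have hS' : (S ∪ X).card ≤ S.card + (m + d) :=
    (card_union_le _ _).trans (Nat.add_le_add_left hXc _)
  obtain ⟨W, ba, hXW, hWc, hW, hba, hrel⟩ := relG hG hB X (S ∪ X) subset_union_right (by omega)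
  have hev : Ev sd At X (Zf sd D ap) :=
    zf_ev hap hDU hUS hUX hapX hB.At_sub hDOK.nl hDOK.even hDOK.noAt
  have ha := alg1 sgAx hrel (Zf sd D ap) hev
  have hsum := zf_sum (pt := fun _ => true) (fun e => gam sd e) (fun _ _ => (-1 : ℤ))
    (fun x y hx hy => og_gam sd x y hx hy) hap hDU hUX hapX
  rw [og_tot hap hDU hUS hDOK.nl hDOK.gam] at hsum
  simp only [Fintype.sum_bool] at hsum
  rw [og_bs (X := X) (sd := sd) (Zf sd D ap) true false (Or.inr rfl),
    og_bs (X := X) (sd := sd) (Zf sd D ap) false true (Or.inl rfl),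
    og_bs (X := X) (sd := sd) (Zf sd D ap) false false (Or.inl rfl)] at hsum
  have htt : bs sd (fun _ => true) X (Zf sd D ap) true true = 0 := by
    simp only [zero_smul, smul_eq_mul] at hsum
    linarith
  have hf4 : f4 ba (bs sd (fun _ => true) X (Zf sd D ap)) = 0 := by
    unfold f4
    rw [htt, og_bs (X := X) (sd := sd) (Zf sd D ap) true false (Or.inr rfl),
      og_bs (X := X) (sd := sd) (Zf sd D ap) false true (Or.inl rfl),
      og_bs (X := X) (sd := sd) (Zf sd D ap) false false (Or.inl rfl)]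
    simp only [zero_smul, add_zero]
  rw [hf4, sub_zero, zf_fun hap hDU hUX hapX] at ha
  have hn : nZ sd X (Zf sd D ap) ≤ 3 * D.card := zf_norm hDU hDOK.nl
  have ha' := sgAx.mono _ (1800 * d) _ ha (by omega)
  have key := one_of_sg hG.cx hB (al' := alG sd) D U S ap (1800 * d) hDU hUS hDOK.nl hDOK.noAt
    (og_apx (fun T hT => hT.1) hap) (fun T hT _ => hT.1) (hUX.trans hXW) ?_
    (fun e he hi => hXW (hapX e he hi)) ha' (by omega)
  · obtain ⟨A, T, hT⟩ := key
    refine ⟨A, T, ⟨?_, hT.disj, hT.sub, hT.new, hT.supp, hT.dec, hT.abs⟩⟩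
    have := hT.card
    omega
  · intro v hv
    rcases hW v hv with h | ⟨h1, h2⟩
    · rcases mem_union.1 h with h | h
      · exact Or.inl h
      · obtain ⟨e, he, rfl⟩ := mem_image.1 h
        exact Or.inr (hap.out e (mem_filter.1 he).1 (mem_filter.1 he).2)
    · exact Or.inr ⟨fun hvS => h1 (mem_union_left _ hvS), h2⟩

end F3.AB
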