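import Pool.Agent.F3.AB.Defs

/-!
# Block AB: rigid worlds, a robust rigid structure minus a small graph
-/

set_option autoImplicit false
set_option linter.unusedSectionVars false

namespace F3.AB

open Finset NW F1

variable {V : Type} [Fintype V] [DecidableEq V]

theorem co_symm {fl : Bool → Bool} {sd pt : V → Bool} {u v : V} (h : Co fl sd pt u v) :
    Co fl sd pt v u := by
  unfold Co CoP at *
  rcases h with h | h
  · exact Or.inl fun h' => h h'.symm
  · by_cases hs : sd u = sd v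
    · right
      rw [hs]
      split_ifs at h ⊢ with hf
      · exact h.symm
      · exact fun h' => h h'.symm
    · exact Or.inl fun h' => hs h'.symm

theorem co_cross {fl : Bool → Bool} {sd pt : V → Bool} {u v : V} (h : sd u ≠ sd v) :
    Co fl sd pt u v := Or.inl h

/-- a core part on the own side -/
theorem cop_own (fl : Bool → Bool) (sd pt : V → Bool) (v : V) :
    ∃ c, CoP fl sd pt v (sd v) c := by
  unfold CoP
  by_cases hf : fl (sd v) = true
  · exact ⟨pt v, by simp [hf]⟩
  · exact ⟨!(pt v), by simp [hf]⟩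

theorem mem_Pa {sd pt : V → Bool} {b c : Bool} {v : V} : v ∈ Pa sd pt b c ↔ sd v = b ∧ pt v = c := by
  simp [Pa]

theorem mem_nbr {E : Finset (Sym2 V)} {v w : V} : w ∈ nbr E v ↔ s(v, w) ∈ E := by
  simp [nbr]

theorem rx_of {H Z : Finset (Sym2 V)} {fl : Bool → Bool} {sd pt : V → Bool} {At : Finset V}
    {ε₀ η ε σ : ℝ} (h : RobR H fl sd pt At ε₀) (hZ : Sm η Z) (h0 : 0 ≤ ε₀) (h1 : 0 ≤ η)
    (hε : ε₀ + η ≤ ε) (hσ : σ + 2 * ε ≤ 1 / 8) : RX (H \ Z) fl sd pt At ε σ := by
  have hn : (0 : ℝ) ≤ nn V := by unfold nn; positivity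
  -- neighbours in a part
  have key1 : ∀ (v : V) (b c : Bool), CoP fl sd pt v b c →
      σ * nn V ≤ ((nbr (H \ Z) v ∩ Pa sd pt b c).card : ℝ) := by
    intro v b c hc
    have h2 := h.deg v b c hc
    have h3 : nbr H v ∩ Pa sd pt b c ⊆ (nbr (H \ Z) v ∩ Pa sd pt b c) ∪ nbr Z v := by
      intro w hw
      simp only [mem_inter, mem_union, mem_nbr, mem_sdiff] at hw ⊢
      tauto
    have h4 := (card_le_card h3).trans (card_union_le _ _)
    have h5 := hZ v
    have h6 : ((nbr H v ∩ Pa sd pt b c).card : ℝ) ≤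
        ((nbr (H \ Z) v ∩ Pa sd pt b c).card : ℝ) + (NW.deg Z v : ℝ) := by
      exact_mod_cast h4
    nlinarith
  -- common neighbours in a part
  have key2 : ∀ (u v : V) (b c : Bool), v ∉ At → CoP fl sd pt u b c → CoP fl sd pt v b c →
      σ * nn V ≤ (((Pa sd pt b c).filter
        (fun w => s(u, w) ∈ H \ Z ∧ s(v, w) ∈ H \ Z)).card : ℝ) := by
    intro u v b c hv hu hvc
    have h2 := h.deg u b c hu
    have h3 : nbr H u ∩ Pa sd pt b c ⊆ (Pa sd pt b c).filter
        (fun w => s(u, w) ∈ H \ Z ∧ s(v, w) ∈ H \ Z) ∪ (nbr Z u ∪ (nbr Z v ∪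
        univ.filter (fun w => Co fl sd pt v w ∧ s(v, w) ∉ H))) := by
      intro w hw
      simp only [mem_inter, mem_union, mem_nbr, mem_sdiff, mem_filter, mem_univ, true_and] at hw ⊢
      have hw2 : Co fl sd pt v w := by
        have := mem_Pa.1 hw.2
        unfold Co
        rw [this.1, this.2]
        exact hvc
      tauto
    have h4 := card_le_card h3
    have h5 := hZ u
    have h6 := hZ v
    have h7 := h.miss v hv
    have h8 := card_union_le ((Pa sd pt b c).filter
        (fun w => s(u, w) ∈ H \ Z ∧ s(v, w) ∈ H \ Z)) (nbr Z u ∪ (nbr Z v ∪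
        univ.filter (fun w => Co fl sd pt v w ∧ s(v, w) ∉ H)))
    have h9 := card_union_le (nbr Z u) (nbr Z v ∪
        univ.filter (fun w => Co fl sd pt v w ∧ s(v, w) ∉ H))
    have h10 := card_union_le (nbr Z v) (univ.filter (fun w => Co fl sd pt v w ∧ s(v, w) ∉ H))
    have h11 : ((nbr H u ∩ Pa sd pt b c).card : ℝ) ≤ (((Pa sd pt b c).filter
        (fun w => s(u, w) ∈ H \ Z ∧ s(v, w) ∈ H \ Z)).card : ℝ) + ((NW.deg Z u : ℝ) +
        ((NW.deg Z v : ℝ) +
        ((univ.filter (fun w => Co fl sd pt v w ∧ s(v, w) ∉ H)).card : ℝ))) := by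
      have : (nbr H u ∩ Pa sd pt b c).card ≤ ((Pa sd pt b c).filter
        (fun w => s(u, w) ∈ H \ Z ∧ s(v, w) ∈ H \ Z)).card + (NW.deg Z u +
        (NW.deg Z v +
        (univ.filter (fun w => Co fl sd pt v w ∧ s(v, w) ∉ H)).card)) := by
        unfold NW.deg
        omega
      exact_mod_cast this
    nlinarith
  -- missing neighbours
  have key3 : ∀ v, v ∉ At →
      ((univ.filter (fun w => Co fl sd pt v w ∧ s(v, w) ∉ H \ Z)).card : ℝ) ≤ ε * nn V := by
    intro v hv
    have h3 : univ.filter (fun w => Co fl sd pt v w ∧ s(v, w) ∉ H \ Z) ⊆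
        univ.filter (fun w => Co fl sd pt v w ∧ s(v, w) ∉ H) ∪ nbr Z v := by
      intro w hw
      simp only [mem_union, mem_nbr, mem_sdiff, mem_filter, mem_univ, true_and] at hw ⊢
      tauto
    have h4 := (card_le_card h3).trans (card_union_le _ _)
    have h5 := hZ v
    have h7 := h.miss v hv
    have h6 : ((univ.filter (fun w => Co fl sd pt v w ∧ s(v, w) ∉ H \ Z)).card : ℝ) ≤
        ((univ.filter (fun w => Co fl sd pt v w ∧ s(v, w) ∉ H)).card : ℝ) + (NW.deg Z v : ℝ) := by
      exact_mod_cast h4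
    nlinarith
  refine ⟨⟨fun e he => h.nl e (mem_sdiff.1 he).1, fun u v => co_symm,
    fun u v huv => h.core u v (mem_sdiff.1 huv).1, fun u v => co_cross, ?_, ?_, ?_, ?_⟩, ?_, key3,
    ?_, ?_⟩
  · -- miss
    intro v hv
    refine le_trans ?_ (key3 v hv)
    refine Nat.cast_le.2 (card_le_card ?_)
    intro w hw
    simp only [mem_filter, mem_univ, true_and] at hw ⊢
    exact ⟨co_cross fun h' => hw.1 h'.symm, hw.2⟩
  · -- int
    intro v
    obtain ⟨c, hc⟩ := cop_own fl sd pt v
    refine (key1 v (sd v) c hc).trans ?_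
    gcongr
    intro w hw
    simp only [mem_inter, mem_nbr, mem_Pa, mem_filter, mem_univ, true_and] at hw ⊢
    exact ⟨hw.2.1, hw.1⟩
  · -- cr
    intro v
    refine (key1 v (!(sd v)) true (Or.inl (by cases sd v <;> simp))).trans ?_
    gcongr
    intro w hw
    simp only [mem_inter, mem_nbr, mem_Pa, mem_filter, mem_univ, true_and] at hw ⊢
    exact ⟨by rw [hw.2.1]; cases sd v <;> simp, hw.1⟩
  · -- mix
    intro x y hxy hy
    obtain ⟨c, hc⟩ := cop_own fl sd pt y
    refine (key2 x y (sd y) c hy (Or.inl hxy) hc).trans ?_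
    gcongr
    intro w hw
    simp only [mem_Pa, mem_filter, mem_univ, true_and] at hw ⊢
    exact ⟨hw.1.1, hw.2.2, hw.2.1⟩
  · -- part
    intro b c
    have hcov : (univ : Finset V) ⊆ Pa sd pt b c ∪ (Pa sd pt b (!c) ∪ (Pa sd pt (!b) c ∪
        Pa sd pt (!b) (!c))) := by
      intro w _
      simp only [mem_union, mem_Pa]
      cases b <;> cases c <;> cases sd w <;> cases pt w <;> simp
    have h4 := card_le_card hcov
    have h8 := card_union_le (Pa sd pt b c) (Pa sd pt b (!c) ∪ (Pa sd pt (!b) c ∪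
        Pa sd pt (!b) (!c)))
    have h9 := card_union_le (Pa sd pt b (!c)) (Pa sd pt (!b) c ∪ Pa sd pt (!b) (!c))
    have h10 := card_union_le (Pa sd pt (!b) c) (Pa sd pt (!b) (!c))
    have h11 : nn V ≤ ((Pa sd pt b c).card : ℝ) + ((Pa sd pt b (!c)).card +
        ((Pa sd pt (!b) c).card + (Pa sd pt (!b) (!c)).card)) := by
      unfold nn
      rw [← card_univ]
      exact_mod_cast (by omega : (univ : Finset V).card ≤ (Pa sd pt b c).card +
        ((Pa sd pt b (!c)).card + ((Pa sd pt (!b) c).card + (Pa sd pt (!b) (!c)).card)))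
    have e1 := h.part b (!c)
    have e2 := h.part (!b) c
    have e3 := h.part (!b) (!c)
    nlinarith
  · -- deg
    intro v b c hb
    exact key1 v b c (Or.inl fun h' => hb h'.symm)
  · -- cm
    intro x x' hs hp hx'
    obtain ⟨c, hc⟩ := cop_own fl sd pt x'
    refine ⟨hs, ?_⟩
    have hc' : CoP fl sd pt x (sd x') c := by
      unfold CoP at *
      rw [hs, hp]
      exact hc
    refine (key2 x x' (sd x') c hx' hc' hc).trans ?_
    gcongr
    intro w hw
    simp only [mem_Pa, mem_filter, mem_univ, true_and] at hw ⊢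
    exact ⟨hw.1.1.trans hs.symm, hw.2.1, hw.2.2⟩

theorem rx_of_rob (ε : ℝ) (hε : 0 < ε) (hε' : 4000 * ε ≤ 1) :
    ∀ (V : Type) [Fintype V] [DecidableEq V] (H Z : Finset (Sym2 V)) (fl : Bool → Bool)
      (sd pt : V → Bool) (At : Finset V), 0 < Fintype.card V →
      RobR H fl sd pt At (ε / 4) → Sm (ε / 4) Z → RX (H \ Z) fl sd pt At ε (1 / 50) := by
  intro V _ _ H Z fl sd pt At _ h hZ
  exact rx_of h hZ (by linarith) (by linarith) (by linarith) (by linarith)

end F3.AB
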