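import Pool.Agent.F3.AB.GadI
import Pool.Agent.F3.AB.Rx

/-!
# Block AB: the relations in a rigid world
-/

set_option autoImplicit false
set_option linter.unusedSectionVars false

namespace F3.AB

open Finset NW F1

variable {V : Type} [Fintype V] [DecidableEq V] {E : Finset (Sym2 V)} {fl : Bool → Bool}
  {sd pt : V → Bool} {At W B : Finset V} {q : ℕ} {ε σ : ℝ}

/-- choice of a vertex of a part, outside `S ∪ B`, adjacent to at most four given typical vertices
for which the part is core -/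
theorem selR (h : RX E fl sd pt At ε σ) (hB : Bd At B q ε σ) (hn : 0 < Fintype.card V)
    (b c : Bool) (l : List V) (hl : l.length ≤ 4)
    (hl' : ∀ v ∈ l, v ∉ At ∧ CoP fl sd pt v b c) (S : Finset V) (hS : S.card ≤ q) :
    ∃ w, w ∈ Pa sd pt b c ∧ w ∉ S ∧ w ∉ B ∧ ∀ v ∈ l, s(v, w) ∈ E := by
  by_contra hcon
  push Not at hcon
  have hnn : (0 : ℝ) < nn V := by
    unfold nn
    exact_mod_cast hn
  have hsub : Pa sd pt b c ⊆ (S ∪ B) ∪ l.toFinset.biUnion
      (fun v => univ.filter (fun w => Co fl sd pt v w ∧ s(v, w) ∉ E)) := by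
    intro w hw
    by_cases h1 : w ∈ S
    · simp [h1]
    by_cases h2 : w ∈ B
    · simp [h2]
    obtain ⟨v, hv, hvw⟩ := hcon w hw h1 h2
    refine mem_union_right _ (mem_biUnion.mpr ⟨v, List.mem_toFinset.mpr hv, ?_⟩)
    rw [mem_filter]
    refine ⟨mem_univ _, ?_, hvw⟩
    have h3 := mem_Pa.1 hw
    unfold Co
    rw [h3.1, h3.2]
    exact (hl' v hv).2
  have h3 : ((Pa sd pt b c).card : ℝ) ≤ ((S.card + B.card : ℕ) : ℝ) + ((l.toFinset.biUnion
      (fun v => univ.filter (fun w => Co fl sd pt v w ∧ s(v, w) ∉ E))).card : ℝ) := by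
    have := (card_le_card hsub).trans (card_union_le _ _)
    have h' := card_union_le S B
    exact_mod_cast this.trans (Nat.add_le_add_right h' _)
  have h4 : ((l.toFinset.biUnion
      (fun v => univ.filter (fun w => Co fl sd pt v w ∧ s(v, w) ∉ E))).card : ℝ) ≤
      4 * (ε * nn V) := by
    calc ((l.toFinset.biUnion
        (fun v => univ.filter (fun w => Co fl sd pt v w ∧ s(v, w) ∉ E))).card : ℝ)
        ≤ ((∑ v ∈ l.toFinset,
          (univ.filter (fun w => Co fl sd pt v w ∧ s(v, w) ∉ E)).card : ℕ) : ℝ) := by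
          exact_mod_cast card_biUnion_le
      _ = ∑ v ∈ l.toFinset,
          ((univ.filter (fun w => Co fl sd pt v w ∧ s(v, w) ∉ E)).card : ℝ) := by
          push_cast
          rfl
      _ ≤ ∑ v ∈ l.toFinset, ε * nn V := by
          refine sum_le_sum fun v hv => ?_
          exact h.cmiss v (hl' v (List.mem_toFinset.mp hv)).1
      _ = (l.toFinset.card : ℝ) * (ε * nn V) := by
          rw [sum_const, nsmul_eq_mul]
      _ ≤ 4 * (ε * nn V) := by
          have h5 : l.toFinset.card ≤ 4 := (List.toFinset_card_le l).trans hl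
          have h6 : (0 : ℝ) ≤ ε * nn V := (mul_pos hB.eps hnn).le
          exact mul_le_mul_of_nonneg_right (by exact_mod_cast h5) h6
  have h7 : (S.card : ℝ) ≤ ε * nn V := by
    have : (S.card : ℝ) ≤ (q : ℝ) := by exact_mod_cast hS
    exact this.trans hB.q_le
  have h8 := hB.B_card
  have h9 : 40 * ε * nn V ≤ σ * nn V := mul_le_mul_of_nonneg_right hB.sig hnn.le
  have h10 : 0 < ε * nn V := mul_pos hB.eps hnn
  have h11 := h.part b c
  push_cast at h3
  nlinarith

/-- the parts `p` and `p'` of one side are core -/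
def CC (f p p' : Bool) : Prop := if f = true then p = p' else p ≠ p'

theorem CC.cop {b p p' : Bool} {v : V} (h : CC (fl b) p p') (hv : pt v = p) :
    CoP fl sd pt v b p' := by
  right
  rw [hv]
  exact h

/-- two inner vertices of a path of three edges inside a side -/
theorem two_in (h : RX E fl sd pt At ε σ) (hB : Bd At B q ε σ) {x₁ x₂ y z : V} {b p₁ p₂ : Bool}
    (h1A : x₁ ∉ At) (h2A : x₂ ∉ At) (hyA : y ∉ At) (hzA : z ∉ At) (h1 : sd x₁ ≠ b)
    (h2 : sd x₂ ≠ b) (hy : CC (fl b) (pt y) p₁) (h12 : CC (fl b) p₁ p₂)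
    (hz : CC (fl b) (pt z) p₂) (S : Finset V) (hS : S.card + 2 ≤ q) :
    ∃ i j : V, i ∈ Pa sd pt b p₁ ∧ j ∈ Pa sd pt b p₂ ∧ i ≠ j ∧ i ∉ S ∧ j ∉ S ∧ i ∉ B ∧ j ∉ B ∧
      s(y, i) ∈ E ∧ s(i, j) ∈ E ∧ s(z, j) ∈ E ∧ s(x₁, i) ∈ E ∧ s(x₂, i) ∈ E ∧ s(x₁, j) ∈ E ∧
      s(x₂, j) ∈ E := by
  have hn : 0 < Fintype.card V := Fintype.card_pos_iff.mpr ⟨x₁⟩
  obtain ⟨i, hi, hiS, hiB, hie⟩ := selR h hB hn b p₁ [y, x₁, x₂] (by simp) (by
    intro v hv
    simp only [List.mem_cons, List.not_mem_nil, or_false] at hv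
    rcases hv with rfl | rfl | rfl
    · exact ⟨hyA, hy.cop rfl⟩
    · exact ⟨h1A, Or.inl h1⟩
    · exact ⟨h2A, Or.inl h2⟩) S (by omega)
  have hi' := mem_Pa.1 hi
  obtain ⟨j, hj, hjS, hjB, hje⟩ := selR h hB hn b p₂ [i, z, x₁, x₂] (by simp) (by
    intro v hv
    simp only [List.mem_cons, List.not_mem_nil, or_false] at hv
    rcases hv with rfl | rfl | rfl | rfl
    · exact ⟨fun h' => hiB (hB.At_sub h'), h12.cop hi'.2⟩
    · exact ⟨hzA, hz.cop rfl⟩
    · exact ⟨h1A, Or.inl h1⟩
    · exact ⟨h2A, Or.inl h2⟩) (insert i S) (by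
      have := card_insert_le i S
      omega)
  rw [mem_insert, not_or] at hjS
  exact ⟨i, j, hi, hj, fun h' => hjS.1 h'.symm, hiS, hjS.2, hiB, hjB, hie y (by simp),
    hje i (by simp), hje z (by simp), hie x₁ (by simp), hie x₂ (by simp), hje x₁ (by simp),
    hje x₂ (by simp)⟩

/-- allowed triangles of a rigid world -/
theorem al_r (h : CX E (Co fl sd pt) sd At ε σ) {x y z : V} (hyz : s(y, z) ∈ E)
    (hs : sd y = sd z) (hx : sd x ≠ sd y) : AL (alC (Co fl sd pt) sd) x y z := by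
  have hne : y ≠ z := by
    rintro rfl
    exact h.nl _ hyz (by simp)
  exact (al_mk h hne hs hx (h.core _ _ hyz)).rot.rot

/-- the K-gadget with two inner vertices -/
theorem gadKR (h : RX E fl sd pt At ε σ) (hB : Bd At B q ε σ) {x₁ x₂ y z : V} {p₁ p₂ : Bool}
    (h1 : x₁ ∈ W) (h2 : x₂ ∈ W) (hy : y ∈ W) (hz : z ∈ W) (h12 : x₁ ≠ x₂) (hyz : y ≠ z)
    (h1A : x₁ ∉ At) (h2A : x₂ ∉ At) (hyA : y ∉ At) (hzA : z ∉ At) (hs : sd x₁ = sd x₂)
    (hsy : sd y ≠ sd x₁) (hsz : sd z = sd y) (hp1 : CC (fl (sd y)) (pt y) p₁)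
    (hp2 : CC (fl (sd y)) p₁ p₂) (hp3 : CC (fl (sd y)) (pt z) p₂) :
    Sg (alC (Co fl sd pt) sd) E W B q 5 2 (fK x₁ x₂ y z) := by
  refine gadK h.cx hB h1 h2 hy hz h12 hyz h1A h2A hyA hzA hs hsy (by rw [hsz]; exact hsy) 2
    (by norm_num) le_rfl ?_
  intro S hWS hS
  obtain ⟨i, j, hi, hj, hij, hiS, hjS, hiB, hjB, e1, e2, e3, e4, e5, e6, e7⟩ :=
    two_in h hB h1A h2A hyA hzA (fun h' => hsy h'.symm) (fun h' => hsy (by rw [hs]; exact h'.symm))
      hp1 hp2 hp3 S hS
  have hi' := (mem_Pa.1 hi).1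
  have hj' := (mem_Pa.1 hj).1
  have e3' : s(j, z) ∈ E := by rw [Sym2.eq_swap]; exact e3
  have hx2 : sd x₂ ≠ sd y := fun h' => hsy (by rw [hs]; exact h'.symm)
  have hx1 : sd x₁ ≠ sd y := fun h' => hsy h'.symm
  refine ⟨[i, j], rfl, ?_, ?_, ?_, ?_, ?_, ?_⟩
  · simp [hij]
  · intro k hk
    simp only [List.mem_cons, List.not_mem_nil, or_false] at hk
    rcases hk with rfl | rfl
    · exact ⟨hiS, hiB⟩
    · exact ⟨hjS, hjB⟩
  · intro e he
    simp only [pth, Multiset.mem_add, Multiset.mem_singleton] at he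
    rcases he with rfl | rfl | rfl
    · exact e1
    · exact e2
    · exact e3'
  · intro k hk
    simp only [List.mem_cons, List.not_mem_nil, or_false] at hk
    rcases hk with rfl | rfl
    · exact ⟨e4, e5⟩
    · exact ⟨e6, e7⟩
  · exact ⟨al_r h.cx e1 hi'.symm hx1, al_r h.cx e2 (hi'.trans hj'.symm) (by rw [hi']; exact hx1),
      al_r h.cx e3' (hj'.trans hsz.symm) (by rw [hj']; exact hx1)⟩
  · exact ⟨al_r h.cx e1 hi'.symm hx2, al_r h.cx e2 (hi'.trans hj'.symm) (by rw [hi']; exact hx2),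
      al_r h.cx e3' (hj'.trans hsz.symm) (by rw [hj']; exact hx2)⟩

theorem mt_sg {e : Sym2 V} {p : Sym2 V → Prop} (h : p e) :
    ∀ d ∈ ({e} + {e} : Multiset (Sym2 V)), p d := by
  intro d hd
  simp only [Multiset.mem_add, Multiset.mem_singleton, or_self] at hd
  rw [hd]
  exact h

/-- the gadget `2 x₁ y ↔ 2 x₂ y` on a side of type D -/
theorem gadD (h : RX E fl sd pt At ε σ) (hB : Bd At B q ε σ) {x₁ x₂ y : V}
    (h1 : x₁ ∈ W) (h2 : x₂ ∈ W) (hy : y ∈ W) (h12 : x₁ ≠ x₂)
    (h1A : x₁ ∉ At) (h2A : x₂ ∉ At) (hyA : y ∉ At) (hs : sd x₁ = sd x₂)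
    (hsy : sd y ≠ sd x₁) (hD : fl (sd y) = true) :
    Sg (alC (Co fl sd pt) sd) E W B q 5 2 ((2 : ℤ) • (dl s(x₁, y) - dl s(x₂, y))) := by
  have hx1 : sd x₁ ≠ sd y := fun h' => hsy h'.symm
  have hx2 : sd x₂ ≠ sd y := fun h' => hsy (by rw [hs]; exact h'.symm)
  have hcc : CC (fl (sd y)) (pt y) (pt y) := by
    unfold CC
    rw [if_pos hD]
  have v1 := cx_vp h.cx hB h1 hy hx1 (Or.inr hyA)
  have v2 := cx_vp h.cx hB h2 hy hx2 (Or.inr hyA)
  have hg : Gd (alC (Co fl sd pt) sd) E W B q 2 ({s(x₁, y)} + {s(x₁, y)})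
      ({s(x₂, y)} + {s(x₂, y)}) := by
    intro S hWS hS
    obtain ⟨i, j, hi, hj, hij, hiS, hjS, hiB, hjB, e1, e2, e3, e4, e5, e6, e7⟩ :=
      two_in h hB h1A h2A hyA hyA hx1 hx2 hcc hcc hcc S hS
    have hi' := (mem_Pa.1 hi).1
    have hj' := (mem_Pa.1 hj).1
    have hiW : i ∉ W := fun h' => hiS (hWS h')
    have hjW : j ∉ W := fun h' => hjS (hWS h')
    have hyi : y ≠ i := fun h' => hiW (h' ▸ hy)
    have hyj : y ≠ j := fun h' => hjW (h' ▸ hy)
    have h1i : x₁ ≠ i := fun h' => hiW (h' ▸ h1)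
    have h1j : x₁ ≠ j := fun h' => hjW (h' ▸ h1)
    have h2i : x₂ ≠ i := fun h' => hiW (h' ▸ h2)
    have h2j : x₂ ≠ j := fun h' => hjW (h' ▸ h2)
    have h1y : x₁ ≠ y := fun h' => hx1 (by rw [h'])
    have h2y : x₂ ≠ y := fun h' => hx2 (by rw [h'])
    refine ⟨{i, j}, {s(y, i)} + {s(y, j)} + {s(i, j)} + {s(x₁, i)} + {s(x₁, j)} + {s(x₂, i)} +
      {s(x₂, j)}, card_le_two, ?_, ?_, ?_, ?_⟩
    · rw [disjoint_left]
      intro v hv
      simp only [mem_insert, mem_singleton] at hv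
      rw [mem_union, not_or]
      rcases hv with rfl | rfl
      · exact ⟨hiS, hiB⟩
      · exact ⟨hjS, hjB⟩
    · refine ⟨?_, ?_, ?_, ?_⟩
      · simp only [Multiset.nodup_add, Multiset.nodup_singleton, true_and, and_true,
          Multiset.disjoint_singleton, Multiset.mem_add, Multiset.mem_singleton, Sym2.eq_iff,
          not_or, not_and]
        refine ⟨⟨⟨⟨⟨?_, ?_⟩, ?_⟩, ?_⟩, ?_⟩, ?_⟩ <;>
          simp [hyi, hyi.symm, hyj, hyj.symm, hij, hij.symm, h1i, h1j, h2i, h2j, h1y, h2y,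
            h12.symm, h1i.symm, h1j.symm, h2i.symm, h2j.symm]
      · intro e he
        simp only [Multiset.mem_add, Multiset.mem_singleton] at he
        rcases he with (((((rfl | rfl) | rfl) | rfl) | rfl) | rfl) | rfl <;> assumption
      · intro e he
        simp only [Multiset.mem_add, Multiset.mem_singleton] at he
        rcases he with (((((rfl | rfl) | rfl) | rfl) | rfl) | rfl) | rfl
        · exact ⟨i, by simp, by simp⟩
        · exact ⟨j, by simp, by simp⟩
        · exact ⟨i, by simp, by simp⟩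
        · exact ⟨i, by simp, by simp⟩
        · exact ⟨j, by simp, by simp⟩
        · exact ⟨i, by simp, by simp⟩
        · exact ⟨j, by simp, by simp⟩
      · intro e he v hv
        have hyS := hWS hy
        have h1S := hWS h1
        have h2S := hWS h2
        simp only [Multiset.mem_add, Multiset.mem_singleton] at he
        rcases he with (((((rfl | rfl) | rfl) | rfl) | rfl) | rfl) | rfl <;>
          (rw [Sym2.mem_iff] at hv; rcases hv with rfl | rfl <;> simp [*])
    · have hM : ({s(y, i)} + {s(y, j)} + {s(i, j)} + {s(x₁, i)} + {s(x₁, j)} + {s(x₂, i)} +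
          {s(x₂, j)} + ({s(x₁, y)} + {s(x₁, y)}) : Multiset (Sym2 V)) =
          trim x₁ y i + (trim x₁ y j + (trim x₂ i j + 0)) := by
        unfold trim
        abel
      rw [hM]
      exact MD.cons (al_r h.cx e1 hi'.symm hx1) (fun h' => hiW h'.2.2)
        (MD.cons (al_r h.cx e3 hj'.symm hx1) (fun h' => hjW h'.2.2)
        (MD.cons (al_r h.cx e2 (hi'.trans hj'.symm) (by rw [hi']; exact hx2))
          (fun h' => hjW h'.2.2) MD.zero))
    · have hM : ({s(y, i)} + {s(y, j)} + {s(i, j)} + {s(x₁, i)} + {s(x₁, j)} + {s(x₂, i)} +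
          {s(x₂, j)} + ({s(x₂, y)} + {s(x₂, y)}) : Multiset (Sym2 V)) =
          trim x₂ y i + (trim x₂ y j + (trim x₁ i j + 0)) := by
        unfold trim
        abel
      rw [hM]
      exact MD.cons (al_r h.cx e1 hi'.symm hx2) (fun h' => hiW h'.2.2)
        (MD.cons (al_r h.cx e3 hj'.symm hx2) (fun h' => hjW h'.2.2)
        (MD.cons (al_r h.cx e2 (hi'.trans hj'.symm) (by rw [hi']; exact hx1))
          (fun h' => hjW h'.2.2) MD.zero))
  have hsg := Sg.of (c := 5) hg (by simp) (by simp) (mt_sg v1) (mt_sg v2)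
  have hf : ((2 : ℤ) • (dl s(x₁, y) - dl s(x₂, y))) = fun e =>
      ((({s(x₁, y)} + {s(x₁, y)} : Multiset (Sym2 V)).count e : ℕ) : ℤ) -
      ((({s(x₂, y)} + {s(x₂, y)} : Multiset (Sym2 V)).count e : ℕ) : ℤ) := by
    funext e
    simp only [dl, Multiset.count_add, Multiset.count_singleton, Pi.sub_apply, Pi.smul_apply,
      smul_eq_mul]
    push_cast
    ring
  rw [hf]
  exact hsg

/-- the K-gadget for a core pair `y z` of typical vertices on one side -/
theorem gadR (h : RX E fl sd pt At ε σ) (hB : Bd At B q ε σ) {x₁ x₂ y z : V} (h1 : x₁ ∈ W)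
    (h2 : x₂ ∈ W) (hy : y ∈ W) (hz : z ∈ W) (h12 : x₁ ≠ x₂) (hyz : y ≠ z) (h1A : x₁ ∉ At)
    (h2A : x₂ ∉ At) (hyA : y ∉ At) (hzA : z ∉ At) (hs : sd x₁ = sd x₂) (hs' : sd y = sd z)
    (hsy : sd y ≠ sd x₁) (hco : Co fl sd pt y z) :
    Sg (alC (Co fl sd pt) sd) E W B q 5 2 (fK x₁ x₂ y z) := by
  have hcc : CC (fl (sd y)) (pt y) (pt z) := by
    rcases hco with h' | h'
    · exact absurd hs' h'
    · rw [← hs'] at h'
      exact h'
  have hcc' : CC (fl (sd y)) (pt z) (pt y) := by
    unfold CC at *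
    split_ifs at hcc ⊢
    · exact hcc.symm
    · exact hcc.symm
  exact gadKR h hB h1 h2 hy hz h12 hyz h1A h2A hyA hzA hs hsy hs'.symm hcc hcc' hcc'

/-- the relations with a base vertex -/
theorem relR_base (h : RX E fl sd pt At ε σ) (hB : Bd At B q ε σ) {X : Finset V} (hX : X ⊆ W)
    {ba : Bool → Bool → V} (hb : Bas sd pt At W ba) :
    Rel (Sg (alC (Co fl sd pt) sd) E W B q 5) 20 sd pt At X ba := by
  have hax : SgAx (Sg (alC (Co fl sd pt) sd) E W B q 5) := sgAx
  -- the move (I) for `x` and the base vertex of its part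
  have key : ∀ x ∈ W, ∀ y ∈ W, ∀ z ∈ W, y ∉ At → z ∉ At → sd y ≠ sd x → sd z ≠ sd x →
      Sg (alC (Co fl sd pt) sd) E W B q 5 2 (fC x (ba (sd x) (pt x)) y z) ∧
      (y ≠ z → Sg (alC (Co fl sd pt) sd) E W B q 5 2 (fK x (ba (sd x) (pt x)) y z)) := by
    intro x hx y hy z hz hyA hzA hsy hsz
    exact gadI h.cx hB hx (hb.inW _ _) hy hz
      (h.cm x _ (hb.side _ _).symm (hb.part _ _).symm (hb.nA _ _)) (hb.nA _ _) hyA hzA hsy hsz
  have hbs : ∀ b, ba b true ≠ ba b false := by
    intro b h'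
    have := congrArg pt h'
    rw [hb.part, hb.part] at this
    exact Bool.noConfusion this
  refine ⟨?_, ?_, ?_, ?_, ?_⟩
  · intro x hx y hy hsx hsy hA
    by_cases hyA : y ∉ At
    · have h1 := (key x (hX hx) y (hX hy) (ba false (pt y)) (hb.inW _ _) hyA (hb.nA _ _)
        (by rw [hsx, hsy]; decide) (by rw [hsx, hb.side]; decide)).1
      rw [hsx] at h1
      refine hax.mono 2 20 _ ?_ (by norm_num)
      convert h1 using 1
      unfold fC
      abel
    · have hxA : x ∉ At := by tauto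
      have h1 := (key y (hX hy) x (hX hx) (ba true (pt x)) (hb.inW _ _) hxA (hb.nA _ _)
        (by rw [hsx, hsy]; decide) (by rw [hsy, hb.side]; decide)).1
      rw [hsy] at h1
      refine hax.mono 2 20 _ ?_ (by norm_num)
      convert h1 using 1
      unfold fC
      rw [Sym2.eq_swap (a := x) (b := y), Sym2.eq_swap (a := ba true (pt x)) (b := y),
        Sym2.eq_swap (a := x) (b := ba false (pt y)),
        Sym2.eq_swap (a := ba true (pt x)) (b := ba false (pt y))]
      abel
  · intro x hx hsx j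
    have h1 := key x (hX hx) (ba false j) (hb.inW _ _) (ba false (!j)) (hb.inW _ _) (hb.nA _ _)
      (hb.nA _ _) (by rw [hsx, hb.side]; decide) (by rw [hsx, hb.side]; decide)
    have hne : ba false j ≠ ba false (!j) := by
      cases j
      · exact (hbs false).symm
      · exact hbs false
    have h2 := hax.add 2 2 _ _ (h1.2 hne) h1.1
    rw [hsx] at h2
    refine hax.mono (2 + 2) 20 _ ?_ (by norm_num)
    convert h2 using 1
    unfold fC fK
    rw [two_smul]
    abel
  · intro x hx hsx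
    have h1 := key x (hX hx) (ba false true) (hb.inW _ _) (ba false false) (hb.inW _ _)
      (hb.nA _ _) (hb.nA _ _) (by rw [hsx, hb.side]; decide) (by rw [hsx, hb.side]; decide)
    have h2 := h1.2 (hbs false)
    rw [hsx] at h2
    refine hax.mono 2 20 _ ?_ (by norm_num)
    convert h2 using 1
    unfold fK
    abel
  · intro y hy hsy i
    have h1 := key y (hX hy) (ba true i) (hb.inW _ _) (ba true (!i)) (hb.inW _ _) (hb.nA _ _)
      (hb.nA _ _) (by rw [hsy, hb.side]; decide) (by rw [hsy, hb.side]; decide)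
    have hne : ba true i ≠ ba true (!i) := by
      cases i
      · exact (hbs true).symm
      · exact hbs true
    have h2 := hax.add 2 2 _ _ (h1.2 hne) h1.1
    rw [hsy] at h2
    refine hax.mono (2 + 2) 20 _ ?_ (by norm_num)
    convert h2 using 1
    unfold fC fK
    rw [two_smul, Sym2.eq_swap (a := ba true i) (b := y),
      Sym2.eq_swap (a := ba true i) (b := ba false (pt y))]
    abel
  · intro y hy hsy
    have h1 := key y (hX hy) (ba true true) (hb.inW _ _) (ba true false) (hb.inW _ _)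
      (hb.nA _ _) (hb.nA _ _) (by rw [hsy, hb.side]; decide) (by rw [hsy, hb.side]; decide)
    have h2 := h1.2 (hbs true)
    rw [hsy] at h2
    refine hax.mono 2 20 _ ?_ (by norm_num)
    convert h2 using 1
    unfold fK
    rw [Sym2.eq_swap (a := ba true true) (b := y),
      Sym2.eq_swap (a := ba true true) (b := ba false (pt y)),
      Sym2.eq_swap (a := ba true false) (b := y),
      Sym2.eq_swap (a := ba true false) (b := ba false (pt y))]
    abel

/-- the relations between the base vertices -/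
theorem rel4R_base (h : RX E fl sd pt At ε σ) (hB : Bd At B q ε σ) {ba : Bool → Bool → V}
    (hb : Bas sd pt At W ba) : Rel4 (Sg (alC (Co fl sd pt) sd) E W B q 5) 20 fl ba := by
  have hax : SgAx (Sg (alC (Co fl sd pt) sd) E W B q 5) := sgAx
  have hbs : ∀ b, ba b true ≠ ba b false := by
    intro b h'
    have := congrArg pt h'
    rw [hb.part, hb.part] at this
    exact Bool.noConfusion this
  refine ⟨?_, ?_, ?_, ?_⟩
  · intro hf j
    refine hax.mono 2 20 _ ?_ (by norm_num)
    exact gadD h hB (hb.inW _ _) (hb.inW _ _) (hb.inW _ _) (hbs true) (hb.nA _ _) (hb.nA _ _)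
      (hb.nA _ _) (by rw [hb.side, hb.side]) (by rw [hb.side, hb.side]; decide)
      (by rw [hb.side]; exact hf)
  · intro hf i
    refine hax.mono 2 20 _ ?_ (by norm_num)
    have h1 := gadD (W := W) h hB (x₁ := ba false true) (x₂ := ba false false) (y := ba true i)
      (hb.inW _ _) (hb.inW _ _) (hb.inW _ _) (hbs false) (hb.nA _ _) (hb.nA _ _)
      (hb.nA _ _) (by rw [hb.side, hb.side]) (by rw [hb.side, hb.side]; decide)
      (by rw [hb.side]; exact hf)
    rw [Sym2.eq_swap (a := ba false true), Sym2.eq_swap (a := ba false false)] at h1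
    exact h1
  · intro hf
    refine hax.mono 2 20 _ ?_ (by norm_num)
    have h1 := gadR (W := W) h hB (x₁ := ba false true) (x₂ := ba false false)
      (y := ba true true) (z := ba true false) (hb.inW _ _)
      (hb.inW _ _) (hb.inW _ _) (hb.inW _ _) (hbs false) (hbs true) (hb.nA _ _) (hb.nA _ _)
      (hb.nA _ _) (hb.nA _ _) (by rw [hb.side, hb.side]) (by rw [hb.side, hb.side])
      (by rw [hb.side, hb.side]; decide) (by
        right
        rw [hb.side, hb.part, hb.part, hf]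
        decide)
    convert h1 using 1
    unfold fK
    rw [Sym2.eq_swap (a := ba false true) (b := ba true true),
      Sym2.eq_swap (a := ba false true) (b := ba true false),
      Sym2.eq_swap (a := ba false false) (b := ba true true),
      Sym2.eq_swap (a := ba false false) (b := ba true false)]
  · intro hf
    refine hax.mono 2 20 _ ?_ (by norm_num)
    exact gadR (W := W) h hB (x₁ := ba true true) (x₂ := ba true false)
      (y := ba false true) (z := ba false false) (hb.inW _ _)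
      (hb.inW _ _) (hb.inW _ _) (hb.inW _ _) (hbs true) (hbs false) (hb.nA _ _) (hb.nA _ _)
      (hb.nA _ _) (hb.nA _ _) (by rw [hb.side, hb.side]) (by rw [hb.side, hb.side])
      (by rw [hb.side, hb.side]; decide) (by
        right
        rw [hb.side, hb.part, hb.part, hf]
        decide)

/-- **the relations in a rigid world** -/
theorem relR (h : RX E fl sd pt At ε σ) (hB : Bd At B q ε σ) (X S : Finset V) (hXS : X ⊆ S)
    (hq : S.card + 8 ≤ q) :
    ∃ (W : Finset V) (ba : Bool → Bool → V), X ⊆ W ∧ W.card ≤ X.card + 8 ∧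
      (∀ v ∈ W, v ∈ X ∨ (v ∉ S ∧ v ∉ B)) ∧ Bas sd pt At W ba ∧
      Rel (Sg (alC (Co fl sd pt) sd) E W B q 5) 20 sd pt At X ba ∧
      Rel4 (Sg (alC (Co fl sd pt) sd) E W B q 5) 20 fl ba := by
  have hn : 0 < Fintype.card V := by
    have h1 : (40 : ℝ) ≤ (q : ℝ) := by exact_mod_cast hB.q40
    have h2 := hB.q_le
    by_contra h3
    have h4 : nn V = 0 := by
      unfold nn
      have : Fintype.card V = 0 := by omega
      rw [this]
      simp
    rw [h4, mul_zero] at h2
    linarith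
  have hch : ∀ b i : Bool, ∃ w, w ∈ Pa sd pt b i ∧ w ∉ S ∧ w ∉ B := by
    intro b i
    obtain ⟨w, hw, hwS, hwB, -⟩ := selR h hB hn b i [] (by simp) (by simp) S (by omega)
    exact ⟨w, hw, hwS, hwB⟩
  choose ba hba using hch
  have hb : Bas sd pt At (X ∪ univ.image (fun p : Bool × Bool => ba p.1 p.2)) ba :=
    ⟨fun b i => (mem_Pa.1 (hba b i).1).1, fun b i => (mem_Pa.1 (hba b i).1).2,
      fun b i h' => (hba b i).2.2 (hB.At_sub h'),
      fun b i => mem_union_right _ (mem_image.2 ⟨(b, i), mem_univ _, rfl⟩)⟩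
  refine ⟨X ∪ univ.image (fun p : Bool × Bool => ba p.1 p.2), ba, subset_union_left, ?_, ?_, hb,
    relR_base h hB subset_union_left hb, rel4R_base h hB hb⟩
  · have h1 := card_union_le X (univ.image (fun p : Bool × Bool => ba p.1 p.2))
    have h2 : (univ.image (fun p : Bool × Bool => ba p.1 p.2)).card ≤
        (univ : Finset (Bool × Bool)).card := card_image_le
    have h3 : (univ : Finset (Bool × Bool)).card = 4 := by decide
    omega
  · intro v hv
    rcases mem_union.1 hv with hv | hv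
    · exact Or.inl hv
    · obtain ⟨p, -, rfl⟩ := mem_image.1 hv
      exact Or.inr ⟨(hba p.1 p.2).2.1, (hba p.1 p.2).2.2⟩

end F3.AB
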