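import Pool.Agent.F3.AB.OneX
import Pool.Agent.F3.AB.RelR
import Pool.Agent.F3.AB.Alg3
import Pool.Agent.F3.AB.Apex

/-!
# Block AB, row AB-23: rigid worlds, absorbers for one graph
-/

set_option autoImplicit false
set_option linter.unusedSectionVars false

namespace F3.AB

open Finset NW F1

section

variable {V : Type} [Fintype V] [DecidableEq V]

private theorem oneR_sum_dl (F : Finset (Sym2 V)) (e' : Sym2 V) :
    (∑ e ∈ F, dl e) e' = ((F.val.count e' : ℕ) : ℤ) := by
  rw [Finset.sum_apply]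
  unfold dl
  rw [Finset.sum_ite_eq F e' (fun _ => (1 : ℤ))]
  by_cases h : e' ∈ F
  · rw [if_pos h, Multiset.count_eq_one_of_mem F.nodup h]
    rfl
  · rw [if_neg h, Multiset.count_eq_zero_of_notMem (fun h' => h h')]
    rfl

private theorem oneR_card_sym2 {U : Finset V} {D : Finset (Sym2 V)} {m : ℕ} (h : D ⊆ U.sym2)
    (hU : U.card ≤ m) : D.card ≤ (m + 1) * (m + 1) := by
  have h1 := Finset.card_le_card h
  rw [Finset.card_sym2] at h1
  have h2 : (U.card + 1).choose 2 ≤ (U.card + 1) ^ 2 := Nat.choose_le_pow _ _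
  nlinarith [Nat.mul_le_mul (Nat.succ_le_succ hU) (Nat.succ_le_succ hU)]

end

theorem oneR : OneRStatement := by
  intro m
  refine ⟨(m + (m + 1) * (m + 1) + 8) + (m + 1) * (m + 1) +
    12 * (24 * 20 * ((m + 1) * (m + 1))) + 8, ?_⟩
  intro V _ _ E fl sd pt At U B D ε σ q q' hX hB hq hU hDU hD hco htor S hUS hSq
  set d := (m + 1) * (m + 1) with hd
  have hDc : D.card ≤ d := oneR_card_sym2 hDU hU
  have hDS : ∀ e ∈ D, ∀ v ∈ e, v ∈ S := fun e he v hv =>
    hUS ((Finset.mem_sym2_iff.1 (hDU he)) v hv)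
  obtain ⟨ap, hap⟩ := cx_apx hX.cx hB D S hD.nl hD.noAt hco (by omega)
  set X : Finset V := U ∪ (Di sd D).image ap with hXdef
  have hXc : X.card ≤ m + d := by
    have h1 : ((Di sd D).image ap).card ≤ d :=
      (Finset.card_image_le.trans (Finset.card_filter_le _ _)).trans hDc
    have h2 := Finset.card_union_le U ((Di sd D).image ap)
    rw [← hXdef] at h2
    omega
  have hXD : ∀ e ∈ D, ∀ v ∈ e, v ∈ X := fun e he v hv =>
    mem_union_left _ ((Finset.mem_sym2_iff.1 (hDU he)) v hv)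
  have hXa : ∀ e ∈ D, Int sd e → ap e ∈ X := fun e he hi =>
    mem_union_right _ (mem_image_of_mem _ (mem_Di.2 ⟨he, hi⟩))
  have hSX : (S ∪ X).card ≤ q + (m + d) := by
    have h2 := Finset.card_union_le S X
    omega
  obtain ⟨W, ba, hXW, hWc, hWn, -, hR, h4⟩ := relR hX hB X (S ∪ X) subset_union_right
    (by omega)
  have hP := sgAx (al := alC (Co fl sd pt) sd) (E := E) (W := W) (B := B) (q := q') (c := 5)
  have hsg0 : Sg (alC (Co fl sd pt) sd) E W B q' 5 (24 * 20 * D.card)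
      (∑ e ∈ Dc sd D, dl e - ∑ e ∈ N0 sd D ap, dl e) := by
    rcases htor with ⟨hf, ht⟩ | ⟨hf1, hf2, ht⟩
    · exact alg_R hP hR h4 hf hD hDS hap hB.At_sub hXD hXa
        (tors_core hap hD.nl hf hco ht)
    · have hfl : fl = fun _ => false := by
        funext b
        cases b
        · exact hf2
        · exact hf1
      subst hfl
      exact alg_T hP hR h4 hD hDS hap hB.At_sub hXD hXa hco ht
  have hfun : (fun e => ((Dc sd D).val.count e : ℤ) - ((N0 sd D ap).val.count e : ℤ)) =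
      (∑ e ∈ Dc sd D, dl e - ∑ e ∈ N0 sd D ap, dl e) := by
    funext e
    rw [Pi.sub_apply, oneR_sum_dl, oneR_sum_dl]
  have hsg : Sg (alC (Co fl sd pt) sd) E W B q' 5 (24 * 20 * D.card)
      (fun e => ((Dc sd D).val.count e : ℤ) - ((N0 sd D ap).val.count e : ℤ)) := by
    rw [hfun]
    exact hsg0
  have hUW : U ⊆ W := fun v hv => hXW (mem_union_left _ hv)
  have hW' : ∀ v ∈ W, v ∈ U ∨ (v ∉ S ∧ v ∉ B) := by
    intro v hv
    rcases hWn v hv with h | ⟨h1, h2⟩
    · rcases mem_union.1 h with h | h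
      · exact Or.inl h
      · obtain ⟨e, he, rfl⟩ := mem_image.1 h
        obtain ⟨he1, he2⟩ := mem_Di.1 he
        exact Or.inr (hap.out e he1 he2)
    · exact Or.inr ⟨fun h => h1 (mem_union_left _ h), h2⟩
  obtain ⟨A, T, hOne⟩ := one_of_sg (al' := alR fl sd pt) hX.cx hB D U S ap
    (24 * 20 * D.card) hDU hUS hD.nl hD.noAt hap (fun T hT _ => hT) hUW hW'
    (fun e he hi => hXW (hXa e he hi)) hsg (by
      have : 24 * 20 * D.card ≤ 24 * 20 * d := Nat.mul_le_mul_left _ hDc
      omega)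
  refine ⟨A, T, ⟨?_, hOne.disj, hOne.sub, hOne.new, hOne.supp, hOne.dec, hOne.abs⟩⟩
  have h1 := hOne.card
  have h2 : 24 * 20 * D.card ≤ 24 * 20 * d := Nat.mul_le_mul_left _ hDc
  omega

end F3.AB
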