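import Pool.Agent.F3.AB.OneX
import Pool.Agent.F3.AB.RelR
import Pool.Agent.F3.AB.Alg3
import Pool.Agent.F3.AB.Apex

/-!
# Block AB, row AB-24: rigid worlds, one graph with the exceptional edge (helper91)
-/

set_option autoImplicit false
set_option linter.unusedSectionVars false

namespace F3.AB

open Finset NW F1

section R0

variable {V : Type} [Fintype V] [DecidableEq V]

theorem r0_sum_dl (F : Finset (Sym2 V)) (e : Sym2 V) :
    (∑ x ∈ F, dl x) e = (F.val.count e : ℤ) := by
  rw [Finset.sum_apply]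
  unfold dl
  rw [Finset.sum_ite_eq]
  by_cases h : e ∈ F
  · rw [if_pos h, Multiset.count_eq_one_of_mem F.nodup h]
    rfl
  · rw [if_neg h, Multiset.count_eq_zero_of_notMem h]
    rfl

/-- from apexes with vanishing torsion to an absorber -/
theorem r0_of_apx {E : Finset (Sym2 V)} {fl : Bool → Bool} {sd pt : V → Bool}
    {At B : Finset V} {q : ℕ} {ε σ : ℝ} (hf : fl false = true) (h : RX E fl sd pt At ε σ)
    (hB : Bd At B q ε σ) {al' : Tri V → Prop}
    (hal : ∀ T : Tri V, alC (Co fl sd pt) sd T → al' T) (D : Finset (Sym2 V)) (U S : Finset V)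
    (ap : Sym2 V → V) (hDU : D ⊆ U.sym2) (hUS : U ⊆ S) (hD : DOK sd At D)
    (hap : Apx al' E sd D S B ap)
    (ht : ∑ e ∈ D, tau fl sd pt e - ∑ d ∈ Di sd D, tr3 ap (tau fl sd pt) d = 0)
    (hq : S.card + (U.card + D.card + 8) + D.card + 12 * (24 * 20 * D.card) ≤ q) :
    ∃ (A : Finset (Sym2 V)) (T : Finset V),
      One al' E S B (U.card + D.card + 8 + D.card + 12 * (24 * 20 * D.card)) D A T := by
  have hX : (U ∪ (Di sd D).image ap).card ≤ U.card + D.card :=
    (card_union_le _ _).trans (Nat.add_le_add_left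
      (card_image_le.trans (card_le_card (filter_subset _ _))) _)
  have hSX : (S ∪ (U ∪ (Di sd D).image ap)).card ≤ S.card + (U.card + D.card) :=
    (card_union_le _ _).trans (Nat.add_le_add_left hX _)
  obtain ⟨W, ba, hXW, hWc, hWo, _, hRel, hRel4⟩ := relR h hB (U ∪ (Di sd D).image ap)
    (S ∪ (U ∪ (Di sd D).image ap)) subset_union_right (by omega)
  have hDv : ∀ e ∈ D, ∀ v ∈ e, v ∈ U := fun e he v hv => mem_sym2_iff.1 (hDU he) v hv
  have hXa : ∀ d ∈ D, Int sd d → ap d ∈ U ∪ (Di sd D).image ap := fun d hd hi =>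
    mem_union_right _ (mem_image_of_mem _ (mem_Di.2 ⟨hd, hi⟩))
  have hsg := alg_R sgAx hRel hRel4 hf hD (fun e he v hv => hUS (hDv e he v hv)) hap hB.At_sub
    (fun e he v hv => mem_union_left _ (hDv e he v hv)) hXa ht
  have hfun : (∑ e ∈ Dc sd D, dl e - ∑ e ∈ N0 sd D ap, dl e) =
      fun e => ((Dc sd D).val.count e : ℤ) - ((N0 sd D ap).val.count e : ℤ) := by
    funext e
    rw [Pi.sub_apply, r0_sum_dl, r0_sum_dl]
  rw [hfun] at hsg
  obtain ⟨A, T, hA⟩ := one_of_sg h.cx hB D U S ap (24 * 20 * D.card) hDU hUS hD.nl hD.noAt hap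
    (fun T hT _ => hal T hT) (subset_union_left.trans hXW) (by
      intro v hv
      rcases hWo v hv with h1 | h1
      · rcases mem_union.1 h1 with h2 | h2
        · exact Or.inl h2
        · obtain ⟨d, hd, rfl⟩ := mem_image.1 h2
          exact Or.inr (hap.out d (mem_Di.1 hd).1 (mem_Di.1 hd).2)
      · exact Or.inr ⟨fun h3 => h1.1 (mem_union_left _ h3), h1.2⟩)
    (fun d hd hi => hXW (hXa d hd hi)) hsg (by omega)
  exact ⟨A, T, { hA with card := hA.card.trans (by omega) }⟩

theorem r0_AL {al al' : Tri V → Prop} (h : ∀ T, al T → al' T) {a b c : V} (h1 : AL al a b c) :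
    AL al' a b c := by
  obtain ⟨h2, h3⟩ := h1
  exact ⟨h2, h _ h3⟩

/-- apexes of the exceptional pair in a given part -/
theorem r0_sel {E : Finset (Sym2 V)} {fl : Bool → Bool} {sd pt : V → Bool}
    {At B : Finset V} {q : ℕ} {ε σ : ℝ} (hB : Bd At B q ε σ) {u v : V}
    (h : Spec0 E fl sd pt At s(u, v) σ) (b : Bool) (S : Finset V) (hS : S.card ≤ q) :
    ∃ w, sd w = !sd u ∧ pt w = b ∧ w ∉ S ∧ w ∉ B ∧ s(u, w) ∈ E ∧ s(v, w) ∈ E := by
  by_contra hcon
  push Not at hcon
  have h1 := h.apex u v rfl b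
  have hsub : (Pa sd pt (!sd u) b \ At).filter (fun w => s(u, w) ∈ E ∧ s(v, w) ∈ E) ⊆ S ∪ B := by
    intro w hw
    rw [mem_filter, mem_sdiff] at hw
    obtain ⟨⟨h2, _⟩, h3, h4⟩ := hw
    have h5 : sd w = !sd u ∧ pt w = b := by simpa [Pa] using h2
    rw [mem_union]
    by_contra h6
    rw [not_or] at h6
    exact hcon w h5.1 h5.2 h6.1 h6.2 h3 h4
  have h2 : (((Pa sd pt (!sd u) b \ At).filter
      (fun w => s(u, w) ∈ E ∧ s(v, w) ∈ E)).card : ℝ) ≤ (S.card : ℝ) + (B.card : ℝ) := by
    exact_mod_cast (card_le_card hsub).trans (card_union_le _ _)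
  have h3 : (S.card : ℝ) ≤ (q : ℝ) := by exact_mod_cast hS
  have h4 := hB.B_card
  have h5 := hB.q_le
  have h6 : (40 : ℝ) ≤ (q : ℝ) := by exact_mod_cast hB.q40
  have h7 : 40 * ε * nn V ≤ σ * nn V :=
    mul_le_mul_of_nonneg_right hB.sig (by unfold nn; positivity)
  nlinarith

/-- the apex function with a prescribed apex for the exceptional pair -/
theorem r0_apx {E : Finset (Sym2 V)} {fl : Bool → Bool} {sd pt : V → Bool}
    {B S S' : Finset V} {D : Finset (Sym2 V)} {ap : Sym2 V → V} {u v w : V}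
    (hap : Apx (alC (Co fl sd pt) sd) E sd D S' B ap) (hSS : S ⊆ S') (hw : w ∈ S')
    (huv : u ≠ v) (hs : sd u = sd v)
    (h1 : sd w = !sd u) (h3 : w ∉ S) (h4 : w ∉ B) (h5 : s(u, w) ∈ E) (h6 : s(v, w) ∈ E) :
    Apx (alR0 fl sd pt s(u, v)) E sd (insert s(u, v) D) S B
      (fun d => if d = s(u, v) then w else ap d) where
  out := by
    intro d hd hi
    by_cases h : d = s(u, v)
    · simp only [if_pos h]
      exact ⟨h3, h4⟩
    · simp only [if_neg h]
      have h7 := hap.out d ((mem_insert.1 hd).resolve_left h) hi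
      exact ⟨fun h8 => h7.1 (hSS h8), h7.2⟩
  side := by
    intro d hd hi x hx
    by_cases h : d = s(u, v)
    · simp only [if_pos h]
      have h7 : sd x = sd u := by
        rw [h, Sym2.mem_iff] at hx
        rcases hx with rfl | rfl
        · rfl
        · exact hs.symm
      rw [h7, h1]
      cases sd u <;> simp
    · simp only [if_neg h]
      exact hap.side d ((mem_insert.1 hd).resolve_left h) hi x hx
  ed := by
    intro d hd hi x hx
    by_cases h : d = s(u, v)
    · simp only [if_pos h]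
      rw [h, Sym2.mem_iff] at hx
      rcases hx with rfl | rfl
      · exact h5
      · exact h6
    · simp only [if_neg h]
      exact hap.ed d ((mem_insert.1 hd).resolve_left h) hi x hx
  inj := by
    intro d hd d' hd' hi hi' hdd
    by_cases h : d = s(u, v) <;> by_cases h' : d' = s(u, v)
    · rw [h, h']
    · simp only [if_pos h, if_neg h'] at hdd
      exact absurd (hdd ▸ hw) (hap.out d' ((mem_insert.1 hd').resolve_left h') hi').1
    · simp only [if_neg h, if_pos h'] at hdd
      exact absurd (hdd.symm ▸ hw) (hap.out d ((mem_insert.1 hd).resolve_left h) hi).1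
    · simp only [if_neg h, if_neg h'] at hdd
      exact hap.inj d ((mem_insert.1 hd).resolve_left h) d' ((mem_insert.1 hd').resolve_left h')
        hi hi' hdd
  al := by
    intro x y hxy hs'
    by_cases h : s(x, y) = s(u, v)
    · simp only [if_pos h]
      have hxw : x ≠ w ∧ y ≠ w ∧ x ≠ y := by
        have h8 : sd x = sd u := by
          rw [Sym2.eq_iff] at h
          rcases h with ⟨rfl, rfl⟩ | ⟨rfl, rfl⟩
          · rfl
          · exact hs.symm
        refine ⟨?_, ?_, ?_⟩
        · rintro rfl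
          rw [h8] at h1
          cases h9 : sd u <;> rw [h9] at h1 <;> simp at h1
        · rintro rfl
          rw [← hs', h8] at h1
          cases h9 : sd u <;> rw [h9] at h1 <;> simp at h1
        · rintro rfl
          rw [Sym2.eq_iff] at h
          rcases h with ⟨rfl, rfl⟩ | ⟨rfl, rfl⟩ <;> exact huv rfl
      refine ⟨?_, Or.inr ⟨⟨u, ?_, w, ?_, ?_⟩, ?_⟩⟩
      · rw [card_eq_three]
        exact ⟨x, y, w, hxw.2.2, hxw.1, hxw.2.1, rfl⟩
      · rw [Sym2.eq_iff] at h
        rcases h with ⟨rfl, rfl⟩ | ⟨rfl, rfl⟩ <;> simp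
      · simp
      · rw [h1]
        cases sd u <;> simp
      · rw [← h]
        simp [NW.edg, hxw.2.2]
    · simp only [if_neg h]
      exact r0_AL (fun T hT => Or.inl hT) (hap.al x y ((mem_insert.1 hxy).resolve_left h) hs')

end R0

theorem oneR0 : OneR0Statement := by
  intro m
  refine ⟨6000 * (m + 1).choose 2 + m + 100, ?_⟩
  intro V _ _ E fl sd pt At U B D e₀ ε σ q q' hf h hB hqK hU hsp he hDU hD hco S hUS hS
  have hc : (insert e₀ D).card ≤ (m + 1).choose 2 := by
    have h1 := card_le_card hDU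
    rw [card_sym2] at h1
    exact h1.trans (Nat.choose_le_choose 2 (by omega))
  have hc' : D.card ≤ (insert e₀ D).card := card_le_card (subset_insert _ _)
  obtain ⟨u, v, rfl⟩ : ∃ u v, e₀ = s(u, v) := by
    induction e₀ with
    | _ u v => exact ⟨u, v, rfl⟩
  have huv : u ≠ v := by
    have h1 := hsp.nd
    rwa [Sym2.mk_isDiag_iff] at h1
  have hs : sd u = sd v := int_mk.1 hsp.int
  obtain ⟨w, a1, a2, a3, a4, a5, a6⟩ := r0_sel hB hsp true S (by omega)
  obtain ⟨w', b1, b2, b3, b4, b5, b6⟩ := r0_sel hB hsp false S (by omega)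
  have hcS : (insert w (insert w' S)).card ≤ S.card + 2 :=
    (card_insert_le _ _).trans (Nat.succ_le_succ (card_insert_le _ _))
  obtain ⟨ap, hap⟩ := cx_apx h.cx hB D (insert w (insert w' S))
    (fun e he' => hD.nl e (mem_insert_of_mem he'))
    (fun x hx y hy he' => hD.noAt x hx y hy (mem_insert_of_mem he')) hco (by omega)
  have hSS : S ⊆ insert w (insert w' S) := (subset_insert _ _).trans (subset_insert _ _)
  have hA := r0_apx hap hSS (mem_insert_self _ _) huv hs a1 a3 a4 a5 a6
  have hA' := r0_apx hap hSS (mem_insert_of_mem (mem_insert_self _ _)) huv hs b1 b3 b4 b5 b6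
  have hDS : ∀ e ∈ insert s(u, v) D, ∀ x ∈ e, x ∈ S :=
    fun e he' x hx => hUS (mem_sym2_iff.1 (hDU he') x hx)
  have hal : ∀ T : Tri V, alC (Co fl sd pt) sd T → alR0 fl sd pt s(u, v) T :=
    fun T hT => Or.inl hT
  have key : ∃ ap', Apx (alR0 fl sd pt s(u, v)) E sd (insert s(u, v) D) S B ap' ∧
      ∑ e ∈ insert s(u, v) D, tau fl sd pt e -
        ∑ d ∈ Di sd (insert s(u, v) D), tr3 ap' (tau fl sd pt) d = 0 := by
    rcases tors_choice hD hDS hA hA' hB.At_sub hf (mem_insert_self _ _) hsp.int hsp.exc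
      (fun d hd => by simp only [if_neg hd]) (by simp [a2, b2]) with h1 | h1
    · exact ⟨_, hA, h1⟩
    · exact ⟨_, hA', h1⟩
  obtain ⟨ap', hA'', ht⟩ := key
  obtain ⟨A, T, hT⟩ := r0_of_apx hf h hB hal (insert s(u, v) D) U S ap' hDU hUS hD hA'' ht
    (by omega)
  exact ⟨A, T, { hT with card := hT.card.trans (by omega) }⟩

end F3.AB
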