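import Pool.Agent.F3.AB.Eng1

/-!
# Block AB, row AB-4: common absorbers for many graphs
-/

set_option autoImplicit false
set_option linter.unusedSectionVars false

namespace F3.AB

open Finset NW F1

private lemma many_aux {V : Type} [Fintype V] [DecidableEq V] {al : Tri V → Prop}
    {E : Finset (Sym2 V)} {U B : Finset V} {q K : ℕ} (𝒟 : Finset (Finset (Sym2 V))) :
    (∀ D ∈ 𝒟, D ⊆ U.sym2 ∧ OneOK al E U B q K D) →
    ∀ S₀ : Finset V, U ⊆ S₀ → S₀.card + 𝒟.card * K ≤ q →
    ∃ (A : Finset (Sym2 V)) (T : Finset V), T.card ≤ 𝒟.card * K ∧ Disjoint T (S₀ ∪ B) ∧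
      A ⊆ E ∧ (∀ e ∈ A, ∃ v ∈ e, v ∈ T) ∧ (∀ e ∈ A, ∀ v ∈ e, v ∈ S₀ ∪ T) ∧ DecA al A ∧
      ∀ D ∈ 𝒟, DecA al (A ∪ D) := by
  induction 𝒟 using Finset.induction_on with
  | empty =>
    intro _ S₀ _ _
    exact ⟨∅, ∅, by simp, by simp, by simp, by simp, by simp, DecA.empty, by simp⟩
  | insert D 𝒟 hD𝒟 ih =>
    intro h S₀ hUS hq
    rw [Finset.card_insert_of_notMem hD𝒟, add_mul, one_mul] at hq ⊢
    obtain ⟨h1, h2⟩ := h D (Finset.mem_insert_self _ _)
    obtain ⟨A₁, T₁, a⟩ := h2 S₀ hUS (by omega)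
    have hc : (S₀ ∪ T₁).card ≤ S₀.card + K :=
      (Finset.card_union_le _ _).trans (Nat.add_le_add_left a.card _)
    obtain ⟨A₂, T₂, b1, b2, b3, b4, b5, b6, b7⟩ := ih
      (fun D hD => h D (Finset.mem_insert_of_mem hD)) (S₀ ∪ T₁)
      (hUS.trans Finset.subset_union_left) (by omega)
    have hd : Disjoint A₁ A₂ := by
      rw [Finset.disjoint_left]
      intro e he he'
      obtain ⟨v, hv, hv'⟩ := b4 e he'
      exact (Finset.disjoint_left.1 b2 hv') (Finset.mem_union_left _ (a.supp e he v hv))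
    have hdD : ∀ D' ∈ insert D 𝒟, Disjoint A₁ D' ∧ Disjoint A₂ D' := by
      intro D' hD'
      have hD1 : ∀ e ∈ D', ∀ v ∈ e, v ∈ S₀ := fun e he v hv =>
        hUS (Finset.mem_sym2_iff.1 ((h D' hD').1 he) v hv)
      constructor
      · rw [Finset.disjoint_left]
        intro e he he'
        obtain ⟨v, hv, hv'⟩ := a.new e he
        exact (Finset.disjoint_left.1 a.disj hv') (Finset.mem_union_left _ (hD1 e he' v hv))
      · rw [Finset.disjoint_left]
        intro e he he'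
        obtain ⟨v, hv, hv'⟩ := b4 e he
        exact (Finset.disjoint_left.1 b2 hv') (Finset.mem_union_left _
          (Finset.mem_union_left _ (hD1 e he' v hv)))
    refine ⟨A₁ ∪ A₂, T₁ ∪ T₂, ?_, ?_, Finset.union_subset a.sub b3, ?_, ?_,
      DecA.union a.dec b6 hd, ?_⟩
    · have := Finset.card_union_le T₁ T₂
      have := a.card
      omega
    · rw [Finset.disjoint_union_left]
      exact ⟨a.disj, Finset.disjoint_of_subset_right
        (Finset.union_subset_union_left Finset.subset_union_left) b2⟩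
    · intro e he
      rcases Finset.mem_union.1 he with he | he
      · obtain ⟨v, hv, hv'⟩ := a.new e he
        exact ⟨v, hv, Finset.mem_union_left _ hv'⟩
      · obtain ⟨v, hv, hv'⟩ := b4 e he
        exact ⟨v, hv, Finset.mem_union_right _ hv'⟩
    · intro e he v hv
      rcases Finset.mem_union.1 he with he | he
      · have := a.supp e he v hv
        simp only [Finset.mem_union] at this ⊢
        tauto
      · have := b5 e he v hv
        simp only [Finset.mem_union] at this ⊢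
        tauto
    · intro D' hD'
      rcases Finset.mem_insert.1 hD' with rfl | hD''
      · have e1 : A₁ ∪ A₂ ∪ D' = (A₁ ∪ D') ∪ A₂ := by
          ext e
          simp only [Finset.mem_union]
          tauto
        rw [e1]
        exact DecA.union a.abs b6 (Finset.disjoint_union_left.2 ⟨hd, (hdD D' hD').2.symm⟩)
      · rw [Finset.union_assoc]
        exact DecA.union a.dec (b7 D' hD'') (Finset.disjoint_union_right.2 ⟨hd, (hdD D' hD').1⟩)

private lemma card_sym2_le {V : Type} [DecidableEq V] (S : Finset V) :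
    S.sym2.card ≤ (S.card + 1) ^ 2 := by
  rw [Finset.card_sym2, Nat.choose_two_right, Nat.add_sub_cancel]
  refine (Nat.div_le_self _ _).trans ?_
  rw [pow_two]
  exact Nat.mul_le_mul_left _ (Nat.le_succ _)

theorem abs_of_one (m K : ℕ) : ∃ C q : ℕ, ∀ (V : Type) [Fintype V] [DecidableEq V]
    (al : Tri V → Prop) (E : Finset (Sym2 V)) (U B : Finset V)
    (𝒟 : Finset (Finset (Sym2 V))), U.card ≤ m →
    (∀ D ∈ 𝒟, D ⊆ U.sym2 ∧ OneOK al E U B q K D) →
    ∃ A : Finset (Sym2 V), A ⊆ E ∧ A.card ≤ C ∧ (∀ v ∈ F2.O.vE A, v ∈ U ∨ v ∉ B) ∧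
      (∀ e ∈ A, ∃ v ∈ e, v ∉ U) ∧ DecA al A ∧ ∀ D ∈ 𝒟, DecA al (A ∪ D) := by
  refine ⟨(m + 2 ^ ((m + 1) ^ 2) * K + 1) ^ 2, m + 2 ^ ((m + 1) ^ 2) * K, ?_⟩
  intro V _ _ al E U B 𝒟 hU h
  have hP : 𝒟.card * K ≤ 2 ^ ((m + 1) ^ 2) * K := by
    refine Nat.mul_le_mul_right _ ?_
    have h1 : 𝒟 ⊆ U.sym2.powerset := fun D hD => Finset.mem_powerset.2 (h D hD).1
    refine (Finset.card_le_card h1).trans ?_
    rw [Finset.card_powerset]
    refine Nat.pow_le_pow_right (by norm_num) ((card_sym2_le U).trans ?_)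
    exact Nat.pow_le_pow_left (by omega) 2
  obtain ⟨A, T, b1, b2, b3, b4, b5, b6, b7⟩ := many_aux 𝒟 h U (Finset.Subset.refl _) (by omega)
  refine ⟨A, b3, ?_, ?_, ?_, b6, b7⟩
  · have h1 : A ⊆ (U ∪ T).sym2 := fun e he => Finset.mem_sym2_iff.2 (b5 e he)
    refine (Finset.card_le_card h1).trans ((card_sym2_le _).trans ?_)
    refine Nat.pow_le_pow_left ?_ 2
    have := Finset.card_union_le U T
    omega
  · intro v hv
    simp only [F2.O.vE, Finset.mem_filter, Finset.mem_univ, true_and] at hv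
    obtain ⟨e, he, hve⟩ := hv
    rcases Finset.mem_union.1 (b5 e he v hve) with h1 | h1
    · exact Or.inl h1
    · exact Or.inr fun h2 => (Finset.disjoint_left.1 b2 h1) (Finset.mem_union_right _ h2)
  · intro e he
    obtain ⟨v, hv, hv'⟩ := b4 e he
    exact ⟨v, hv, fun h2 => (Finset.disjoint_left.1 b2 hv') (Finset.mem_union_left _ h2)⟩

end F3.AB
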