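import Pool.Agent.F3.AB.Gx
import Pool.Agent.F3.AB.Many

/-!
# Block AB, row AB-25: world G
-/

set_option autoImplicit false
set_option linter.unusedSectionVars false

namespace F3.AB

open Finset NW F1

private lemma wg_dok {V : Type} [Fintype V] [DecidableEq V] {H D : Finset (Sym2 V)}
    {sd : V → Bool} {At : Finset V} {ε θ : ℝ} (hr : RobG H sd At ε θ) (hD : D ⊆ H)
    (hg : Good0 (g1 sd) (fun _ => 0) D) : DOK sd At D := by
  obtain ⟨h1, h2, -⟩ := hg
  refine ⟨?_, ?_, ?_, ?_⟩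
  · exact fun e he => hr.nl e (hD he)
  · exact h1.2.1
  · exact fun u hu v hv he => hr.noAt u hu v hv (hD he)
  · exact h2 0

theorem abG (h : OneGStatement) : ABGStatement := by
  intro θ hθ
  obtain ⟨σ, hσ, hgx⟩ := gx_of_rob θ hθ
  have hε : 0 < σ / 40 := by positivity
  refine ⟨σ / 40 / 4, σ / 40 / 4, by positivity, by positivity, ?_⟩
  intro m
  obtain ⟨K, hK⟩ := h m
  obtain ⟨C, q, habs⟩ := abs_of_one m K
  obtain ⟨n₀, hn₀⟩ := exists_nat_ge (((q + K + 40 : ℕ) : ℝ) / (σ / 40))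
  refine ⟨C, max n₀ 1, ?_⟩
  intro V _ _ H sd At hn hrob Z F U hZ hF hU
  have hn1 : n₀ ≤ Fintype.card V := le_trans (le_max_left _ _) hn
  have hn2 : 0 < Fintype.card V := lt_of_lt_of_le Nat.one_pos (le_trans (le_max_right _ _) hn)
  have hnn : (0 : ℝ) ≤ nn V := Nat.cast_nonneg _
  have hGX : GX (H \ Z) sd At (σ / 40) σ :=
    hgx (σ / 40) hε (by linarith) V H Z sd At hn2 hrob hZ
  have hBd : Bd At (F ∪ At) (q + K + 40) (σ / 40) σ := by
    refine ⟨Finset.subset_union_right, ?_, ?_, by omega, hε, by linarith⟩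
    · have h1 : ((F ∪ At).card : ℝ) ≤ (F.card : ℝ) + (At.card : ℝ) := by
        exact_mod_cast Finset.card_union_le F At
      have h2 : (F.card : ℝ) ≤ σ / 40 / 4 * nn V := hF
      have h3 := hrob.At_card
      have h4 : 0 ≤ σ / 40 * nn V := mul_nonneg hε.le hnn
      nlinarith
    · rw [div_le_iff₀ hε] at hn₀
      refine hn₀.trans ?_
      rw [mul_comm]
      refine mul_le_mul_of_nonneg_left ?_ hε.le
      unfold nn
      exact_mod_cast hn1
  classical
  obtain ⟨A, hA1, hA2, hA3, hA4, hA5, hA6⟩ := habs V (alG sd) (H \ Z) U (F ∪ At)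
    ((U.sym2.powerset).filter (fun D => D ⊆ H ∧ Good0 (g1 sd) (fun _ => 0) D)) hU (by
      intro D hD
      rw [Finset.mem_filter, Finset.mem_powerset] at hD
      exact ⟨hD.1, hK V (H \ Z) sd At U (F ∪ At) D (σ / 40) σ q (q + K + 40) hGX hBd
        (by omega) hU hD.1 (wg_dok hrob hD.2.1 hD.2.2)⟩)
  refine ⟨A, hA1, hA2, ?_, hA5, hA4, ?_⟩
  · intro v hv
    rcases hA3 v hv with h1 | h1
    · exact Or.inl h1
    · exact Or.inr fun h2 => h1 (Finset.mem_union_left _ h2)
  · intro D hDH hDU hg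
    exact hA6 D (by
      rw [Finset.mem_filter, Finset.mem_powerset]
      exact ⟨hDU, hDH, hg⟩)

end F3.AB
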