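import Pool.Agent.F3.AB.Rx
import Pool.Agent.F3.AB.Many
import Pool.Agent.F3.HB.ValA

/-!
# Block AB, row AB-27: worlds R and T
-/

set_option autoImplicit false
set_option linter.unusedSectionVars false

namespace F3.AB

open Finset NW F1

section

variable {V : Type} [Fintype V] [DecidableEq V]

theorem wr_rx {H Z : Finset (Sym2 V)} {fl : Bool → Bool} {sd pt : V → Bool} {At : Finset V}
    {ε σ : ℝ} (h : RobR H fl sd pt At (ε / 4)) (hZ : Sm (ε / 4) Z) (h0 : 0 < ε)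
    (hε : ε ≤ 1 / 4000) (hσ : σ ≤ 1 / 50) : RX (H \ Z) fl sd pt At ε σ :=
  rx_of h hZ (by linarith) (by linarith) (by linarith) (by linarith)

theorem wr_bd {F At : Finset V} {ε σ : ℝ} {q n₀ : ℕ} (h0 : 0 < ε) (hσ : 40 * ε ≤ σ)
    (hAt : (At.card : ℝ) ≤ ε / 4 * nn V) (hF : SmF (ε / 4) F) (hq : 40 ≤ q)
    (hn₀ : ((q : ℕ) : ℝ) / ε ≤ (n₀ : ℝ)) (hn : n₀ ≤ Fintype.card V) :
    Bd At (F ∪ At) q ε σ := by
  have hnn : (0 : ℝ) ≤ nn V := Nat.cast_nonneg _
  refine ⟨Finset.subset_union_right, ?_, ?_, hq, h0, hσ⟩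
  · have h1 : ((F ∪ At).card : ℝ) ≤ (F.card : ℝ) + (At.card : ℝ) := by
      exact_mod_cast Finset.card_union_le F At
    have h2 : (F.card : ℝ) ≤ ε / 4 * nn V := hF
    have h4 : 0 ≤ ε * nn V := mul_nonneg h0.le hnn
    nlinarith
  · rw [div_le_iff₀ h0] at hn₀
    refine hn₀.trans ?_
    rw [mul_comm]
    refine mul_le_mul_of_nonneg_left ?_ h0.le
    unfold nn
    exact_mod_cast hn

theorem wr_out {F At U : Finset V} {A : Finset (Sym2 V)}
    (h : ∀ v ∈ F2.O.vE A, v ∈ U ∨ v ∉ F ∪ At) : ∀ v ∈ F2.O.vE A, v ∈ U ∨ v ∉ F := by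
  intro v hv
  rcases h v hv with h1 | h1
  · exact Or.inl h1
  · exact Or.inr fun h2 => h1 (Finset.mem_union_left _ h2)

theorem wr_spec {H Z : Finset (Sym2 V)} {fl : Bool → Bool} {sd pt : V → Bool} {At : Finset V}
    {e₀ : Sym2 V} {c η σ : ℝ} (h : Spec0 H fl sd pt At e₀ c) (hZ : Sm η Z)
    (hσ : σ + 2 * η ≤ c) : Spec0 (H \ Z) fl sd pt At e₀ σ := by
  refine ⟨h.typ, h.int, h.nd, h.exc, ?_⟩
  intro u v he b
  have hnn : (0 : ℝ) ≤ nn V := Nat.cast_nonneg _
  have h1 := h.apex u v he b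
  have h2 : (Pa sd pt (!sd u) b \ At).filter (fun w => s(u, w) ∈ H ∧ s(v, w) ∈ H) ⊆
      ((Pa sd pt (!sd u) b \ At).filter (fun w => s(u, w) ∈ H \ Z ∧ s(v, w) ∈ H \ Z)) ∪
        (nbr Z u ∪ nbr Z v) := by
    intro w hw
    simp only [mem_filter, mem_union, mem_nbr, mem_sdiff] at hw ⊢
    tauto
  have h3 := (card_le_card h2).trans ((card_union_le _ _).trans
    (Nat.add_le_add_left (card_union_le _ _) _))
  have h4 : (nbr Z u).card ≤ NW.deg Z u := le_rfl
  have h5 : (nbr Z v).card ≤ NW.deg Z v := le_rfl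
  have h6 := hZ u
  have h7 := hZ v
  have h8 : (((Pa sd pt (!sd u) b \ At).filter (fun w => s(u, w) ∈ H ∧ s(v, w) ∈ H)).card : ℝ) ≤
      (((Pa sd pt (!sd u) b \ At).filter
        (fun w => s(u, w) ∈ H \ Z ∧ s(v, w) ∈ H \ Z)).card : ℝ) +
      ((NW.deg Z u : ℝ) + (NW.deg Z v : ℝ)) := by
    have : ((Pa sd pt (!sd u) b \ At).filter (fun w => s(u, w) ∈ H ∧ s(v, w) ∈ H)).card ≤
      ((Pa sd pt (!sd u) b \ At).filter
        (fun w => s(u, w) ∈ H \ Z ∧ s(v, w) ∈ H \ Z)).card +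
      (NW.deg Z u + NW.deg Z v) := by omega
    exact_mod_cast this
  have h9 : (σ + 2 * η) * nn V ≤ c * nn V := mul_le_mul_of_nonneg_right hσ hnn
  nlinarith

end

theorem abT (h : OneRStatement) : ABTStatement := by
  obtain ⟨ε, hε⟩ : ∃ ε : ℝ, ε = 1 / 4000 := ⟨_, rfl⟩
  have h0 : 0 < ε := by rw [hε]; norm_num
  refine ⟨ε / 4, ε / 4, by positivity, by positivity, ?_⟩
  intro m
  obtain ⟨K, hK⟩ := h m
  obtain ⟨C, q, habs⟩ := abs_of_one m K
  obtain ⟨n₀, hn₀⟩ := exists_nat_ge (((q + K + 40 : ℕ) : ℝ) / ε)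
  refine ⟨C, n₀, ?_⟩
  intro V _ _ H sd pt At hn hrob Z F U hZ hF hU
  have hRX : RX (H \ Z) (fun _ => false) sd pt At ε (1 / 50) :=
    wr_rx hrob hZ h0 (by rw [hε]) le_rfl
  have hBd : Bd At (F ∪ At) (q + K + 40) ε (1 / 50) :=
    wr_bd h0 (by rw [hε]; norm_num) hrob.At_card hF (by omega) hn₀ hn
  classical
  obtain ⟨A, hA1, hA2, hA3, hA4, hA5, hA6⟩ := habs V (alR (fun _ => false) sd pt) (H \ Z) U
    (F ∪ At) ((U.sym2.powerset).filter (fun D => D ⊆ H ∧ Good0 (g2 sd pt) (fun _ => 0) D)) hU (by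
      intro D hD
      rw [Finset.mem_filter, Finset.mem_powerset] at hD
      obtain ⟨hDU, hDH, h1, h2, -⟩ := hD
      refine ⟨hDU, hK V (H \ Z) (fun _ => false) sd pt At U (F ∪ At) D ε (1 / 50) q
        (q + K + 40) hRX hBd (by omega) hU hDU ?_ ?_ ?_⟩
      · refine ⟨fun e he => hrob.nl e (hDH he), h1.2.1, fun u hu v hv he =>
          hrob.noAt u hu v hv (hDH he), ?_⟩
        have := h2 0
        simpa [g2] using this
      · exact fun u v he => hrob.core u v (hDH he)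
      · right
        refine ⟨rfl, rfl, ?_⟩
        have := h2 1
        simpa [g2] using this)
  refine ⟨A, hA1, hA2, wr_out hA3, hA5, hA4, ?_⟩
  intro D hDH hDU hg
  exact hA6 D (by
    rw [Finset.mem_filter, Finset.mem_powerset]
    exact ⟨hDU, hDH, hg⟩)

theorem abR (h : OneRStatement) (h0 : OneR0Statement) : ABRStatement := by
  intro c hc
  obtain ⟨σ, hσ⟩ : ∃ σ : ℝ, σ = min (1 / 50) (c / 2) := ⟨_, rfl⟩
  have σ0 : 0 < σ := by rw [hσ]; exact lt_min (by norm_num) (by linarith)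
  have σ1 : σ ≤ 1 / 50 := by rw [hσ]; exact min_le_left _ _
  have σ2 : σ ≤ c / 2 := by rw [hσ]; exact min_le_right _ _
  obtain ⟨ε, hε⟩ : ∃ ε : ℝ, ε = σ / 80 := ⟨_, rfl⟩
  have ε0 : 0 < ε := by rw [hε]; linarith
  refine ⟨ε / 4, ε / 4, by positivity, by positivity, ?_⟩
  intro m
  obtain ⟨K, hK⟩ := h m
  obtain ⟨K', hK'⟩ := h0 m
  obtain ⟨C, q, habs⟩ := abs_of_one m K
  obtain ⟨C', q', habs'⟩ := abs_of_one m K'
  obtain ⟨n₀, hn₀⟩ := exists_nat_ge (((q + K + 40 : ℕ) : ℝ) / ε)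
  obtain ⟨n₁, hn₁⟩ := exists_nat_ge (((q' + K' + 40 : ℕ) : ℝ) / ε)
  refine ⟨max C C', max n₀ n₁, ?_⟩
  intro V _ _ H fl sd pt At hn hfl hrob
  have hn0 := (le_max_left _ _).trans hn
  have hn1 := (le_max_right _ _).trans hn
  constructor
  · intro Z F U hZ hF hU
    have hRX : RX (H \ Z) fl sd pt At ε σ := wr_rx hrob hZ ε0 (by rw [hε]; linarith) σ1
    have hBd : Bd At (F ∪ At) (q + K + 40) ε σ :=
      wr_bd ε0 (by rw [hε]; linarith) hrob.At_card hF (by omega) hn₀ hn0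
    classical
    obtain ⟨A, hA1, hA2, hA3, hA4, hA5, hA6⟩ := habs V (alR fl sd pt) (H \ Z) U
      (F ∪ At) ((U.sym2.powerset).filter (fun D => D ⊆ H ∧ Good0 (g1 sd) (tau fl sd pt) D)) hU
      (by
        intro D hD
        rw [Finset.mem_filter, Finset.mem_powerset] at hD
        obtain ⟨hDU, hDH, h1, h2, h3⟩ := hD
        refine ⟨hDU, hK V (H \ Z) fl sd pt At U (F ∪ At) D ε σ q
          (q + K + 40) hRX hBd (by omega) hU hDU ?_ ?_ ?_⟩
        · exact ⟨fun e he => hrob.nl e (hDH he), h1.2.1, fun u hu v hv he =>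
            hrob.noAt u hu v hv (hDH he), h2 0⟩
        · exact fun u v he => hrob.core u v (hDH he)
        · exact Or.inl ⟨hfl, h3⟩)
    refine ⟨A, hA1, hA2.trans (le_max_left _ _), wr_out hA3, hA5, hA4, ?_⟩
    intro D hDH hDU hg
    exact hA6 D (by
      rw [Finset.mem_filter, Finset.mem_powerset]
      exact ⟨hDU, hDH, hg⟩)
  · intro e₀ hsp Z F U hZ hF hU he₀U
    have hRX : RX (H \ Z) fl sd pt At ε σ := wr_rx hrob hZ ε0 (by rw [hε]; linarith) σ1
    have hBd : Bd At (F ∪ At) (q' + K' + 40) ε σ :=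
      wr_bd ε0 (by rw [hε]; linarith) hrob.At_card hF (by omega) hn₁ hn1
    have hsp' : Spec0 (H \ Z) fl sd pt At e₀ σ := wr_spec hsp hZ (by rw [hε]; linarith)
    have he₀H : e₀ ∉ H := by
      intro he
      induction e₀ using Sym2.ind with
      | _ u v => exact hsp.exc u v rfl (hrob.core u v he)
    classical
    obtain ⟨A, hA1, hA2, hA3, hA4, hA5, hA6⟩ := habs' V (alR0 fl sd pt e₀) (H \ Z) U
      (F ∪ At) ((U.sym2.powerset).filter (fun D' => ∃ D, D ⊆ H ∧ D' = insert e₀ D ∧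
        NW.Divis D' ∧ ∀ j, ∑ e ∈ D', g1 sd j e = 0)) hU
      (by
        intro D' hD'
        rw [Finset.mem_filter, Finset.mem_powerset] at hD'
        obtain ⟨hDU, D, hDH, rfl, h1, h2⟩ := hD'
        refine ⟨hDU, hK' V (H \ Z) fl sd pt At U (F ∪ At) D e₀ ε σ q'
          (q' + K' + 40) hfl hRX hBd (by omega) hU hsp' (fun he => he₀H (hDH he)) hDU ?_ ?_⟩
        · refine ⟨?_, h1.2.1, ?_, h2 0⟩
          · intro e he
            rcases Finset.mem_insert.1 he with rfl | he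
            · exact hsp.nd
            · exact hrob.nl e (hDH he)
          · intro u hu v hv he
            rcases Finset.mem_insert.1 he with he | he
            · obtain ⟨w, hw, hwA⟩ := hsp.typ
              rw [← he, Sym2.mem_iff] at hw
              rcases hw with rfl | rfl
              · exact hwA hu
              · exact hwA hv
            · exact hrob.noAt u hu v hv (hDH he)
        · exact fun u v he => hrob.core u v (hDH he))
    have hdec : NW.Divis A := (DecA.dec hA5).divis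
    refine ⟨A, hA1, hA2.trans (le_max_right _ _), wr_out hA3, hA4, hdec, ?_, ?_⟩
    · intro j
      refine DecA.sum_zero (g1 sd j) hA5 fun T hT _ => ?_
      refine (HB.valA V).2.1 sd T ?_
      rcases hT with hT | hT
      · exact hT.1
      · exact hT.1
    · intro D hDH hDU hdiv hsum
      refine hA6 (insert e₀ D) ?_
      rw [Finset.mem_filter, Finset.mem_powerset]
      exact ⟨Finset.insert_subset he₀U hDU, D, hDH, rfl, hdiv, hsum⟩

end F3.AB
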