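import Pool.Agent.F3.AB.SComb

/-!
# Block AB, world S: fresh triangles inside the generic side
-/

set_option autoImplicit false
set_option linter.unusedSectionVars false

namespace F3.AB

open Finset NW F1

section

variable {V : Type} [Fintype V] [DecidableEq V]

theorem three_of_mem {t : Finset V} (ht : t.card = 3) {a : V} (ha : a ∈ t) :
    ∃ b c : V, t = {a, b, c} := by
  have h1 : (t.erase a).card = 2 := by rw [Finset.card_erase_of_mem ha, ht]
  obtain ⟨b, c, _, h2⟩ := Finset.card_eq_two.1 h1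
  exact ⟨b, c, by rw [← Finset.insert_erase ha, h2]⟩

theorem three_of_mem2 {t : Finset V} (ht : t.card = 3) {a b : V} (ha : a ∈ t) (hb : b ∈ t)
    (hab : a ≠ b) : ∃ c : V, t = {a, b, c} := by
  have h1 : ((t.erase a).erase b).card = 1 := by
    rw [Finset.card_erase_of_mem (Finset.mem_erase.2 ⟨hab.symm, hb⟩),
      Finset.card_erase_of_mem ha, ht]
  obtain ⟨c, h2⟩ := Finset.card_eq_one.1 h1
  refine ⟨c, ?_⟩
  rw [← Finset.insert_erase ha, ← Finset.insert_erase (Finset.mem_erase.2 ⟨hab.symm, hb⟩), h2]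

/-- sets of triangles are not larger than sets of ordered triples which cover them -/
theorem card_tri_le (𝒢 : Finset (Tri V)) (P : Finset (V × V × V))
    (h : ∀ T ∈ 𝒢, ∃ p ∈ P, T.1 = {p.1, p.2.1, p.2.2}) : 𝒢.card ≤ P.card := by
  rw [← Finset.card_image_of_injective 𝒢 (Subtype.val_injective)]
  refine (Finset.card_le_card (t := P.image (fun p => ({p.1, p.2.1, p.2.2} : Finset V))) ?_).trans
    Finset.card_image_le
  intro t ht
  obtain ⟨T, hT, rfl⟩ := Finset.mem_image.1 ht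
  obtain ⟨p, hp, e⟩ := h T hT
  exact Finset.mem_image.2 ⟨p, hp, e.symm⟩

theorem card_pairs (Z : Finset (Sym2 V)) :
    ((univ.filter (fun p : V × V × V => s(p.1, p.2.1) ∈ Z)).card : ℝ) =
      ∑ a : V, (NW.deg Z a : ℝ) * nn V := by
  rw [Finset.card_filter, Nat.cast_sum, Fintype.sum_prod_type]
  refine Finset.sum_congr rfl fun a _ => ?_
  rw [Fintype.sum_prod_type]
  have h1 : ∀ b : V, ∑ _c : V, (((if s(a, b) ∈ Z then 1 else 0 : ℕ)) : ℝ)
      = nn V * (if s(a, b) ∈ Z then 1 else 0) := by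
    intro b
    rw [Finset.sum_const, Finset.card_univ, nsmul_eq_mul]
    unfold nn
    push_cast
    rfl
  rw [Finset.sum_congr rfl fun b _ => h1 b, ← Finset.mul_sum, ← Finset.sum_filter,
    Finset.sum_const, nsmul_eq_mul, mul_one, mul_comm]
  congr 2

theorem trOK_of {H Z : Finset (Sym2 V)} {sd : V → Bool} {At B : Finset V} {θ η β : ℝ} {q : ℕ}
    (hZ : Sm η Z) (hB : (B.card : ℝ) ≤ β * nn V) (hq : (q : ℝ) ≤ β * nn V)
    (hη : η + 2 * β < θ) (hn : 0 < nn V)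
    (tri : θ * nn V ^ 3 ≤
      ((univ.filter (fun T : Tri V => T.1 ⊆ Sd sd false \ At ∧ NW.edg T.1 ⊆ H)).card : ℝ)) :
    TrOK (H \ Z) sd B q := by
  classical
  intro S hS
  obtain ⟨𝒢, h𝒢⟩ : ∃ 𝒢 : Finset (Tri V), 𝒢 = univ.filter (fun T : Tri V =>
    T.1 ⊆ Sd sd false \ At ∧ NW.edg T.1 ⊆ H) := ⟨_, rfl⟩
  rw [← h𝒢] at tri
  have b1 : ((𝒢.filter (fun T => ∃ v ∈ T.1, v ∈ S ∪ B)).card : ℝ) ≤ 2 * β * nn V ^ 3 := by
    have h1 : (𝒢.filter (fun T => ∃ v ∈ T.1, v ∈ S ∪ B)).card ≤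
        ((S ∪ B) ×ˢ (univ : Finset (V × V))).card := by
      refine card_tri_le _ _ ?_
      intro T hT
      obtain ⟨v, hv, hvS⟩ := (Finset.mem_filter.1 hT).2
      obtain ⟨b, c, e⟩ := three_of_mem T.2 hv
      exact ⟨(v, b, c), Finset.mem_product.2 ⟨hvS, Finset.mem_univ _⟩, e⟩
    rw [Finset.card_product, Finset.card_univ, Fintype.card_prod] at h1
    have h2 := Finset.card_union_le S B
    have h3 : ((S ∪ B).card : ℝ) ≤ (S.card : ℝ) + (B.card : ℝ) := by exact_mod_cast h2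
    have h4 : (S.card : ℝ) ≤ (q : ℝ) := by exact_mod_cast hS
    have h5 : ((𝒢.filter (fun T => ∃ v ∈ T.1, v ∈ S ∪ B)).card : ℝ) ≤
        ((S ∪ B).card : ℝ) * (nn V * nn V) := by
      unfold nn
      exact_mod_cast h1
    refine h5.trans ?_
    calc ((S ∪ B).card : ℝ) * (nn V * nn V) ≤ (2 * β * nn V) * (nn V * nn V) :=
          mul_le_mul_of_nonneg_right (by linarith) (by positivity)
      _ = 2 * β * nn V ^ 3 := by ring
  have b2 : ((𝒢.filter (fun T => ∃ e ∈ NW.edg T.1, e ∈ Z)).card : ℝ) ≤ η * nn V ^ 3 := by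
    have h1 : (𝒢.filter (fun T => ∃ e ∈ NW.edg T.1, e ∈ Z)).card ≤
        (univ.filter (fun p : V × V × V => s(p.1, p.2.1) ∈ Z)).card := by
      refine card_tri_le _ _ ?_
      intro T hT
      obtain ⟨e, he, heZ⟩ := (Finset.mem_filter.1 hT).2
      induction e using Sym2.ind with
      | _ a b =>
        obtain ⟨ha, hb, hab⟩ := mk_mem_edg.1 he
        obtain ⟨c, e⟩ := three_of_mem2 T.2 ha hb hab
        exact ⟨(a, b, c), Finset.mem_filter.2 ⟨Finset.mem_univ _, heZ⟩, e⟩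
    have h2 : ((𝒢.filter (fun T => ∃ e ∈ NW.edg T.1, e ∈ Z)).card : ℝ) ≤
        ∑ a : V, (NW.deg Z a : ℝ) * nn V := by
      rw [← card_pairs]
      exact_mod_cast h1
    refine h2.trans ((Finset.sum_le_sum fun a _ =>
      mul_le_mul_of_nonneg_right (hZ a) hn.le).trans (le_of_eq ?_))
    rw [Finset.sum_const, Finset.card_univ, nsmul_eq_mul]
    unfold nn
    ring
  have key : ∃ T ∈ 𝒢, (¬ ∃ v ∈ T.1, v ∈ S ∪ B) ∧ ¬ ∃ e ∈ NW.edg T.1, e ∈ Z := by
    by_contra hcon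
    push Not at hcon
    have h1 : 𝒢 ⊆ 𝒢.filter (fun T => ∃ v ∈ T.1, v ∈ S ∪ B) ∪
        𝒢.filter (fun T => ∃ e ∈ NW.edg T.1, e ∈ Z) := by
      intro T hT
      rw [Finset.mem_union, Finset.mem_filter, Finset.mem_filter]
      by_cases h : ∃ v ∈ T.1, v ∈ S ∪ B
      · exact Or.inl ⟨hT, h⟩
      · push Not at h
        obtain ⟨e, he, heZ⟩ := hcon T hT h
        exact Or.inr ⟨hT, e, he, heZ⟩
    have h2 := (Finset.card_le_card h1).trans (Finset.card_union_le _ _)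
    have h3 : (𝒢.card : ℝ) ≤ ((𝒢.filter (fun T => ∃ v ∈ T.1, v ∈ S ∪ B)).card : ℝ) +
        ((𝒢.filter (fun T => ∃ e ∈ NW.edg T.1, e ∈ Z)).card : ℝ) := by exact_mod_cast h2
    have h4 : θ * nn V ^ 3 ≤ (η + 2 * β) * nn V ^ 3 := by
      have : (η + 2 * β) * nn V ^ 3 = 2 * β * nn V ^ 3 + η * nn V ^ 3 := by ring
      rw [this]
      linarith
    have h5 := le_of_mul_le_mul_right h4 (by positivity)
    linarith
  obtain ⟨T, hT, k1, k2⟩ := key
  rw [h𝒢, Finset.mem_filter] at hT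
  obtain ⟨-, hTs, hTe⟩ := hT
  obtain ⟨a, b, c, hab, hac, hbc, e⟩ := Finset.card_eq_three.1 T.2
  have ma : a ∈ T.1 := by rw [e]; simp
  have mb : b ∈ T.1 := by rw [e]; simp
  have mc : c ∈ T.1 := by rw [e]; simp
  have sa : ∀ v ∈ T.1, sd v = false := by
    intro v hv
    have := (Finset.mem_sdiff.1 (hTs hv)).1
    unfold Sd at this
    exact (Finset.mem_filter.1 this).2
  have ed : ∀ u v : V, u ∈ T.1 → v ∈ T.1 → u ≠ v → s(u, v) ∈ H \ Z := by
    intro u v hu hv huv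
    have h1 : s(u, v) ∈ NW.edg T.1 := mk_mem_edg.2 ⟨hu, hv, huv⟩
    exact Finset.mem_sdiff.2 ⟨hTe h1, fun h => k2 ⟨_, h1, h⟩⟩
  have out : ∀ v ∈ T.1, v ∉ S ∧ v ∉ B := by
    intro v hv
    constructor
    · exact fun h => k1 ⟨v, hv, Finset.mem_union_left _ h⟩
    · exact fun h => k1 ⟨v, hv, Finset.mem_union_right _ h⟩
  exact ⟨a, b, c, hab, hbc, hac, by rw [sa a ma, sa b mb], by rw [sa b mb, sa c mc],
    ed a b ma mb hab, ed b c mb mc hbc, ed a c ma mc hac, (out a ma).1, (out b mb).1,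
    (out c mc).1, (out a ma).2, (out b mb).2, (out c mc).2⟩

end

end F3.AB
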