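import Pool.Agent.F3.AB.Gx
import Pool.Agent.F3.AB.Many
import Pool.Agent.F3.AB.STr
import Pool.Agent.F3.HB.Frame
import Pool.Agent.F3.HB.Hex
import Pool.Agent.F3.HB.HexG
import Pool.Agent.F3.HB.TokG
import Pool.Agent.F3.HB.ValA

/-!
# Block AB, row AB-26: world S
-/

set_option autoImplicit false
set_option linter.unusedSectionVars false

namespace F3.AB

open Finset NW F1

section

variable {V : Type} [Fintype V] [DecidableEq V]

/-- fresh sets of weight `-6` from tokens -/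
theorem hxOK_of {H Z : Finset (Sym2 V)} {sd : V → Bool} {B : Finset V} {ε : ℝ} {q : ℕ}
    (hT : TokenOK H (g1 sd) (fun _ => 0) (1 / 1000) (fun _ => -6) 0)
    (hε : ε ≤ 1 / 2000) (hZ : Sm (1 / 1000) Z) (hB : (B.card : ℝ) ≤ ε * nn V)
    (hq : (q : ℝ) ≤ ε * nn V) : HxOK (H \ Z) sd B q := by
  intro S hS
  have n0 : 0 ≤ nn V := by unfold nn; positivity
  have hF : SmF (1 / 1000) (S ∪ B) := by
    unfold SmF
    have h1 := Finset.card_union_le S B
    have h2 : ((S ∪ B).card : ℝ) ≤ (S.card : ℝ) + (B.card : ℝ) := by exact_mod_cast h1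
    have h3 : (S.card : ℝ) ≤ (q : ℝ) := by exact_mod_cast hS
    have h4 : ε * nn V ≤ 1 / 2000 * nn V := mul_le_mul_of_nonneg_right hε n0
    linarith
  obtain ⟨W, h1, h2, h3, h4, h5, -⟩ := hT Z (S ∪ B) hZ hF
  refine ⟨F2.O.vE W, W, ?_, ?_, h1, ?_, h2.2.1, ?_⟩
  · have e : F2.O.vE W ⊆ W.biUnion (fun e => e.toFinset) := by
      intro v hv
      unfold F2.O.vE at hv
      obtain ⟨e, he, hve⟩ := (Finset.mem_filter.1 hv).2
      rw [Finset.mem_biUnion]
      exact ⟨e, he, Sym2.mem_toFinset.2 hve⟩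
    have h6 : (W.biUnion (fun e => e.toFinset)).card ≤ W.card * 2 := by
      refine Finset.card_biUnion_le_card_mul _ _ _ fun e he => ?_
      rw [Sym2.card_toFinset_of_not_isDiag _ (h2.1 e he)]
    have := Finset.card_le_card e
    omega
  · rw [Finset.disjoint_left]
    exact fun v hv => h4 v hv
  · intro e he
    rw [Finset.mem_sym2_iff]
    intro v hv
    unfold F2.O.vE
    exact Finset.mem_filter.2 ⟨Finset.mem_univ _, e, he, hv⟩
  · exact h5 0

theorem card_sym2_le {U : Finset V} {m : ℕ} (h : U.card ≤ m) : U.sym2.card ≤ (m + 1) ^ 2 := by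
  rw [Finset.card_sym2, Nat.choose_two_right]
  have h1 : (U.card + 1) * (U.card + 1 - 1) ≤ (m + 1) * (m + 1) :=
    Nat.mul_le_mul (by omega) (by omega)
  have h2 : (U.card + 1) * (U.card + 1 - 1) / 2 ≤ (U.card + 1) * (U.card + 1 - 1) :=
    Nat.div_le_self _ _
  calc _ ≤ _ := h2
    _ ≤ (m + 1) * (m + 1) := h1
    _ = (m + 1) ^ 2 := by ring

theorem gam_bound (sd : V → Bool) (D : Finset (Sym2 V)) :
    |∑ e ∈ D, gam sd e| ≤ 2 * (D.card : ℤ) := by
  refine (Finset.abs_sum_le_sum_abs _ _).trans ?_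
  have h : ∀ e ∈ D, |gam sd e| ≤ 2 := by
    intro e _
    unfold gam
    split_ifs <;> norm_num
  refine (Finset.sum_le_sum h).trans (le_of_eq ?_)
  rw [Finset.sum_const, nsmul_eq_mul, mul_comm]

end

theorem abS (h : OneGStatement) : ABSStatement := by
  classical
  intro θ hθ
  obtain ⟨σ, σ0, HG⟩ := gx_of_rob θ hθ
  obtain ⟨ε, hε⟩ : ∃ ε : ℝ, ε = min (σ / 40) (min (θ / 100) (1 / 2000)) := ⟨_, rfl⟩
  have ε0 : 0 < ε := by
    rw [hε]
    exact lt_min (by linarith) (lt_min (by linarith) (by norm_num))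
  have ε1 : ε ≤ σ / 40 := by rw [hε]; exact min_le_left _ _
  have ε2 : ε ≤ θ / 100 := by rw [hε]; exact (min_le_right _ _).trans (min_le_left _ _)
  have ε3 : ε ≤ 1 / 2000 := by rw [hε]; exact (min_le_right _ _).trans (min_le_right _ _)
  refine ⟨ε / 4, ε / 4, by linarith, by linarith, ?_⟩
  intro m
  obtain ⟨k₀, hk₀⟩ : ∃ k₀ : ℕ, k₀ = (m + 1) ^ 2 := ⟨_, rfl⟩
  obtain ⟨K, HK⟩ := h (m + 27 * k₀)
  obtain ⟨C, qm, HC⟩ := abs_of_one m (2 * K + 27 * k₀)
  obtain ⟨q, hq⟩ : ∃ q : ℕ, q = qm + 27 * k₀ + K + 40 := ⟨_, rfl⟩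
  obtain ⟨n₁, hn₁⟩ := exists_nat_ge (((q + K : ℕ) : ℝ) / ε)
  refine ⟨C, max n₁ 10000, ?_⟩
  intro V _ _ E H sd At hn hW
  have hnn₁ : n₁ ≤ Fintype.card V := (le_max_left _ _).trans hn
  have hn4 : 10000 ≤ Fintype.card V := (le_max_right _ _).trans hn
  have hnn : (n₁ : ℝ) ≤ nn V := by unfold nn; exact_mod_cast hnn₁
  have n0 : 0 < nn V := by
    have : (10000 : ℝ) ≤ nn V := by unfold nn; exact_mod_cast hn4
    linarith
  have hqε : ((q + K : ℕ) : ℝ) ≤ ε * nn V := by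
    have h1 := hn₁.trans hnn
    rw [div_le_iff₀ ε0] at h1
    linarith
  have hqε' : (q : ℝ) ≤ ε * nn V := by
    refine le_trans ?_ hqε
    exact_mod_cast Nat.le_add_right q K
  intro Z F U hZ hF hU
  obtain ⟨B, hB⟩ : ∃ B : Finset V, B = F ∪ At := ⟨_, rfl⟩
  have hAB : At ⊆ B := by rw [hB]; exact Finset.subset_union_right
  have hBc : (B.card : ℝ) ≤ ε * nn V := by
    have h1 := Finset.card_union_le F At
    have h2 : ((F ∪ At).card : ℝ) ≤ (F.card : ℝ) + (At.card : ℝ) := by exact_mod_cast h1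
    have h3 := hW.rob.At_card
    have h4 : (F.card : ℝ) ≤ ε / 4 * nn V := hF
    have h5 : 0 ≤ ε * nn V := by positivity
    rw [hB]
    linarith
  have hnl : NW.NL (H \ Z) := hW.rob.nl.mono Finset.sdiff_subset
  have hGX := HG ε ε0 (by linarith) V H Z sd At (by omega) hW.rob hZ
  have hZB : ZOK (alG sd) (H \ Z) sd At B (m + 27 * k₀) q K := by
    intro U' D' hU' hD' hdok
    exact HK V (H \ Z) sd At U' B D' ε σ q (q + K) hGX
      ⟨hAB, hBc, hqε, by omega, ε0, by linarith⟩ le_rfl hU' hD' hdok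
  have hTr : TrOK (H \ Z) sd B q := by
    refine trOK_of (θ := θ) (η := ε / 4) (β := ε) hZ hBc hqε' (by linarith) n0 hW.tri
  have hZ' : Sm (1 / 1000) Z := fun v => (hZ v).trans
    (mul_le_mul_of_nonneg_right (by linarith) n0.le)
  have hHx : HxOK (H \ Z) sd B q := by
    have hFG := ((HB.frame V H (by omega)).2.1 sd At (ε / 4) θ (by linarith) hW.rob).1
    have ht := HB.tokG HB.hex HB.hexG V H sd At hn4 hFG 0 (-1) (Or.inr rfl)
    have e1 : (fun i : Fin 1 => if i = 0 then 6 * (-1 : ℤ) else 0) = fun _ => -6 := by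
      funext i
      have : i = 0 := Subsingleton.elim _ _
      rw [if_pos this]
      norm_num
    rw [e1] at ht
    exact hxOK_of ht ε3 hZ' hBc hqε'
  obtain ⟨𝒟, h𝒟⟩ : ∃ 𝒟 : Finset (Finset (Sym2 V)),
    𝒟 = U.sym2.powerset.filter (fun D => D ⊆ H ∧ NW.Divis D) := ⟨_, rfl⟩
  obtain ⟨A, a1, a2, a3, a4, a5, a6⟩ := HC V (fun _ => True) (H \ Z) U B 𝒟 hU (by
    intro D hD
    rw [h𝒟, Finset.mem_filter, Finset.mem_powerset] at hD
    obtain ⟨hDU, hDH, hdiv⟩ := hD
    refine ⟨hDU, ?_⟩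
    obtain ⟨k, hk⟩ := (HB.valA V).1 sd D hdiv
    have hkk : k.natAbs ≤ k₀ := by
      have h1 := gam_bound sd D
      have h2 : D.card ≤ k₀ := by
        rw [hk₀]
        exact (Finset.card_le_card hDU).trans (card_sym2_le hU)
      rw [hk, abs_mul] at h1
      have h3 : |k| = (k.natAbs : ℤ) := Int.abs_eq_natAbs k
      rw [h3] at h1
      have h4 : (|(6 : ℤ)|) = 6 := by norm_num
      rw [h4] at h1
      omega
    exact comb_S (k₀ := k₀) hnl hAB hZB hTr hHx hU hDU hdiv.1 hdiv.2.1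
      (fun u hu v hv hh => hW.rob.noAt u hu v hv (hDH hh)) k hk hkk (by omega) le_rfl)
  refine ⟨A, a1, a2, ?_, a5, a4, ?_⟩
  · intro v hv
    rcases a3 v hv with h1 | h1
    · exact Or.inl h1
    · right
      intro h2
      apply h1
      rw [hB]
      exact Finset.mem_union_left _ h2
  · intro D hDH hDU hgood
    apply a6 D
    rw [h𝒟, Finset.mem_filter, Finset.mem_powerset]
    exact ⟨hDU, hDH, hgood.1⟩

end F3.AB
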