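import Pool.Agent.F3.AB.WN
import Pool.Agent.F3.AB.WG
import Pool.Agent.F3.AB.WS
import Pool.Agent.F3.AB.WR
import Pool.Agent.F3.AB.OneG
import Pool.Agent.F3.AB.OneR
import Pool.Agent.F3.AB.OneR0

/-!
# Block AB: the five outputs
-/

set_option autoImplicit false
set_option linter.unusedSectionVars false

namespace F3.AB

theorem outN : F3.ABNStatement := abN

theorem outG : F3.ABGStatement := abG oneG

theorem outS : F3.ABSStatement := abS oneG

theorem outR : F3.ABRStatement := abR oneR oneR0

theorem outT : F3.ABTStatement := abT oneR

end F3.AB
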