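import Pool.Agent.F3.AB.Eng1

/-!
# Block AB, row AB-5: gadgets from paths
-/

set_option autoImplicit false
set_option linter.unusedSectionVars false

namespace F3.AB

open Finset NW F1

variable {V : Type} [Fintype V] [DecidableEq V] {al : Tri V → Prop} {E : Finset (Sym2 V)}
  {W B S : Finset V}

private theorem pa_pth_mem (y z : V) (l : List V) (e : Sym2 V) (he : e ∈ pth y l z) :
    ∀ v ∈ e, v = y ∨ v ∈ l ∨ v = z := by
  induction l generalizing y with
  | nil =>
    intro v hv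
    rw [pth, Multiset.mem_singleton] at he
    subst he
    rcases Sym2.mem_iff.1 hv with h | h
    · exact Or.inl h
    · exact Or.inr (Or.inr h)
  | cons i l ih =>
    intro v hv
    rw [pth, Multiset.mem_add, Multiset.mem_singleton] at he
    rcases he with rfl | he
    · rcases Sym2.mem_iff.1 hv with h | h
      · exact Or.inl h
      · exact Or.inr (Or.inl (h ▸ List.mem_cons_self))
    · rcases ih i he v hv with h | h | h
      · exact Or.inr (Or.inl (h ▸ List.mem_cons_self))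
      · exact Or.inr (Or.inl (List.mem_cons_of_mem _ h))
      · exact Or.inr (Or.inr h)

private theorem pa_pth_new (T : Finset V) (y z : V) (l : List V) (hl : y ∈ T ∨ l ≠ [])
    (hT : ∀ i ∈ l, i ∈ T) (e : Sym2 V) (he : e ∈ pth y l z) : ∃ v ∈ e, v ∈ T := by
  induction l generalizing y with
  | nil =>
    rw [pth, Multiset.mem_singleton] at he
    subst he
    rcases hl with h | h
    · exact ⟨y, Sym2.mem_mk_left _ _, h⟩
    · exact absurd rfl h
  | cons i l ih =>
    rw [pth, Multiset.mem_add, Multiset.mem_singleton] at he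
    have hi : i ∈ T := hT i List.mem_cons_self
    rcases he with rfl | he
    · exact ⟨i, Sym2.mem_mk_right _ _, hi⟩
    · exact ih i (Or.inl hi) (fun j hj => hT j (List.mem_cons_of_mem _ hj)) he

private theorem pa_pth_nd (y z : V) (l : List V) (hl : l.Nodup) (hyl : y ∉ l) (hzl : z ∉ l)
    (hyz : y ≠ z) : (pth y l z).Nodup := by
  induction l generalizing y with
  | nil =>
    rw [pth]
    exact Multiset.nodup_singleton _
  | cons i l ih =>
    rw [List.nodup_cons] at hl
    rw [List.mem_cons, not_or] at hyl hzl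
    rw [pth, Multiset.singleton_add, Multiset.nodup_cons]
    refine ⟨fun h => ?_, ih i hl.2 hl.1 hzl.2 (Ne.symm hzl.1)⟩
    rcases pa_pth_mem i z l _ h y (Sym2.mem_mk_left _ _) with h1 | h1 | h1
    · exact hyl.1 h1
    · exact hyl.2 h1
    · exact hyz h1

private theorem pa_spk_mem (x₁ x₂ : V) (l : List V) (e : Sym2 V) :
    e ∈ spk x₁ x₂ l ↔ ∃ i ∈ l, e = s(x₁, i) ∨ e = s(x₂, i) := by
  induction l with
  | nil => simp [spk]
  | cons i l ih =>
    rw [spk, Multiset.mem_add, Multiset.mem_add, Multiset.mem_singleton, Multiset.mem_singleton, ih]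
    constructor
    · rintro (h | h | ⟨j, hj, h⟩)
      · exact ⟨i, List.mem_cons_self, Or.inl h⟩
      · exact ⟨i, List.mem_cons_self, Or.inr h⟩
      · exact ⟨j, List.mem_cons_of_mem _ hj, h⟩
    · rintro ⟨j, hj, h⟩
      rcases List.mem_cons.1 hj with rfl | hj
      · rcases h with h | h
        · exact Or.inl h
        · exact Or.inr (Or.inl h)
      · exact Or.inr (Or.inr ⟨j, hj, h⟩)

private theorem pa_spk_comm (x₁ x₂ : V) (l : List V) : spk x₁ x₂ l = spk x₂ x₁ l := by
  induction l with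
  | nil => rfl
  | cons i l ih => rw [spk, spk, ih, add_left_comm]

private theorem pa_spk_nd (x₁ x₂ : V) (l : List V) (hl : l.Nodup) (h1 : x₁ ∉ l) (h2 : x₂ ∉ l)
    (h12 : x₁ ≠ x₂) : (spk x₁ x₂ l).Nodup := by
  induction l with
  | nil => exact Multiset.nodup_zero
  | cons i l ih =>
    rw [List.nodup_cons] at hl
    rw [List.mem_cons, not_or] at h1 h2
    rw [spk, Multiset.singleton_add, Multiset.singleton_add, Multiset.nodup_cons,
      Multiset.nodup_cons, Multiset.mem_cons, not_or]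
    have key : ∀ x : V, x ≠ i → x ∉ l → s(x, i) ∉ spk x₁ x₂ l := by
      intro x hxi hxl h
      obtain ⟨j, hj, h⟩ := (pa_spk_mem x₁ x₂ l _).1 h
      have hx : j ∈ s(x, i) := by
        rcases h with h | h <;> rw [h] <;> exact Sym2.mem_mk_right _ _
      rcases Sym2.mem_iff.1 hx with h' | h'
      · exact hxl (h' ▸ hj)
      · exact hl.1 (h' ▸ hj)
    refine ⟨⟨fun h => ?_, key x₁ h1.1 h1.2⟩, key x₂ h2.1 h2.2, ih hl.2 h1.2 h2.2⟩
    rcases Sym2.eq_iff.1 h with h' | h'
    · exact h12 h'.1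
    · exact h1.1 h'.1

/-- the sum of the alternating triangles -/
private theorem pa_md (z : V) (l : List V) (x₁ x₂ y : V) (h₁ : Pal al x₁ y l z)
    (h₂ : Pal al x₂ y l z) (hl : ∀ i ∈ l, i ∉ W) (hy : y ∉ W ∨ l ≠ []) :
    MD al W ({s(x₁, y)} + (pth y l z + (spk x₁ x₂ l +
      {s(if Even l.length then x₁ else x₂, z)}))) := by
  induction l generalizing x₁ x₂ y with
  | nil =>
    rw [Pal] at h₁
    have hyW : y ∉ W := by
      rcases hy with h | h
      · exact h
      · exact absurd rfl h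
    have h := MD.cons h₁ (fun h => hyW h.2.1) (MD.zero (al := al) (W := W))
    rw [pth, spk, List.length_nil, if_pos Even.zero]
    convert h using 1
    rw [trim]
    abel
  | cons i l ih =>
    rw [Pal] at h₁ h₂
    have hi : i ∉ W := hl i List.mem_cons_self
    have h := MD.cons h₁.1 (fun h => hi h.2.2)
      (ih x₂ x₁ i h₂.2 h₁.2 (fun j hj => hl j (List.mem_cons_of_mem _ hj)) (Or.inl hi))
    have he : (if Even (i :: l).length then x₁ else x₂) = if Even l.length then x₂ else x₁ := by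
      rw [List.length_cons]
      by_cases h0 : Even l.length
      · rw [if_pos h0, if_neg (by rw [Nat.even_add_one]; exact fun h' => h' h0)]
      · rw [if_neg h0, if_pos (by rw [Nat.even_add_one]; exact h0)]
    rw [he, pth, spk, pa_spk_comm x₁ x₂ l]
    convert h using 1
    rw [trim]
    abel

/-- the new edges -/
private theorem pa_new {x₁ x₂ y z : V} {l : List V} (h : GPath al E S B x₁ x₂ y z l)
    (hl : l ≠ []) (hx₁ : x₁ ∈ S) (hx₂ : x₂ ∈ S) (hy : y ∈ S) (hz : z ∈ S)
    (h12 : x₁ ≠ x₂) (hyz : y ≠ z) (h1y : x₁ ≠ y) (h1z : x₁ ≠ z) (h2y : x₂ ≠ y) (h2z : x₂ ≠ z) :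
    l.toFinset.card ≤ l.length ∧ Disjoint l.toFinset (S ∪ B) ∧
      New E S l.toFinset (pth y l z + spk x₁ x₂ l) := by
  have ho : ∀ u ∈ S, u ∉ l := fun u hu hul => (h.out u hul).1 hu
  refine ⟨List.toFinset_card_le l, ?_, ?_, ?_, ?_, ?_⟩
  · rw [Finset.disjoint_left]
    intro i hi hi'
    rw [List.mem_toFinset] at hi
    rcases mem_union.1 hi' with h' | h'
    · exact (h.out i hi).1 h'
    · exact (h.out i hi).2 h'
  · rw [Multiset.nodup_add]
    refine ⟨pa_pth_nd y z l h.nd (ho y hy) (ho z hz) hyz,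
      pa_spk_nd x₁ x₂ l h.nd (ho _ hx₁) (ho _ hx₂) h12, ?_⟩
    rw [Multiset.disjoint_left]
    intro e he he'
    obtain ⟨i, hi, he'⟩ := (pa_spk_mem x₁ x₂ l e).1 he'
    rcases he' with rfl | rfl
    · rcases pa_pth_mem y z l _ he x₁ (Sym2.mem_mk_left _ _) with h' | h' | h'
      · exact h1y h'
      · exact ho _ hx₁ h'
      · exact h1z h'
    · rcases pa_pth_mem y z l _ he x₂ (Sym2.mem_mk_left _ _) with h' | h' | h'
      · exact h2y h'
      · exact ho _ hx₂ h'
      · exact h2z h'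
  · intro e he
    rcases Multiset.mem_add.1 he with he | he
    · exact h.pe e he
    · obtain ⟨i, hi, he'⟩ := (pa_spk_mem x₁ x₂ l e).1 he
      rcases he' with rfl | rfl
      · exact (h.sp i hi).1
      · exact (h.sp i hi).2
  · intro e he
    rcases Multiset.mem_add.1 he with he | he
    · exact pa_pth_new l.toFinset y z l (Or.inr hl) (fun i hi => List.mem_toFinset.2 hi) e he
    · obtain ⟨i, hi, he'⟩ := (pa_spk_mem x₁ x₂ l e).1 he
      refine ⟨i, ?_, List.mem_toFinset.2 hi⟩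
      rcases he' with rfl | rfl <;> exact Sym2.mem_mk_right _ _
  · intro e he v hv
    rcases Multiset.mem_add.1 he with he | he
    · rcases pa_pth_mem y z l e he v hv with h' | h' | h'
      · exact mem_union_left _ (h' ▸ hy)
      · exact mem_union_right _ (List.mem_toFinset.2 h')
      · exact mem_union_left _ (h' ▸ hz)
    · obtain ⟨i, hi, he'⟩ := (pa_spk_mem x₁ x₂ l e).1 he
      rcases he' with rfl | rfl
      · rcases Sym2.mem_iff.1 hv with h' | h'
        · exact mem_union_left _ (h' ▸ hx₁)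
        · exact mem_union_right _ (List.mem_toFinset.2 (h' ▸ hi))
      · rcases Sym2.mem_iff.1 hv with h' | h'
        · exact mem_union_left _ (h' ▸ hx₂)
        · exact mem_union_right _ (List.mem_toFinset.2 (h' ▸ hi))

/-- **K-gadget**: an even number of inner vertices -/
theorem K_out {x₁ x₂ y z : V} {l : List V} (h : GPath al E S B x₁ x₂ y z l) (hl : l ≠ [])
    (he : Even l.length) (hW : W ⊆ S) (hx₁ : x₁ ∈ S) (hx₂ : x₂ ∈ S) (hy : y ∈ S) (hz : z ∈ S)
    (h12 : x₁ ≠ x₂) (hyz : y ≠ z) (h1y : x₁ ≠ y) (h1z : x₁ ≠ z) (h2y : x₂ ≠ y) (h2z : x₂ ≠ z) :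
    ∃ (T : Finset V) (N : Multiset (Sym2 V)), T.card ≤ l.length ∧ Disjoint T (S ∪ B) ∧
      New E S T N ∧ MD al W (N + ({s(x₁, y)} + {s(x₁, z)})) ∧
      MD al W (N + ({s(x₂, y)} + {s(x₂, z)})) := by
  obtain ⟨h1, h2, h3⟩ := pa_new h hl hx₁ hx₂ hy hz h12 hyz h1y h1z h2y h2z
  have hlW : ∀ i ∈ l, i ∉ W := fun i hi hiW => (h.out i hi).1 (hW hiW)
  refine ⟨l.toFinset, pth y l z + spk x₁ x₂ l, h1, h2, h3, ?_, ?_⟩
  · have h4 := pa_md (W := W) z l x₁ x₂ y h.al₁ h.al₂ hlW (Or.inr hl)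
    rw [if_pos he] at h4
    convert h4 using 1
    abel
  · have h4 := pa_md (W := W) z l x₂ x₁ y h.al₂ h.al₁ hlW (Or.inr hl)
    rw [if_pos he, pa_spk_comm] at h4
    convert h4 using 1
    abel

/-- **C-gadget**: an odd number of inner vertices -/
theorem C_out {x₁ x₂ y z : V} {l : List V} (h : GPath al E S B x₁ x₂ y z l)
    (he : Odd l.length) (hW : W ⊆ S) (hx₁ : x₁ ∈ S) (hx₂ : x₂ ∈ S) (hy : y ∈ S) (hz : z ∈ S)
    (h12 : x₁ ≠ x₂) (hyz : y ≠ z) (h1y : x₁ ≠ y) (h1z : x₁ ≠ z) (h2y : x₂ ≠ y) (h2z : x₂ ≠ z) :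
    ∃ (T : Finset V) (N : Multiset (Sym2 V)), T.card ≤ l.length ∧ Disjoint T (S ∪ B) ∧
      New E S T N ∧ MD al W (N + ({s(x₁, y)} + {s(x₂, z)})) ∧
      MD al W (N + ({s(x₂, y)} + {s(x₁, z)})) := by
  have hl : l ≠ [] := by
    rintro rfl
    exact (Nat.not_odd_iff_even.2 Even.zero) he
  obtain ⟨h1, h2, h3⟩ := pa_new h hl hx₁ hx₂ hy hz h12 hyz h1y h1z h2y h2z
  have hlW : ∀ i ∈ l, i ∉ W := fun i hi hiW => (h.out i hi).1 (hW hiW)
  refine ⟨l.toFinset, pth y l z + spk x₁ x₂ l, h1, h2, h3, ?_, ?_⟩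
  · have h4 := pa_md (W := W) z l x₁ x₂ y h.al₁ h.al₂ hlW (Or.inr hl)
    rw [if_neg (Nat.not_even_iff_odd.2 he)] at h4
    convert h4 using 1
    abel
  · have h4 := pa_md (W := W) z l x₂ x₁ y h.al₂ h.al₁ hlW (Or.inr hl)
    rw [if_neg (Nat.not_even_iff_odd.2 he), pa_spk_comm] at h4
    convert h4 using 1
    abel

end F3.AB
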