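import Pool.Agent.F3.AB.WalkN
import Pool.Agent.F3.AB.Path
import Pool.Agent.F3.AB.Eng3
import Pool.Agent.F3.AB.Many
import Pool.Agent.F3.Targets
import Pool.Agent.NW.AbsB

/-!
# Block AB, row AB-N2: absorbers in world N
-/

set_option autoImplicit false
set_option linter.unusedSectionVars false

namespace F3.AB

open Finset NW F1

section nx

variable {V : Type} [Fintype V] [DecidableEq V] {E : Finset (Sym2 V)} {W B : Finset V} {q : ℕ}
  {σ : ℝ}

/-- all triangles are allowed -/
abbrev Tt {V : Type} [Fintype V] [DecidableEq V] : Tri V → Prop := fun _ => True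

theorem nx_al {a b c : V} (hab : a ≠ b) (hbc : b ≠ c) (hac : a ≠ c) : AL (Tt (V := V)) a b c :=
  ⟨Finset.card_eq_three.mpr ⟨a, b, c, hab, hac, hbc, rfl⟩, trivial⟩

theorem nx_ne (hE : NW.NL E) {a b : V} (h : s(a, b) ∈ E) : a ≠ b := by
  intro h1
  exact hE _ h (by rw [h1]; simp)

/-- bounds for the forbidden sets -/
structure NBd (B : Finset V) (q : ℕ) (σ : ℝ) : Prop where
  b : 16 * (B.card : ℝ) ≤ σ * nn V
  q : 16 * ((q : ℝ) + 1) ≤ σ * nn V

theorem NBd.n_pos (hB : NBd B q σ) : 0 < nn V := by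
  have h1 := hB.q
  have h2 : (0 : ℝ) ≤ q := by positivity
  have h3 : (0 : ℝ) ≤ nn V := by unfold nn; positivity
  rcases h3.lt_or_eq with h | h
  · exact h
  · rw [← h, mul_zero] at h1
    linarith

/-- choice of a common neighbour -/
theorem nx_pick (hN : NX E σ) (hB : NBd B q σ) (x y z : V) (S : Finset V) (hS : S.card ≤ q) :
    ∃ w, w ∉ S ∧ w ∉ B ∧ s(x, w) ∈ E ∧ s(y, w) ∈ E ∧ s(z, w) ∈ E := by
  have h1 := hN.three x y z
  have h2 : (((S ∪ B).card : ℕ) : ℝ) ≤ q + B.card := by
    have h3 := Finset.card_union_le S B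
    exact_mod_cast h3.trans (Nat.add_le_add_right hS _)
  have h4 := hB.b
  have h5 := hB.q
  have h6 : (0 : ℝ) ≤ q := by positivity
  have h7 : (((S ∪ B).card : ℕ) : ℝ) < ((nbr E x ∩ nbr E y ∩ nbr E z).card : ℝ) := by linarith
  obtain ⟨w, hw, hw'⟩ := Finset.exists_mem_notMem_of_card_lt_card (by exact_mod_cast h7)
  simp only [Finset.mem_inter, nbr, Finset.mem_filter, Finset.mem_univ, true_and] at hw
  rw [Finset.mem_union, not_or] at hw'
  exact ⟨w, hw'.1, hw'.2, hw.1.1, hw.1.2, hw.2⟩

/-- paths with four inner vertices -/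
theorem nx_path (hN : NX E σ) (hB : NBd B q σ) {x₁ x₂ y z : V} (h12 : x₁ ≠ x₂)
    (hy₁ : s(x₁, y) ∈ E) (hy₂ : s(x₂, y) ∈ E) (hz₁ : s(x₁, z) ∈ E) (hz₂ : s(x₂, z) ∈ E)
    (S : Finset V) (hS : S.card ≤ q) :
    ∃ l : List V, l.length = 4 ∧ GPath (Tt (V := V)) E S B x₁ x₂ y z l := by
  have hn := hB.n_pos
  have hyW : y ∈ nbr E x₁ ∩ nbr E x₂ := by
    simp only [Finset.mem_inter, nbr, Finset.mem_filter, Finset.mem_univ, true_and]
    exact ⟨hy₁, hy₂⟩
  have hzW : z ∈ nbr E x₁ ∩ nbr E x₂ := by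
    simp only [Finset.mem_inter, nbr, Finset.mem_filter, Finset.mem_univ, true_and]
    exact ⟨hz₁, hz₂⟩
  have h1 := hN.walk x₁ x₂ h12 y hyW z hzW
  have h2 : (((S ∪ B).card : ℕ) : ℝ) ≤ q + B.card := by
    have h3 := Finset.card_union_le S B
    exact_mod_cast h3.trans (Nat.add_le_add_right hS _)
  have h4 := hB.b
  have h5 := hB.q
  have h6 : (0 : ℝ) ≤ q := by positivity
  have h7 : 4 * (((S ∪ B).card : ℕ) : ℝ) + 3 < σ * nn V := by linarith
  have h8 : nn V ^ 3 * (4 * (((S ∪ B).card : ℕ) : ℝ) + 3) < nn V ^ 3 * (σ * nn V) :=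
    mul_lt_mul_of_pos_left h7 (by positivity)
  have h9 : Fintype.card V ^ 3 * (4 * (S ∪ B).card + 3) <
      (walks5 E (nbr E x₁ ∩ nbr E x₂) y z).card := by
    have h10 : ((Fintype.card V ^ 3 * (4 * (S ∪ B).card + 3) : ℕ) : ℝ) <
        ((walks5 E (nbr E x₁ ∩ nbr E x₂) y z).card : ℝ) := by
      push_cast
      have h11 : nn V ^ 3 * (σ * nn V) = σ * nn V ^ 4 := by ring
      rw [h11] at h8
      exact h8.trans_le h1
    exact_mod_cast h10
  obtain ⟨a, b, c, d, hnd, ⟨ha, hb, hc, hd⟩, ⟨ha', hb', hc', hd'⟩, e1, e2, e3, e4, e5⟩ :=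
    wn_path hN.nl h9
  simp only [Finset.mem_inter, nbr, Finset.mem_filter, Finset.mem_univ, true_and] at ha hb hc hd
  simp only [Finset.mem_union, not_or] at ha' hb' hc' hd'
  refine ⟨[a, b, c, d], rfl, hnd, ?_, ?_, ?_, ?_, ?_⟩
  · intro i hi
    simp only [List.mem_cons, List.not_mem_nil, or_false] at hi
    rcases hi with rfl | rfl | rfl | rfl
    · exact ha'
    · exact hb'
    · exact hc'
    · exact hd'
  · intro e he
    simp only [pth, Multiset.mem_add, Multiset.mem_singleton] at he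
    rcases he with rfl | rfl | rfl | rfl | rfl
    · exact e1
    · exact e2
    · exact e3
    · exact e4
    · exact e5
  · intro i hi
    simp only [List.mem_cons, List.not_mem_nil, or_false] at hi
    rcases hi with rfl | rfl | rfl | rfl
    · exact ha
    · exact hb
    · exact hc
    · exact hd
  · have n := fun {a b : V} (h : s(a, b) ∈ E) => nx_ne hN.nl h
    exact ⟨nx_al (n hy₁) (n e1) (n ha.1), nx_al (n ha.1) (n e2) (n hb.1),
      nx_al (n hb.1) (n e3) (n hc.1), nx_al (n hc.1) (n e4) (n hd.1),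
      nx_al (n hd.1) (n e5) (n hz₁)⟩
  · have n := fun {a b : V} (h : s(a, b) ∈ E) => nx_ne hN.nl h
    exact ⟨nx_al (n hy₂) (n e1) (n ha.2), nx_al (n ha.2) (n e2) (n hb.2),
      nx_al (n hb.2) (n e3) (n hc.2), nx_al (n hc.2) (n e4) (n hd.2),
      nx_al (n hd.2) (n e5) (n hz₂)⟩

/-- the K-gadget -/
theorem nx_K (hN : NX E σ) (hB : NBd B q σ) {x₁ x₂ y z : V} (h12 : x₁ ≠ x₂) (hyz : y ≠ z)
    (hy₁ : s(x₁, y) ∈ E) (hy₂ : s(x₂, y) ∈ E) (hz₁ : s(x₁, z) ∈ E) (hz₂ : s(x₂, z) ∈ E)
    (S : Finset V) (hS : S.card ≤ q) (hW : W ⊆ S) (hx₁ : x₁ ∈ S) (hx₂ : x₂ ∈ S) (hy : y ∈ S)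
    (hz : z ∈ S) :
    ∃ (T : Finset V) (N : Multiset (Sym2 V)), T.card ≤ 4 ∧ Disjoint T (S ∪ B) ∧
      New E S T N ∧ MD (Tt (V := V)) W (N + ({s(x₁, y)} + {s(x₁, z)})) ∧
      MD (Tt (V := V)) W (N + ({s(x₂, y)} + {s(x₂, z)})) := by
  obtain ⟨l, hl, hP⟩ := nx_path hN hB h12 hy₁ hy₂ hz₁ hz₂ S hS
  have n := fun {a b : V} (h : s(a, b) ∈ E) => nx_ne hN.nl h
  obtain ⟨T, N, h1, h2⟩ := K_out (W := W) hP (by intro h; rw [h] at hl; simp at hl)
    (by rw [hl]; decide) hW hx₁ hx₂ hy hz h12 hyz (n hy₁) (n hz₁) (n hy₂) (n hz₂)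
  exact ⟨T, N, by rw [← hl]; exact h1, h2⟩

/-- switches -/
theorem nx_sw (hN : NX E σ) (hB : NBd B q σ) {x y : V} (hx : x ∈ W) (hy : y ∈ W)
    (hxy : x ≠ y) : Sw (Tt (V := V)) E W B q 4 x y := by
  intro z t hzt _ _ _ _ h1 h2 h3 h4 _ _ S hWS hzS htS hSq
  rw [Sym2.eq_swap] at h1 h2 h3 h4
  obtain ⟨T, N, k1, k2, k3, k4, k5⟩ := nx_K (W := W) hN hB hzt hxy.symm h2 h4 h1 h3 S
    (by omega) hWS hzS htS (hWS hy) (hWS hx)
  refine ⟨T, N, k1, k2, k3, ?_, ?_⟩
  · rw [Sym2.eq_swap (a := y) (b := z), Sym2.eq_swap (a := x) (b := z)]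
    exact k4
  · rw [Sym2.eq_swap (a := y) (b := t), Sym2.eq_swap (a := x) (b := t)]
    exact k5

theorem nx_vp (hN : NX E σ) (hB : NBd B q σ) {x y : V} (hx : x ∈ W) (hy : y ∈ W)
    (hxy : x ≠ y) : VP (Tt (V := V)) E W B q 4 s(x, y) where
  nd := by rwa [Sym2.mk_isDiag_iff]
  inW := by
    intro v hv
    rcases Sym2.mem_iff.1 hv with rfl | rfl
    · exact hx
    · exact hy
  sw := by
    intro x' y' h
    rw [Sym2.eq_iff] at h
    rcases h with ⟨rfl, rfl⟩ | ⟨rfl, rfl⟩
    · exact nx_sw hN hB hx hy hxy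
    · exact nx_sw hN hB hy hx hxy.symm
  rf := by
    intro S hWS hSq
    obtain ⟨w, w1, w2, w3, w4, -⟩ := nx_pick hN hB x y y S (by omega)
    have hxS := hWS hx
    have hyS := hWS hy
    have hwx : w ≠ x := fun h => w1 (h ▸ hxS)
    have hwy : w ≠ y := fun h => w1 (h ▸ hyS)
    have hmd : MD (Tt (V := V)) W (({s(y, w)} + {s(x, w)}) + {s(x, y)}) := by
      have h1 := MD.single (W := W) (nx_al (a := x) (b := y) (c := w) hxy (Ne.symm hwy)
        (Ne.symm hwx)) (fun h => w1 (hWS h.2.2))
      have h2 : ({s(y, w)} + {s(x, w)} : Multiset (Sym2 V)) + {s(x, y)} = trim x y w := by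
        unfold trim
        abel
      rw [h2]
      exact h1
    refine ⟨{w}, {s(y, w)} + {s(x, w)}, by simp, ?_, ⟨?_, ?_, ?_, ?_⟩, hmd, hmd⟩
    · rw [Finset.disjoint_singleton_left, Finset.mem_union, not_or]
      exact ⟨w1, w2⟩
    · rw [Multiset.nodup_add]
      refine ⟨Multiset.nodup_singleton _, Multiset.nodup_singleton _, ?_⟩
      rw [Multiset.disjoint_left]
      intro e he he'
      rw [Multiset.mem_singleton] at he he'
      rw [he, Sym2.eq_iff] at he'
      rcases he' with h | h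
      · exact hxy h.1.symm
      · exact hwy h.1.symm
    · intro e he
      rw [Multiset.mem_add, Multiset.mem_singleton, Multiset.mem_singleton] at he
      rcases he with rfl | rfl
      · exact w4
      · exact w3
    · intro e he
      rw [Multiset.mem_add, Multiset.mem_singleton, Multiset.mem_singleton] at he
      rcases he with rfl | rfl
      · exact ⟨w, Sym2.mem_mk_right _ _, by simp⟩
      · exact ⟨w, Sym2.mem_mk_right _ _, by simp⟩
    · intro e he v hv
      rw [Multiset.mem_add, Multiset.mem_singleton, Multiset.mem_singleton] at he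
      rw [Finset.mem_union, Finset.mem_singleton]
      rcases he with rfl | rfl
      · rcases Sym2.mem_iff.1 hv with rfl | rfl
        · exact Or.inl hyS
        · exact Or.inr rfl
      · rcases Sym2.mem_iff.1 hv with rfl | rfl
        · exact Or.inl hxS
        · exact Or.inr rfl

/-! ### new edges -/

/-- the edges from `w` to the vertices of the list `l` -/
def nx_star (w : V) (l : List V) : Multiset (Sym2 V) := ↑(l.map fun a => s(w, a))

theorem nx_zero (E : Finset (Sym2 V)) (S : Finset V) : New E S ∅ 0 :=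
  ⟨Multiset.nodup_zero, fun e he => absurd he (Multiset.notMem_zero e),
    fun e he => absurd he (Multiset.notMem_zero e), fun e he => absurd he (Multiset.notMem_zero e)⟩

theorem nx_grow {S T : Finset V} {N : Multiset (Sym2 V)} (h : New E S T N) {w : V} {l : List V}
    (hw : w ∉ S ∪ T) (hl : l.Nodup) (hlS : ∀ a ∈ l, a ∈ S ∪ T) (hE : ∀ a ∈ l, s(w, a) ∈ E) :
    New E S (insert w T) (nx_star w l + N) := by
  have hm : ∀ e, e ∈ nx_star w l ↔ ∃ a ∈ l, s(w, a) = e := by
    intro e
    unfold nx_star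
    rw [Multiset.mem_coe, List.mem_map]
  have hins : ∀ v ∈ S ∪ T, v ∈ S ∪ insert w T := by
    intro v hv
    rcases Finset.mem_union.1 hv with h | h
    · exact Finset.mem_union_left _ h
    · exact Finset.mem_union_right _ (Finset.mem_insert_of_mem h)
  constructor
  · rw [Multiset.nodup_add]
    refine ⟨?_, h.nd, ?_⟩
    · unfold nx_star
      rw [Multiset.coe_nodup]
      refine hl.map fun a b hab => ?_
      rw [Sym2.eq_iff] at hab
      rcases hab with hab | hab
      · exact hab.2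
      · exact hab.2.trans hab.1
    · rw [Multiset.disjoint_left]
      intro e he he'
      obtain ⟨a, _, rfl⟩ := (hm e).1 he
      exact hw (h.supp _ he' w (Sym2.mem_mk_left _ _))
  · intro e he
    rcases Multiset.mem_add.1 he with he | he
    · obtain ⟨a, ha, rfl⟩ := (hm e).1 he
      exact hE a ha
    · exact h.sub e he
  · intro e he
    rcases Multiset.mem_add.1 he with he | he
    · obtain ⟨a, ha, rfl⟩ := (hm e).1 he
      exact ⟨w, Sym2.mem_mk_left _ _, Finset.mem_insert_self _ _⟩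
    · obtain ⟨v, hv, hv'⟩ := h.new e he
      exact ⟨v, hv, Finset.mem_insert_of_mem hv'⟩
  · intro e he v hv
    rcases Multiset.mem_add.1 he with he | he
    · obtain ⟨a, ha, rfl⟩ := (hm e).1 he
      rcases Sym2.mem_iff.1 hv with rfl | rfl
      · exact Finset.mem_union_right _ (Finset.mem_insert_self _ _)
      · exact hins _ (hlS _ ha)
    · exact hins _ (h.supp e he v hv)

theorem nx_comp {S T T' : Finset V} {N N' : Multiset (Sym2 V)} (h : New E S T N)
    (h' : New E (S ∪ T) T' N') (hd : Disjoint T' (S ∪ T)) : New E S (T ∪ T') (N + N') := by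
  constructor
  · rw [Multiset.nodup_add]
    refine ⟨h.nd, h'.nd, ?_⟩
    rw [Multiset.disjoint_left]
    intro e he he'
    obtain ⟨v, hv, hv'⟩ := h'.new e he'
    exact (Finset.disjoint_left.1 hd hv') (h.supp e he v hv)
  · intro e he
    rcases Multiset.mem_add.1 he with he | he
    · exact h.sub e he
    · exact h'.sub e he
  · intro e he
    rcases Multiset.mem_add.1 he with he | he
    · obtain ⟨v, hv, hv'⟩ := h.new e he
      exact ⟨v, hv, Finset.mem_union_left _ hv'⟩
    · obtain ⟨v, hv, hv'⟩ := h'.new e he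
      exact ⟨v, hv, Finset.mem_union_right _ hv'⟩
  · intro e he v hv
    rcases Multiset.mem_add.1 he with he | he
    · have h1 := h.supp e he v hv
      rw [← Finset.union_assoc]
      exact Finset.mem_union_left _ h1
    · have h1 := h'.supp e he v hv
      rwa [Finset.union_assoc] at h1

/-- **the generator**: a virtual triangle -/
theorem nx_tri (hN : NX E σ) (hB : NBd B q σ) {x y z : V} (hx : x ∈ W) (hy : y ∈ W)
    (hz : z ∈ W) (hxy : x ≠ y) (hyz : y ≠ z) (hxz : x ≠ z) :
    Gd (Tt (V := V)) E W B q 7 (trim x y z) 0 := by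
  intro S hWS hSq
  have xS := hWS hx
  have yS := hWS hy
  have zS := hWS hz
  obtain ⟨w1, a1, a2, a3, a4, -⟩ := nx_pick hN hB x y y S (by omega)
  have c1 := Finset.card_insert_le w1 S
  obtain ⟨w2, b1, b2, b3, b4, b5⟩ := nx_pick hN hB y z w1 (insert w1 S) (by omega)
  have c2 := Finset.card_insert_le w2 (insert w1 S)
  obtain ⟨w3, d1, d2, d3, d4, d5⟩ := nx_pick hN hB x z w2 (insert w2 (insert w1 S)) (by omega)
  have c3 := Finset.card_insert_le w3 (insert w2 (insert w1 S))
  have n := fun {a b : V} (h : s(a, b) ∈ E) => nx_ne hN.nl h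
  have b1' := b1
  have d1' := d1
  rw [Finset.mem_insert, not_or] at b1'
  rw [Finset.mem_insert, not_or, Finset.mem_insert, not_or] at d1'
  obtain ⟨b1a, b1b⟩ := b1'
  obtain ⟨d1a, d1b, d1c⟩ := d1'
  have w2x : w2 ≠ x := fun h => b1b (h ▸ xS)
  have w1z : w1 ≠ z := fun h => a1 (h ▸ zS)
  have w3y : w3 ≠ y := fun h => d1c (h ▸ yS)
  have hS3 : insert w3 (insert w2 (insert w1 S)) = S ∪ {w3, w2, w1} := by
    ext v
    simp only [Finset.mem_insert, Finset.mem_union, Finset.mem_singleton]
    tauto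
  -- the K-gadget between `x` and `w2`
  obtain ⟨T, N, k1, k2, k3, k4, k5⟩ := nx_K (W := W) hN hB (x₁ := x) (x₂ := w2) (y := w1)
    (z := w3) w2x.symm (Ne.symm d1b) a3 (by rw [Sym2.eq_swap]; exact b5) d3 d5
    (insert w3 (insert w2 (insert w1 S))) (by omega)
    (fun v hv => Finset.mem_insert_of_mem (Finset.mem_insert_of_mem
      (Finset.mem_insert_of_mem (hWS hv))))
    (Finset.mem_insert_of_mem (Finset.mem_insert_of_mem (Finset.mem_insert_of_mem xS)))
    (Finset.mem_insert_of_mem (Finset.mem_insert_self _ _))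
    (Finset.mem_insert_of_mem (Finset.mem_insert_of_mem (Finset.mem_insert_self _ _)))
    (Finset.mem_insert_self _ _)
  have w1W : w1 ∉ W := fun h => a1 (hWS h)
  have w2W : w2 ∉ W := fun h => b1b (hWS h)
  have w3W : w3 ∉ W := fun h => d1c (hWS h)
  have g1 := nx_grow (nx_zero E S) (w := w1) (l := [x, y]) (by
      rw [Finset.union_empty]; exact a1) (by simp [hxy]) (by
    intro a ha
    simp only [List.mem_cons, List.not_mem_nil, or_false] at ha
    rw [Finset.union_empty]
    rcases ha with rfl | rfl <;> assumption) (by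
    intro a ha
    simp only [List.mem_cons, List.not_mem_nil, or_false] at ha
    rw [Sym2.eq_swap]
    rcases ha with rfl | rfl <;> assumption)
  have g2 := nx_grow g1 (w := w2) (l := [y, z, w1]) (by
      simp only [Finset.mem_union, Finset.mem_insert, Finset.notMem_empty, or_false, not_or]
      exact ⟨b1b, b1a⟩) (by simp [hyz, (n a4), Ne.symm w1z]) (by
    intro a ha
    simp only [List.mem_cons, List.not_mem_nil, or_false] at ha
    simp only [Finset.mem_union, Finset.mem_insert, Finset.notMem_empty, or_false]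
    rcases ha with rfl | rfl | rfl
    · exact Or.inl yS
    · exact Or.inl zS
    · exact Or.inr rfl) (by
    intro a ha
    simp only [List.mem_cons, List.not_mem_nil, or_false] at ha
    rw [Sym2.eq_swap]
    rcases ha with rfl | rfl | rfl <;> assumption)
  have g3 := nx_grow g2 (w := w3) (l := [x, z, w2]) (by
      simp only [Finset.mem_union, Finset.mem_insert, Finset.notMem_empty, or_false, not_or]
      exact ⟨d1c, d1a, d1b⟩) (by simp [hxz, Ne.symm w2x, n b4]) (by
    intro a ha
    simp only [List.mem_cons, List.not_mem_nil, or_false] at ha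
    simp only [Finset.mem_union, Finset.mem_insert, Finset.notMem_empty, or_false]
    rcases ha with rfl | rfl | rfl
    · exact Or.inl xS
    · exact Or.inl zS
    · exact Or.inr (Or.inl rfl)) (by
    intro a ha
    simp only [List.mem_cons, List.not_mem_nil, or_false] at ha
    rw [Sym2.eq_swap]
    rcases ha with rfl | rfl | rfl <;> assumption)
  have hT3 : insert w3 (insert w2 (insert w1 (∅ : Finset V))) = {w3, w2, w1} := by
    ext v
    simp
  rw [hT3] at g3
  rw [hS3] at k2 k3
  have hdT : Disjoint T (S ∪ {w3, w2, w1}) :=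
    Finset.disjoint_of_subset_right Finset.subset_union_left k2
  have g4 := nx_comp g3 k3 hdT
  refine ⟨{w3, w2, w1} ∪ T, _, ?_, ?_, g4, ?_, ?_⟩
  · have h1 := Finset.card_union_le ({w3, w2, w1} : Finset V) T
    have h2 : ({w3, w2, w1} : Finset V).card ≤ 3 := Finset.card_le_three
    omega
  · rw [Finset.disjoint_union_left]
    constructor
    · rw [Finset.disjoint_left]
      intro v hv hv'
      simp only [Finset.mem_insert, Finset.mem_singleton] at hv
      rcases Finset.mem_union.1 hv' with h | h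
      · rcases hv with rfl | rfl | rfl
        · exact d1c h
        · exact b1b h
        · exact a1 h
      · rcases hv with rfl | rfl | rfl
        · exact d2 h
        · exact b2 h
        · exact a2 h
    · refine Finset.disjoint_of_subset_right ?_ k2
      intro v hv
      rcases Finset.mem_union.1 hv with h | h
      · exact Finset.mem_union_left _ (Finset.mem_union_left _ h)
      · exact Finset.mem_union_right _ h
  · have e : nx_star w3 [x, z, w2] + (nx_star w2 [y, z, w1] + (nx_star w1 [x, y] + 0)) + N +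
        trim x y z = trim x y w1 + (trim y z w2 + (trim x z w3 +
          (N + ({s(w2, w1)} + {s(w2, w3)})))) := by
      unfold trim nx_star
      simp only [List.map_cons, List.map_nil, ← Multiset.cons_coe, Multiset.coe_nil,
        ← Multiset.singleton_add]
      rw [Sym2.eq_swap (a := w3) (b := x), Sym2.eq_swap (a := w3) (b := z),
        Sym2.eq_swap (a := w3) (b := w2), Sym2.eq_swap (a := w2) (b := y),
        Sym2.eq_swap (a := w2) (b := z), Sym2.eq_swap (a := w1) (b := x),
        Sym2.eq_swap (a := w1) (b := y)]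
      abel
    rw [e]
    exact MD.cons (nx_al hxy (n a4) (n a3)) (fun h => w1W h.2.2)
      (MD.cons (nx_al hyz (n b4) (n b3)) (fun h => w2W h.2.2)
        (MD.cons (nx_al hxz (n d4) (n d3)) (fun h => w3W h.2.2) k5))
  · have e : nx_star w3 [x, z, w2] + (nx_star w2 [y, z, w1] + (nx_star w1 [x, y] + 0)) + N +
        0 = trim y w1 w2 + (trim z w2 w3 + (N + ({s(x, w1)} + {s(x, w3)}))) := by
      unfold trim nx_star
      simp only [List.map_cons, List.map_nil, ← Multiset.cons_coe, Multiset.coe_nil,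
        ← Multiset.singleton_add]
      rw [Sym2.eq_swap (a := w3) (b := x), Sym2.eq_swap (a := w3) (b := z),
        Sym2.eq_swap (a := w3) (b := w2), Sym2.eq_swap (a := w2) (b := y),
        Sym2.eq_swap (a := w2) (b := z), Sym2.eq_swap (a := w1) (b := x),
        Sym2.eq_swap (a := w1) (b := y), Sym2.eq_swap (a := w2) (b := w1)]
      abel
    rw [e]
    exact MD.cons (nx_al (n a4) (n b5) (n b3)) (fun h => w1W h.2.1)
      (MD.cons (nx_al (n b4) (n d5) (n d4)) (fun h => w2W h.2.1) k4)

end nx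

end F3.AB
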