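import Pool.Agent.F3.AB.Nx

/-!
# Block AB, row AB-N3: absorbers in world N, one divisible graph and the deletion of a small graph
-/

set_option autoImplicit false
set_option linter.unusedSectionVars false

namespace F3.AB

open Finset NW F1
open NW.Ab (tsum tsum_nil tsum_cons)

section nxb

variable {V : Type} [Fintype V] [DecidableEq V] {E : Finset (Sym2 V)} {W B : Finset V} {q : ℕ}
  {σ : ℝ}

theorem nx_tsum (hN : NX E σ) (hB : NBd B q σ) (l : List (V × V × V)) :
    (∀ t ∈ l, NW.Ab.Tr W t) → Gd (Tt (V := V)) E W B q (7 * l.length) (tsum l) 0 := by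
  induction l with
  | nil =>
    intro _
    rw [tsum_nil]
    exact Gd.zero
  | cons t l ih =>
    intro hl
    obtain ⟨t1, t2, t3, t4, t5, t6⟩ := hl t (List.mem_cons_self ..)
    have h1 := nx_tri hN hB t1 t2 t3 t4 t5 t6
    have h2 := h1.add (ih fun t ht => hl t (List.mem_cons_of_mem _ ht))
    rw [List.length_cons, tsum_cons]
    have e : 7 * (l.length + 1) = 7 + 7 * l.length := by ring
    rw [e]
    rw [add_zero] at h2
    exact h2

theorem nx_tsum_card (l : List (V × V × V)) : (tsum l).card = 3 * l.length := by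
  induction l with
  | nil => rfl
  | cons t l ih =>
    rw [tsum_cons, Multiset.card_add, ih, List.length_cons]
    unfold NW.Ab.trim
    rw [Multiset.card_add, Multiset.card_add, Multiset.card_singleton, Multiset.card_singleton,
      Multiset.card_singleton]
    ring

theorem nx_tsum_vp (hN : NX E σ) (hB : NBd B q σ) {l : List (V × V × V)} :
    (∀ t ∈ l, NW.Ab.Tr W t) → ∀ e ∈ tsum l, VP (Tt (V := V)) E W B q 4 e := by
  induction l with
  | nil =>
    intro _ e he
    exact absurd he (Multiset.notMem_zero e)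
  | cons t l ih =>
    intro hl e he
    rw [tsum_cons] at he
    rcases Multiset.mem_add.1 he with he | he
    · obtain ⟨t1, t2, t3, t4, t5, t6⟩ := hl t (List.mem_cons_self ..)
      simp only [NW.Ab.trim, Multiset.mem_add, Multiset.mem_singleton] at he
      rcases he with (rfl | rfl) | rfl
      · exact nx_vp hN hB t1 t2 t4
      · exact nx_vp hN hB t2 t3 t5
      · exact nx_vp hN hB t1 t3 t6
    · exact ih (fun t ht => hl t (List.mem_cons_of_mem _ ht)) e he

/-- a gadget for one divisible graph -/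
theorem nx_gd (hN : NX E σ) (hB : NBd B q σ) {D : Finset (Sym2 V)} {U : Finset V}
    (hU : U ⊆ W) (hD : D ⊆ U.sym2)
    (hsg : NW.Ab.Sg W (16 * D.card) (∑ d ∈ D, NW.Ab.dl d)) :
    Gd (Tt (V := V)) E W B q (304 * D.card) D.val 0 := by
  obtain ⟨p, m, h1, h2, h3, h4⟩ := NW.Ab.ms_divis hsg
  have g1 := nx_tsum hN hB p h2
  have g2 := (nx_tsum hN hB m h3).symm
  have g3 := g1.add g2
  rw [add_zero, zero_add, h4] at g3
  have g4 : Gd (Tt (V := V)) E W B q (7 * p.length + 7 * m.length) (tsum m + D.val)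
      (tsum m + 0) := by
    rw [add_zero]
    exact g3
  have g5 := Gd.cancels (tsum m) g4 (nx_tsum_vp hN hB h3)
    (fun d hd v hv => hU (Finset.mem_sym2_iff.1 (hD hd) v hv))
    (fun d hd => absurd hd (Multiset.notMem_zero d))
  refine g5.mono ?_
  rw [nx_tsum_card]
  omega

/-- absorbers for one divisible graph exist -/
theorem nx_one (hN : NX E σ) {Q M : ℕ} (hB : NBd B Q σ) {U : Finset V}
    (hQ : q + 5 + 304 * M ≤ Q) {D : Finset (Sym2 V)} (hD : D ⊆ U.sym2) (hdiv : NW.Divis D)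
    (hM : D.card ≤ M) : OneOK (Tt (V := V)) E U B q (304 * M + 5) D := by
  intro S hUS hSq
  have hn := hB.n_pos
  obtain ⟨v0⟩ : Nonempty V := by
    by_contra h
    rw [not_nonempty_iff] at h
    have : nn V = 0 := by
      unfold nn
      rw [Fintype.card_eq_zero]
      simp
    linarith
  obtain ⟨c, c1, cB, -⟩ := nx_pick hN hB v0 v0 v0 S (by omega)
  have k1 := Finset.card_insert_le c S
  obtain ⟨r, r1, rB, -⟩ := nx_pick hN hB v0 v0 v0 (insert c S) (by omega)
  have k2 := Finset.card_insert_le r (insert c S)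
  obtain ⟨y, y1, yB, -⟩ := nx_pick hN hB v0 v0 v0 (insert r (insert c S)) (by omega)
  have k3 := Finset.card_insert_le y (insert r (insert c S))
  obtain ⟨z, z1, zB, -⟩ := nx_pick hN hB v0 v0 v0 (insert y (insert r (insert c S))) (by omega)
  have k4 := Finset.card_insert_le z (insert y (insert r (insert c S)))
  obtain ⟨s, s1, sB, -⟩ := nx_pick hN hB v0 v0 v0 (insert z (insert y (insert r (insert c S))))
    (by omega)
  have k5 := Finset.card_insert_le s (insert z (insert y (insert r (insert c S))))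
  simp only [Finset.mem_insert, not_or] at r1 y1 z1 s1
  obtain ⟨P, hP⟩ : ∃ P : Finset V, P = {c, r, y, z, s} := ⟨_, rfl⟩
  obtain ⟨W, hW⟩ : ∃ W : Finset V, W = P ∪ U := ⟨_, rfl⟩
  have hUW : U ⊆ W := hW ▸ Finset.subset_union_right
  have hcP : c ∈ P := by rw [hP]; simp
  have hrP : r ∈ P := by rw [hP]; simp
  have hyP : y ∈ P := by rw [hP]; simp
  have hzP : z ∈ P := by rw [hP]; simp
  have hsP : s ∈ P := by rw [hP]; simp
  have hPW : P ⊆ W := hW ▸ Finset.subset_union_left
  have hPc : P.card ≤ 5 := by rw [hP]; exact Finset.card_le_five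
  have hPS : Disjoint P (S ∪ B) := by
    rw [Finset.disjoint_left]
    intro v hv hv'
    rw [hP] at hv
    simp only [Finset.mem_insert, Finset.mem_singleton] at hv
    rcases Finset.mem_union.1 hv' with h | h
    · rcases hv with rfl | rfl | rfl | rfl | rfl
      · exact c1 h
      · exact r1.2 h
      · exact y1.2.2 h
      · exact z1.2.2.2 h
      · exact s1.2.2.2.2 h
    · rcases hv with rfl | rfl | rfl | rfl | rfl
      · exact cB h
      · exact rB h
      · exact yB h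
      · exact zB h
      · exact sB h
  have hsg := NW.Ab.sg_divis (W := W) hUW hD hdiv (hPW hcP) (hPW hrP) (hPW hyP) (hPW hzP)
    (hPW hsP) (fun h => c1 (hUS h)) (fun h => y1.2.2 (hUS h)) (fun h => z1.2.2.2 (hUS h))
    (Ne.symm r1.1) (Ne.symm y1.2.1) (Ne.symm z1.2.2.1) (Ne.symm s1.2.2.2.1) (Ne.symm y1.1)
    (Ne.symm z1.2.1) (Ne.symm s1.2.2.1) (Ne.symm z1.1) (Ne.symm s1.2.1) (Ne.symm s1.1)
  have hgd := nx_gd hN hB hUW hD hsg
  have hWS : W ⊆ S ∪ P := by
    rw [hW]
    intro v hv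
    rcases Finset.mem_union.1 hv with h | h
    · exact Finset.mem_union_right _ h
    · exact Finset.mem_union_left _ (hUS h)
  have hSP : (S ∪ P).card ≤ S.card + 5 := by
    have h1 := Finset.card_union_le S P
    omega
  obtain ⟨T, N, t1, t2, t3, t4, t5⟩ := hgd (S ∪ P) hWS (by omega)
  have hDU : ∀ e ∈ D, ∀ v ∈ e, v ∈ U := fun e he v hv =>
    Finset.mem_sym2_iff.1 (hD he) v hv
  have hdisj : Disjoint (⟨N, t3.nd⟩ : Finset (Sym2 V)) D := by
    rw [Finset.disjoint_left]
    intro e he he'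
    obtain ⟨v, hv, hvT⟩ := t3.new e he
    exact (Finset.disjoint_left.1 t2 hvT) (Finset.mem_union_left _ (Finset.mem_union_left _
      (hUS (hDU e he' v hv))))
  refine ⟨⟨N, t3.nd⟩, T ∪ P, ⟨?_, ?_, ?_, ?_, ?_, ?_, ?_⟩⟩
  · have h1 := Finset.card_union_le T P
    omega
  · rw [Finset.disjoint_union_left]
    refine ⟨Finset.disjoint_of_subset_right ?_ t2, hPS⟩
    intro v hv
    rcases Finset.mem_union.1 hv with h | h
    · exact Finset.mem_union_left _ (Finset.mem_union_left _ h)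
    · exact Finset.mem_union_right _ h
  · exact fun e he => t3.sub e he
  · intro e he
    obtain ⟨v, hv, hvT⟩ := t3.new e he
    exact ⟨v, hv, Finset.mem_union_left _ hvT⟩
  · intro e he v hv
    have h1 := t3.supp e he v hv
    rcases Finset.mem_union.1 h1 with h | h
    · rcases Finset.mem_union.1 h with h | h
      · exact Finset.mem_union_left _ h
      · exact Finset.mem_union_right _ (Finset.mem_union_right _ h)
    · exact Finset.mem_union_right _ (Finset.mem_union_left _ h)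
  · refine t5.decA _ ?_
    rw [add_zero]
  · refine t4.decA _ ?_
    rw [← Finset.disjUnion_eq_union _ _ hdisj, Finset.disjUnion_val]

/-! ### deletion of a small graph -/

theorem nx_nbr_sdiff (H Z : Finset (Sym2 V)) (v : V) : nbr (H \ Z) v = nbr H v \ nbr Z v := by
  ext w
  simp only [nbr, Finset.mem_filter, Finset.mem_univ, true_and, Finset.mem_sdiff]

/-- world N after the deletion of a graph of small maximum degree -/
theorem nx_of_robN {H Z : Finset (Sym2 V)} {θ η : ℝ} (hH : RobN H θ) (hZ : Sm η Z)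
    (h1 : σ ≤ 1 / 8 - 3 * η) (h2 : σ ≤ θ - 13 * η) : NX (H \ Z) σ := by
  have hn : (0 : ℝ) ≤ nn V := by unfold nn; positivity
  refine ⟨hH.nl.mono Finset.sdiff_subset, ?_, ?_⟩
  · intro x y z
    have h3 := hH.three x y z
    have h4 : nbr H x ∩ nbr H y ∩ nbr H z ⊆
        (nbr (H \ Z) x ∩ nbr (H \ Z) y ∩ nbr (H \ Z) z) ∪ ((nbr Z x ∪ nbr Z y) ∪ nbr Z z) := by
      intro w hw
      simp only [nx_nbr_sdiff, Finset.mem_union, Finset.mem_inter, Finset.mem_sdiff] at hw ⊢
      tauto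
    have h5 := (Finset.card_le_card h4).trans ((Finset.card_union_le _ _).trans
      (Nat.add_le_add_left ((Finset.card_union_le _ _).trans
        (Nat.add_le_add_right (Finset.card_union_le _ _) _)) _))
    have h6 : ((nbr H x ∩ nbr H y ∩ nbr H z).card : ℝ) ≤
        ((nbr (H \ Z) x ∩ nbr (H \ Z) y ∩ nbr (H \ Z) z).card : ℝ) +
        (((nbr Z x).card : ℝ) + (nbr Z y).card + (nbr Z z).card) := by exact_mod_cast h5
    have z1 : ((nbr Z x).card : ℝ) ≤ η * nn V := hZ x
    have z2 : ((nbr Z y).card : ℝ) ≤ η * nn V := hZ y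
    have z3 : ((nbr Z z).card : ℝ) ≤ η * nn V := hZ z
    have h7 : σ * nn V ≤ (1 / 8 - 3 * η) * nn V := mul_le_mul_of_nonneg_right h1 hn
    linarith
  · intro x₁ x₂ h12 y hy z hz
    have hy' : y ∈ nbr H x₁ ∩ nbr H x₂ := by
      simp only [nx_nbr_sdiff, Finset.mem_inter, Finset.mem_sdiff] at hy ⊢
      exact ⟨hy.1.1, hy.2.1⟩
    have hz' : z ∈ nbr H x₁ ∩ nbr H x₂ := by
      simp only [nx_nbr_sdiff, Finset.mem_inter, Finset.mem_sdiff] at hz ⊢
      exact ⟨hz.1.1, hz.2.1⟩
    have h3 := hH.walk x₁ x₂ h12 y hy' z hz'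
    -- the largest degree of `Z`
    obtain ⟨k, hk1, hk2⟩ : ∃ k : ℕ, (∀ v, NW.deg Z v ≤ k) ∧ (k : ℝ) ≤ η * nn V := by
      refine ⟨univ.sup (fun v => NW.deg Z v), fun v => Finset.le_sup (f := fun v => NW.deg Z v)
        (Finset.mem_univ v), ?_⟩
      obtain ⟨v, -, hv⟩ := Finset.exists_mem_eq_sup (Finset.univ : Finset V) ⟨x₁, Finset.mem_univ _⟩
        (fun v => NW.deg Z v)
      rw [hv]
      exact hZ v
    have h4 : ((nbr H x₁ ∩ nbr H x₂) \ (nbr (H \ Z) x₁ ∩ nbr (H \ Z) x₂)).card ≤ 2 * k := by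
      have h5 : (nbr H x₁ ∩ nbr H x₂) \ (nbr (H \ Z) x₁ ∩ nbr (H \ Z) x₂) ⊆
          nbr Z x₁ ∪ nbr Z x₂ := by
        intro w hw
        simp only [nx_nbr_sdiff, Finset.mem_union, Finset.mem_inter, Finset.mem_sdiff] at hw ⊢
        tauto
      have h6 := (Finset.card_le_card h5).trans (Finset.card_union_le _ _)
      have h7 : (nbr Z x₁).card ≤ k := hk1 x₁
      have h8 : (nbr Z x₂).card ≤ k := hk1 x₂
      omega
    have h5 := wn_del (E := H \ Z) (y := y) (z := z)
      (fun e he he' => Finset.mem_sdiff.2 ⟨he, he'⟩) hk1 h4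
    have h6 : ((walks5 H (nbr H x₁ ∩ nbr H x₂) y z).card : ℝ) ≤
        ((walks5 (H \ Z) (nbr (H \ Z) x₁ ∩ nbr (H \ Z) x₂) y z).card : ℝ) +
        nn V ^ 3 * (13 * (k : ℝ)) := by
      have h7 : ((walks5 H (nbr H x₁ ∩ nbr H x₂) y z).card : ℝ) ≤
          ((walks5 (H \ Z) (nbr (H \ Z) x₁ ∩ nbr (H \ Z) x₂) y z).card : ℝ) +
          (Fintype.card V : ℝ) ^ 3 * (4 * (2 * (k : ℝ)) + 5 * k) := by exact_mod_cast h5
      have h8 : (Fintype.card V : ℝ) ^ 3 * (4 * (2 * (k : ℝ)) + 5 * k) =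
          nn V ^ 3 * (13 * (k : ℝ)) := by
        unfold nn
        ring
      rwa [h8] at h7
    have h7 : nn V ^ 3 * (13 * (k : ℝ)) ≤ nn V ^ 3 * (13 * (η * nn V)) :=
      mul_le_mul_of_nonneg_left (by linarith) (by positivity)
    have h8 : σ * nn V ^ 4 ≤ (θ - 13 * η) * nn V ^ 4 :=
      mul_le_mul_of_nonneg_right h2 (by positivity)
    have h9 : nn V ^ 3 * (13 * (η * nn V)) = 13 * η * nn V ^ 4 := by ring
    have h10 : (θ - 13 * η) * nn V ^ 4 = θ * nn V ^ 4 - 13 * η * nn V ^ 4 := by ring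
    linarith

end nxb

/-- **absorbers in world N** -/
theorem abn : ABNStatement := by
  intro θ hθ
  obtain ⟨θ', hθ'⟩ : ∃ θ' : ℝ, θ' = min θ 1 := ⟨_, rfl⟩
  have h0 : 0 < θ' := by rw [hθ']; exact lt_min hθ one_pos
  have h1 : θ' ≤ θ := by rw [hθ']; exact min_le_left _ _
  have h2 : θ' ≤ 1 := by rw [hθ']; exact min_le_right _ _
  refine ⟨θ' / 300, by positivity, fun m => ?_⟩
  obtain ⟨M, hM⟩ : ∃ M, M = (m + 1) ^ 2 := ⟨_, rfl⟩
  obtain ⟨C, q, hCq⟩ := abs_of_one m (304 * M + 5)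
  obtain ⟨Q, hQ⟩ : ∃ Q, Q = q + 5 + 304 * M := ⟨_, rfl⟩
  obtain ⟨n₀, hn₀⟩ := exists_nat_ge (256 * ((Q : ℝ) + 1) / θ')
  refine ⟨C, n₀, ?_⟩
  intro V _ _ H hV hH Z F U hZ hF hU
  have hn : (n₀ : ℝ) ≤ nn V := by unfold nn; exact_mod_cast hV
  have hN : NX (H \ Z) (θ' / 16) := nx_of_robN hH hZ (by linarith) (by linarith)
  have hB : NBd F Q (θ' / 16) := by
    constructor
    · have h3 : (F.card : ℝ) ≤ θ' / 300 * nn V := hF
      have h4 : (0 : ℝ) ≤ nn V := by unfold nn; positivity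
      have h5 : 0 ≤ θ' * nn V := mul_nonneg h0.le h4
      have h6 : 16 * (θ' / 300 * nn V) = θ' * nn V * (16 / 300) := by ring
      have h7 : θ' / 16 * nn V = θ' * nn V * (1 / 16) := by ring
      rw [h7]
      linarith
    · have h3 : 256 * ((Q : ℝ) + 1) / θ' ≤ nn V := hn₀.trans hn
      rw [div_le_iff₀ h0] at h3
      linarith
  have hcard : U.sym2.card ≤ M := by
    rw [Finset.card_sym2, Nat.choose_two_right, hM]
    have h1 : (U.card + 1) * (U.card + 1 - 1) ≤ (m + 1) * (m + 1) :=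
      Nat.mul_le_mul (by omega) (by omega)
    have h2 : (U.card + 1) * (U.card + 1 - 1) / 2 ≤ (U.card + 1) * (U.card + 1 - 1) :=
      Nat.div_le_self _ _
    calc _ ≤ _ := h2
      _ ≤ (m + 1) * (m + 1) := h1
      _ = (m + 1) ^ 2 := by ring
  classical
  obtain ⟨A, a1, a2, a3, a4, a5, a6⟩ := hCq V (Tt (V := V)) (H \ Z) U F
    (U.sym2.powerset.filter fun D => NW.Divis D) hU (by
      intro D hD
      rw [Finset.mem_filter, Finset.mem_powerset] at hD
      exact ⟨hD.1, nx_one hN hB (by omega) hD.1 hD.2 ((Finset.card_le_card hD.1).trans hcard)⟩)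
  refine ⟨A, a1, a2, a3, a5, a4, ?_⟩
  intro D _ hDU hΦ
  exact a6 D (Finset.mem_filter.2 ⟨Finset.mem_powerset.2 hDU, hΦ.1⟩)

end F3.AB
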