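import Pool.Agent.F3.AB.Zf
import Pool.Agent.F3.AB.GadI

/-!
# Block AB, row AB-21: from a signed sum to an absorber
-/

set_option autoImplicit false
set_option linter.unusedSectionVars false

namespace F3.AB

open Finset NW F1

variable {V : Type} [Fintype V] [DecidableEq V] {E : Finset (Sym2 V)} {Co : V → V → Prop}
  {sd : V → Bool} {At W B : Finset V} {q : ℕ} {ε σ : ℝ}

private theorem ox_val {X Y : Finset (Sym2 V)} (h : Disjoint X Y) :
    (X ∪ Y).val = X.val + Y.val := by
  rw [← Finset.disjUnion_eq_union X Y h]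
  rfl

private theorem ox_int (x y : V) (h : sd x = sd y) : Int sd s(x, y) := by
  intro u hu v hv
  rcases Sym2.mem_iff.1 hu with rfl | rfl <;> rcases Sym2.mem_iff.1 hv with rfl | rfl
  · rfl
  · exact h
  · exact h.symm
  · rfl

theorem one_of_sg (h : CX E Co sd At ε σ) (hB : Bd At B q ε σ) {al' : Tri V → Prop}
    (D : Finset (Sym2 V)) (U S : Finset V) (ap : Sym2 V → V) (k : ℕ) (hDU : D ⊆ U.sym2)
    (hUS : U ⊆ S) (nl : NW.NL D) (noAt : ∀ u ∈ At, ∀ v ∈ At, s(u, v) ∉ D)
    (hap : Apx al' E sd D S B ap)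
    (hal : ∀ T : Tri V, alC Co sd T → NW.edg T.1 ⊆ E ∪ D → al' T) (hUW : U ⊆ W)
    (hW : ∀ v ∈ W, v ∈ U ∨ (v ∉ S ∧ v ∉ B)) (hapW : ∀ d ∈ D, Int sd d → ap d ∈ W)
    (hsg : Sg (alC Co sd) E W B q 5 k
      (fun e => ((Dc sd D).val.count e : ℤ) - ((N0 sd D ap).val.count e : ℤ)))
    (hq : S.card + W.card + D.card + 12 * k ≤ q) :
    ∃ (A : Finset (Sym2 V)) (T : Finset V), One al' E S B (W.card + D.card + 12 * k) D A T := by
  -- the pairs are virtual
  have hD : ∀ e ∈ D, ∀ v ∈ e, v ∈ U := by
    intro e he v hv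
    exact Finset.mem_sym2_iff.1 (hDU he) v hv
  have ha : ∀ e ∈ (Dc sd D).val, VP (alC Co sd) E W B q 5 e := by
    intro e he
    have he' : e ∈ Dc sd D := he
    rw [Dc, mem_filter] at he'
    obtain ⟨heD, heI⟩ := he'
    induction e using Sym2.ind with
    | _ x y =>
      have hx := hD _ heD x (Sym2.mem_mk_left _ _)
      have hy := hD _ heD y (Sym2.mem_mk_right _ _)
      refine cx_vp h hB (hUW hx) (hUW hy) (fun hs => heI (ox_int x y hs)) ?_
      by_contra hcon
      rw [not_or, not_not, not_not] at hcon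
      exact noAt x hcon.1 y hcon.2 heD
  have hb : ∀ e ∈ (N0 sd D ap).val, VP (alC Co sd) E W B q 5 e := by
    intro e he
    obtain ⟨u, d, hdD, hdI, hud, huU, rfl⟩ := n0_mem hDU e he
    refine cx_vp h hB (hUW huU) (hapW d hdD hdI) (hap.side d hdD hdI u hud).symm (Or.inr ?_)
    exact fun h' => (hap.out d hdD hdI).2 (hB.At_sub h')
  have hgd := hsg.gd ha hb (fun e => rfl)
  -- the gadget
  have hDc : (Dc sd D).val.card ≤ D.card := Finset.card_filter_le _ _
  have hSW : (S ∪ W).card ≤ S.card + W.card := Finset.card_union_le _ _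
  obtain ⟨T', N, hT1, hT2, hN, hMa, hMb⟩ := hgd (S ∪ W) Finset.subset_union_right (by omega)
  rw [Finset.disjoint_left] at hT2
  set Nf : Finset (Sym2 V) := ⟨N, hN.nd⟩ with hNf
  have hNW : ∀ e ∈ Nf, (∀ v ∈ e, v ∈ W) → False := by
    intro e he hv
    obtain ⟨v, hve, hvT⟩ := hN.new e he
    exact hT2 hvT (mem_union_left _ (mem_union_right _ (hv v hve)))
  have hN0W : ∀ e ∈ N0 sd D ap, ∀ v ∈ e, v ∈ W := by
    intro e he v hv
    obtain ⟨u, d, hdD, hdI, hud, huU, rfl⟩ := n0_mem hDU e he
    rcases Sym2.mem_iff.1 hv with rfl | rfl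
    · exact hUW huU
    · exact hapW d hdD hdI
  have hDW : ∀ e ∈ D, ∀ v ∈ e, v ∈ W := fun e he v hv => hUW (hD e he v hv)
  have d1 : Disjoint Nf (N0 sd D ap) := by
    rw [Finset.disjoint_left]
    exact fun e he he' => hNW e he (hN0W e he')
  have d2 : Disjoint Nf D := by
    rw [Finset.disjoint_left]
    exact fun e he he' => hNW e he (hDW e he')
  have d2c : Disjoint Nf (Dc sd D) := d2.mono_right (Finset.filter_subset _ _)
  have d2i : Disjoint Nf (Di sd D) := d2.mono_right (Finset.filter_subset _ _)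
  have d3 : Disjoint D (N0 sd D ap) := n0_disj hap hDU hUS
  have d4 : Disjoint (Dc sd D) (Di sd D) := by
    rw [Finset.disjoint_left]
    intro e he he'
    exact (mem_filter.1 he).2 (mem_filter.1 he').2
  have hNE : Nf ⊆ E := fun e he => hN.sub e he
  have hN0E : N0 sd D ap ⊆ E := n0_sub hap
  -- decompositions
  have e1 : DecA al' (Nf ∪ N0 sd D ap) := by
    have := hMb.decA (Nf ∪ N0 sd D ap) (ox_val d1)
    refine DecA.mono this fun T hT hTE => hal T hT (hTE.trans ?_)
    exact (Finset.union_subset hNE hN0E).trans Finset.subset_union_left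
  have e2 : DecA al' (Nf ∪ Dc sd D) := by
    have := hMa.decA (Nf ∪ Dc sd D) (ox_val d2c)
    refine DecA.mono this fun T hT hTE => hal T hT (hTE.trans ?_)
    exact Finset.union_subset_union hNE (Finset.filter_subset _ _)
  have e3 : DecA al' (Di sd D ∪ N0 sd D ap) := n0_dec hap hDU hUS nl
  refine ⟨Nf ∪ N0 sd D ap, T' ∪ (W \ U), ?_, ?_, Finset.union_subset hNE hN0E, ?_, ?_, e1, ?_⟩
  · have h1 := Finset.card_union_le T' (W \ U)
    have h2 := Finset.card_le_card (Finset.sdiff_subset : W \ U ⊆ W)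
    omega
  · rw [Finset.disjoint_left]
    intro v hv hv'
    rcases mem_union.1 hv with hv | hv
    · apply hT2 hv
      rcases mem_union.1 hv' with h' | h'
      · exact mem_union_left _ (mem_union_left _ h')
      · exact mem_union_right _ h'
    · rw [mem_sdiff] at hv
      rcases hW v hv.1 with h' | h'
      · exact hv.2 h'
      · rcases mem_union.1 hv' with h'' | h''
        · exact h'.1 h''
        · exact h'.2 h''
  · intro e he
    rcases mem_union.1 he with he | he
    · obtain ⟨v, hve, hvT⟩ := hN.new e he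
      exact ⟨v, hve, mem_union_left _ hvT⟩
    · obtain ⟨u, d, hdD, hdI, hud, huU, rfl⟩ := n0_mem hDU e he
      refine ⟨ap d, Sym2.mem_mk_right _ _, mem_union_right _ (mem_sdiff.2 ⟨hapW d hdD hdI, ?_⟩)⟩
      exact fun h' => (hap.out d hdD hdI).1 (hUS h')
  · have hWT : ∀ v ∈ W, v ∈ S ∪ (T' ∪ (W \ U)) := by
      intro v hv
      by_cases hvU : v ∈ U
      · exact mem_union_left _ (hUS hvU)
      · exact mem_union_right _ (mem_union_right _ (mem_sdiff.2 ⟨hv, hvU⟩))
    intro e he v hv
    rcases mem_union.1 he with he | he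
    · rcases mem_union.1 (hN.supp e he v hv) with h' | h'
      · rcases mem_union.1 h' with h' | h'
        · exact mem_union_left _ h'
        · exact hWT v h'
      · exact mem_union_right _ (mem_union_left _ h')
    · exact hWT v (hN0W e he v hv)
  · have e4 : Nf ∪ N0 sd D ap ∪ D = (Nf ∪ Dc sd D) ∪ (Di sd D ∪ N0 sd D ap) := by
      have hDD : D = Dc sd D ∪ Di sd D := by
        ext e
        rw [mem_union, Dc, Di, mem_filter, mem_filter]
        tauto
      ext e
      rw [mem_union, mem_union, mem_union, mem_union, mem_union]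
      constructor
      · rintro ((h' | h') | h')
        · exact Or.inl (Or.inl h')
        · exact Or.inr (Or.inr h')
        · rw [hDD, mem_union] at h'
          rcases h' with h' | h'
          · exact Or.inl (Or.inr h')
          · exact Or.inr (Or.inl h')
      · rintro ((h' | h') | (h' | h'))
        · exact Or.inl (Or.inl h')
        · exact Or.inr (Finset.filter_subset _ _ h')
        · exact Or.inr (Finset.filter_subset _ _ h')
        · exact Or.inl (Or.inr h')
    rw [e4]
    refine DecA.union e2 e3 ?_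
    rw [Finset.disjoint_union_left, Finset.disjoint_union_right, Finset.disjoint_union_right]
    exact ⟨⟨d2i, d1⟩, d4, d3.mono_left (Finset.filter_subset _ _)⟩

end F3.AB
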