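import Pool.Agent.F3.AB.Eng1

/-!
# Block AB, world S: absorbers for all weights from absorbers for weight zero
-/

set_option autoImplicit false
set_option linter.unusedSectionVars false

namespace F3.AB

open Finset NW F1

section

variable {V : Type} [Fintype V] [DecidableEq V]

/-- a fresh even set of edges of weight `g` on at most `c` new vertices -/
structure Pc (E : Finset (Sym2 V)) (sd : V → Bool) (B S R : Finset V) (L : Finset (Sym2 V))
    (c : ℕ) (g : ℤ) : Prop where
  card : R.card ≤ c
  disj : Disjoint R (S ∪ B)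
  sub : L ⊆ E
  supp : L ⊆ R.sym2
  even : ∀ v, Even (NW.deg L v)
  gam : ∑ e ∈ L, gam sd e = g

/-- a fresh triangle inside the side `b` exists outside every set of at most `q` vertices -/
def TrOK (E : Finset (Sym2 V)) (sd : V → Bool) (B : Finset V) (q : ℕ) : Prop :=
  ∀ S : Finset V, S.card ≤ q → ∃ a b c : V, a ≠ b ∧ b ≠ c ∧ a ≠ c ∧ sd a = sd b ∧ sd b = sd c ∧
    s(a, b) ∈ E ∧ s(b, c) ∈ E ∧ s(a, c) ∈ E ∧ a ∉ S ∧ b ∉ S ∧ c ∉ S ∧ a ∉ B ∧ b ∉ B ∧ c ∉ B

/-- a fresh even set of weight `-6` exists outside every set of at most `q` vertices -/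
def HxOK (E : Finset (Sym2 V)) (sd : V → Bool) (B : Finset V) (q : ℕ) : Prop :=
  ∀ S : Finset V, S.card ≤ q → ∃ (R : Finset V) (L : Finset (Sym2 V)), Pc E sd B S R L 24 (-6)

theorem toT {al : Tri V → Prop} {E : Finset (Sym2 V)} (h : DecA al E) :
    DecA (fun _ => True) E := DecA.mono h fun _ _ _ => trivial

theorem disj_sym2 {R R' : Finset V} {L L' : Finset (Sym2 V)} (h : Disjoint R R')
    (hL : L ⊆ R.sym2) (hL' : L' ⊆ R'.sym2) : Disjoint L L' := by
  rw [Finset.disjoint_left]
  intro e he he'
  induction e using Sym2.ind with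
  | _ x y =>
    have h1 := Finset.mem_sym2_iff.1 (hL he) x (Sym2.mem_mk_left _ _)
    have h2 := Finset.mem_sym2_iff.1 (hL' he') x (Sym2.mem_mk_left _ _)
    exact Finset.disjoint_left.1 h h1 h2

theorem sym2_mono' {R R' : Finset V} (h : R ⊆ R') : R.sym2 ⊆ R'.sym2 := by
  intro e he
  rw [Finset.mem_sym2_iff] at he ⊢
  exact fun a ha => h (he a ha)

theorem Pc.empty (E : Finset (Sym2 V)) (sd : V → Bool) (B S : Finset V) :
    Pc E sd B S ∅ ∅ 0 0 where
  card := by simp
  disj := by simp
  sub := by simp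
  supp := by simp
  even := by
    intro v
    unfold NW.deg nbr
    simp
  gam := by simp

theorem Pc.union {E : Finset (Sym2 V)} {sd : V → Bool} {B S R R' : Finset V}
    {L L' : Finset (Sym2 V)} {c c' : ℕ} {g g' : ℤ} (h : Pc E sd B S R L c g)
    (h' : Pc E sd B (S ∪ R) R' L' c' g') : Pc E sd B S (R ∪ R') (L ∪ L') (c + c') (g + g') ∧
      Disjoint L L' := by
  have hd : Disjoint R R' := by
    rw [Finset.disjoint_left]
    intro v hv hv'
    exact Finset.disjoint_left.1 h'.disj hv' (by simp [hv])
  have hL : Disjoint L L' := disj_sym2 hd h.supp h'.supp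
  refine ⟨⟨?_, ?_, ?_, ?_, ?_, ?_⟩, hL⟩
  · exact (Finset.card_union_le _ _).trans (Nat.add_le_add h.card h'.card)
  · rw [Finset.disjoint_union_left]
    refine ⟨h.disj, ?_⟩
    refine Finset.disjoint_of_subset_right ?_ h'.disj
    intro v hv
    simp only [Finset.mem_union] at hv ⊢
    tauto
  · exact Finset.union_subset h.sub h'.sub
  · exact Finset.union_subset (h.supp.trans (sym2_mono' Finset.subset_union_left))
      (h'.supp.trans (sym2_mono' Finset.subset_union_right))
  · intro v
    rw [NW.deg_union hL]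
    exact (h.even v).add (h'.even v)
  · rw [Finset.sum_union hL, h.gam, h'.gam]

/-- `k` fresh triangles -/
theorem TrOK.rep {E : Finset (Sym2 V)} {sd : V → Bool} {B : Finset V} {q : ℕ}
    (h : TrOK E sd B q) (k : ℕ) : ∀ S : Finset V, S.card + 3 * k ≤ q →
      ∃ (R : Finset V) (L : Finset (Sym2 V)), Pc E sd B S R L (3 * k) (6 * (k : ℤ)) ∧
        DecA (fun _ => True) L := by
  induction k with
  | zero =>
    intro S _
    exact ⟨∅, ∅, by simpa using Pc.empty E sd B S, DecA.empty⟩
  | succ k ih =>
    intro S hS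
    obtain ⟨a, b, c, hab, hbc, hac, sab, sbc, e1, e2, e3, a1, b1, c1, a2, b2, c2⟩ :=
      h S (by omega)
    have hT : ({a, b, c} : Finset V).card = 3 := Finset.card_eq_three.2 ⟨a, b, c, hab, hac, hbc, rfl⟩
    have hedg : NW.edg ({a, b, c} : Finset V) = NW.tri a b c := edg_triple hab hbc hac
    have p1 : Pc E sd B S {a, b, c} (NW.tri a b c) 3 6 := by
      refine ⟨hT.le, ?_, ?_, ?_, ?_, ?_⟩
      · rw [Finset.disjoint_left]
        intro v hv
        simp only [Finset.mem_insert, Finset.mem_singleton] at hv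
        rw [Finset.mem_union]
        rcases hv with rfl | rfl | rfl <;> tauto
      · intro e he
        rcases mem_tri.1 he with rfl | rfl | rfl <;> assumption
      · intro e he
        rw [Finset.mem_sym2_iff]
        intro v hv
        rcases mem_tri.1 he with rfl | rfl | rfl <;>
          (rcases Sym2.mem_iff.1 hv with rfl | rfl <;> simp)
      · exact (Dec.tri hab hbc hac).even_deg
      · have n1 : s(a, b) ≠ s(b, c) := by
          rw [Ne, Sym2.eq_iff]; tauto
        have n2 : s(a, b) ≠ s(a, c) := by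
          rw [Ne, Sym2.eq_iff]; tauto
        have n3 : s(b, c) ≠ s(a, c) := by
          rw [Ne, Sym2.eq_iff]; tauto
        unfold NW.tri
        rw [Finset.sum_insert (by simp [n1, n2]), Finset.sum_insert (by simp [n3]),
          Finset.sum_singleton]
        have i1 : Int sd s(a, b) := by
          intro u hu v hv
          rcases Sym2.mem_iff.1 hu with rfl | rfl <;> rcases Sym2.mem_iff.1 hv with rfl | rfl <;>
            simp [sab]
        have i2 : Int sd s(b, c) := by
          intro u hu v hv
          rcases Sym2.mem_iff.1 hu with rfl | rfl <;> rcases Sym2.mem_iff.1 hv with rfl | rfl <;>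
            simp [sbc]
        have i3 : Int sd s(a, c) := by
          intro u hu v hv
          rcases Sym2.mem_iff.1 hu with rfl | rfl <;> rcases Sym2.mem_iff.1 hv with rfl | rfl <;>
            simp [sab, sbc]
        unfold gam
        rw [if_pos i1, if_pos i2, if_pos i3]
        norm_num
    obtain ⟨R, L, p2, d2⟩ := ih (S ∪ {a, b, c}) (by
      have := Finset.card_union_le S {a, b, c}
      omega)
    obtain ⟨p3, hd⟩ := p1.union p2
    refine ⟨{a, b, c} ∪ R, NW.tri a b c ∪ L, ?_, ?_⟩
    · have e1 : 3 * (k + 1) = 3 + 3 * k := by ring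
      have e2 : 6 * ((k + 1 : ℕ) : ℤ) = 6 + 6 * (k : ℤ) := by push_cast; ring
      rw [e1, e2]
      exact p3
    · refine DecA.union ?_ d2 hd
      refine ⟨{⟨{a, b, c}, hT⟩}, by simp, ?_, ?_⟩
      · intro T hT T' hT' hne
        rw [Finset.mem_singleton] at hT hT'
        exact absurd (hT.trans hT'.symm) hne
      · rw [Finset.singleton_biUnion]
        exact hedg

/-- `k` fresh sets of weight `-6` -/
theorem HxOK.rep {E : Finset (Sym2 V)} {sd : V → Bool} {B : Finset V} {q : ℕ}
    (h : HxOK E sd B q) (k : ℕ) : ∀ S : Finset V, S.card + 24 * k ≤ q →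
      ∃ (R : Finset V) (L : Finset (Sym2 V)), Pc E sd B S R L (24 * k) (-6 * (k : ℤ)) := by
  induction k with
  | zero =>
    intro S _
    exact ⟨∅, ∅, by simpa using Pc.empty E sd B S⟩
  | succ k ih =>
    intro S hS
    obtain ⟨R₁, L₁, p1⟩ := h S (by omega)
    obtain ⟨R, L, p2⟩ := ih (S ∪ R₁) (by
      have := Finset.card_union_le S R₁
      have := p1.card
      omega)
    obtain ⟨p3, hd⟩ := p1.union p2
    refine ⟨R₁ ∪ R, L₁ ∪ L, ?_⟩
    have e1 : 24 * (k + 1) = 24 + 24 * k := by ring
    have e2 : -6 * ((k + 1 : ℕ) : ℤ) = -6 + -6 * (k : ℤ) := by push_cast; ring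
    rw [e1, e2]
    exact p3

/-- absorbers for all admissible graphs of weight zero on at most `m` vertices -/
def ZOK (al : Tri V → Prop) (E : Finset (Sym2 V)) (sd : V → Bool) (At B : Finset V)
    (m q K : ℕ) : Prop :=
  ∀ (U : Finset V) (D : Finset (Sym2 V)), U.card ≤ m → D ⊆ U.sym2 →
    DOK sd At D → OneOK al E U B q K D

/-- the union of an admissible graph and a fresh set -/
theorem dok_union {E : Finset (Sym2 V)} {sd : V → Bool} {At B S R U : Finset V}
    {D L : Finset (Sym2 V)} {c : ℕ} {g : ℤ} (hE : NW.NL E) (hAB : At ⊆ B) (hU : U ⊆ S)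
    (hD : D ⊆ U.sym2) (nl : NW.NL D) (even : ∀ v, Even (NW.deg D v))
    (noAt : ∀ u ∈ At, ∀ v ∈ At, s(u, v) ∉ D) (hg : ∑ e ∈ D, gam sd e = -g)
    (p : Pc E sd B S R L c g) : DOK sd At (D ∪ L) ∧ D ∪ L ⊆ (U ∪ R).sym2 ∧
      Disjoint D L := by
  have hUR : Disjoint U R := by
    rw [Finset.disjoint_left]
    intro v hv hv'
    exact Finset.disjoint_left.1 p.disj hv' (Finset.mem_union_left _ (hU hv))
  have hd : Disjoint D L := disj_sym2 hUR hD p.supp
  refine ⟨⟨?_, ?_, ?_, ?_⟩, ?_, hd⟩
  · exact nl.union (hE.mono p.sub)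
  · intro v
    rw [NW.deg_union hd]
    exact (even v).add (p.even v)
  · intro u hu v hv h
    rcases Finset.mem_union.1 h with h | h
    · exact noAt u hu v hv h
    · have h1 := Finset.mem_sym2_iff.1 (p.supp h) u (Sym2.mem_mk_left _ _)
      exact Finset.disjoint_left.1 p.disj h1 (Finset.mem_union_right _ (hAB hu))
  · rw [Finset.sum_union hd, hg, p.gam]
    ring
  · exact Finset.union_subset (hD.trans (sym2_mono' Finset.subset_union_left))
      (p.supp.trans (sym2_mono' Finset.subset_union_right))

theorem disj_new {E : Finset (Sym2 V)} {S B T : Finset V} {K : ℕ} {D A X : Finset (Sym2 V)}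
    {al : Tri V → Prop} (h : One al E S B K D A T) (hX : X ⊆ S.sym2) : Disjoint A X := by
  rw [Finset.disjoint_left]
  intro e he he'
  obtain ⟨v, hv, hvT⟩ := h.new e he
  exact Finset.disjoint_left.1 h.disj hvT
    (Finset.mem_union_left _ (Finset.mem_sym2_iff.1 (hX he') v hv))

/-- **World S, the combination.** -/
theorem comb_S {al : Tri V → Prop} {E : Finset (Sym2 V)} {sd : V → Bool} {At B : Finset V}
    {m q K k₀ : ℕ} (hE : NW.NL E) (hAB : At ⊆ B) (hZ : ZOK al E sd At B (m + 27 * k₀) q K)
    (hT : TrOK E sd B q) (hX : HxOK E sd B q) {U : Finset V} {D : Finset (Sym2 V)}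
    (hUm : U.card ≤ m) (hD : D ⊆ U.sym2) (nl : NW.NL D) (even : ∀ v, Even (NW.deg D v))
    (noAt : ∀ u ∈ At, ∀ v ∈ At, s(u, v) ∉ D) (k : ℤ) (hk : ∑ e ∈ D, gam sd e = 6 * k)
    (hkk : k.natAbs ≤ k₀) {q' K' : ℕ} (hq' : q' + 27 * k₀ + K ≤ q) (hK' : 2 * K + 27 * k₀ ≤ K') :
    OneOK (fun _ => True) E U B q' K' D := by
  intro S hUS hSq
  rcases le_or_gt k 0 with hk0 | hk0
  · -- add triangles
    obtain ⟨R, L, p, dL⟩ := hT.rep k.natAbs S (by omega)
    have e6 : 6 * (k.natAbs : ℤ) = -(6 * k) := by
      have : (k.natAbs : ℤ) = -k := by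
        rw [Int.natCast_natAbs, abs_of_nonpos hk0]
      rw [this]
      ring
    rw [e6] at p
    obtain ⟨dk, hsub, hd⟩ := dok_union hE hAB hUS hD nl even noAt (by rw [hk]; ring) p
    have hUR : (U ∪ R).card ≤ m + 27 * k₀ := by
      have := Finset.card_union_le U R
      have := p.card
      omega
    obtain ⟨A, T, o⟩ := hZ (U ∪ R) (D ∪ L) hUR hsub dk (S ∪ R)
      (Finset.union_subset_union hUS (Finset.Subset.refl _)) (by
        have := Finset.card_union_le S R
        have := p.card
        omega)
    have hAL : Disjoint A L := disj_new o (p.supp.trans (sym2_mono' Finset.subset_union_right))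
    refine ⟨A ∪ L, T ∪ R, ?_, ?_, ?_, ?_, ?_, ?_, ?_⟩
    · have h1 := Finset.card_union_le T R
      have h2 := p.card
      have h3 := o.card
      omega
    · rw [Finset.disjoint_union_left]
      refine ⟨Finset.disjoint_of_subset_right ?_ o.disj, p.disj⟩
      intro v hv
      simp only [Finset.mem_union] at hv ⊢
      tauto
    · exact Finset.union_subset o.sub p.sub
    · intro e he
      rcases Finset.mem_union.1 he with he | he
      · obtain ⟨v, hv, hvT⟩ := o.new e he
        exact ⟨v, hv, Finset.mem_union_left _ hvT⟩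
      · induction e using Sym2.ind with
        | _ x y =>
          exact ⟨x, Sym2.mem_mk_left _ _, Finset.mem_union_right _
            (Finset.mem_sym2_iff.1 (p.supp he) x (Sym2.mem_mk_left _ _))⟩
    · intro e he v hv
      rcases Finset.mem_union.1 he with he | he
      · have := o.supp e he v hv
        simp only [Finset.mem_union] at this ⊢
        tauto
      · have := Finset.mem_sym2_iff.1 (p.supp he) v hv
        simp only [Finset.mem_union]
        tauto
    · exact DecA.union (toT o.dec) dL hAL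
    · have : A ∪ L ∪ D = A ∪ (D ∪ L) := by
        rw [Finset.union_assoc, Finset.union_comm L D]
      rw [this]
      exact toT o.abs
  · -- add hexagons and triangles
    obtain ⟨R₁, L₁, p1⟩ := hX.rep k.natAbs S (by omega)
    have ek : (k.natAbs : ℤ) = k := by
      rw [Int.natCast_natAbs, abs_of_pos hk0]
    have c1 := p1.card
    have s1 := Finset.card_union_le S R₁
    obtain ⟨R₂, L₂, p2, dL⟩ := hT.rep k.natAbs (S ∪ R₁) (by omega)
    have c2 := p2.card
    have s2 := Finset.card_union_le (S ∪ R₁) R₂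
    have p1' : Pc E sd B S R₁ L₁ (24 * k.natAbs) (-(6 * k)) := by
      have : -6 * (k.natAbs : ℤ) = -(6 * k) := by rw [ek]; ring
      rw [this] at p1
      exact p1
    obtain ⟨dk, hsub, hd⟩ := dok_union hE hAB hUS hD nl even noAt (by rw [hk]; ring) p1'
    -- absorber for D and the hexagons, outside S, R₁, R₂
    obtain ⟨A₁, T₁, o1⟩ := hZ (U ∪ R₁) (D ∪ L₁) (by
        have := Finset.card_union_le U R₁
        omega) hsub dk (S ∪ R₁ ∪ R₂)
      ((Finset.union_subset_union hUS (Finset.Subset.refl _)).trans Finset.subset_union_left)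
      (by omega)
    have t1 := o1.card
    -- absorber for the hexagons and the triangles
    have nlL1 : NW.NL L₁ := hE.mono p1.sub
    have p2' : Pc E sd B (S ∪ R₁) R₂ L₂ (3 * k.natAbs) (6 * k) := by
      rw [ek] at p2
      exact p2
    obtain ⟨dk2, hsub2, hd2⟩ := dok_union (U := R₁) hE hAB Finset.subset_union_right p1.supp nlL1
      p1.even (by
        intro u hu v hv h
        have h1 := Finset.mem_sym2_iff.1 (p1.supp h) u (Sym2.mem_mk_left _ _)
        exact Finset.disjoint_left.1 p1.disj h1 (Finset.mem_union_right _ (hAB hu)))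
      (by rw [p1'.gam]) p2'
    obtain ⟨A₃, T₃, o3⟩ := hZ (R₁ ∪ R₂) (L₁ ∪ L₂) (by
        have := Finset.card_union_le R₁ R₂
        omega) hsub2 dk2 (S ∪ R₁ ∪ R₂ ∪ T₁) (by
        intro v hv
        simp only [Finset.mem_union] at hv ⊢
        tauto) (by
        have := Finset.card_union_le (S ∪ R₁ ∪ R₂) T₁
        omega)
    have t3 := o3.card
    -- disjointness
    have hA1 : A₁ ⊆ (S ∪ R₁ ∪ R₂ ∪ T₁).sym2 := fun e he =>
      Finset.mem_sym2_iff.2 (o1.supp e he)
    have hL1 : L₁ ⊆ (S ∪ R₁ ∪ R₂).sym2 := p1.supp.trans (sym2_mono' (by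
      intro v hv; simp only [Finset.mem_union]; tauto))
    have hL2 : L₂ ⊆ (S ∪ R₁ ∪ R₂).sym2 := p2.supp.trans (sym2_mono' (by
      intro v hv; simp only [Finset.mem_union]; tauto))
    have hDs : D ⊆ (S ∪ R₁ ∪ R₂).sym2 := hD.trans (sym2_mono' (by
      intro v hv
      have := hUS hv
      simp only [Finset.mem_union]; tauto))
    have hbig : (S ∪ R₁ ∪ R₂).sym2 ⊆ (S ∪ R₁ ∪ R₂ ∪ T₁).sym2 :=
      sym2_mono' Finset.subset_union_left
    have d1L1 : Disjoint A₁ L₁ := disj_new o1 hL1
    have d1L2 : Disjoint A₁ L₂ := disj_new o1 hL2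
    have d1D : Disjoint A₁ D := disj_new o1 hDs
    have d3A1 : Disjoint A₃ A₁ := disj_new o3 hA1
    have d3L1 : Disjoint A₃ L₁ := disj_new o3 (hL1.trans hbig)
    have d3L2 : Disjoint A₃ L₂ := disj_new o3 (hL2.trans hbig)
    have d3D : Disjoint A₃ D := disj_new o3 (hDs.trans hbig)
    have dDL2 : Disjoint D L₂ := by
      refine disj_sym2 ?_ hD p2.supp
      rw [Finset.disjoint_left]
      intro v hv hv'
      exact Finset.disjoint_left.1 p2.disj hv'
        (Finset.mem_union_left _ (Finset.mem_union_left _ (hUS hv)))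
    refine ⟨A₁ ∪ (A₃ ∪ (L₁ ∪ L₂)), T₁ ∪ (T₃ ∪ (R₁ ∪ R₂)), ?_, ?_, ?_, ?_, ?_, ?_, ?_⟩
    · have h1 := Finset.card_union_le T₁ (T₃ ∪ (R₁ ∪ R₂))
      have h2 := Finset.card_union_le T₃ (R₁ ∪ R₂)
      have h3 := Finset.card_union_le R₁ R₂
      omega
    · rw [Finset.disjoint_union_left, Finset.disjoint_union_left, Finset.disjoint_union_left]
      refine ⟨Finset.disjoint_of_subset_right ?_ o1.disj,
        Finset.disjoint_of_subset_right ?_ o3.disj, p1.disj,
        Finset.disjoint_of_subset_right ?_ p2.disj⟩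
      · intro v hv
        simp only [Finset.mem_union] at hv ⊢
        tauto
      · intro v hv
        simp only [Finset.mem_union] at hv ⊢
        tauto
      · intro v hv
        simp only [Finset.mem_union] at hv ⊢
        tauto
    · exact Finset.union_subset o1.sub (Finset.union_subset o3.sub
        (Finset.union_subset p1.sub p2.sub))
    · intro e he
      rcases Finset.mem_union.1 he with he | he
      · obtain ⟨v, hv, hvT⟩ := o1.new e he
        exact ⟨v, hv, Finset.mem_union_left _ hvT⟩
      rcases Finset.mem_union.1 he with he | he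
      · obtain ⟨v, hv, hvT⟩ := o3.new e he
        exact ⟨v, hv, Finset.mem_union_right _ (Finset.mem_union_left _ hvT)⟩
      rcases Finset.mem_union.1 he with he | he
      · induction e using Sym2.ind with
        | _ x y =>
          exact ⟨x, Sym2.mem_mk_left _ _, Finset.mem_union_right _ (Finset.mem_union_right _
            (Finset.mem_union_left _
            (Finset.mem_sym2_iff.1 (p1.supp he) x (Sym2.mem_mk_left _ _))))⟩
      · induction e using Sym2.ind with
        | _ x y =>
          exact ⟨x, Sym2.mem_mk_left _ _, Finset.mem_union_right _ (Finset.mem_union_right _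
            (Finset.mem_union_right _
            (Finset.mem_sym2_iff.1 (p2.supp he) x (Sym2.mem_mk_left _ _))))⟩
    · intro e he v hv
      rcases Finset.mem_union.1 he with he | he
      · have := o1.supp e he v hv
        simp only [Finset.mem_union] at this ⊢
        tauto
      rcases Finset.mem_union.1 he with he | he
      · have := o3.supp e he v hv
        simp only [Finset.mem_union] at this ⊢
        tauto
      rcases Finset.mem_union.1 he with he | he
      · have := Finset.mem_sym2_iff.1 (p1.supp he) v hv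
        simp only [Finset.mem_union]
        tauto
      · have := Finset.mem_sym2_iff.1 (p2.supp he) v hv
        simp only [Finset.mem_union]
        tauto
    · refine DecA.union (toT o1.dec) (toT o3.abs) ?_
      rw [Finset.disjoint_union_right, Finset.disjoint_union_right]
      exact ⟨d3A1.symm, d1L1, d1L2⟩
    · have e1 : A₁ ∪ (A₃ ∪ (L₁ ∪ L₂)) ∪ D = (A₁ ∪ (D ∪ L₁)) ∪ (L₂ ∪ A₃) := by
        ext x
        simp only [Finset.mem_union]
        tauto
      rw [e1]
      refine DecA.union (toT o1.abs) (DecA.union dL (toT o3.dec) d3L2.symm) ?_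
      rw [Finset.disjoint_union_left, Finset.disjoint_union_left, Finset.disjoint_union_right,
        Finset.disjoint_union_right, Finset.disjoint_union_right]
      exact ⟨⟨d1L2, d3A1.symm⟩, ⟨dDL2, d3D.symm⟩, hd2, d3L1.symm⟩

end

end F3.AB
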