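import Pool.Agent.F3.AB.Eng1

/-!
# Block AB, row AB-6: selection of vertices in a world with a cut
-/

set_option autoImplicit false
set_option linter.unusedSectionVars false

namespace F3.AB

open Finset NW F1

variable {V : Type} [Fintype V] [DecidableEq V] {E : Finset (Sym2 V)} {Co : V → V → Prop}
  {sd : V → Bool} {At W B : Finset V} {q : ℕ} {ε σ : ℝ}

/-- choice of a vertex of a large set `P` on one side, outside `S ∪ B`, adjacent to at most four
given typical vertices of the other side -/
theorem sel (h : CX E Co sd At ε σ) (hB : Bd At B q ε σ) (hn : 0 < Fintype.card V)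
    {P : Finset V} (hP : σ * nn V ≤ (P.card : ℝ)) (l : List V) (hl : l.length ≤ 4)
    (hl' : ∀ v ∈ l, v ∉ At ∧ ∀ w ∈ P, sd w ≠ sd v) (S : Finset V) (hS : S.card ≤ q) :
    ∃ w ∈ P, w ∉ S ∧ w ∉ B ∧ ∀ v ∈ l, s(v, w) ∈ E := by
  by_contra hcon
  push Not at hcon
  have hnn : (0 : ℝ) < nn V := by
    unfold nn
    exact_mod_cast hn
  have hsub : P ⊆ (S ∪ B) ∪ l.toFinset.biUnion
      (fun v => univ.filter (fun w => sd w ≠ sd v ∧ s(v, w) ∉ E)) := by
    intro w hw
    by_cases h1 : w ∈ S
    · simp [h1]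
    by_cases h2 : w ∈ B
    · simp [h2]
    obtain ⟨v, hv, hvw⟩ := hcon w hw h1 h2
    refine mem_union_right _ (mem_biUnion.mpr ⟨v, List.mem_toFinset.mpr hv, ?_⟩)
    rw [mem_filter]
    exact ⟨mem_univ _, (hl' v hv).2 w hw, hvw⟩
  have h3 : (P.card : ℝ) ≤ ((S.card + B.card : ℕ) : ℝ) + ((l.toFinset.biUnion
      (fun v => univ.filter (fun w => sd w ≠ sd v ∧ s(v, w) ∉ E))).card : ℝ) := by
    have := (card_le_card hsub).trans (card_union_le _ _)
    have h' := card_union_le S B
    exact_mod_cast this.trans (Nat.add_le_add_right h' _)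
  have h4 : ((l.toFinset.biUnion
      (fun v => univ.filter (fun w => sd w ≠ sd v ∧ s(v, w) ∉ E))).card : ℝ) ≤
      4 * (ε * nn V) := by
    calc ((l.toFinset.biUnion
        (fun v => univ.filter (fun w => sd w ≠ sd v ∧ s(v, w) ∉ E))).card : ℝ)
        ≤ ((∑ v ∈ l.toFinset, (univ.filter (fun w => sd w ≠ sd v ∧ s(v, w) ∉ E)).card : ℕ) : ℝ) := by
          exact_mod_cast card_biUnion_le
      _ = ∑ v ∈ l.toFinset, ((univ.filter (fun w => sd w ≠ sd v ∧ s(v, w) ∉ E)).card : ℝ) := by
          push_cast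
          rfl
      _ ≤ ∑ v ∈ l.toFinset, ε * nn V := by
          refine sum_le_sum fun v hv => ?_
          exact h.miss v (hl' v (List.mem_toFinset.mp hv)).1
      _ = (l.toFinset.card : ℝ) * (ε * nn V) := by
          rw [sum_const, nsmul_eq_mul]
      _ ≤ 4 * (ε * nn V) := by
          have h5 : l.toFinset.card ≤ 4 := (List.toFinset_card_le l).trans hl
          have h6 : (0 : ℝ) ≤ ε * nn V := (mul_pos hB.eps hnn).le
          exact mul_le_mul_of_nonneg_right (by exact_mod_cast h5) h6
  have h7 : (S.card : ℝ) ≤ ε * nn V := by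
    have : (S.card : ℝ) ≤ (q : ℝ) := by exact_mod_cast hS
    exact this.trans hB.q_le
  have h8 := hB.B_card
  have h9 : 40 * ε * nn V ≤ σ * nn V := mul_le_mul_of_nonneg_right hB.sig hnn.le
  have h10 : 0 < ε * nn V := mul_pos hB.eps hnn
  push_cast at h3
  nlinarith

/-- allowed triangles of a world with a cut -/
theorem al_mk (h : CX E Co sd At ε σ) {a b c : V} (hab : a ≠ b) (hs : sd a = sd b)
    (hc : sd c ≠ sd a) (hco : Co a b) : AL (alC Co sd) a b c := by
  have hac : a ≠ c := by
    rintro rfl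
    exact hc rfl
  have hbc : b ≠ c := by
    rintro rfl
    exact hc hs.symm
  have h3 : ({a, b, c} : Finset V).card = 3 := by
    rw [card_eq_three]
    exact ⟨a, b, c, hab, hac, hbc, rfl⟩
  have hca : Co c a := h.cross _ _ hc
  have hcb : Co c b := h.cross _ _ (by rw [← hs]; exact hc)
  have hac' : Co a c := h.symm _ _ hca
  have hbc' : Co b c := h.symm _ _ hcb
  have hba : Co b a := h.symm _ _ hco
  refine ⟨h3, ⟨c, ?_, a, ?_, hc⟩, ?_⟩
  · simp
  · simp
  · intro u hu v hv huv
    simp only [mem_insert, mem_singleton] at hu hv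
    rcases hu with rfl | rfl | rfl <;> rcases hv with rfl | rfl | rfl <;>
      first
        | exact absurd rfl huv
        | assumption

/-- the internal pair of an allowed triangle is a core pair -/
theorem al_core {a b c : V} (h : AL (alC Co sd) a b c) : Co a b := by
  obtain ⟨h3, h1, h2⟩ := h
  have hab : a ≠ b := by
    rintro rfl
    rw [insert_eq_of_mem (mem_insert_self _ _)] at h3
    have := card_le_two (a := a) (b := c)
    omega
  exact h2 a (by simp) b (by simp) hab

theorem cx_refl_aux (h : CX E Co sd At ε σ) (hB : Bd At B q ε σ) {x y : V} (hx : x ∈ W)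
    (hy : y ∈ W) (hs : sd x ≠ sd y) (hAt : y ∉ At) :
    Gd (alC Co sd) E W B q 1 {s(x, y)} {s(x, y)} := by
  intro S hWS hSq
  have hn : 0 < Fintype.card V := Fintype.card_pos_iff.mpr ⟨x⟩
  obtain ⟨w, hwP, hwS, hwB, -⟩ := sel h hB hn (h.mix x y hs hAt) [] (by simp) (by simp) S
    (by omega)
  rw [mem_filter] at hwP
  obtain ⟨-, hwy, hyw, hxw⟩ := hwP
  have hyw' : y ≠ w := by
    rintro rfl
    exact hwS (hWS hy)
  have hxy : x ≠ y := by
    rintro rfl
    exact hs rfl
  have hM : MD (alC Co sd) W (({s(y, w)} + {s(x, w)} : Multiset (Sym2 V)) + {s(x, y)}) := by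
    have h1 : (({s(y, w)} + {s(x, w)} : Multiset (Sym2 V)) + {s(x, y)}) = trim y w x + 0 := by
      unfold trim
      rw [add_zero, Sym2.eq_swap (a := w) (b := x), Sym2.eq_swap (a := y) (b := x)]
    rw [h1]
    exact MD.cons (al_mk h hyw' hwy.symm hs (h.core _ _ hyw)) (fun hh => hwS (hWS hh.2.1)) MD.zero
  refine ⟨{w}, {s(y, w)} + {s(x, w)}, by simp, ?_, ?_, hM, hM⟩
  · rw [disjoint_singleton_left, mem_union]
    rintro (h1 | h1)
    · exact hwS h1
    · exact hwB h1
  · refine ⟨?_, ?_, ?_, ?_⟩
    · rw [Multiset.singleton_add, Multiset.nodup_cons]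
      refine ⟨?_, Multiset.nodup_singleton _⟩
      rw [Multiset.mem_singleton]
      intro h1
      rw [Sym2.eq_iff] at h1
      rcases h1 with h1 | h1
      · exact hxy h1.1.symm
      · exact hyw' h1.1
    · intro e he
      rw [Multiset.mem_add, Multiset.mem_singleton, Multiset.mem_singleton] at he
      rcases he with rfl | rfl
      · exact hyw
      · exact hxw
    · intro e he
      rw [Multiset.mem_add, Multiset.mem_singleton, Multiset.mem_singleton] at he
      refine ⟨w, ?_, mem_singleton_self _⟩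
      rcases he with rfl | rfl <;> simp
    · intro e he v hv
      rw [Multiset.mem_add, Multiset.mem_singleton, Multiset.mem_singleton] at he
      rcases he with rfl | rfl <;>
      · rw [Sym2.mem_iff] at hv
        rcases hv with rfl | rfl
        · first
            | exact mem_union_left _ (hWS hx)
            | exact mem_union_left _ (hWS hy)
        · exact mem_union_right _ (mem_singleton_self _)

/-- trivial gadget -/
theorem cx_refl (h : CX E Co sd At ε σ) (hB : Bd At B q ε σ) {x y : V} (hx : x ∈ W)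
    (hy : y ∈ W) (hs : sd x ≠ sd y) (hAt : x ∉ At ∨ y ∉ At) :
    Gd (alC Co sd) E W B q 1 {s(x, y)} {s(x, y)} := by
  rcases hAt with hAt | hAt
  · rw [Sym2.eq_swap]
    exact cx_refl_aux h hB hy hx hs.symm hAt
  · exact cx_refl_aux h hB hx hy hs hAt

end F3.AB
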