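import Pool.Agent.F3.AB.Sel
import Pool.Agent.F3.AB.Path
import Pool.Agent.F3.AB.Eng2

/-!
# Block AB, row AB-7: switches in a world with a cut
-/

set_option autoImplicit false
set_option linter.unusedSectionVars false

namespace F3.AB

open Finset NW F1

variable {V : Type} [Fintype V] [DecidableEq V] {E : Finset (Sym2 V)} {Co : V → V → Prop}
  {sd : V → Bool} {At W B : Finset V} {q : ℕ} {ε σ : ℝ}

private theorem sw_p1 {al : Tri V → Prop} {a b c : V} (h : AL al a b c) : AL al a c b :=
  h.rot.rot.swap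

private theorem sw_bool {a b c : Bool} (h1 : a ≠ b) (h2 : c ≠ b) : a = c := by
  cases a <;> cases b <;> cases c <;> simp_all

/-- switch from `z` to `t` with at most `c` new vertices -/
private def SwP (al : Tri V → Prop) (E : Finset (Sym2 V)) (W B : Finset V) (q c : ℕ)
    (x y z t : V) : Prop :=
  ∀ S : Finset V, W ⊆ S → z ∈ S → t ∈ S → S.card + c ≤ q →
    ∃ (T : Finset V) (N : Multiset (Sym2 V)), T.card ≤ c ∧ Disjoint T (S ∪ B) ∧ New E S T N ∧
      MD al W (N + ({s(y, z)} + {s(x, z)})) ∧ MD al W (N + ({s(y, t)} + {s(x, t)}))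

private theorem SwP.symm {al : Tri V → Prop} {c : ℕ} {x y z t : V}
    (h : SwP al E W B q c x y z t) : SwP al E W B q c x y t z := by
  intro S hW hz ht hS
  obtain ⟨T, N, h1, h2, h3, h4, h5⟩ := h S hW ht hz hS
  exact ⟨T, N, h1, h2, h3, h5, h4⟩

private theorem SwP.swap {al : Tri V → Prop} {c : ℕ} {x y z t : V}
    (h : SwP al E W B q c x y z t) : SwP al E W B q c y x z t := by
  intro S hW hz ht hS
  obtain ⟨T, N, h1, h2, h3, h4, h5⟩ := h S hW hz ht hS
  refine ⟨T, N, h1, h2, h3, ?_, ?_⟩
  · rw [add_comm {s(x, z)}]; exact h4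
  · rw [add_comm {s(x, t)}]; exact h5

private theorem SwP.mono {al : Tri V → Prop} {c c' : ℕ} {x y z t : V}
    (h : SwP al E W B q c x y z t) (hc : c ≤ c') : SwP al E W B q c' x y z t := by
  intro S hW hz ht hS
  obtain ⟨T, N, h1, h2⟩ := h S hW hz ht (by omega)
  exact ⟨T, N, h1.trans hc, h2⟩

/-- through a third apex -/
private theorem SwP.trans {al : Tri V → Prop} {c c' : ℕ} {x y z t : V} (hx : x ∈ W) (hy : y ∈ W)
    (hu : ∀ S : Finset V, S.card ≤ q → ∃ u, u ∉ S ∧ u ∉ B ∧ s(x, u) ∈ E ∧ s(y, u) ∈ E ∧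
      x ≠ y ∧ SwP al E W B q c x y z u ∧ SwP al E W B q c' x y u t) :
    SwP al E W B q (1 + c + c') x y z t := by
  intro S hW hz ht hS
  obtain ⟨u, huS, huB, hxu, hyu, hxy, h1, h2⟩ := hu S (by omega)
  have hc1 : (insert u S).card ≤ S.card + 1 := Finset.card_insert_le _ _
  obtain ⟨T₁, N₁, a1, a2, a3, a4, a5⟩ := h1 (insert u S) (hW.trans (Finset.subset_insert _ _))
    (Finset.mem_insert_of_mem hz) (Finset.mem_insert_self _ _) (by omega)
  have hc2 : (insert u S ∪ T₁).card ≤ (insert u S).card + T₁.card := Finset.card_union_le _ _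
  obtain ⟨T₂, N₂, b1, b2, b3, b4, b5⟩ := h2 (insert u S ∪ T₁)
    ((hW.trans (Finset.subset_insert _ _)).trans Finset.subset_union_left)
    (mem_union_left _ (Finset.mem_insert_self _ _))
    (mem_union_left _ (Finset.mem_insert_of_mem ht)) (by omega)
  have hxS : x ∈ S := hW hx
  have hyS : y ∈ S := hW hy
  rw [Finset.disjoint_left] at a2 b2
  have huT₁ : u ∉ T₁ := fun h => a2 h (mem_union_left _ (Finset.mem_insert_self _ _))
  -- the edges at `u`
  have hX : ∀ e ∈ ({s(y, u)} + {s(x, u)} : Multiset (Sym2 V)), e = s(y, u) ∨ e = s(x, u) := by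
    intro e he
    rcases Multiset.mem_add.1 he with h | h
    · exact Or.inl (Multiset.mem_singleton.1 h)
    · exact Or.inr (Multiset.mem_singleton.1 h)
  refine ⟨insert u (T₁ ∪ T₂), N₁ + (N₂ + ({s(y, u)} + {s(x, u)})), ?_, ?_, ⟨?_, ?_, ?_, ?_⟩,
    ?_, ?_⟩
  · have h3 := Finset.card_insert_le u (T₁ ∪ T₂)
    have h4 := Finset.card_union_le T₁ T₂
    omega
  · rw [Finset.disjoint_left]
    intro i hi hi'
    rcases Finset.mem_insert.1 hi with rfl | hi
    · rcases mem_union.1 hi' with h | h
      · exact huS h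
      · exact huB h
    · rcases mem_union.1 hi with hi | hi
      · apply a2 hi
        rcases mem_union.1 hi' with h | h
        · exact mem_union_left _ (Finset.mem_insert_of_mem h)
        · exact mem_union_right _ h
      · apply b2 hi
        rcases mem_union.1 hi' with h | h
        · exact mem_union_left _ (mem_union_left _ (Finset.mem_insert_of_mem h))
        · exact mem_union_right _ h
  · rw [Multiset.nodup_add, Multiset.nodup_add, Multiset.nodup_add]
    refine ⟨a3.nd, ⟨b3.nd, ⟨Multiset.nodup_singleton _, Multiset.nodup_singleton _, ?_⟩, ?_⟩, ?_⟩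
    · rw [Multiset.disjoint_left]
      intro e he he'
      rw [Multiset.mem_singleton] at he he'
      rw [he] at he'
      rcases Sym2.eq_iff.1 he' with h | h
      · exact hxy h.1.symm
      · apply huS
        rw [← h.1]
        exact hyS
    · rw [Multiset.disjoint_left]
      intro e he he'
      obtain ⟨v, hve, hvT⟩ := b3.new e he
      apply b2 hvT
      apply mem_union_left
      rcases hX e he' with rfl | rfl
      · rcases Sym2.mem_iff.1 hve with rfl | rfl
        · exact mem_union_left _ (Finset.mem_insert_of_mem hyS)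
        · exact mem_union_left _ (Finset.mem_insert_self _ _)
      · rcases Sym2.mem_iff.1 hve with rfl | rfl
        · exact mem_union_left _ (Finset.mem_insert_of_mem hxS)
        · exact mem_union_left _ (Finset.mem_insert_self _ _)
    · rw [Multiset.disjoint_left]
      intro e he he'
      rcases Multiset.mem_add.1 he' with he' | he'
      · obtain ⟨v, hve, hvT⟩ := b3.new e he'
        apply b2 hvT
        apply mem_union_left
        exact a3.supp e he v hve
      · obtain ⟨v, hve, hvT⟩ := a3.new e he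
        apply a2 hvT
        apply mem_union_left
        rcases hX e he' with rfl | rfl
        · rcases Sym2.mem_iff.1 hve with rfl | rfl
          · exact Finset.mem_insert_of_mem hyS
          · exact Finset.mem_insert_self _ _
        · rcases Sym2.mem_iff.1 hve with rfl | rfl
          · exact Finset.mem_insert_of_mem hxS
          · exact Finset.mem_insert_self _ _
  · intro e he
    rcases Multiset.mem_add.1 he with he | he
    · exact a3.sub e he
    rcases Multiset.mem_add.1 he with he | he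
    · exact b3.sub e he
    · rcases hX e he with rfl | rfl
      · exact hyu
      · exact hxu
  · intro e he
    rcases Multiset.mem_add.1 he with he | he
    · obtain ⟨v, hve, hvT⟩ := a3.new e he
      exact ⟨v, hve, Finset.mem_insert_of_mem (mem_union_left _ hvT)⟩
    rcases Multiset.mem_add.1 he with he | he
    · obtain ⟨v, hve, hvT⟩ := b3.new e he
      exact ⟨v, hve, Finset.mem_insert_of_mem (mem_union_right _ hvT)⟩
    · rcases hX e he with rfl | rfl
      · exact ⟨u, Sym2.mem_mk_right _ _, Finset.mem_insert_self _ _⟩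
      · exact ⟨u, Sym2.mem_mk_right _ _, Finset.mem_insert_self _ _⟩
  · have hmem : ∀ v, v ∈ S ∨ v = u ∨ v ∈ T₁ ∨ v ∈ T₂ → v ∈ S ∪ insert u (T₁ ∪ T₂) := by
      rintro v (h | rfl | h | h)
      · exact mem_union_left _ h
      · exact mem_union_right _ (Finset.mem_insert_self _ _)
      · exact mem_union_right _ (Finset.mem_insert_of_mem (mem_union_left _ h))
      · exact mem_union_right _ (Finset.mem_insert_of_mem (mem_union_right _ h))
    intro e he v hv
    rcases Multiset.mem_add.1 he with he | he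
    · rcases mem_union.1 (a3.supp e he v hv) with h | h
      · rcases Finset.mem_insert.1 h with h | h
        · exact hmem v (Or.inr (Or.inl h))
        · exact hmem v (Or.inl h)
      · exact hmem v (Or.inr (Or.inr (Or.inl h)))
    rcases Multiset.mem_add.1 he with he | he
    · rcases mem_union.1 (b3.supp e he v hv) with h | h
      · rcases mem_union.1 h with h | h
        · rcases Finset.mem_insert.1 h with h | h
          · exact hmem v (Or.inr (Or.inl h))
          · exact hmem v (Or.inl h)
        · exact hmem v (Or.inr (Or.inr (Or.inl h)))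
      · exact hmem v (Or.inr (Or.inr (Or.inr h)))
    · rcases hX e he with rfl | rfl
      · rcases Sym2.mem_iff.1 hv with h | h
        · exact hmem v (Or.inl (h ▸ hyS))
        · exact hmem v (Or.inr (Or.inl h))
      · rcases Sym2.mem_iff.1 hv with h | h
        · exact hmem v (Or.inl (h ▸ hxS))
        · exact hmem v (Or.inr (Or.inl h))
  · have h3 := a4.add b4
    convert h3 using 1
    abel
  · have h3 := a5.add b5
    convert h3 using 1
    abel

/-- apexes on different sides: `z` on the side of `x`, `t` on the side of `y` -/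
private theorem sw_core (h : CX E Co sd At ε σ) (hB : Bd At B q ε σ) {x y z t : V} (hx : x ∈ W)
    (hy : y ∈ W) (hs : sd x ≠ sd y) (hzs : sd z = sd x) (hts : sd t = sd y) (hzx : z ≠ x)
    (hty : t ≠ y) (hzB : z ∉ B) (htB : t ∉ B) (hz : Co z x) (ht : Co t y) :
    SwP (alC Co sd) E W B q 2 x y z t := by
  intro S hW hzS htS hS
  have hn : 0 < Fintype.card V := Fintype.card_pos_iff.2 ⟨x⟩
  have hxS : x ∈ S := hW hx
  have hyS : y ∈ S := hW hy
  have hzA : z ∉ At := fun h' => hzB (hB.At_sub h')
  have htA : t ∉ At := fun h' => htB (hB.At_sub h')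
  -- the vertex `b`
  have hmb := h.mix x t (by rw [hts]; exact hs) htA
  obtain ⟨b, hbP, hbS, hbB, hbl⟩ := sel h hB hn hmb [z] (by simp) (by
    intro v hv
    rw [List.mem_singleton] at hv
    subst hv
    refine ⟨hzA, fun w hw => ?_⟩
    rw [(mem_filter.1 hw).2.1, hts, hzs]
    exact hs.symm) S (by omega)
  obtain ⟨-, hbs, htb, hxb⟩ := mem_filter.1 hbP
  have hzb : s(z, b) ∈ E := hbl z List.mem_cons_self
  have hbA : b ∉ At := fun h' => hbB (hB.At_sub h')
  -- the vertex `a`
  have hma := h.mix y z (by rw [hzs]; exact hs.symm) hzA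
  have hcS : (insert b S).card ≤ q := by
    have := Finset.card_insert_le b S
    omega
  obtain ⟨a, haP, haS, haB, hal⟩ := sel h hB hn hma [t, b] (by simp) (by
    intro v hv
    have hv' : v = t ∨ v = b := by simpa using hv
    rcases hv' with rfl | rfl
    · refine ⟨htA, fun w hw => ?_⟩
      rw [(mem_filter.1 hw).2.1, hts, hzs]
      exact hs
    · refine ⟨hbA, fun w hw => ?_⟩
      rw [(mem_filter.1 hw).2.1, hbs, hts, hzs]
      exact hs) (insert b S) hcS
  obtain ⟨-, has, hza, hya⟩ := mem_filter.1 haP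
  have hta : s(t, a) ∈ E := hal t List.mem_cons_self
  have hba : s(b, a) ∈ E := hal b (List.mem_cons_of_mem _ List.mem_cons_self)
  rw [Finset.mem_insert, not_or] at haS
  have hzb' : z ≠ b := fun h' => hbS (h' ▸ hzS)
  have htb' : t ≠ b := fun h' => hbS (h' ▸ htS)
  have hza' : z ≠ a := fun h' => haS.2 (h' ▸ hzS)
  have hta' : t ≠ a := fun h' => haS.2 (h' ▸ htS)
  have hsb : sd b ≠ sd z := by rw [hbs, hts, hzs]; exact hs.symm
  have hsa : sd a ≠ sd t := by rw [has, hts, hzs]; exact hs
  have hzt : z ≠ t := fun h' => hs (by rw [← hzs, ← hts, h'])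
  have hxy : x ≠ y := fun h' => hs (by rw [h'])
  have hzy : z ≠ y := fun h' => hs (by rw [← hzs, h'])
  have htx : t ≠ x := fun h' => hs (by rw [← hts, h'])
  have hP : GPath (alC Co sd) E S B z t x y [b, a] := by
    refine ⟨?_, ?_, ?_, ?_, ?_, ?_⟩
    · rw [List.nodup_cons, List.mem_singleton]
      exact ⟨fun h' => haS.1 h'.symm, List.nodup_singleton _⟩
    · intro i hi
      have hi' : i = b ∨ i = a := by simpa using hi
      rcases hi' with rfl | rfl
      · exact ⟨hbS, hbB⟩
      · exact ⟨haS.2, haB⟩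
    · intro e he
      have he' : e = s(x, b) ∨ e = s(b, a) ∨ e = s(a, y) := by
        rw [pth, pth, pth, Multiset.mem_add, Multiset.mem_add, Multiset.mem_singleton,
          Multiset.mem_singleton, Multiset.mem_singleton] at he
        exact he
      rcases he' with rfl | rfl | rfl
      · exact hxb
      · exact hba
      · rw [Sym2.eq_swap]
        exact hya
    · intro i hi
      have hi' : i = b ∨ i = a := by simpa using hi
      rcases hi' with rfl | rfl
      · exact ⟨hzb, htb⟩
      · exact ⟨hza, hta⟩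
    · refine ⟨?_, ?_, ?_⟩
      · exact al_mk h hzx hzs hsb hz
      · exact sw_p1 (al_mk h hza' has.symm hsb (h.core _ _ hza))
      · refine al_mk h hza' has.symm ?_ (h.core _ _ hza)
        rw [hzs]
        exact hs.symm
    · refine ⟨?_, ?_, ?_⟩
      · refine sw_p1 (al_mk h htb' hbs.symm ?_ (h.core _ _ htb))
        rw [hts]
        exact hs
      · exact al_mk h htb' hbs.symm hsa (h.core _ _ htb)
      · exact sw_p1 (al_mk h hty hts hsa ht)
  obtain ⟨T, N, k1, k2, k3, k4, k5⟩ := K_out hP (by simp) (by simp) hW hzS htS hxS hyS hzt hxy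
    hzx hzy htx hty
  refine ⟨T, N, ?_, k2, k3, ?_, ?_⟩
  · simpa using k1
  · rw [add_comm {s(y, z)}, Sym2.eq_swap (a := x), Sym2.eq_swap (a := y)]
    exact k4
  · rw [add_comm {s(y, t)}, Sym2.eq_swap (a := x), Sym2.eq_swap (a := y)]
    exact k5

/-- an apex on the side of `y` -/
private theorem sw_apex (h : CX E Co sd At ε σ) (hB : Bd At B q ε σ) {x y : V}
    (hs : sd x ≠ sd y) (hAt : x ∉ At ∨ y ∉ At) (S : Finset V) (hS : S.card ≤ q) :
    ∃ u, u ∉ S ∧ u ∉ B ∧ s(x, u) ∈ E ∧ s(y, u) ∈ E ∧ sd u = sd y := by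
  have hn : 0 < Fintype.card V := Fintype.card_pos_iff.2 ⟨x⟩
  by_cases hy : y ∈ At
  · have hx : x ∉ At := hAt.resolve_right (not_not.2 hy)
    obtain ⟨u, hu, h1, h2, h3⟩ := sel h hB hn (h.int y) [x] (by simp) (by
      intro v hv
      rw [List.mem_singleton] at hv
      subst hv
      refine ⟨hx, fun w hw => ?_⟩
      rw [(mem_filter.1 hw).2.1]
      exact hs.symm) S hS
    exact ⟨u, h1, h2, h3 x List.mem_cons_self, (mem_filter.1 hu).2.2, (mem_filter.1 hu).2.1⟩
  · obtain ⟨u, hu, h1, h2, -⟩ := sel h hB hn (h.mix x y hs hy) [] (by simp) (by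
      intro v hv
      simp at hv) S hS
    exact ⟨u, h1, h2, (mem_filter.1 hu).2.2.2, (mem_filter.1 hu).2.2.1, (mem_filter.1 hu).2.1⟩

/-- both apexes on the side of `x` -/
private theorem sw_same (h : CX E Co sd At ε σ) (hB : Bd At B q ε σ) {x y z t : V} (hx : x ∈ W)
    (hy : y ∈ W) (hs : sd x ≠ sd y) (hAt : x ∉ At ∨ y ∉ At) (hzs : sd z = sd x)
    (hts : sd t = sd x) (hzx : z ≠ x) (htx : t ≠ x) (hzB : z ∉ B) (htB : t ∉ B) (hz : Co z x)
    (ht : Co t x) : SwP (alC Co sd) E W B q 5 x y z t := by
  have hxy : x ≠ y := fun h' => hs (by rw [h'])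
  refine (SwP.trans (c := 2) (c' := 2) hx hy fun S hS => ?_)
  obtain ⟨u, h1, h2, h3, h4, h5⟩ := sw_apex h hB hs hAt (insert y S ∩ S) (by
    have := Finset.card_le_card (Finset.inter_subset_right (s₁ := insert y S) (s₂ := S))
    omega)
  have h1' : u ∉ S := fun h' => h1 (mem_inter.2 ⟨Finset.mem_insert_of_mem h', h'⟩)
  have huy : u ≠ y := by
    rintro rfl
    exact h.nl _ h4 (Sym2.mk_isDiag_iff.2 rfl)
  have hcu : Co u y := h.symm _ _ (h.core _ _ h4)
  exact ⟨u, h1', h2, h3, h4, hxy,
    sw_core h hB hx hy hs hzs h5 hzx huy hzB h2 hz hcu,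
    (sw_core h hB hx hy hs hts h5 htx huy htB h2 ht hcu).symm⟩

theorem cx_sw (h : CX E Co sd At ε σ) (hB : Bd At B q ε σ) {x y : V} (hx : x ∈ W)
    (hy : y ∈ W) (hs : sd x ≠ sd y) (hAt : x ∉ At ∨ y ∉ At) :
    Sw (alC Co sd) E W B q 5 x y := by
  intro z t _ _ _ hzB htB _ _ _ _ haz hat
  have nz := haz.ne
  have nt := hat.ne
  have czx : Co z x := al_core haz.rot.rot
  have czy : Co z y := h.symm _ _ (al_core haz.rot)
  have ctx : Co t x := al_core hat.rot.rot
  have cty : Co t y := h.symm _ _ (al_core hat.rot)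
  change SwP (alC Co sd) E W B q 5 x y z t
  by_cases hzs : sd z = sd x
  · by_cases hts : sd t = sd x
    · exact sw_same h hB hx hy hs hAt hzs hts nz.2.2.symm nt.2.2.symm hzB htB czx ctx
    · have hts' : sd t = sd y := sw_bool hts hs.symm
      exact (sw_core h hB hx hy hs hzs hts' nz.2.2.symm nt.2.1.symm hzB htB czx cty).mono
        (by omega)
  · have hzs' : sd z = sd y := sw_bool hzs hs.symm
    by_cases hts : sd t = sd x
    · exact ((sw_core h hB hx hy hs hts hzs' nt.2.2.symm nz.2.1.symm htB hzB ctx czy).mono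
        (by omega)).symm
    · have hts' : sd t = sd y := sw_bool hts hs.symm
      exact (sw_same h hB hy hx hs.symm hAt.symm hzs' hts' nz.2.1.symm nt.2.1.symm hzB htB
        czy cty).swap

theorem cx_vp (h : CX E Co sd At ε σ) (hB : Bd At B q ε σ) {x y : V} (hx : x ∈ W)
    (hy : y ∈ W) (hs : sd x ≠ sd y) (hAt : x ∉ At ∨ y ∉ At) :
    VP (alC Co sd) E W B q 5 s(x, y) := by
  refine ⟨?_, ?_, ?_, cx_refl h hB hx hy hs hAt⟩
  · intro hd
    exact hs (by rw [Sym2.mk_isDiag_iff.1 hd])
  · intro v hv
    rcases Sym2.mem_iff.1 hv with rfl | rfl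
    · exact hx
    · exact hy
  · intro x' y' he
    rcases Sym2.eq_iff.1 he with ⟨rfl, rfl⟩ | ⟨rfl, rfl⟩
    · exact cx_sw h hB hx hy hs hAt
    · exact cx_sw h hB hy hx hs.symm hAt.symm

end F3.AB
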