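import Pool.Agent.F3.AB.NxB

/-!
# Block AB, row AB-11: absorbers in world N
-/

set_option autoImplicit false
set_option linter.unusedSectionVars false

namespace F3.AB

theorem abN : ABNStatement := abn

end F3.AB
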