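import Pool.Agent.F3.AB.Defs

/-!
# Block AB, row AB-N1 (world N): walks of length five, paths with four inner vertices
-/

set_option autoImplicit false
set_option linter.unusedSectionVars false

namespace F3.AB

open Finset NW F1

section walk

variable {V : Type} [Fintype V] [DecidableEq V]

/-! ### counting quadruples -/

theorem wn_count (P : V × V × V × V → Prop) [DecidablePred P] :
    (univ.filter P).card = ∑ a : V, ∑ b : V, ∑ c : V, ∑ d : V, if P (a, b, c, d) then 1 else 0 := by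
  rw [Finset.card_filter, Fintype.sum_prod_type]
  refine Finset.sum_congr rfl fun a _ => ?_
  rw [Fintype.sum_prod_type]
  refine Finset.sum_congr rfl fun b _ => ?_
  rw [Fintype.sum_prod_type]

theorem wn_ind (X : Finset V) : (∑ a : V, if a ∈ X then 1 else 0) = X.card := by
  rw [← Finset.card_filter]
  congr 1
  ext a
  simp

theorem wn_sum3 (f : V → V → V → ℕ) (k : ℕ) (h : ∀ a b c, f a b c ≤ k) :
    ∑ a : V, ∑ b : V, ∑ c : V, f a b c ≤ Fintype.card V ^ 3 * k := by
  calc ∑ a : V, ∑ b : V, ∑ c : V, f a b c ≤ ∑ _a : V, ∑ _b : V, ∑ _c : V, k :=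
        Finset.sum_le_sum fun a _ => Finset.sum_le_sum fun b _ => Finset.sum_le_sum fun c _ =>
          h a b c
    _ = Fintype.card V ^ 3 * k := by
        simp only [Finset.sum_const, Finset.card_univ, smul_eq_mul]
        ring

/-- restriction of the first vertex -/
theorem wn_c1 (X : V → V → V → Finset V) (k : ℕ) (h : ∀ b c d, (X b c d).card ≤ k) :
    (univ.filter (fun w : V × V × V × V => w.1 ∈ X w.2.1 w.2.2.1 w.2.2.2)).card ≤
      Fintype.card V ^ 3 * k := by
  rw [wn_count]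
  have h1 : (∑ a : V, ∑ b : V, ∑ c : V, ∑ d : V, if a ∈ X b c d then 1 else 0) =
      ∑ b : V, ∑ c : V, ∑ d : V, (X b c d).card := by
    rw [Finset.sum_comm]
    refine Finset.sum_congr rfl fun b _ => ?_
    rw [Finset.sum_comm]
    refine Finset.sum_congr rfl fun c _ => ?_
    rw [Finset.sum_comm]
    refine Finset.sum_congr rfl fun d _ => ?_
    exact wn_ind _
  show (∑ a : V, ∑ b : V, ∑ c : V, ∑ d : V, if a ∈ X b c d then 1 else 0) ≤ _
  rw [h1]
  exact wn_sum3 _ k h

theorem wn_c2 (X : V → V → V → Finset V) (k : ℕ) (h : ∀ a c d, (X a c d).card ≤ k) :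
    (univ.filter (fun w : V × V × V × V => w.2.1 ∈ X w.1 w.2.2.1 w.2.2.2)).card ≤
      Fintype.card V ^ 3 * k := by
  rw [wn_count]
  have h1 : (∑ a : V, ∑ b : V, ∑ c : V, ∑ d : V, if b ∈ X a c d then 1 else 0) =
      ∑ a : V, ∑ c : V, ∑ d : V, (X a c d).card := by
    refine Finset.sum_congr rfl fun a _ => ?_
    rw [Finset.sum_comm]
    refine Finset.sum_congr rfl fun c _ => ?_
    rw [Finset.sum_comm]
    refine Finset.sum_congr rfl fun d _ => ?_
    exact wn_ind _
  show (∑ a : V, ∑ b : V, ∑ c : V, ∑ d : V, if b ∈ X a c d then 1 else 0) ≤ _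
  rw [h1]
  exact wn_sum3 _ k h

theorem wn_c3 (X : V → V → V → Finset V) (k : ℕ) (h : ∀ a b d, (X a b d).card ≤ k) :
    (univ.filter (fun w : V × V × V × V => w.2.2.1 ∈ X w.1 w.2.1 w.2.2.2)).card ≤
      Fintype.card V ^ 3 * k := by
  rw [wn_count]
  have h1 : (∑ a : V, ∑ b : V, ∑ c : V, ∑ d : V, if c ∈ X a b d then 1 else 0) =
      ∑ a : V, ∑ b : V, ∑ d : V, (X a b d).card := by
    refine Finset.sum_congr rfl fun a _ => ?_
    refine Finset.sum_congr rfl fun b _ => ?_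
    rw [Finset.sum_comm]
    refine Finset.sum_congr rfl fun d _ => ?_
    exact wn_ind _
  show (∑ a : V, ∑ b : V, ∑ c : V, ∑ d : V, if c ∈ X a b d then 1 else 0) ≤ _
  rw [h1]
  exact wn_sum3 _ k h

theorem wn_c4 (X : V → V → V → Finset V) (k : ℕ) (h : ∀ a b c, (X a b c).card ≤ k) :
    (univ.filter (fun w : V × V × V × V => w.2.2.2 ∈ X w.1 w.2.1 w.2.2.1)).card ≤
      Fintype.card V ^ 3 * k := by
  rw [wn_count]
  have h1 : (∑ a : V, ∑ b : V, ∑ c : V, ∑ d : V, if d ∈ X a b c then 1 else 0) =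
      ∑ a : V, ∑ b : V, ∑ c : V, (X a b c).card := by
    refine Finset.sum_congr rfl fun a _ => ?_
    refine Finset.sum_congr rfl fun b _ => ?_
    refine Finset.sum_congr rfl fun c _ => ?_
    exact wn_ind _
  show (∑ a : V, ∑ b : V, ∑ c : V, ∑ d : V, if d ∈ X a b c then 1 else 0) ≤ _
  rw [h1]
  exact wn_sum3 _ k h

theorem wn_mem {E : Finset (Sym2 V)} {W : Finset V} {y z a b c d : V} :
    (a, b, c, d) ∈ walks5 E W y z ↔ (a ∈ W ∧ b ∈ W ∧ c ∈ W ∧ d ∈ W) ∧ s(y, a) ∈ E ∧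
      s(a, b) ∈ E ∧ s(b, c) ∈ E ∧ s(c, d) ∈ E ∧ s(d, z) ∈ E := by
  unfold walks5
  rw [Finset.mem_filter]
  simp only [Finset.mem_product]

/-- many walks give a path which avoids a given small set -/
theorem wn_path {E : Finset (Sym2 V)} (hE : NW.NL E) {W X : Finset V} {y z : V}
    (h : Fintype.card V ^ 3 * (4 * X.card + 3) < (walks5 E W y z).card) :
    ∃ a b c d : V, [a, b, c, d].Nodup ∧ (a ∈ W ∧ b ∈ W ∧ c ∈ W ∧ d ∈ W) ∧
      (a ∉ X ∧ b ∉ X ∧ c ∉ X ∧ d ∉ X) ∧ s(y, a) ∈ E ∧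
      s(a, b) ∈ E ∧ s(b, c) ∈ E ∧ s(c, d) ∈ E ∧ s(d, z) ∈ E := by
  by_contra hcon
  have hsub : walks5 E W y z ⊆
      ((((((univ.filter (fun w : V × V × V × V => w.1 ∈ X)) ∪
        (univ.filter (fun w : V × V × V × V => w.2.1 ∈ X))) ∪
        (univ.filter (fun w : V × V × V × V => w.2.2.1 ∈ X))) ∪
        (univ.filter (fun w : V × V × V × V => w.2.2.2 ∈ X))) ∪
        (univ.filter (fun w : V × V × V × V => w.2.2.1 ∈ ({w.1} : Finset V)))) ∪
        (univ.filter (fun w : V × V × V × V => w.2.2.2 ∈ ({w.1} : Finset V)))) ∪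
        (univ.filter (fun w : V × V × V × V => w.2.2.2 ∈ ({w.2.1} : Finset V))) := by
    rintro ⟨a, b, c, d⟩ hw
    rw [wn_mem] at hw
    obtain ⟨hW, e1, e2, e3, e4, e5⟩ := hw
    by_contra hn
    simp only [Finset.mem_union, Finset.mem_filter, Finset.mem_univ, true_and,
      Finset.mem_singleton, not_or] at hn
    obtain ⟨⟨⟨⟨⟨⟨n1, n2⟩, n3⟩, n4⟩, n5⟩, n6⟩, n7⟩ := hn
    have m1 : a ≠ b := fun h => hE _ e2 (by rw [h]; simp)
    have m2 : b ≠ c := fun h => hE _ e3 (by rw [h]; simp)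
    have m3 : c ≠ d := fun h => hE _ e4 (by rw [h]; simp)
    refine hcon ⟨a, b, c, d, ?_, hW, ⟨n1, n2, n3, n4⟩, e1, e2, e3, e4, e5⟩
    simp only [List.nodup_cons, List.mem_cons, List.not_mem_nil, or_false, not_or,
      not_false_eq_true, List.nodup_nil, and_true]
    exact ⟨⟨m1, Ne.symm n5, Ne.symm n6⟩, ⟨m2, Ne.symm n7⟩, m3⟩
  have h1 := wn_c1 (fun _ _ _ => X) X.card (fun _ _ _ => le_rfl)
  have h2 := wn_c2 (fun _ _ _ => X) X.card (fun _ _ _ => le_rfl)
  have h3 := wn_c3 (fun _ _ _ => X) X.card (fun _ _ _ => le_rfl)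
  have h4 := wn_c4 (fun _ _ _ => X) X.card (fun _ _ _ => le_rfl)
  have h5 := wn_c3 (fun a _ _ => ({a} : Finset V)) 1 (fun _ _ _ => by simp)
  have h6 := wn_c4 (fun a _ _ => ({a} : Finset V)) 1 (fun _ _ _ => by simp)
  have h7 := wn_c4 (fun _ b _ => ({b} : Finset V)) 1 (fun _ _ _ => by simp)
  have h8 := Finset.card_le_card hsub
  refine absurd h (not_lt.2 (h8.trans ?_))
  refine (Finset.card_union_le _ _).trans ?_
  refine (Nat.add_le_add_right (Finset.card_union_le _ _) _).trans ?_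
  refine (Nat.add_le_add_right (Nat.add_le_add_right (Finset.card_union_le _ _) _) _).trans ?_
  refine (Nat.add_le_add_right (Nat.add_le_add_right (Nat.add_le_add_right
    (Finset.card_union_le _ _) _) _) _).trans ?_
  refine (Nat.add_le_add_right (Nat.add_le_add_right (Nat.add_le_add_right (Nat.add_le_add_right
    (Finset.card_union_le _ _) _) _) _) _).trans ?_
  refine (Nat.add_le_add_right (Nat.add_le_add_right (Nat.add_le_add_right (Nat.add_le_add_right
    (Nat.add_le_add_right (Finset.card_union_le _ _) _) _) _) _) _).trans ?_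
  have h9 : Fintype.card V ^ 3 * (4 * X.card + 3) = Fintype.card V ^ 3 * X.card +
      Fintype.card V ^ 3 * X.card + Fintype.card V ^ 3 * X.card + Fintype.card V ^ 3 * X.card +
      Fintype.card V ^ 3 * 1 + Fintype.card V ^ 3 * 1 + Fintype.card V ^ 3 * 1 := by ring
  rw [h9]
  omega

/-- deletion of a graph `Z` of maximum degree at most `k` and of vertices -/
theorem wn_del {H E Z : Finset (Sym2 V)} {W W' : Finset V} {y z : V} {k l : ℕ}
    (hE : ∀ e ∈ H, e ∉ Z → e ∈ E) (hZ : ∀ v, NW.deg Z v ≤ k) (hW : (W \ W').card ≤ l) :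
    (walks5 H W y z).card ≤ (walks5 E W' y z).card + Fintype.card V ^ 3 * (4 * l + 5 * k) := by
  have hsub : walks5 H W y z ⊆ walks5 E W' y z ∪
      (((((((((univ.filter (fun w : V × V × V × V => w.1 ∈ W \ W')) ∪
        (univ.filter (fun w : V × V × V × V => w.2.1 ∈ W \ W'))) ∪
        (univ.filter (fun w : V × V × V × V => w.2.2.1 ∈ W \ W'))) ∪
        (univ.filter (fun w : V × V × V × V => w.2.2.2 ∈ W \ W'))) ∪
        (univ.filter (fun w : V × V × V × V => w.1 ∈ nbr Z y))) ∪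
        (univ.filter (fun w : V × V × V × V => w.2.1 ∈ nbr Z w.1))) ∪
        (univ.filter (fun w : V × V × V × V => w.2.2.1 ∈ nbr Z w.2.1))) ∪
        (univ.filter (fun w : V × V × V × V => w.2.2.2 ∈ nbr Z w.2.2.1))) ∪
        (univ.filter (fun w : V × V × V × V => w.2.2.2 ∈ nbr Z z))) := by
    rintro ⟨a, b, c, d⟩ hw
    rw [wn_mem] at hw
    obtain ⟨hW, e1, e2, e3, e4, e5⟩ := hw
    rw [Finset.mem_union]
    by_contra hn
    simp only [not_or, Finset.mem_union, Finset.mem_filter, Finset.mem_univ, true_and,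
      Finset.mem_sdiff, not_and, not_not, nbr] at hn
    obtain ⟨n0, ⟨⟨⟨⟨⟨⟨⟨n1, n2⟩, n3⟩, n4⟩, n5⟩, n6⟩, n7⟩, n8⟩, n9⟩ := hn
    apply n0
    rw [wn_mem]
    exact ⟨⟨n1 hW.1, n2 hW.2.1, n3 hW.2.2.1, n4 hW.2.2.2⟩, hE _ e1 n5, hE _ e2 n6, hE _ e3 n7,
      hE _ e4 n8, hE _ e5 (by rw [Sym2.eq_swap]; exact n9)⟩
  have h1 := wn_c1 (fun _ _ _ => W \ W') l (fun _ _ _ => hW)
  have h2 := wn_c2 (fun _ _ _ => W \ W') l (fun _ _ _ => hW)
  have h3 := wn_c3 (fun _ _ _ => W \ W') l (fun _ _ _ => hW)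
  have h4 := wn_c4 (fun _ _ _ => W \ W') l (fun _ _ _ => hW)
  have h5 := wn_c1 (fun _ _ _ => nbr Z y) k (fun _ _ _ => hZ y)
  have h6 := wn_c2 (fun a _ _ => nbr Z a) k (fun a _ _ => hZ a)
  have h7 := wn_c3 (fun _ b _ => nbr Z b) k (fun _ b _ => hZ b)
  have h8 := wn_c4 (fun _ _ c => nbr Z c) k (fun _ _ c => hZ c)
  have h9 := wn_c4 (fun _ _ _ => nbr Z z) k (fun _ _ _ => hZ z)
  refine (Finset.card_le_card hsub).trans ?_
  refine (Finset.card_union_le _ _).trans (Nat.add_le_add_left ?_ _)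
  refine (Finset.card_union_le _ _).trans ?_
  refine (Nat.add_le_add_right (Finset.card_union_le _ _) _).trans ?_
  refine (Nat.add_le_add_right (Nat.add_le_add_right (Finset.card_union_le _ _) _) _).trans ?_
  refine (Nat.add_le_add_right (Nat.add_le_add_right (Nat.add_le_add_right
    (Finset.card_union_le _ _) _) _) _).trans ?_
  refine (Nat.add_le_add_right (Nat.add_le_add_right (Nat.add_le_add_right (Nat.add_le_add_right
    (Finset.card_union_le _ _) _) _) _) _).trans ?_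
  refine (Nat.add_le_add_right (Nat.add_le_add_right (Nat.add_le_add_right (Nat.add_le_add_right
    (Nat.add_le_add_right (Finset.card_union_le _ _) _) _) _) _) _).trans ?_
  refine (Nat.add_le_add_right (Nat.add_le_add_right (Nat.add_le_add_right (Nat.add_le_add_right
    (Nat.add_le_add_right (Nat.add_le_add_right (Finset.card_union_le _ _) _) _) _) _) _)
    _).trans ?_
  refine (Nat.add_le_add_right (Nat.add_le_add_right (Nat.add_le_add_right (Nat.add_le_add_right
    (Nat.add_le_add_right (Nat.add_le_add_right (Nat.add_le_add_right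
    (Finset.card_union_le _ _) _) _) _) _) _) _) _).trans ?_
  have h10 : Fintype.card V ^ 3 * (4 * l + 5 * k) = Fintype.card V ^ 3 * l +
      Fintype.card V ^ 3 * l + Fintype.card V ^ 3 * l + Fintype.card V ^ 3 * l +
      Fintype.card V ^ 3 * k + Fintype.card V ^ 3 * k + Fintype.card V ^ 3 * k +
      Fintype.card V ^ 3 * k + Fintype.card V ^ 3 * k := by ring
  rw [h10]
  omega

end walk

end F3.AB
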