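import Pool.Agent.F3.AB.Alg2
import Pool.Agent.F3.AB.Eng1

/-!
# Project F3, block AB: the cross function of a graph
-/

set_option autoImplicit false
set_option linter.unusedSectionVars false

namespace F3.AB

open Finset NW F1

section Cross

variable {V : Type} [Fintype V] [DecidableEq V] {M : Type*} [AddCommGroup M]

/-- sum over a set of cross pairs -/
theorem cross_sum {sd : V → Bool} {X : Finset V} {F : Finset (Sym2 V)}
    (h1 : ∀ e ∈ F, ¬ Int sd e) (h2 : ∀ e ∈ F, ∀ v ∈ e, v ∈ X) (ψ : Sym2 V → M) :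
    ∑ x ∈ X.filter (fun x => sd x = true), ∑ y ∈ X.filter (fun y => sd y = false),
      (if s(x, y) ∈ F then ψ s(x, y) else 0) = ∑ e ∈ F, ψ e := by
  rw [← sum_product', ← sum_filter]
  refine sum_bij (fun p _ => s(p.1, p.2)) ?_ ?_ ?_ ?_
  · intro p hp
    exact (mem_filter.1 hp).2
  · intro p hp p' hp' e
    obtain ⟨h3, -⟩ := mem_filter.1 hp
    obtain ⟨h4, -⟩ := mem_filter.1 hp'
    obtain ⟨h5, h6⟩ := mem_product.1 h3
    obtain ⟨h7, h8⟩ := mem_product.1 h4
    rcases Sym2.eq_iff.1 e with ⟨h9, h10⟩ | ⟨h9, h10⟩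
    · exact Prod.ext h9 h10
    · exfalso
      have k1 := (mem_filter.1 h5).2
      have k2 := (mem_filter.1 h8).2
      rw [h9, k2] at k1
      exact absurd k1 (by decide)
  · intro e he
    induction e with
    | _ u v =>
      have h3 := h1 _ he
      have hu := h2 _ he u (Sym2.mem_mk_left _ _)
      have hv := h2 _ he v (Sym2.mem_mk_right _ _)
      have h4 : sd u ≠ sd v := by
        intro h5
        apply h3
        intro a ha b hb
        rcases Sym2.mem_iff.1 ha with rfl | rfl <;> rcases Sym2.mem_iff.1 hb with rfl | rfl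
        · rfl
        · exact h5
        · exact h5.symm
        · rfl
      cases h5 : sd u with
      | true =>
        have h6 : sd v = false := by
          cases h7 : sd v with
          | true => exact absurd (h5.trans h7.symm) h4
          | false => rfl
        exact ⟨(u, v), mem_filter.2 ⟨mem_product.2 ⟨mem_filter.2 ⟨hu, h5⟩,
          mem_filter.2 ⟨hv, h6⟩⟩, he⟩, rfl⟩
      | false =>
        have h6 : sd v = true := by
          cases h7 : sd v with
          | true => rfl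
          | false => exact absurd (h5.trans h7.symm) h4
        refine ⟨(v, u), mem_filter.2 ⟨mem_product.2 ⟨mem_filter.2 ⟨hv, h6⟩,
          mem_filter.2 ⟨hu, h5⟩⟩, ?_⟩, Sym2.eq_swap⟩
        rw [Sym2.eq_swap]
        exact he
  · intro p _
    rfl

theorem int_mk {sd : V → Bool} {u v : V} : Int sd s(u, v) ↔ sd u = sd v := by
  constructor
  · intro h
    exact h u (Sym2.mem_mk_left _ _) v (Sym2.mem_mk_right _ _)
  · intro h a ha b hb
    rcases Sym2.mem_iff.1 ha with rfl | rfl <;> rcases Sym2.mem_iff.1 hb with rfl | rfl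
    · rfl
    · exact h
    · exact h.symm
    · rfl

theorem sum_two {u v : V} (huv : u ≠ v) (g : V → M) :
    ∑ w ∈ univ.filter (fun w => w ∈ s(u, v)), g w = g u + g v := by
  have : univ.filter (fun w => w ∈ s(u, v)) = {u, v} := by
    ext w
    simp [Sym2.mem_iff]
  rw [this, sum_pair huv]

end Cross

section Zfun

variable {V : Type} [Fintype V] [DecidableEq V] {M : Type*} [AddCommGroup M]
  {al : Tri V → Prop} {E : Finset (Sym2 V)} {sd pt : V → Bool} {At X : Finset V}
  {D : Finset (Sym2 V)} {S B : Finset V} {ap : Sym2 V → V}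

theorem mem_Dc {e : Sym2 V} : e ∈ Dc sd D ↔ e ∈ D ∧ ¬ Int sd e := mem_filter

theorem mem_Di {e : Sym2 V} : e ∈ Di sd D ↔ e ∈ D ∧ Int sd e := mem_filter

theorem mem_N0 {e : Sym2 V} :
    e ∈ N0 sd D ap ↔ ∃ d ∈ D, Int sd d ∧ ∃ v ∈ d, e = s(v, ap d) := by
  unfold N0
  rw [mem_filter]
  exact ⟨fun h => h.2, fun h => ⟨mem_univ _, h⟩⟩

theorem sum_Dc_Di (ψ : Sym2 V → M) : ∑ e ∈ D, ψ e = ∑ e ∈ Dc sd D, ψ e + ∑ e ∈ Di sd D, ψ e := by
  rw [← sum_filter_add_sum_filter_not D (fun e => ¬ Int sd e)]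
  congr 1
  refine sum_congr ?_ fun _ _ => rfl
  unfold Di
  ext e
  rw [mem_filter, mem_filter, not_not]

/-- the edges to the apexes, counted -/
theorem sum_N0 (hS : ∀ e ∈ D, ∀ v ∈ e, v ∈ S) (hA : Apx al E sd D S B ap) (ψ : Sym2 V → M) :
    ∑ e ∈ N0 sd D ap, ψ e =
      ∑ d ∈ Di sd D, ∑ v ∈ univ.filter (fun v => v ∈ d), ψ s(v, ap d) := by
  classical
  rw [sum_sigma']
  symm
  refine sum_bij (fun p _ => s(p.2, ap p.1)) ?_ ?_ ?_ ?_
  · rintro ⟨d, v⟩ hp
    obtain ⟨h1, h2⟩ := mem_sigma.1 hp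
    obtain ⟨h3, h4⟩ := mem_Di.1 h1
    exact mem_N0.2 ⟨d, h3, h4, v, (mem_filter.1 h2).2, rfl⟩
  · rintro ⟨d, v⟩ hp ⟨d', v'⟩ hp' e
    obtain ⟨h1, h2⟩ := mem_sigma.1 hp
    obtain ⟨h1', h2'⟩ := mem_sigma.1 hp'
    obtain ⟨h3, h4⟩ := mem_Di.1 h1
    obtain ⟨h3', h4'⟩ := mem_Di.1 h1'
    have hv : v ∈ d := (mem_filter.1 h2).2
    have hv' : v' ∈ d' := (mem_filter.1 h2').2
    simp only at e h3 h4 h3' h4' hv hv'
    rcases Sym2.eq_iff.1 e with ⟨h5, h6⟩ | ⟨h5, h6⟩
    · have h7 := hA.inj d h3 d' h3' h4 h4' h6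
      subst h7
      subst h5
      rfl
    · exfalso
      apply (hA.out d' h3' h4').1
      rw [← h5]
      exact hS d h3 v hv
  · intro e he
    obtain ⟨d, h1, h2, v, h3, h4⟩ := mem_N0.1 he
    exact ⟨⟨d, v⟩, mem_sigma.2 ⟨mem_Di.2 ⟨h1, h2⟩, mem_filter.2 ⟨mem_univ _, h3⟩⟩, h4.symm⟩
  · rintro ⟨d, v⟩ _
    rfl

theorem card_N0_le : (N0 sd D ap).card ≤ 2 * (Di sd D).card := by
  classical
  have h1 : N0 sd D ap ⊆ (Di sd D).biUnion (fun d =>
      (univ.filter (fun v => v ∈ d)).image (fun v => s(v, ap d))) := by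
    intro e he
    obtain ⟨d, h1, h2, v, h3, h4⟩ := mem_N0.1 he
    exact mem_biUnion.2 ⟨d, mem_Di.2 ⟨h1, h2⟩, mem_image.2 ⟨v, mem_filter.2 ⟨mem_univ _, h3⟩,
      h4.symm⟩⟩
  refine (card_le_card h1).trans ?_
  rw [mul_comm]
  refine card_biUnion_le_card_mul _ _ _ fun d _ => card_image_le.trans ?_
  induction d with
  | _ u v =>
    have : univ.filter (fun w => w ∈ s(u, v)) = {u, v} := by
      ext w
      simp [Sym2.mem_iff]
    rw [this]
    exact card_le_two

theorem Dc_cross : ∀ e ∈ Dc sd D, ¬ Int sd e := fun _ he => (mem_Dc.1 he).2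

theorem N0_cross (hA : Apx al E sd D S B ap) : ∀ e ∈ N0 sd D ap, ¬ Int sd e := by
  intro e he h
  obtain ⟨d, h1, h2, v, h3, rfl⟩ := mem_N0.1 he
  exact hA.side d h1 h2 v h3 (int_mk.1 h).symm

/-- the cross function as a sum over pairs -/
theorem Zf_sum (hA : Apx al E sd D S B ap) (hXD : ∀ e ∈ D, ∀ v ∈ e, v ∈ X)
    (hXa : ∀ d ∈ D, Int sd d → ap d ∈ X) (ψ : Sym2 V → M) :
    ∑ x ∈ X.filter (fun x => sd x = true), ∑ y ∈ X.filter (fun y => sd y = false),
      Zf sd D ap x y • ψ s(x, y) = ∑ e ∈ Dc sd D, ψ e - ∑ e ∈ N0 sd D ap, ψ e := by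
  rw [← cross_sum (X := X) (Dc_cross (sd := sd) (D := D)) (fun e he => hXD e (mem_Dc.1 he).1) ψ,
    ← cross_sum (X := X) (N0_cross hA) (by
      intro e he v hv
      obtain ⟨d, h1, h2, w, h3, rfl⟩ := mem_N0.1 he
      rcases Sym2.mem_iff.1 hv with rfl | rfl
      · exact hXD d h1 _ h3
      · exact hXa d h1 h2) ψ]
  simp only [← sum_sub_distrib]
  refine sum_congr rfl fun x _ => sum_congr rfl fun y _ => ?_
  unfold Zf
  rw [sub_smul]
  congr 1
  · split_ifs
    · rw [one_smul]
    · rw [zero_smul]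
  · split_ifs
    · rw [one_smul]
    · rw [zero_smul]

/-- the sum of `ψ` over the triangle of the internal pair `d` and its apex -/
def tr3 (ap : Sym2 V → V) (ψ : Sym2 V → M) (d : Sym2 V) : M :=
  ψ d + ∑ v ∈ univ.filter (fun v => v ∈ d), ψ s(v, ap d)

theorem tr3_mk {ψ : Sym2 V → M} {u v : V} (huv : u ≠ v) :
    tr3 ap ψ s(u, v) = ψ s(u, v) + (ψ s(u, ap s(u, v)) + ψ s(v, ap s(u, v))) := by
  unfold tr3
  rw [sum_two huv]

/-- cross edges minus edges to the apexes -/
theorem Dc_sub_N0 (hS : ∀ e ∈ D, ∀ v ∈ e, v ∈ S) (hA : Apx al E sd D S B ap) (ψ : Sym2 V → M) :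
    ∑ e ∈ Dc sd D, ψ e - ∑ e ∈ N0 sd D ap, ψ e =
      ∑ e ∈ D, ψ e - ∑ d ∈ Di sd D, tr3 ap ψ d := by
  rw [sum_N0 hS hA, sum_Dc_Di (sd := sd) (D := D)]
  unfold tr3
  rw [sum_add_distrib]
  abel

/-- the general rule for an additive function -/
theorem Zf_func (hS : ∀ e ∈ D, ∀ v ∈ e, v ∈ S) (hA : Apx al E sd D S B ap)
    (hXD : ∀ e ∈ D, ∀ v ∈ e, v ∈ X) (hXa : ∀ d ∈ D, Int sd d → ap d ∈ X) (ψ : Sym2 V → M) :
    ∑ x ∈ X.filter (fun x => sd x = true), ∑ y ∈ X.filter (fun y => sd y = false),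
      Zf sd D ap x y • ψ s(x, y) = ∑ e ∈ D, ψ e - ∑ d ∈ Di sd D, tr3 ap ψ d := by
  rw [Zf_sum hA hXD hXa, Dc_sub_N0 hS hA]

/-- the cross function as a function on pairs -/
theorem fZ_Zf (hA : Apx al E sd D S B ap) (hXD : ∀ e ∈ D, ∀ v ∈ e, v ∈ X)
    (hXa : ∀ d ∈ D, Int sd d → ap d ∈ X) :
    fZ sd X (Zf sd D ap) = ∑ e ∈ Dc sd D, dl e - ∑ e ∈ N0 sd D ap, dl e := by
  unfold fZ
  exact Zf_sum hA hXD hXa dl

/-- the norm -/
theorem nZ_Zf (hA : Apx al E sd D S B ap) (hXD : ∀ e ∈ D, ∀ v ∈ e, v ∈ X)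
    (hXa : ∀ d ∈ D, Int sd d → ap d ∈ X) : nZ sd X (Zf sd D ap) ≤ 3 * D.card := by
  have h1 : (nZ sd X (Zf sd D ap) : ℤ) ≤ (Dc sd D).card + (N0 sd D ap).card := by
    have e1 := cross_sum (X := X) (Dc_cross (sd := sd) (D := D))
      (fun e he => hXD e (mem_Dc.1 he).1) (fun _ => (1 : ℤ))
    have e2 := cross_sum (X := X) (N0_cross hA) (by
      intro e he v hv
      obtain ⟨d, h1, h2, w, h3, rfl⟩ := mem_N0.1 he
      rcases Sym2.mem_iff.1 hv with rfl | rfl
      · exact hXD d h1 _ h3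
      · exact hXa d h1 h2) (fun _ => (1 : ℤ))
    rw [sum_const, nsmul_eq_mul, mul_one] at e1 e2
    rw [← e1, ← e2]
    unfold nZ
    push_cast
    simp only [← sum_add_distrib]
    refine sum_le_sum fun x _ => sum_le_sum fun y _ => ?_
    unfold Zf
    split_ifs <;> norm_num
  have h2 := card_N0_le (sd := sd) (D := D) (ap := ap)
  have h3 : (Dc sd D).card + (Di sd D).card = D.card := by
    unfold Dc Di
    rw [add_comm]
    exact card_filter_add_card_filter_not _
  omega

/-- evenness of the triangle of an internal pair at a vertex -/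
theorem tr3_even (hA : Apx al E sd D S B ap) (hNL : NW.NL D) (x : V) {d : Sym2 V}
    (hd : d ∈ Di sd D) : Even (tr3 ap (fun e => if x ∈ e then (1 : ℤ) else 0) d) := by
  obtain ⟨h1, h2⟩ := mem_Di.1 hd
  induction d with
  | _ u v =>
    have huv : u ≠ v := by
      have h := hNL _ h1
      rwa [Sym2.mk_isDiag_iff] at h
    have hau : ap s(u, v) ≠ u := by
      intro h
      have := hA.side _ h1 h2 u (Sym2.mem_mk_left _ _)
      rw [h] at this
      exact this rfl
    have hav : ap s(u, v) ≠ v := by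
      intro h
      have := hA.side _ h1 h2 v (Sym2.mem_mk_right _ _)
      rw [h] at this
      exact this rfl
    rw [tr3_mk huv]
    simp only [Sym2.mem_iff]
    by_cases k1 : x = u
    · subst k1
      have k2 : x ≠ v := huv
      have k3 : x ≠ ap s(x, v) := fun h => hau h.symm
      simp only [k2, k3, or_false, if_true, if_false]
      decide
    · by_cases k2 : x = v
      · subst k2
        have k3 : x ≠ ap s(u, x) := fun h => hav h.symm
        simp only [k1, k3, or_true, or_false, if_true, if_false]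
        decide
      · by_cases k3 : x = ap s(u, v)
        · simp only [k1, k2, ← k3, or_true, or_false, if_true, if_false]
          decide
        · simp only [k1, k2, k3, or_false, if_false]
          decide

theorem card_inc (D : Finset (Sym2 V)) (x : V) : (D.filter (fun e => x ∈ e)).card = NW.deg D x := by
  have h : D.filter (fun e => x ∈ e) = (nbr D x).image (fun u => s(x, u)) := by
    ext e
    rw [mem_filter, mem_image]
    constructor
    · rintro ⟨h1, h2⟩
      obtain ⟨u, rfl⟩ := h2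
      exact ⟨u, NW.mem_nbr.2 h1, rfl⟩
    · rintro ⟨u, h1, rfl⟩
      exact ⟨NW.mem_nbr.1 h1, Sym2.mem_mk_left _ _⟩
  rw [h, card_image_of_injective]
  · rfl
  · intro u v huv
    simp only [Sym2.eq_iff] at huv
    rcases huv with ⟨-, h⟩ | ⟨h1, h2⟩
    · exact h
    · exact h2.trans h1

theorem sum_deg_ind (x : V) :
    ∑ e ∈ D, (if x ∈ e then (1 : ℤ) else 0) = ((D.filter (fun e => x ∈ e)).card : ℤ) := by
  rw [← sum_filter, sum_const, nsmul_eq_mul, mul_one]

/-- even rows and columns -/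
theorem Zf_ev' (nl : NW.NL D) (even : ∀ v, Even (NW.deg D v))
    (noAt : ∀ u ∈ At, ∀ v ∈ At, s(u, v) ∉ D) (hS : ∀ e ∈ D, ∀ v ∈ e, v ∈ S)
    (hA : Apx al E sd D S B ap) (hB : At ⊆ B) (hXD : ∀ e ∈ D, ∀ v ∈ e, v ∈ X)
    (hXa : ∀ d ∈ D, Int sd d → ap d ∈ X) : Ev sd At X (Zf sd D ap) := by
  have key : ∀ x : V, Even (∑ x' ∈ X.filter (fun x => sd x = true),
      ∑ y ∈ X.filter (fun y => sd y = false),
        Zf sd D ap x' y • (if x ∈ s(x', y) then (1 : ℤ) else 0)) := by
    intro x
    rw [Zf_func hS hA hXD hXa (fun e => if x ∈ e then (1 : ℤ) else 0)]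
    refine Even.sub ?_ ?_
    · rw [sum_deg_ind, card_inc]
      exact_mod_cast even x
    · exact even_sum _ _ fun d hd => tr3_even hA nl x hd
  refine ⟨?_, ?_, ?_⟩
  · intro x hx hs
    have h1 := key x
    have h2 : ∑ x' ∈ X.filter (fun x => sd x = true), ∑ y ∈ X.filter (fun y => sd y = false),
        Zf sd D ap x' y • (if x ∈ s(x', y) then (1 : ℤ) else 0) =
        ∑ y ∈ X.filter (fun y => sd y = false), Zf sd D ap x y := by
      rw [sum_eq_single_of_mem x (mem_filter.2 ⟨hx, hs⟩)]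
      · refine sum_congr rfl fun y _ => ?_
        rw [if_pos (Sym2.mem_mk_left _ _)]
        simp
      · intro x' hx' hne
        refine sum_eq_zero fun y hy => ?_
        have h3 : x ∉ s(x', y) := by
          rw [Sym2.mem_iff]
          rintro (h | h)
          · exact hne h.symm
          · have h4 := (mem_filter.1 hy).2
            rw [← h, hs] at h4
            exact absurd h4 (by decide)
        rw [if_neg h3, smul_zero]
    rwa [h2] at h1
  · intro y hy hs
    have h1 := key y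
    have h2 : ∑ x' ∈ X.filter (fun x => sd x = true), ∑ y' ∈ X.filter (fun y => sd y = false),
        Zf sd D ap x' y' • (if y ∈ s(x', y') then (1 : ℤ) else 0) =
        ∑ x ∈ X.filter (fun x => sd x = true), Zf sd D ap x y := by
      refine sum_congr rfl fun x' hx' => ?_
      rw [sum_eq_single_of_mem y (mem_filter.2 ⟨hy, hs⟩)]
      · rw [if_pos (Sym2.mem_mk_right _ _)]
        simp
      · intro y' hy' hne
        have h3 : y ∉ s(x', y') := by
          rw [Sym2.mem_iff]
          rintro (h | h)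
          · have h4 := (mem_filter.1 hx').2
            rw [← h, hs] at h4
            exact absurd h4 (by decide)
          · exact hne h.symm
        rw [if_neg h3, smul_zero]
    rwa [h2] at h1
  · intro x y hx hy
    unfold Zf
    have h1 : s(x, y) ∉ Dc sd D := fun h => noAt x hx y hy (mem_Dc.1 h).1
    have h2 : s(x, y) ∉ N0 sd D ap := by
      intro h
      obtain ⟨d, k1, k2, v, k3, k4⟩ := mem_N0.1 h
      have k5 := (hA.out d k1 k2).2
      rcases Sym2.eq_iff.1 k4 with ⟨-, k6⟩ | ⟨k6, -⟩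
      · exact k5 (hB (k6 ▸ hy))
      · exact k5 (hB (k6 ▸ hx))
    rw [if_neg h1, if_neg h2, sub_zero]

theorem Zf_ev (hD : DOK sd At D) (hS : ∀ e ∈ D, ∀ v ∈ e, v ∈ S)
    (hA : Apx al E sd D S B ap) (hB : At ⊆ B) (hXD : ∀ e ∈ D, ∀ v ∈ e, v ∈ X)
    (hXa : ∀ d ∈ D, Int sd d → ap d ∈ X) : Ev sd At X (Zf sd D ap) :=
  Zf_ev' hD.nl hD.even hD.noAt hS hA hB hXD hXa

/-! ### Block sums -/

/-- a function of the parts -/
theorem bs_func (sd pt : V → Bool) (X : Finset V) (Z : V → V → ℤ) (ψ : Sym2 V → M)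
    (w : Bool → Bool → M) (hw : ∀ x ∈ X, ∀ y ∈ X, sd x = true → sd y = false →
      ψ s(x, y) = w (pt x) (pt y)) :
    ∑ x ∈ X.filter (fun x => sd x = true), ∑ y ∈ X.filter (fun y => sd y = false),
      Z x y • ψ s(x, y) =
      bs sd pt X Z true true • w true true + bs sd pt X Z true false • w true false +
        bs sd pt X Z false true • w false true + bs sd pt X Z false false • w false false := by
  have h1 : ∀ x ∈ X.filter (fun x => sd x = true), ∑ y ∈ X.filter (fun y => sd y = false),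
      Z x y • ψ s(x, y) =
      (∑ y ∈ X.filter (fun y => sd y = false ∧ pt y = true), Z x y) • w (pt x) true +
      (∑ y ∈ X.filter (fun y => sd y = false ∧ pt y = false), Z x y) • w (pt x) false := by
    intro x hx
    obtain ⟨hx1, hx2⟩ := mem_filter.1 hx
    rw [sum_parts _ pt, filter_filter_sd, filter_filter_sd, sum_smul, sum_smul]
    congr 1
    · refine sum_congr rfl fun y hy => ?_
      obtain ⟨k1, k2, k3⟩ := mem_filter.1 hy
      rw [hw x hx1 y k1 hx2 k2, k3]
    · refine sum_congr rfl fun y hy => ?_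
      obtain ⟨k1, k2, k3⟩ := mem_filter.1 hy
      rw [hw x hx1 y k1 hx2 k2, k3]
  rw [sum_congr rfl h1, sum_parts _ pt, filter_filter_sd, filter_filter_sd]
  have h2 : ∀ i, ∑ x ∈ X.filter (fun x => sd x = true ∧ pt x = i),
      ((∑ y ∈ X.filter (fun y => sd y = false ∧ pt y = true), Z x y) • w (pt x) true +
      (∑ y ∈ X.filter (fun y => sd y = false ∧ pt y = false), Z x y) • w (pt x) false) =
      bs sd pt X Z i true • w i true + bs sd pt X Z i false • w i false := by
    intro i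
    unfold bs
    rw [sum_smul, sum_smul, ← sum_add_distrib]
    refine sum_congr rfl fun x hx => ?_
    rw [(mem_filter.1 hx).2.2]
  rw [h2, h2]
  abel

/-! ### The weights -/

theorem gam_mk (χ : V → Bool) (u v : V) : gam χ s(u, v) = if χ u = χ v then 2 else -1 := by
  unfold gam
  by_cases h : χ u = χ v
  · rw [if_pos (int_mk.2 h), if_pos h]
  · rw [if_neg (fun h' => h (int_mk.1 h')), if_neg h]

/-- the value of the torsion weight -/
def tv (f su pu sv pv : Bool) : ZMod 4 :=
  if f then (if (su && pu && !sv && pv) || (sv && pv && !su && pu) then 2 else 0)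
  else (if (su && pu && !sv && !pv) || (sv && pv && !su && !pu) then 1
    else if (su && !pu && !sv && !pv) || (sv && !pv && !su && !pu) then -1
    else if !su && !pu && !sv && !pv then 2 else 0)

theorem ex_mk {p : V → V → Prop} {u v : V} : (∃ a ∈ s(u, v), ∃ b ∈ s(u, v), p a b) ↔
    (p u u ∨ p u v) ∨ (p v u ∨ p v v) := by
  simp only [Sym2.mem_iff]
  constructor
  · rintro ⟨a, rfl | rfl, b, rfl | rfl, h⟩
    · exact Or.inl (Or.inl h)
    · exact Or.inl (Or.inr h)
    · exact Or.inr (Or.inl h)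
    · exact Or.inr (Or.inr h)
  · rintro ((h | h) | (h | h))
    · exact ⟨u, Or.inl rfl, u, Or.inl rfl, h⟩
    · exact ⟨u, Or.inl rfl, v, Or.inr rfl, h⟩
    · exact ⟨v, Or.inr rfl, u, Or.inl rfl, h⟩
    · exact ⟨v, Or.inr rfl, v, Or.inr rfl, h⟩

theorem fa_mk {p : V → Prop} {u v : V} : (∀ a ∈ s(u, v), p a) ↔ p u ∧ p v := by
  simp only [Sym2.mem_iff]
  constructor
  · intro h
    exact ⟨h u (Or.inl rfl), h v (Or.inr rfl)⟩
  · rintro ⟨h1, h2⟩ a (rfl | rfl)
    · exact h1
    · exact h2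

theorem tau_mk (fl : Bool → Bool) (sd pt : V → Bool) (u v : V) :
    tau fl sd pt s(u, v) = tv (fl true) (sd u) (pt u) (sd v) (pt v) := by
  unfold tau tv
  simp only [ex_mk, fa_mk]
  cases fl true <;> cases sd u <;> cases pt u <;> cases sd v <;> cases pt v <;> simp

theorem tv_DD (a b c' d' a' : Bool) (h : (a == c') = true) (h2 : (b == d') = true)
    (e : Bool) : tv true a b c' d' + (tv true a b (!a) e + tv true c' d' (!a) e) = 0 := by
  revert a b c' d' a' e
  decide

theorem tv_PD (a b c' d' e : Bool) (h : (a == c') = true)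
    (h2 : (if a then b != d' else b == d') = true) :
    tv false a b c' d' + (tv false a b (!a) e + tv false c' d' (!a) e) = 0 := by
  revert a b c' d' e
  decide

/-- the two classes of apexes of an exceptional pair give different values -/
theorem tv_exc (f a b c' d' : Bool) (h : (a == c') = true)
    (h2 : (if a && !f then b == d' else b != d') = true) (e : Bool) :
    tv f a b c' d' + (tv f a b (!a) e + tv f c' d' (!a) e) =
      tv f a b c' d' + (tv f a b (!a) (!e) + tv f c' d' (!a) (!e)) + 2 := by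
  revert f a b c' d' e
  decide

/-- gamma of the triangle of an internal pair -/
theorem tr3_gam (hA : Apx al E sd D S B ap) (hNL : NW.NL D) {d : Sym2 V} (hd : d ∈ Di sd D) :
    tr3 ap (gam sd) d = 0 := by
  obtain ⟨h1, h2⟩ := mem_Di.1 hd
  induction d with
  | _ u v =>
    have huv : u ≠ v := by
      have h := hNL _ h1
      rwa [Sym2.mk_isDiag_iff] at h
    have k1 := hA.side _ h1 h2 u (Sym2.mem_mk_left _ _)
    have k2 := hA.side _ h1 h2 v (Sym2.mem_mk_right _ _)
    rw [tr3_mk huv, gam_mk, gam_mk, gam_mk, if_pos (int_mk.1 h2), if_neg k1.symm, if_neg k2.symm]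
    norm_num

/-- the second cut in a world of type PP -/
theorem tr3_gam_pt (hA : Apx al E sd D S B ap) (hNL : NW.NL D)
    (hco : ∀ u v, s(u, v) ∈ D → Co (fun _ => false) sd pt u v) {d : Sym2 V}
    (hd : d ∈ Di sd D) : tr3 ap (gam pt) d = 0 := by
  obtain ⟨h1, h2⟩ := mem_Di.1 hd
  induction d with
  | _ u v =>
    have huv : u ≠ v := by
      have h := hNL _ h1
      rwa [Sym2.mk_isDiag_iff] at h
    have k3 := hco u v h1
    unfold Co CoP at k3
    have k4 : pt u ≠ pt v := by
      rcases k3 with k3 | k3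
      · exact absurd (int_mk.1 h2) k3
      · simpa using k3
    rw [tr3_mk huv, gam_mk, gam_mk, gam_mk, if_neg k4]
    by_cases k5 : pt u = pt (ap s(u, v))
    · have k6 : pt v ≠ pt (ap s(u, v)) := fun h => k4 (k5.trans h.symm)
      rw [if_pos k5, if_neg k6]
      norm_num
    · have k6 : pt v = pt (ap s(u, v)) := by
        cases h7 : pt u <;> cases h8 : pt v <;> cases h9 : pt (ap s(u, v)) <;> simp_all
      rw [if_neg k5, if_pos k6]
      norm_num

/-- the torsion weight of the triangle of an internal core pair -/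
theorem tr3_tau {fl : Bool → Bool} (hA : Apx al E sd D S B ap) (hNL : NW.NL D)
    (hf : fl false = true) {u v : V} (h1 : s(u, v) ∈ D) (h2 : sd u = sd v)
    (hco : Co fl sd pt u v) : tr3 ap (tau fl sd pt) s(u, v) = 0 := by
  have huv : u ≠ v := by
    have h := hNL _ h1
    rwa [Sym2.mk_isDiag_iff] at h
  have k1 := hA.side _ h1 (int_mk.2 h2) u (Sym2.mem_mk_left _ _)
  have k2 : sd (ap s(u, v)) = !sd u := by
    cases h7 : sd u <;> cases h8 : sd (ap s(u, v)) <;> simp_all
  rw [tr3_mk huv, tau_mk, tau_mk, tau_mk, k2]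
  unfold Co CoP at hco
  cases h3 : fl true with
  | true =>
    refine tv_DD _ _ _ _ true (by simp [h2]) ?_ _
    rcases hco with hco | hco
    · exact absurd h2 hco
    · cases h4 : sd v with
      | true => rw [h4, if_pos h3] at hco; simp [hco]
      | false => rw [h4, if_pos hf] at hco; simp [hco]
  | false =>
    refine tv_PD _ _ _ _ _ (by simp [h2]) ?_
    rcases hco with hco | hco
    · exact absurd h2 hco
    · cases h4 : sd v with
      | true =>
        rw [h4, if_neg (by rw [h3]; decide)] at hco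
        rw [h2, h4]
        simpa using hco
      | false =>
        rw [h4, if_pos hf] at hco
        rw [h2, h4]
        simpa using hco

/-- the two classes of apexes of an exceptional pair -/
theorem tau_exc {fl : Bool → Bool} (hf : fl false = true) {u v a a' : V} (h2 : sd u = sd v)
    (hco : ¬ Co fl sd pt u v) (ha : sd a ≠ sd u) (ha' : sd a' ≠ sd u) (hp : pt a ≠ pt a') :
    tau fl sd pt s(u, v) + (tau fl sd pt s(u, a) + tau fl sd pt s(v, a)) =
      tau fl sd pt s(u, v) + (tau fl sd pt s(u, a') + tau fl sd pt s(v, a')) + 2 := by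
  have k2 : sd a = !sd u := by
    cases h7 : sd u <;> cases h8 : sd a <;> simp_all
  have k3 : sd a' = !sd u := by
    cases h7 : sd u <;> cases h8 : sd a' <;> simp_all
  have k4 : pt a' = !pt a := by
    cases h7 : pt a <;> cases h8 : pt a' <;> simp_all
  rw [tau_mk, tau_mk, tau_mk, tau_mk, tau_mk, k2, k3, k4]
  refine tv_exc _ _ _ _ _ (by simp [h2]) ?_ _
  unfold Co CoP at hco
  rw [not_or, not_not] at hco
  obtain ⟨-, hco⟩ := hco
  cases h3 : fl true <;> cases h4 : sd v <;> rw [h2, h4] <;> rw [h4] at hco <;>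
    simp_all

/-! ### Conclusions for the block sums -/

section Concl

variable (hD : DOK sd At D) (hS : ∀ e ∈ D, ∀ v ∈ e, v ∈ S)
  (hA : Apx al E sd D S B ap) (hXD : ∀ e ∈ D, ∀ v ∈ e, v ∈ X)
  (hXa : ∀ d ∈ D, Int sd d → ap d ∈ X)
include hD hS hA hXD hXa

/-- the total -/
theorem Zf_total (pt : V → Bool) : bs sd pt X (Zf sd D ap) true true +
    bs sd pt X (Zf sd D ap) true false + bs sd pt X (Zf sd D ap) false true +
      bs sd pt X (Zf sd D ap) false false = 0 := by
  have h1 := Zf_func hS hA hXD hXa (gam sd)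
  rw [hD.gam, sum_eq_zero (fun d hd => tr3_gam hA hD.nl hd), sub_zero,
    bs_func sd pt X (Zf sd D ap) (gam sd) (fun _ _ => -1) (by
      intro x _ y _ hx hy
      rw [gam_mk, if_neg (by rw [hx, hy]; decide)])] at h1
  simp only [smul_eq_mul] at h1
  omega

/-- type PP -/
theorem Zf_PP (hco : ∀ u v, s(u, v) ∈ D → Co (fun _ => false) sd pt u v)
    (hg : ∑ e ∈ D, gam pt e = 0) :
    bs sd pt X (Zf sd D ap) true true + bs sd pt X (Zf sd D ap) false false = 0 ∧
    bs sd pt X (Zf sd D ap) true false + bs sd pt X (Zf sd D ap) false true = 0 := by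
  have h0 := Zf_total hD hS hA hXD hXa pt
  have h1 := Zf_func hS hA hXD hXa (gam pt)
  rw [hg, sum_eq_zero (fun d hd => tr3_gam_pt hA hD.nl hco hd), sub_zero,
    bs_func sd pt X (Zf sd D ap) (gam pt) (fun i j => if i = j then 2 else -1) (by
      intro x _ y _ _ _
      rw [gam_mk])] at h1
  simp only [smul_eq_mul, if_true, reduceCtorEq, if_false] at h1
  constructor <;> omega

/-- the torsion: the general value -/
theorem Zf_tau (fl : Bool → Bool) :
    (if fl true = true then 2 * ((bs sd pt X (Zf sd D ap) true true : ℤ) : ZMod 4)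
      else ((bs sd pt X (Zf sd D ap) true false : ℤ) : ZMod 4) -
        ((bs sd pt X (Zf sd D ap) false false : ℤ) : ZMod 4)) =
      ∑ e ∈ D, tau fl sd pt e - ∑ d ∈ Di sd D, tr3 ap (tau fl sd pt) d := by
  rw [← Zf_func hS hA hXD hXa (tau fl sd pt),
    bs_func sd pt X (Zf sd D ap) (tau fl sd pt) (fun i j => tv (fl true) true i false j) (by
      intro x _ y _ hx hy
      rw [tau_mk, hx, hy])]
  cases h : fl true with
  | true =>
    have e1 : tv true true true false true = 2 := by decide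
    have e2 : tv true true true false false = 0 := by decide
    have e3 : tv true true false false true = 0 := by decide
    have e4 : tv true true false false false = 0 := by decide
    rw [e1, e2, e3, e4, if_pos rfl]
    simp only [smul_zero, add_zero, zsmul_eq_mul]
    ring
  | false =>
    have e1 : tv false true true false true = 0 := by decide
    have e2 : tv false true true false false = 1 := by decide
    have e3 : tv false true false false true = 0 := by decide
    have e4 : tv false true false false false = -1 := by decide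
    rw [e1, e2, e3, e4, if_neg (by decide)]
    simp only [smul_zero, add_zero, zero_add, zsmul_eq_mul]
    ring

end Concl

theorem two_mul_zmod {m : ℤ} (h : 2 * ((m : ℤ) : ZMod 4) = 0) : Even m := by
  have h1 : ((2 * m : ℤ) : ZMod 4) = 0 := by push_cast; exact h
  rw [ZMod.intCast_zmod_eq_zero_iff_dvd] at h1
  rw [Int.even_iff]
  omega

theorem sub_zmod {m n : ℤ} (h : ((m : ℤ) : ZMod 4) - ((n : ℤ) : ZMod 4) = 0) :
    (4 : ℤ) ∣ m - n := by
  have h1 : ((m - n : ℤ) : ZMod 4) = 0 := by push_cast; exact h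
  rw [ZMod.intCast_zmod_eq_zero_iff_dvd] at h1
  exact_mod_cast h1

/-! ### The statements of the row -/

section Row

variable {U : Finset V}

theorem sup_of_sym2 (hD : D ⊆ U.sym2) (hU : U ⊆ S) : ∀ e ∈ D, ∀ v ∈ e, v ∈ S :=
  fun _ he v hv => hU (mem_sym2_iff.1 (hD he) v hv)

theorem n0_sub (h : Apx al E sd D S B ap) : N0 sd D ap ⊆ E := by
  intro e he
  obtain ⟨d, h1, h2, v, h3, rfl⟩ := mem_N0.1 he
  exact h.ed d h1 h2 v h3

theorem n0_mem (hD : D ⊆ U.sym2) : ∀ e ∈ N0 sd D ap, ∃ u d, d ∈ D ∧ Int sd d ∧ u ∈ d ∧ u ∈ U ∧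
    e = s(u, ap d) := by
  intro e he
  obtain ⟨d, h1, h2, v, h3, rfl⟩ := mem_N0.1 he
  exact ⟨v, d, h1, h2, h3, mem_sym2_iff.1 (hD h1) v h3, rfl⟩

theorem n0_card (nl : NW.NL D) : (N0 sd D ap).card ≤ 2 * D.card :=
  (card_N0_le).trans (Nat.mul_le_mul_left 2 (card_le_card (filter_subset _ _)))

theorem n0_disj (h : Apx al E sd D S B ap) (hD : D ⊆ U.sym2) (hU : U ⊆ S) :
    Disjoint D (N0 sd D ap) := by
  rw [disjoint_left]
  intro e he he'
  obtain ⟨d, h1, h2, v, h3, rfl⟩ := mem_N0.1 he'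
  exact (h.out d h1 h2).1 (sup_of_sym2 hD hU _ he (ap d) (Sym2.mem_mk_right _ _))

/-- sums over the edges to the apexes -/
theorem n0_sum {G : Type} [AddCommGroup G] (g : Sym2 V → G) (h : Apx al E sd D S B ap)
    (hD : D ⊆ U.sym2) (hU : U ⊆ S) (nl : NW.NL D) :
    ∑ e ∈ N0 sd D ap, g e =
      ∑ d ∈ Di sd D, ∑ v ∈ univ.filter (fun v => v ∈ d), g s(v, ap d) :=
  sum_N0 (sup_of_sym2 hD hU) h g

/-- the internal edges and the edges to the apexes form triangles -/
theorem n0_dec (h : Apx al E sd D S B ap) (hD : D ⊆ U.sym2) (hU : U ⊆ S) (nl : NW.NL D) :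
    DecA al (Di sd D ∪ N0 sd D ap) := by
  classical
  have hS := sup_of_sym2 hD hU
  -- the triangle of an internal pair
  have htri : ∀ d ∈ Di sd D, ∃ T : Tri V, al T ∧ ap d ∈ T.1 ∧ NW.edg T.1 =
      insert d ((univ.filter (fun v => v ∈ d)).image (fun v => s(v, ap d))) := by
    intro d hd
    obtain ⟨h1, h2⟩ := mem_Di.1 hd
    induction d with
    | _ u v =>
      have huv : u ≠ v := by
        have h := nl _ h1
        rwa [Sym2.mk_isDiag_iff] at h
      obtain ⟨hc, hal⟩ := h.al u v h1 (int_mk.1 h2)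
      have ha := (h.out _ h1 h2).1
      have hau : u ≠ ap s(u, v) := fun e => ha (e ▸ hS _ h1 u (Sym2.mem_mk_left _ _))
      have hav : v ≠ ap s(u, v) := fun e => ha (e ▸ hS _ h1 v (Sym2.mem_mk_right _ _))
      refine ⟨_, hal, by simp, ?_⟩
      change NW.edg ({u, v, ap s(u, v)} : Finset V) = _
      rw [NW.edg_triple huv hav hau]
      have : univ.filter (fun w => w ∈ s(u, v)) = {u, v} := by
        ext w
        simp [Sym2.mem_iff]
      rw [this, image_insert, image_singleton]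
      unfold NW.tri
      ext e
      simp only [mem_insert, mem_singleton]
      tauto
  rcases (Di sd D).eq_empty_or_nonempty with h0 | ⟨d0, hd0⟩
  · have h00 : N0 sd D ap = ∅ := by
      refine eq_empty_of_forall_notMem fun e he => ?_
      obtain ⟨d, k1, k2, -⟩ := mem_N0.1 he
      have k3 : d ∈ Di sd D := mem_Di.2 ⟨k1, k2⟩
      rw [h0] at k3
      exact notMem_empty _ k3
    rw [h0, h00]
    refine ⟨∅, ?_, ?_, ?_⟩
    · intro t ht
      exact absurd ht (notMem_empty _)
    · intro t ht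
      exact absurd ht (notMem_empty _)
    · simp
  haveI : Nonempty (Tri V) := ⟨(htri d0 hd0).choose⟩
  choose! T hT1 hT2 hT3 using htri
  refine ⟨(Di sd D).image T, ?_, ?_, ?_⟩
  · intro t ht
    obtain ⟨d, hd, rfl⟩ := mem_image.1 ht
    exact hT1 d hd
  · intro t ht t' ht' hne
    obtain ⟨d, hd, rfl⟩ := mem_image.1 ht
    obtain ⟨d', hd', rfl⟩ := mem_image.1 ht'
    have hdd : d ≠ d' := fun e => hne (by rw [e])
    obtain ⟨k1, k2⟩ := mem_Di.1 hd
    obtain ⟨k1', k2'⟩ := mem_Di.1 hd'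
    rw [hT3 d hd, hT3 d' hd', disjoint_left]
    intro e he he'
    rcases mem_insert.1 he with rfl | he
    · rcases mem_insert.1 he' with he' | he'
      · exact hdd he'
      · obtain ⟨v, hv, rfl⟩ := mem_image.1 he'
        exact (h.out d' k1' k2').1 (hS _ k1 _ (Sym2.mem_mk_right _ _))
    · obtain ⟨v, hv, rfl⟩ := mem_image.1 he
      rcases mem_insert.1 he' with he' | he'
      · exact (h.out d k1 k2).1 (hS _ k1' _ (by rw [← he']; exact Sym2.mem_mk_right _ _))
      · obtain ⟨v', hv', he'⟩ := mem_image.1 he'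
        rcases Sym2.eq_iff.1 he' with ⟨-, k3⟩ | ⟨k3, -⟩
        · exact hdd (h.inj d k1 d' k1' k2 k2' k3.symm)
        · apply (h.out d k1 k2).1
          rw [← k3]
          exact hS _ k1' v' (mem_filter.1 hv').2
  · ext e
    rw [mem_biUnion, mem_union]
    constructor
    · rintro ⟨t, ht, he⟩
      obtain ⟨d, hd, rfl⟩ := mem_image.1 ht
      obtain ⟨k1, k2⟩ := mem_Di.1 hd
      rw [hT3 d hd] at he
      rcases mem_insert.1 he with rfl | he
      · exact Or.inl hd
      · obtain ⟨v, hv, rfl⟩ := mem_image.1 he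
        exact Or.inr (mem_N0.2 ⟨d, k1, k2, v, (mem_filter.1 hv).2, rfl⟩)
    · rintro (he | he)
      · refine ⟨T e, mem_image_of_mem _ he, ?_⟩
        rw [hT3 e he]
        exact mem_insert_self _ _
      · obtain ⟨d, k1, k2, v, k3, rfl⟩ := mem_N0.1 he
        have hd : d ∈ Di sd D := mem_Di.2 ⟨k1, k2⟩
        refine ⟨T d, mem_image_of_mem _ hd, ?_⟩
        rw [hT3 d hd]
        exact mem_insert_of_mem (mem_image.2 ⟨v, mem_filter.2 ⟨mem_univ _, k3⟩, rfl⟩)

theorem zf_fun (h : Apx al E sd D S B ap) (hD : D ⊆ U.sym2) (hUX : U ⊆ X)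
    (hX : ∀ d ∈ D, Int sd d → ap d ∈ X) :
    fZ sd X (Zf sd D ap) = fun e => ((Dc sd D).val.count e : ℤ) - ((N0 sd D ap).val.count e : ℤ)
    := by
  rw [fZ_Zf h (sup_of_sym2 hD hUX) hX]
  have key : ∀ F : Finset (Sym2 V), ∀ e, (∑ f ∈ F, dl f) e = (F.val.count e : ℤ) := by
    intro F e
    rw [Finset.sum_apply]
    unfold dl
    rw [sum_ite_eq]
    by_cases he : e ∈ F
    · rw [if_pos he, Multiset.count_eq_one_of_mem F.nodup he]
      norm_num
    · rw [if_neg he, Multiset.count_eq_zero_of_notMem he]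
      norm_num
  funext e
  rw [Pi.sub_apply, key, key]

/-- at most one pair of vertices for every cross pair -/
theorem cross_le (sd : V → Bool) (X : Finset V) (F : Finset (Sym2 V)) :
    ∑ x ∈ X.filter (fun x => sd x = true), ∑ y ∈ X.filter (fun y => sd y = false),
      (if s(x, y) ∈ F then 1 else 0) ≤ F.card := by
  rw [← sum_product', ← card_filter]
  refine card_le_card_of_injOn (fun p => s(p.1, p.2)) ?_ ?_
  · intro p hp
    exact (mem_filter.1 hp).2
  · intro p hp p' hp' e
    obtain ⟨h3, -⟩ := mem_filter.1 hp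
    obtain ⟨h4, -⟩ := mem_filter.1 hp'
    obtain ⟨h5, h6⟩ := mem_product.1 h3
    obtain ⟨h7, h8⟩ := mem_product.1 h4
    rcases Sym2.eq_iff.1 e with ⟨h9, h10⟩ | ⟨h9, h10⟩
    · exact Prod.ext h9 h10
    · exfalso
      have k1 := (mem_filter.1 h5).2
      have k2 := (mem_filter.1 h8).2
      rw [h9, k2] at k1
      exact absurd k1 (by decide)

theorem zf_norm (hD : D ⊆ U.sym2) (nl : NW.NL D) : nZ sd X (Zf sd D ap) ≤ 3 * D.card := by
  have e1 := cross_le sd X (Dc sd D)
  have e2 := cross_le sd X (N0 sd D ap)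
  have h1 : nZ sd X (Zf sd D ap) ≤ (Dc sd D).card + (N0 sd D ap).card := by
    refine le_trans ?_ (Nat.add_le_add e1 e2)
    unfold nZ
    simp only [← sum_add_distrib]
    refine sum_le_sum fun x _ => sum_le_sum fun y _ => ?_
    unfold Zf
    split_ifs <;> decide
  have h2 := card_N0_le (sd := sd) (D := D) (ap := ap)
  have h3 : (Dc sd D).card + (Di sd D).card = D.card := by
    unfold Dc Di
    rw [add_comm]
    exact card_filter_add_card_filter_not _
  omega

theorem zf_ev (h : Apx al E sd D S B ap) (hD : D ⊆ U.sym2) (hU : U ⊆ S) (hUX : U ⊆ X)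
    (hX : ∀ d ∈ D, Int sd d → ap d ∈ X) (hAB : At ⊆ B) (nl : NW.NL D)
    (even : ∀ v, Even (NW.deg D v)) (noAt : ∀ u ∈ At, ∀ v ∈ At, s(u, v) ∉ D) :
    Ev sd At X (Zf sd D ap) :=
  Zf_ev' nl even noAt (sup_of_sym2 hD hU) h hAB (sup_of_sym2 hD hUX) hX

/-- weights which depend on the blocks only -/
theorem zf_sum {G : Type} [AddCommGroup G] (g : Sym2 V → G) (g4 : Bool → Bool → G)
    (hg : ∀ x y, sd x = true → sd y = false → g s(x, y) = g4 (pt x) (pt y))
    (h : Apx al E sd D S B ap) (hD : D ⊆ U.sym2) (hUX : U ⊆ X)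
    (hX : ∀ d ∈ D, Int sd d → ap d ∈ X) :
    ∑ e ∈ Dc sd D, g e - ∑ e ∈ N0 sd D ap, g e =
      ∑ i : Bool, ∑ j : Bool, bs sd pt X (Zf sd D ap) i j • g4 i j := by
  rw [← Zf_sum h (sup_of_sym2 hD hUX) hX g,
    bs_func sd pt X (Zf sd D ap) g g4 (fun x _ y _ hx hy => hg x y hx hy)]
  simp only [Fintype.sum_bool]
  abel

end Row

end Zfun

end F3.AB
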